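import Pool.Agent.Lib.MP_707299_gt.Lin

/-!
Row A: elementary facts on the polar equation of a convex body about an interior point (`p = 0`).
-/

set_option autoImplicit false

namespace Pool.Agent.Lib.MP_707299_gt

open MeasureTheory Set Filter Topology

theorem e_re (θ : ℝ) : (e θ).re = Real.cos θ := by
  unfold e
  exact Complex.exp_ofReal_mul_I_re θ

theorem e_im (θ : ℝ) : (e θ).im = Real.sin θ := by
  unfold e
  exact Complex.exp_ofReal_mul_I_im θ

theorem norm_e (θ : ℝ) : ‖e θ‖ = 1 := by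
  unfold e
  exact Complex.norm_exp_ofReal_mul_I θ

private theorem A_e_period (θ : ℝ) (k : ℤ) : e (θ + k * (2 * Real.pi)) = e θ := by
  unfold e
  have h : ((θ + k * (2 * Real.pi) : ℝ) : ℂ) * Complex.I =
      (θ : ℂ) * Complex.I + (k : ℂ) * (2 * Real.pi * Complex.I) := by
    push_cast
    ring
  rw [h, Complex.exp_add, Complex.exp_int_mul_two_pi_mul_I, mul_one]

theorem exists_angle (z : ℂ) (hz : z ≠ 0) :
    ∃ θ ∈ Ico (0 : ℝ) (2 * Real.pi), z = (‖z‖ : ℂ) * e θ := by
  refine ⟨toIcoMod Real.two_pi_pos 0 (Complex.arg z), ?_, ?_⟩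
  · have := toIcoMod_mem_Ico Real.two_pi_pos 0 (Complex.arg z)
    simpa using this
  · have h : toIcoMod Real.two_pi_pos 0 (Complex.arg z) =
        Complex.arg z + ((-toIcoDiv Real.two_pi_pos 0 (Complex.arg z) : ℤ) : ℝ) * (2 * Real.pi) := by
      unfold toIcoMod
      push_cast
      rw [zsmul_eq_mul]
      ring
    rw [h, A_e_period]
    unfold e
    exact (Complex.norm_mul_exp_arg_mul_I z).symm

theorem e_period (θ : ℝ) (k : ℤ) : e (θ + k * (2 * Real.pi)) = e θ := A_e_period θ k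

theorem bd_zero (K : Set ℂ) (θ : ℝ) : bd K 0 θ = (rad K 0 θ : ℂ) * e θ := by
  unfold bd
  rw [zero_add]

theorem rad_period (K : Set ℂ) (p : ℂ) (θ : ℝ) (k : ℤ) :
    rad K p (θ + k * (2 * Real.pi)) = rad K p θ := by
  unfold rad
  rw [e_period]

private theorem A_bdd {K : Set ℂ} (hK : IsBody K) (θ : ℝ) :
    BddAbove {t : ℝ | 0 + (t : ℂ) * e θ ∈ K} := by
  obtain ⟨R, hR⟩ := hK.compact.isBounded.exists_norm_le
  refine ⟨R, ?_⟩
  intro t ht
  have h := hR _ ht
  rw [zero_add, norm_mul, norm_e, mul_one, Complex.norm_real] at h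
  exact (le_abs_self t).trans h

/-- `K` is compact and convex and contains a disc about `0`: the set of `t` is a compact interval. -/
theorem mem_iff {K : Set ℂ} (hK : IsBody K) (h0 : (0 : ℂ) ∈ interior K) {θ t : ℝ} (ht : 0 ≤ t) :
    (t : ℂ) * e θ ∈ K ↔ t ≤ rad K 0 θ := by
  have hbdd := A_bdd hK θ
  constructor
  · intro h
    apply le_csSup hbdd
    show 0 + (t : ℂ) * e θ ∈ K
    rw [zero_add]
    exact h
  · intro h
    have hcl : IsClosed {t : ℝ | 0 + (t : ℂ) * e θ ∈ K} := by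
      apply hK.isClosed.preimage
      fun_prop
    have hne : {t : ℝ | 0 + (t : ℂ) * e θ ∈ K}.Nonempty := by
      refine ⟨0, ?_⟩
      show 0 + ((0 : ℝ) : ℂ) * e θ ∈ K
      simpa using interior_subset h0
    have hs : 0 + ((rad K 0 θ : ℝ) : ℂ) * e θ ∈ K := hcl.csSup_mem hne hbdd
    rw [zero_add] at hs
    have hr : 0 ≤ rad K 0 θ := ht.trans h
    rcases eq_or_lt_of_le hr with h1 | h1
    · have : t = 0 := le_antisymm (by rw [h1]; exact h) ht
      rw [this]
      simpa using interior_subset h0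
    · have hc := hK.convex (interior_subset h0) hs (a := 1 - t / rad K 0 θ) (b := t / rad K 0 θ)
        (by rw [sub_nonneg, div_le_one h1]; exact h) (div_nonneg ht hr) (by ring)
      rw [smul_zero, zero_add, Complex.real_smul, ← mul_assoc, ← Complex.ofReal_mul,
        div_mul_cancel₀ _ h1.ne'] at hc
      exact hc

theorem rad_pos {K : Set ℂ} (hK : IsBody K) (h0 : (0 : ℂ) ∈ interior K) (θ : ℝ) :
    0 < rad K 0 θ := by
  obtain ⟨ε, hε, hb⟩ := Metric.mem_nhds_iff.1 (mem_interior_iff_mem_nhds.1 h0)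
  have h2 : ((ε / 2 : ℝ) : ℂ) * e θ ∈ K := by
    apply hb
    rw [Metric.mem_ball, dist_zero_right, norm_mul, norm_e, mul_one, Complex.norm_real,
      Real.norm_eq_abs, abs_of_pos (by positivity)]
    linarith
  have := (mem_iff hK h0 (by positivity)).1 h2
  linarith

theorem bd_mem {K : Set ℂ} (hK : IsBody K) (h0 : (0 : ℂ) ∈ interior K) (θ : ℝ) :
    bd K 0 θ ∈ K := by
  rw [bd_zero]
  exact (mem_iff hK h0 (rad_pos hK h0 θ).le).2 le_rfl

/-- `Convex.add_smul_sub_mem_interior`-type lemmas -/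
theorem smul_mem_interior {K : Set ℂ} (hK : IsBody K) (h0 : (0 : ℂ) ∈ interior K) {z : ℂ}
    (hz : z ∈ K) {t : ℝ} (ht : 0 ≤ t) (ht1 : t < 1) : (t : ℂ) * z ∈ interior K := by
  have := hK.convex.combo_interior_self_mem_interior h0 hz (a := 1 - t) (b := t) (by linarith) ht
    (by ring)
  rwa [smul_zero, zero_add, Complex.real_smul] at this

theorem bd_mem_frontier {K : Set ℂ} (hK : IsBody K) (h0 : (0 : ℂ) ∈ interior K) (θ : ℝ) :
    bd K 0 θ ∈ frontier K := by
  refine ⟨subset_closure (bd_mem hK h0 θ), fun hi => ?_⟩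
  have hr := rad_pos hK h0 θ
  have hcont : Continuous fun t : ℝ => (t : ℂ) * e θ := by fun_prop
  rw [bd_zero] at hi
  have hmem : (fun t : ℝ => (t : ℂ) * e θ) ⁻¹' interior K ∈ 𝓝 (rad K 0 θ) :=
    (isOpen_interior.preimage hcont).mem_nhds hi
  obtain ⟨ε, hε, hb⟩ := Metric.mem_nhds_iff.1 hmem
  have h2 : rad K 0 θ + ε / 2 ∈ Metric.ball (rad K 0 θ) ε := by
    rw [Metric.mem_ball, Real.dist_eq, add_sub_cancel_left, abs_of_pos (by positivity)]
    linarith
  have h3 := interior_subset (hb h2)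
  have h4 := (mem_iff hK h0 (by positivity : 0 ≤ rad K 0 θ + ε / 2)).1 h3
  linarith

theorem frontier_bd {K : Set ℂ} (hK : IsBody K) (h0 : (0 : ℂ) ∈ interior K) {z : ℂ}
    (hz : z ∈ frontier K) : ∃ θ ∈ Ico (0 : ℝ) (2 * Real.pi), z = bd K 0 θ := by
  have hzK : z ∈ K := hK.isClosed.frontier_subset hz
  have hz0 : z ≠ 0 := by
    rintro rfl
    exact hz.2 h0
  obtain ⟨θ, hθ, hzθ⟩ := exists_angle z hz0
  refine ⟨θ, hθ, ?_⟩
  have hr := rad_pos hK h0 θ
  have hle : ‖z‖ ≤ rad K 0 θ := by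
    apply (mem_iff hK h0 (norm_nonneg z)).1
    rw [← hzθ]
    exact hzK
  rcases eq_or_lt_of_le hle with h | h
  · rw [bd_zero, ← h]
    exact hzθ
  · exfalso
    apply hz.2
    have h1 := smul_mem_interior hK h0 (bd_mem hK h0 θ) (t := ‖z‖ / rad K 0 θ)
      (div_nonneg (norm_nonneg z) hr.le) ((div_lt_one hr).2 h)
    rw [bd_zero, ← mul_assoc, ← Complex.ofReal_mul, div_mul_cancel₀ _ hr.ne', ← hzθ] at h1
    exact h1

end Pool.Agent.Lib.MP_707299_gt
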