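import Pool.Agent.Lib.MP_707299_gt.A

/-!
Row B: continuity of the polar equation.
-/

set_option autoImplicit false

namespace Pool.Agent.Lib.MP_707299_gt

open MeasureTheory Set Filter Topology

private theorem B_mem_gauge {K : Set ℂ} (hK : IsBody K) (h0 : (0 : ℂ) ∈ interior K) {θ t : ℝ}
    (ht : 0 ≤ t) : (t : ℂ) * e θ ∈ K ↔ t * gauge K (e θ) ≤ 1 := by
  have hn : K ∈ 𝓝 (0 : ℂ) := mem_interior_iff_mem_nhds.mp h0
  have h1 : t * gauge K (e θ) = gauge K ((t : ℂ) * e θ) := by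
    rw [← Complex.real_smul, gauge_smul_of_nonneg ht, smul_eq_mul]
  rw [h1, gauge_le_one_iff_mem_closure hK.convex hn, hK.isClosed.closure_eq]

private theorem B_rad_eq {K : Set ℂ} (hK : IsBody K) (h0 : (0 : ℂ) ∈ interior K) (θ : ℝ) :
    gauge K (e θ) ≠ 0 ∧ rad K 0 θ = (gauge K (e θ))⁻¹ := by
  have hr := rad_pos hK h0 θ
  have hkey : ∀ t : ℝ, 0 ≤ t → (t ≤ rad K 0 θ ↔ t * gauge K (e θ) ≤ 1) := fun t ht => by
    rw [← mem_iff hK h0 ht, B_mem_gauge hK h0 ht]
  have hg0 : 0 ≤ gauge K (e θ) := gauge_nonneg _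
  have hg : gauge K (e θ) ≠ 0 := by
    intro hz
    have := (hkey (rad K 0 θ + 1) (by linarith)).mpr (by rw [hz, mul_zero]; norm_num)
    linarith
  have hgp : 0 < gauge K (e θ) := lt_of_le_of_ne hg0 (Ne.symm hg)
  refine ⟨hg, le_antisymm ?_ ?_⟩
  · have := (hkey _ hr.le).mp le_rfl
    rw [le_inv_comm₀ hr hgp, ← one_div, le_div_iff₀ hr, mul_comm]
    exact this
  · exact (hkey _ (inv_nonneg.mpr hg0)).mpr (by rw [inv_mul_cancel₀ hg])

/-- Suggestion: `rad K 0 θ = (gauge K (e θ))⁻¹` (`mem_iff`) and the gauge of a convex neighbourhood of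
`0` is continuous (`continuous_gauge`). Or directly: if `t < rad K 0 θ` then `t e θ ∈ interior K`
(`smul_mem_interior`); if `t > rad K 0 θ` then `t e θ ∉ K`, `K` closed. -/
theorem rad_continuous {K : Set ℂ} (hK : IsBody K) (h0 : (0 : ℂ) ∈ interior K) :
    Continuous (rad K 0) := by
  have hn : K ∈ 𝓝 (0 : ℂ) := mem_interior_iff_mem_nhds.mp h0
  have he : Continuous e := by
    unfold e
    fun_prop
  have h1 : rad K 0 = fun θ => (gauge K (e θ))⁻¹ := funext fun θ => (B_rad_eq hK h0 θ).2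
  rw [h1]
  exact ((continuous_gauge hK.convex hn).comp he).inv₀ fun θ => (B_rad_eq hK h0 θ).1

end Pool.Agent.Lib.MP_707299_gt
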