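import Pool.Agent.Lib.MP_707299_gt.Defs

/-!
Basic facts on `dt`, `cr`, `H`. All proved.
-/

set_option autoImplicit false

namespace Pool.Agent.Lib.MP_707299_gt

open MeasureTheory Set Filter Topology

theorem dt_comm (x y : ℂ) : dt x y = dt y x := by
  unfold dt; ring

theorem dt_add (μ x y : ℂ) : dt μ (x + y) = dt μ x + dt μ y := by
  simp [dt]; ring

theorem dt_sub (μ x y : ℂ) : dt μ (x - y) = dt μ x - dt μ y := by
  simp [dt]; ring

theorem add_dt (μ ν x : ℂ) : dt (μ + ν) x = dt μ x + dt ν x := by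
  simp [dt]; ring

theorem sub_dt (μ ν x : ℂ) : dt (μ - ν) x = dt μ x - dt ν x := by
  simp [dt]; ring

theorem dt_mul (μ : ℂ) (t : ℝ) (x : ℂ) : dt μ ((t : ℂ) * x) = t * dt μ x := by
  simp [dt]; ring

theorem mul_dt (t : ℝ) (μ x : ℂ) : dt ((t : ℂ) * μ) x = t * dt μ x := by
  simp [dt]; ring

theorem dt_smul (μ : ℂ) (t : ℝ) (x : ℂ) : dt μ (t • x) = t * dt μ x := by
  simp [dt]; ring

theorem dt_zero (μ : ℂ) : dt μ 0 = 0 := by
  simp [dt]

theorem zero_dt (x : ℂ) : dt 0 x = 0 := by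
  simp [dt]

theorem dt_neg (μ x : ℂ) : dt μ (-x) = -dt μ x := by
  simp [dt]; ring

theorem dt_self (x : ℂ) : dt x x = ‖x‖ ^ 2 := by
  rw [← Complex.normSq_eq_norm_sq, Complex.normSq_apply]; rfl

theorem inner_eq_dt (x y : ℂ) : inner ℝ x y = dt x y := by
  rw [Complex.inner]; simp [dt]; ring

theorem abs_dt_le (x y : ℂ) : |dt x y| ≤ ‖x‖ * ‖y‖ := by
  rw [← inner_eq_dt]; exact abs_real_inner_le_norm x y

theorem dt_le (x y : ℂ) : dt x y ≤ ‖x‖ * ‖y‖ := (le_abs_self _).trans (abs_dt_le x y)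

/-- `dt μ` as a continuous linear map. -/
noncomputable def dtL (μ : ℂ) : ℂ →L[ℝ] ℝ := innerSL ℝ μ

theorem dtL_apply (μ x : ℂ) : dtL μ x = dt μ x := by
  unfold dtL; rw [innerSL_apply_apply]; exact inner_eq_dt μ x

theorem continuous_dt (μ : ℂ) : Continuous (fun x => dt μ x) := by
  have h : (fun x => dt μ x) = dtL μ := by
    funext x; exact (dtL_apply μ x).symm
  rw [h]; exact (dtL μ).continuous

theorem continuous_dt2 : Continuous (fun p : ℂ × ℂ => dt p.1 p.2) := by
  unfold dt; fun_prop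

theorem continuous_cr2 : Continuous (fun p : ℂ × ℂ => cr p.1 p.2) := by
  unfold cr; fun_prop

theorem cr_self (x : ℂ) : cr x x = 0 := by
  unfold cr; ring

theorem cr_comm (x y : ℂ) : cr y x = -cr x y := by
  unfold cr; ring

theorem cr_mul (x : ℂ) (t : ℝ) (y : ℂ) : cr x ((t : ℂ) * y) = t * cr x y := by
  simp [cr]; ring

theorem mul_cr (t : ℝ) (x y : ℂ) : cr ((t : ℂ) * x) y = t * cr x y := by
  simp [cr]; ring

theorem cr_add (x y z : ℂ) : cr x (y + z) = cr x y + cr x z := by
  simp [cr]; ring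

theorem add_cr (x y z : ℂ) : cr (x + y) z = cr x z + cr y z := by
  simp [cr]; ring

theorem abs_cr_le (x y : ℂ) : |cr x y| ≤ ‖x‖ * ‖y‖ := by
  have h : cr x y ^ 2 + dt x y ^ 2 = (‖x‖ * ‖y‖) ^ 2 := by
    rw [mul_pow, ← dt_self, ← dt_self]; unfold cr dt; ring
  apply abs_le_of_sq_le_sq _ (by positivity)
  nlinarith [sq_nonneg (dt x y)]

theorem sq_add_sq (x y : ℂ) : cr x y ^ 2 + dt x y ^ 2 = dt x x * dt y y := by
  unfold cr dt; ring

/-- Lagrange identity. -/
theorem dt_mul_sub (μ ν x y : ℂ) : dt μ x * dt ν y - dt ν x * dt μ y = cr μ ν * cr x y := by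
  unfold cr dt; ring

/-- Coordinates in a basis. -/
theorem basis_eq (s t x : ℂ) (h : cr s t ≠ 0) :
    x = ((cr x t / cr s t : ℝ) : ℂ) * s + ((cr s x / cr s t : ℝ) : ℂ) * t := by
  apply Complex.ext
  · simp only [Complex.add_re, Complex.mul_re, Complex.ofReal_re, Complex.ofReal_im, zero_mul,
      sub_zero]
    field_simp
    unfold cr; ring
  · simp only [Complex.add_im, Complex.mul_im, Complex.ofReal_re, Complex.ofReal_im, zero_mul,
      add_zero]
    field_simp
    unfold cr; ring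

theorem isClosed_H (μ : ℂ) : IsClosed (H μ) := isClosed_le (continuous_dt μ) continuous_const

theorem convex_H (μ : ℂ) : Convex ℝ (H μ) := by
  intro x hx y hy a b ha hb hab
  simp only [H, Set.mem_ofPred_eq] at *
  rw [dt_add, dt_smul, dt_smul]
  nlinarith

theorem measurableSet_H (μ : ℂ) : MeasurableSet (H μ) := (isClosed_H μ).measurableSet

theorem isOpen_lt (μ : ℂ) : IsOpen {x : ℂ | 1 < dt μ x} :=
  _root_.isOpen_lt continuous_const (continuous_dt μ)

theorem measurableSet_lt (μ : ℂ) : MeasurableSet {x : ℂ | 1 < dt μ x} :=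
  (isOpen_lt μ).measurableSet

theorem isClosed_ge (μ : ℂ) : IsClosed {x : ℂ | 1 ≤ dt μ x} :=
  isClosed_le continuous_const (continuous_dt μ)

theorem measurableSet_ge (μ : ℂ) : MeasurableSet {x : ℂ | 1 ≤ dt μ x} :=
  (isClosed_ge μ).measurableSet

theorem measurableSet_eq (μ : ℂ) : MeasurableSet {x : ℂ | dt μ x = 1} :=
  (isClosed_eq (continuous_dt μ) continuous_const).measurableSet

theorem compl_H (μ : ℂ) : (H μ)ᶜ = {x | 1 < dt μ x} := by
  ext x; simp [H]

/-- Lines are null sets. -/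
theorem volume_line (μ : ℂ) (c : ℝ) (hμ : μ ≠ 0) : volume {x : ℂ | dt μ x = c} = 0 := by
  -- a translate of the kernel, a proper subspace
  have hne : dt μ μ ≠ 0 := by
    rw [dt_self]; exact pow_ne_zero 2 (norm_ne_zero_iff.mpr hμ)
  set S : Submodule ℝ ℂ := LinearMap.ker (dtL μ : ℂ →ₗ[ℝ] ℝ) with hS
  have hSt : S ≠ ⊤ := by
    intro h
    have : μ ∈ S := by rw [h]; trivial
    rw [hS, LinearMap.mem_ker] at this
    change dtL μ μ = 0 at this
    rw [dtL_apply] at this
    exact hne this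
  have h0 : volume (S : Set ℂ) = 0 := Measure.addHaar_submodule volume S hSt
  have himg : {x : ℂ | dt μ x = c} = (fun x => x + ((c / dt μ μ : ℝ) : ℂ) * μ) '' (S : Set ℂ) := by
    ext x
    constructor
    · intro hx
      refine ⟨x - ((c / dt μ μ : ℝ) : ℂ) * μ, ?_, by ring⟩
      change dtL μ (x - ((c / dt μ μ : ℝ) : ℂ) * μ) = 0
      rw [dtL_apply, dt_sub, dt_mul]
      simp only [Set.mem_ofPred_eq] at hx
      rw [hx]; field_simp; ring
    · rintro ⟨y, hy, rfl⟩
      change dtL μ y = 0 at hy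
      rw [dtL_apply] at hy
      simp only [Set.mem_ofPred_eq]
      rw [dt_add, dt_mul, hy]; field_simp; ring
  rw [himg]
  have := measure_preimage_add_right volume (-(((c / dt μ μ : ℝ) : ℂ) * μ)) (S : Set ℂ)
  have e2 : (fun x => x + ((c / dt μ μ : ℝ) : ℂ) * μ) '' (S : Set ℂ)
      = (fun x => x + -(((c / dt μ μ : ℝ) : ℂ) * μ)) ⁻¹' (S : Set ℂ) := by
    ext x
    constructor
    · rintro ⟨y, hy, rfl⟩
      simpa using hy
    · intro hx
      exact ⟨_, hx, by ring⟩
  rw [e2, this, h0]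

theorem volume_one (μ : ℂ) : volume {x : ℂ | dt μ x = 1} = 0 := by
  rcases eq_or_ne μ 0 with rfl | h
  · have : {x : ℂ | dt 0 x = 1} = ∅ := by
      ext x; simp [zero_dt]
    rw [this, measure_empty]
  · exact volume_line μ 1 h

theorem integrableOn_id {K : Set ℂ} (hK : IsCompact K) : IntegrableOn (fun x : ℂ => x) K :=
  continuous_id.continuousOn.integrableOn_compact hK

theorem integrableOn_id' {K S : Set ℂ} (hK : IsCompact K) (hS : S ⊆ K) :
    IntegrableOn (fun x : ℂ => x) S :=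
  (integrableOn_id hK).mono_set hS

theorem integral_dt {S : Set ℂ} (hS : IntegrableOn (fun x : ℂ => x) S) (μ : ℂ) :
    ∫ x in S, dt μ x = dt μ (∫ x in S, x) := by
  have := (dtL μ).integral_comp_comm hS
  simpa [dtL_apply] using this

theorem integrableOn_dt {S : Set ℂ} (hS : IntegrableOn (fun x : ℂ => x) S) (μ : ℂ) :
    IntegrableOn (fun x : ℂ => dt μ x) S := by
  have := (dtL μ).integrable_comp hS
  simp only [dtL_apply] at this
  exact this

theorem IsBody.isClosed {K : Set ℂ} (hK : IsBody K) : IsClosed K := hK.compact.isClosed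

theorem IsBody.measurableSet {K : Set ℂ} (hK : IsBody K) : MeasurableSet K :=
  hK.isClosed.measurableSet

theorem IsBody.volume_pos {K : Set ℂ} (hK : IsBody K) : 0 < volume K :=
  (isOpen_interior.measure_pos volume hK.nonempty).trans_le (measure_mono interior_subset)

theorem IsBody.volume_lt_top {K : Set ℂ} (hK : IsBody K) : volume K < ⊤ :=
  hK.compact.measure_lt_top

theorem IsBody.volume_frontier {K : Set ℂ} (hK : IsBody K) : volume (frontier K) = 0 :=
  hK.convex.addHaar_frontier volume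

/-- Homothety. -/
theorem volume_homothety (K : Set ℂ) (y : ℂ) (s : ℝ) :
    volume ((fun x : ℂ => ((1 - s : ℝ) : ℂ) * y + (s : ℂ) * x) '' K)
      = ENNReal.ofReal (s ^ 2) * volume K := by
  have h1 : (fun x : ℂ => ((1 - s : ℝ) : ℂ) * y + (s : ℂ) * x) '' K
      = (AffineMap.homothety y s : ℂ → ℂ) '' K := by
    apply image_congr
    intro x _
    simp only [AffineMap.homothety_apply, vsub_eq_sub, vadd_eq_add, Complex.real_smul]
    push_cast; ring
  rw [h1, Measure.addHaar_image_homothety]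
  simp [Complex.finrank_real_complex]

end Pool.Agent.Lib.MP_707299_gt
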