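import Pool.Agent.Lib.MP_707299_gt.A
import Pool.Agent.Lib.MP_707299_gt.Lin

/-!
Row Bt.
-/

set_option autoImplicit false

namespace Pool.Agent.Lib.MP_707299_gt

open MeasureTheory Set Filter Topology

private theorem between_e (t1 t t2 : ℝ) :
    (Real.sin (t2 - t1) : ℂ) * e t =
      (Real.sin (t2 - t) : ℂ) * e t1 + (Real.sin (t - t1) : ℂ) * e t2 := by
  apply Complex.ext
  · simp only [Complex.add_re, Complex.mul_re, Complex.ofReal_re, Complex.ofReal_im, zero_mul,
      sub_zero, e_re, Real.sin_sub]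
    ring
  · simp only [Complex.add_im, Complex.mul_im, Complex.ofReal_re, Complex.ofReal_im, zero_mul,
      add_zero, e_im, Real.sin_sub]
    ring

/-- The ray in direction `t` meets the segment between `bd K 0 t1` and `bd K 0 t2` in a point `τ e t`,
`0 < τ`, of `K` with `1 ≤ dt μ (τ e t)`; `τ ≤ rad K 0 t` (`mem_iff`). -/
theorem between {K : Set ℂ} (hK : IsBody K) (h0 : (0 : ℂ) ∈ interior K) {t1 t t2 : ℝ}
    (h1 : t1 ≤ t) (h2 : t ≤ t2) (h3 : t2 < t1 + Real.pi) {μ : ℂ}
    (a1 : 1 ≤ dt μ (bd K 0 t1)) (a2 : 1 ≤ dt μ (bd K 0 t2)) : 1 ≤ dt μ (bd K 0 t) := by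
  rcases h1.eq_or_lt with rfl | h1'
  · exact a1
  rcases h2.eq_or_lt with rfl | h2'
  · exact a2
  have hs : 0 < Real.sin (t2 - t1) := Real.sin_pos_of_pos_of_lt_pi (by linarith) (by linarith)
  have hs1 : 0 < Real.sin (t2 - t) := Real.sin_pos_of_pos_of_lt_pi (by linarith) (by linarith)
  have hs2 : 0 < Real.sin (t - t1) := Real.sin_pos_of_pos_of_lt_pi (by linarith) (by linarith)
  set s := Real.sin (t2 - t1) with hsdef
  set s1 := Real.sin (t2 - t) with hs1def
  set s2 := Real.sin (t - t1) with hs2def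
  have hr1 := rad_pos hK h0 t1
  have hr2 := rad_pos hK h0 t2
  have hr := rad_pos hK h0 t
  set r1 := rad K 0 t1 with hr1def
  set r2 := rad K 0 t2 with hr2def
  have hE : (s : ℂ) * e t = (s1 : ℂ) * e t1 + (s2 : ℂ) * e t2 := between_e t1 t t2
  -- the point on the segment
  set w := s1 * r2 + s2 * r1 with hw
  have hw0 : 0 < w := by positivity
  set l := s2 * r1 / w with hl
  have hl0 : 0 ≤ l := by positivity
  have hl1 : 1 - l = s1 * r2 / w := by
    rw [hl, eq_div_iff hw0.ne', sub_mul, div_mul_cancel₀ _ hw0.ne', hw]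
    ring
  have hl2 : 0 ≤ 1 - l := by
    rw [hl1]
    positivity
  set τ := s * r1 * r2 / w with hτ
  have hτ0 : 0 < τ := by positivity
  have hpt : ((τ : ℝ) : ℂ) * e t = (1 - l) • bd K 0 t1 + l • bd K 0 t2 := by
    rw [bd_zero, bd_zero, hl1, hl, hτ, Complex.real_smul, Complex.real_smul]
    have hwc : (w : ℂ) ≠ 0 := by exact_mod_cast hw0.ne'
    push_cast
    field_simp
    linear_combination (r1 : ℂ) * r2 * hE
  have hmem : ((τ : ℝ) : ℂ) * e t ∈ K := by
    rw [hpt]
    exact hK.convex (bd_mem hK h0 t1) (bd_mem hK h0 t2) hl2 hl0 (by ring)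
  have hτr : τ ≤ rad K 0 t := (mem_iff hK h0 hτ0.le).mp hmem
  have hd : 1 ≤ τ * dt μ (e t) := by
    rw [← dt_mul, hpt, dt_add, dt_smul, dt_smul]
    nlinarith
  have hpos : 0 < dt μ (e t) := by
    by_contra hcon
    rw [not_lt] at hcon
    nlinarith
  rw [bd_zero, dt_mul]
  nlinarith

end Pool.Agent.Lib.MP_707299_gt
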