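import Pool.Agent.Lib.MP_707299_gt.A

/-!
Row C: cutting with a half-plane, elementary facts.
-/

set_option autoImplicit false

namespace Pool.Agent.Lib.MP_707299_gt

open MeasureTheory Set Filter Topology

theorem body_cut {K : Set ℂ} (hK : IsBody K) (h0 : (0 : ℂ) ∈ interior K) (μ : ℂ) :
    IsBody (K ∩ H μ) ∧ (0 : ℂ) ∈ interior (K ∩ H μ) := by
  have h1 : (0 : ℂ) ∈ interior (K ∩ H μ) := by
    rw [interior_inter]
    refine ⟨h0, ?_⟩
    rw [mem_interior]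
    refine ⟨{x | dt μ x < 1}, fun x hx => ?_,
      _root_.isOpen_lt (continuous_dt μ) continuous_const, ?_⟩
    · have hx' : dt μ x < 1 := hx
      exact hx'.le
    · show dt μ 0 < 1
      rw [dt_zero]
      exact one_pos
  exact ⟨⟨hK.convex.inter (convex_H μ), hK.compact.inter_right (isClosed_H μ), ⟨0, h1⟩⟩, h1⟩

private theorem rad_cut_aux {K : Set ℂ} (hK : IsBody K) (h0 : (0 : ℂ) ∈ interior K) (μ : ℂ) (θ t : ℝ)
    (ht : 0 ≤ t) : t ≤ rad (K ∩ H μ) 0 θ ↔ t ≤ rad K 0 θ ∧ t * dt μ (e θ) ≤ 1 := by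
  obtain ⟨h1, h2⟩ := body_cut hK h0 μ
  rw [← mem_iff h1 h2 ht, ← mem_iff hK h0 ht]
  constructor
  · rintro ⟨h3, h4⟩
    refine ⟨h3, ?_⟩
    have h5 : dt μ ((t : ℂ) * e θ) ≤ 1 := h4
    rwa [dt_mul] at h5
  · rintro ⟨h3, h4⟩
    refine ⟨h3, ?_⟩
    show dt μ ((t : ℂ) * e θ) ≤ 1
    rwa [dt_mul]

theorem rad_cut {K : Set ℂ} (hK : IsBody K) (h0 : (0 : ℂ) ∈ interior K) (μ : ℂ) (θ : ℝ) :
    rad (K ∩ H μ) 0 θ =
      if 0 < dt μ (e θ) then min (rad K 0 θ) (1 / dt μ (e θ)) else rad K 0 θ := by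
  obtain ⟨h1, h2⟩ := body_cut hK h0 μ
  have h3 := rad_pos h1 h2 θ
  have h4 := rad_pos hK h0 θ
  have h5 := (rad_cut_aux hK h0 μ θ _ h3.le).1 le_rfl
  split_ifs with hd
  · apply le_antisymm
    · refine le_min h5.1 ?_
      rw [le_div_iff₀ hd]
      exact h5.2
    · refine (rad_cut_aux hK h0 μ θ _ (le_min h4.le (by positivity))).2 ⟨min_le_left _ _, ?_⟩
      calc min (rad K 0 θ) (1 / dt μ (e θ)) * dt μ (e θ)
          ≤ 1 / dt μ (e θ) * dt μ (e θ) := mul_le_mul_of_nonneg_right (min_le_right _ _) hd.le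
        _ = 1 := by field_simp
  · apply le_antisymm h5.1
    refine (rad_cut_aux hK h0 μ θ _ h4.le).2 ⟨le_rfl, ?_⟩
    push Not at hd
    nlinarith

theorem cut_bd {K : Set ℂ} (hK : IsBody K) (h0 : (0 : ℂ) ∈ interior K) (μ : ℂ) (θ : ℝ) :
    bd (K ∩ H μ) 0 θ = bd K 0 θ ∨ dt μ (bd (K ∩ H μ) 0 θ) = 1 := by
  have h1 := rad_cut hK h0 μ θ
  split_ifs at h1 with hd
  · rcases le_total (rad K 0 θ) (1 / dt μ (e θ)) with h | h
    · left
      rw [min_eq_left h] at h1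
      rw [bd, bd, h1]
    · right
      rw [min_eq_right h] at h1
      rw [bd_zero, dt_mul, h1]
      field_simp
  · left
    rw [bd, bd, h1]

/-- If `K ∩ H μ` has the same boundary point as `K` at `θ` and it is not on the line, the line
orthogonal to it supports `K` near this point, hence `K` (convexity). -/
theorem cut_eq {K : Set ℂ} (hK : IsBody K) (h0 : (0 : ℂ) ∈ interior K) (μ : ℂ) (θ : ℝ)
    (h : IsEq (K ∩ H μ) 0 θ) :
    (IsEq K 0 θ ∧ bd (K ∩ H μ) 0 θ = bd K 0 θ) ∨ dt μ (bd (K ∩ H μ) 0 θ) = 1 := by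
  by_cases h1 : dt μ (bd (K ∩ H μ) 0 θ) = 1
  · exact Or.inr h1
  left
  have h2 := (cut_bd hK h0 μ θ).resolve_right h1
  refine ⟨?_, h2⟩
  obtain ⟨h3, h4⟩ := body_cut hK h0 μ
  have h5 : dt μ (bd (K ∩ H μ) 0 θ) ≤ 1 := (bd_mem h3 h4 θ).2
  rw [h2] at h1 h5
  have h6 : dt μ (bd K 0 θ) < 1 := lt_of_le_of_ne h5 h1
  intro z hz
  -- a small step towards `z`
  set q := bd K 0 θ with hq
  have hqK : q ∈ K := bd_mem hK h0 θ
  obtain ⟨s, hs0, hs1, hs2⟩ : ∃ s : ℝ, 0 < s ∧ s ≤ 1 ∧ s * |dt μ (z - q)| ≤ 1 - dt μ q := by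
    refine ⟨min 1 ((1 - dt μ q) / (1 + |dt μ (z - q)|)), lt_min one_pos
      (div_pos (by linarith) (by positivity)), min_le_left _ _, ?_⟩
    have h7 : (0 : ℝ) < 1 + |dt μ (z - q)| := by positivity
    calc min 1 ((1 - dt μ q) / (1 + |dt μ (z - q)|)) * |dt μ (z - q)|
        ≤ (1 - dt μ q) / (1 + |dt μ (z - q)|) * |dt μ (z - q)| :=
          mul_le_mul_of_nonneg_right (min_le_right _ _) (abs_nonneg _)
      _ ≤ (1 - dt μ q) / (1 + |dt μ (z - q)|) * (1 + |dt μ (z - q)|) := by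
          apply mul_le_mul_of_nonneg_left (by linarith)
          exact div_nonneg (by linarith) h7.le
      _ = 1 - dt μ q := by field_simp
  have hmem : q + s • (z - q) ∈ K ∩ H μ := by
    constructor
    · have := hK.convex.add_smul_sub_mem hqK hz ⟨hs0.le, hs1⟩
      exact this
    · show dt μ (q + s • (z - q)) ≤ 1
      rw [dt_add, dt_smul]
      have : s * dt μ (z - q) ≤ s * |dt μ (z - q)| :=
        mul_le_mul_of_nonneg_left (le_abs_self _) hs0.le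
      linarith
  have h7 := h _ hmem
  rw [h2, add_sub_cancel_left, inner_smul_left] at h7
  simp only [RCLike.conj_to_real] at h7
  by_contra hc
  push Not at hc
  have := mul_pos hs0 hc
  linarith

end Pool.Agent.Lib.MP_707299_gt
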