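import Pool.Agent.Lib.MP_707299_gt.A

/-!
Row D: equilibria and one-sided derivatives.
-/

set_option autoImplicit false

namespace Pool.Agent.Lib.MP_707299_gt

open MeasureTheory Set Filter Topology

theorem pw_left {r : ℕ∞} {K : Set ℂ} {p : ℂ} (hr : 1 ≤ r) (h : PwSmooth r K p) (θ : ℝ) :
    DifferentiableWithinAt ℝ (rad K p) (Iic θ) θ := by
  obtain ⟨ε, hε, h1, _⟩ := h θ
  have h2 : DifferentiableOn ℝ (rad K p) (Icc (θ - ε) θ) :=
    h1.differentiableOn (by
      have : (0 : ℕ∞) < r := lt_of_lt_of_le one_pos hr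
      exact_mod_cast this.ne')
  exact (h2 θ ⟨by linarith, le_rfl⟩).mono_of_mem_nhdsWithin
    (Icc_mem_nhdsLE (by linarith))

theorem pw_right {r : ℕ∞} {K : Set ℂ} {p : ℂ} (hr : 1 ≤ r) (h : PwSmooth r K p) (θ : ℝ) :
    DifferentiableWithinAt ℝ (rad K p) (Ici θ) θ := by
  obtain ⟨ε, hε, _, h1⟩ := h θ
  have h2 : DifferentiableOn ℝ (rad K p) (Icc θ (θ + ε)) :=
    h1.differentiableOn (by
      have : (0 : ℕ∞) < r := lt_of_lt_of_le one_pos hr
      exact_mod_cast this.ne')
  exact (h2 θ ⟨le_rfl, by linarith⟩).mono_of_mem_nhdsWithin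
    (Icc_mem_nhdsGE (by linarith))

theorem isEq_dt (K : Set ℂ) (θ : ℝ) :
    IsEq K 0 θ ↔ ∀ x ∈ K, dt x (bd K 0 θ) ≤ dt (bd K 0 θ) (bd K 0 θ) := by
  unfold IsEq
  refine forall₂_congr fun z _ => ?_
  rw [inner_eq_dt, sub_zero, sub_dt]
  constructor <;> intro h <;> linarith

/-- a function with a minimum from the right has nonnegative right derivative -/
private theorem D_right {g : ℝ → ℝ} {g' a : ℝ} (h : HasDerivWithinAt g g' (Ici a) a)
    (hpos : ∀ᶠ x in 𝓝[>] a, g a ≤ g x) : 0 ≤ g' := by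
  have h1 : HasDerivWithinAt g g' (Ioi a) a := hasDerivWithinAt_Ioi_iff_Ici.mpr h
  rw [hasDerivWithinAt_iff_tendsto_slope' self_notMem_Ioi] at h1
  refine ge_of_tendsto h1 ?_
  filter_upwards [hpos, self_mem_nhdsWithin] with x hx hx2
  rw [slope_def_field]
  have : (0 : ℝ) < x - a := sub_pos.mpr hx2
  exact div_nonneg (by linarith) this.le

private theorem D_left {g : ℝ → ℝ} {g' a : ℝ} (h : HasDerivWithinAt g g' (Iic a) a)
    (hpos : ∀ᶠ x in 𝓝[<] a, g x ≤ g a) : 0 ≤ g' := by
  have h1 : HasDerivWithinAt g g' (Iio a) a := hasDerivWithinAt_Iio_iff_Iic.mpr h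
  rw [hasDerivWithinAt_iff_tendsto_slope' self_notMem_Iio] at h1
  refine ge_of_tendsto h1 ?_
  filter_upwards [hpos, self_mem_nhdsWithin] with x hx hx2
  rw [slope_def_field]
  have : x - a < 0 := sub_neg.mpr hx2
  exact div_nonneg_of_nonpos (by linarith) this.le

/-- the chord inequality -/
private theorem D_chord {K : Set ℂ} (hK : IsBody K) (h0 : (0 : ℂ) ∈ interior K) {x z : ℂ}
    (hx : x ∈ K) (hz : z ∈ K) (t : ℝ) (h1 : 0 ≤ cr x (e t)) (h2 : 0 ≤ cr (e t) z)
    (h3 : 0 < cr x (e t) + cr (e t) z) : cr x z ≤ rad K 0 t * (cr x (e t) + cr (e t) z) := by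
  rcases le_or_gt (cr x z) 0 with h | h
  · exact h.trans (mul_nonneg (rad_pos hK h0 t).le h3.le)
  · have hc : (cr (e t) z / (cr x (e t) + cr (e t) z)) • x +
        (cr x (e t) / (cr x (e t) + cr (e t) z)) • z ∈ K := by
      refine hK.convex hx hz (div_nonneg h2 h3.le) (div_nonneg h1 h3.le) ?_
      rw [← add_div, add_comm (cr (e t) z), div_self h3.ne']
    have he : (cr (e t) z / (cr x (e t) + cr (e t) z)) • x +
        (cr x (e t) / (cr x (e t) + cr (e t) z)) • z =
        ((cr x z / (cr x (e t) + cr (e t) z) : ℝ) : ℂ) * e t := by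
      apply Complex.ext
      · simp only [Complex.add_re, Complex.smul_re, smul_eq_mul, Complex.re_ofReal_mul]
        field_simp
        unfold cr; ring
      · simp only [Complex.add_im, Complex.smul_im, smul_eq_mul, Complex.im_ofReal_mul]
        field_simp
        unfold cr; ring
    rw [he, mem_iff hK h0 (by positivity), div_le_iff₀ h3] at hc
    exact hc

private theorem D_cr_e (x : ℂ) (t : ℝ) : cr x (e t) = x.re * Real.sin t - x.im * Real.cos t := by
  unfold cr; rw [e_re, e_im]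

private theorem D_dt_e (x : ℂ) (t : ℝ) : dt x (e t) = x.re * Real.cos t + x.im * Real.sin t := by
  unfold dt; rw [e_re, e_im]

private theorem D_hasDeriv_cr (x : ℂ) (t : ℝ) : HasDerivAt (fun t => cr x (e t)) (dt x (e t)) t := by
  simp only [D_cr_e, D_dt_e]
  have := ((Real.hasDerivAt_sin t).const_mul x.re).sub ((Real.hasDerivAt_cos t).const_mul x.im)
  exact this.congr_deriv (by ring)

private theorem D_hasDeriv_dt (x : ℂ) (t : ℝ) :
    HasDerivAt (fun t => dt x (e t)) (-cr x (e t)) t := by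
  simp only [D_cr_e, D_dt_e]
  have := ((Real.hasDerivAt_cos t).const_mul x.re).add ((Real.hasDerivAt_sin t).const_mul x.im)
  exact this.congr_deriv (by ring)

private theorem D_bd_cr (K : Set ℂ) (θ t : ℝ) :
    cr (bd K 0 θ) (e t) = rad K 0 θ * Real.sin (t - θ) := by
  rw [bd_zero, mul_cr, D_cr_e, e_re, e_im, Real.sin_sub]
  ring

private theorem D_bd_dt (K : Set ℂ) (θ t : ℝ) :
    dt (bd K 0 θ) (e t) = rad K 0 θ * Real.cos (t - θ) := by
  rw [bd_zero, mul_dt, D_dt_e, e_re, e_im, Real.cos_sub]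
  ring

/-- Convexity, three directions `θ - δ₁ < θ < θ + δ₂`, `δ₁ + δ₂ < π`: the boundary point at `θ` is
beyond the chord; let `δ₁, δ₂ → 0`. Equivalently `1 / rad` times `‖·‖` is the gauge, a convex function,
restricted to the line through `bd K 0 θ` orthogonal to it. -/
theorem right_le_left {K : Set ℂ} (hK : IsBody K) (h0 : (0 : ℂ) ∈ interior K) {θ : ℝ}
    (hl : DifferentiableWithinAt ℝ (rad K 0) (Iic θ) θ)
    (hr : DifferentiableWithinAt ℝ (rad K 0) (Ici θ) θ) :
    derivWithin (rad K 0) (Ici θ) θ ≤ derivWithin (rad K 0) (Iic θ) θ := by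
  set L := derivWithin (rad K 0) (Iic θ) θ with hL
  set R := derivWithin (rad K 0) (Ici θ) θ with hR
  have hρ := rad_pos hK h0 θ
  have h1 : HasDerivWithinAt (fun δ : ℝ => rad K 0 (θ - δ)) (-L) (Ici 0) 0 := by
    have a1 : HasDerivWithinAt (rad K 0) L (Iic θ) (θ - 0) := by
      rw [sub_zero]; exact hl.hasDerivWithinAt
    have a2 : HasDerivWithinAt (fun δ : ℝ => θ - δ) (-1) (Ici 0) 0 :=
      ((hasDerivAt_id (0 : ℝ)).const_sub θ).hasDerivWithinAt
    have a3 := a1.comp (0 : ℝ) a2 (fun δ hδ => by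
      simp only [mem_Iic, tsub_le_iff_right, le_add_iff_nonneg_right]; exact hδ)
    rw [mul_neg_one] at a3
    exact a3
  have h2 : HasDerivWithinAt (fun δ : ℝ => rad K 0 (θ + δ)) R (Ici 0) 0 := by
    have a1 : HasDerivWithinAt (rad K 0) R (Ici θ) (θ + 0) := by
      rw [add_zero]; exact hr.hasDerivWithinAt
    have a2 : HasDerivWithinAt (fun δ : ℝ => θ + δ) 1 (Ici 0) 0 :=
      ((hasDerivAt_id (0 : ℝ)).const_add θ).hasDerivWithinAt
    have a3 := a1.comp (0 : ℝ) a2 (fun δ hδ => by
      simp only [mem_Ici, le_add_iff_nonneg_right]; exact hδ)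
    rw [mul_one] at a3
    exact a3
  have h3 : HasDerivWithinAt (fun δ : ℝ => rad K 0 θ * (rad K 0 (θ - δ) + rad K 0 (θ + δ)) -
      2 * (rad K 0 (θ - δ) * rad K 0 (θ + δ)) * Real.cos δ)
      (rad K 0 θ * (L - R)) (Ici 0) 0 := by
    have a1 := ((h1.add h2).const_mul (rad K 0 θ)).sub
      (((h1.mul h2).const_mul 2).mul (Real.hasDerivAt_cos 0).hasDerivWithinAt)
    exact a1.congr_deriv (by
      simp only [Pi.mul_apply, sub_zero, add_zero, Real.cos_zero, Real.sin_zero]
      ring)
  have h4 := D_right h3 ?_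
  · have := (mul_nonneg_iff_of_pos_left hρ).mp h4
    linarith
  · have hev : ∀ᶠ δ in 𝓝[>] (0 : ℝ), δ ∈ Ioo (0 : ℝ) (Real.pi / 2) :=
      Ioo_mem_nhdsGT (by positivity)
    filter_upwards [hev] with δ hδ
    have hs : 0 < Real.sin δ :=
      Real.sin_pos_of_pos_of_lt_pi hδ.1 (by linarith [hδ.2, Real.pi_pos])
    have hρ1 := rad_pos hK h0 (θ - δ)
    have hρ2 := rad_pos hK h0 (θ + δ)
    have c1 : cr (bd K 0 (θ - δ)) (e θ) = rad K 0 (θ - δ) * Real.sin δ := by
      rw [D_bd_cr]; congr 2; ring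
    have c2 : cr (e θ) (bd K 0 (θ + δ)) = rad K 0 (θ + δ) * Real.sin δ := by
      rw [cr_comm, D_bd_cr, show θ - (θ + δ) = -δ by ring, Real.sin_neg]; ring
    have c3 : cr (bd K 0 (θ - δ)) (bd K 0 (θ + δ)) =
        rad K 0 (θ - δ) * rad K 0 (θ + δ) * (2 * Real.sin δ * Real.cos δ) := by
      rw [bd_zero K (θ + δ), cr_mul, D_bd_cr, show θ + δ - (θ - δ) = 2 * δ by ring,
        Real.sin_two_mul]
      ring
    have h5 := D_chord hK h0 (bd_mem hK h0 (θ - δ)) (bd_mem hK h0 (θ + δ)) θ
      (by rw [c1]; positivity) (by rw [c2]; positivity) (by rw [c1, c2]; positivity)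
    rw [c1, c2, c3] at h5
    have h6 : (rad K 0 (θ - δ) * rad K 0 (θ + δ) * (2 * Real.cos δ)) * Real.sin δ ≤
        (rad K 0 θ * (rad K 0 (θ - δ) + rad K 0 (θ + δ))) * Real.sin δ := by linarith
    have h7 := le_of_mul_le_mul_right h6 hs
    simp only [sub_zero, add_zero, Real.cos_zero]
    linarith

/-- `→`: `rad K 0 t ≤ rad K 0 θ / cos (t - θ)` near `θ`. `←`: if `z ∈ K` and `dt z q > dt q q`,
`q = bd K 0 θ`, then `z` is not a multiple of `q`, and the points `q + s (z - q)`, `s → 0+`, of `K`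
show that the derivative on the side of `z` has the wrong sign. -/
theorem isEq_iff {K : Set ℂ} (hK : IsBody K) (h0 : (0 : ℂ) ∈ interior K) {θ : ℝ}
    (hl : DifferentiableWithinAt ℝ (rad K 0) (Iic θ) θ)
    (hr : DifferentiableWithinAt ℝ (rad K 0) (Ici θ) θ) :
    IsEq K 0 θ ↔ 0 ≤ derivWithin (rad K 0) (Iic θ) θ ∧ derivWithin (rad K 0) (Ici θ) θ ≤ 0 := by
  set L := derivWithin (rad K 0) (Iic θ) θ with hL
  set R := derivWithin (rad K 0) (Ici θ) θ with hR
  have hρ := rad_pos hK h0 θ
  have hdL : HasDerivWithinAt (rad K 0) L (Iic θ) θ := hl.hasDerivWithinAt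
  have hdR : HasDerivWithinAt (rad K 0) R (Ici θ) θ := hr.hasDerivWithinAt
  have hee : dt (e θ) (e θ) = 1 := by rw [dt_self, norm_e]; norm_num
  have hbb : dt (bd K 0 θ) (bd K 0 θ) = rad K 0 θ ^ 2 := by
    rw [bd_zero, mul_dt, dt_mul, hee]; ring
  rw [isEq_dt, hbb]
  constructor
  · intro h
    have hφ : ∀ t, rad K 0 t * Real.cos (t - θ) ≤ rad K 0 θ := by
      intro t
      have h1 := h _ (bd_mem hK h0 t)
      have h2 : dt (bd K 0 t) (bd K 0 θ) = rad K 0 θ * (rad K 0 t * Real.cos (t - θ)) := by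
        rw [bd_zero K θ, dt_mul, D_bd_dt, ← Real.cos_neg, neg_sub]
      rw [h2] at h1
      nlinarith
    have hcos : HasDerivAt (fun t : ℝ => Real.cos (t - θ)) 0 θ := by
      have a1 : HasDerivAt (fun t : ℝ => t - θ) 1 θ := (hasDerivAt_id θ).sub_const θ
      exact a1.cos.congr_deriv (by rw [sub_self, Real.sin_zero]; ring)
    constructor
    · have h1 := hdL.mul hcos.hasDerivWithinAt
      have h2 := D_left h1 (Eventually.of_forall fun t => by
        simp only [Pi.mul_apply, sub_self, Real.cos_zero, mul_one]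
        exact hφ t)
      simpa using h2
    · have h1 := (hdR.mul hcos.hasDerivWithinAt).neg
      have h2 := D_right h1 (Eventually.of_forall fun t => by
        simp only [Pi.neg_apply, Pi.mul_apply, sub_self, Real.cos_zero, mul_one, neg_le_neg_iff]
        exact hφ t)
      simpa using h2
  · rintro ⟨hL0, hR0⟩ z hz
    by_contra hcon
    push Not at hcon
    rw [bd_zero, dt_mul] at hcon
    have hd : rad K 0 θ < dt z (e θ) := by
      have : rad K 0 θ * rad K 0 θ < rad K 0 θ * dt z (e θ) := by nlinarith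
      exact lt_of_mul_lt_mul_left this hρ.le
    have hb := bd_mem hK h0 θ
    rcases lt_trichotomy (cr (e θ) z) 0 with hc | hc | hc
    · -- the point `z` is on the left side
      have hc' : 0 < cr z (e θ) := by rw [cr_comm]; linarith
      have hq : ∀ t, cr (e t) (bd K 0 θ) = rad K 0 θ * Real.sin (θ - t) := by
        intro t
        rw [cr_comm, D_bd_cr, ← neg_sub θ t, Real.sin_neg]; ring
      have hder : HasDerivAt (fun t => cr z (e t) + cr (e t) (bd K 0 θ))
          (dt z (e θ) - rad K 0 θ) θ := by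
        have a1 := (D_hasDeriv_cr z θ).sub (D_hasDeriv_cr (bd K 0 θ) θ)
        rw [D_bd_dt, sub_self, Real.cos_zero, mul_one] at a1
        have a2 : (fun t => cr z (e t) + cr (e t) (bd K 0 θ)) =
            (fun t => cr z (e t)) - fun t => cr (bd K 0 θ) (e t) := by
          funext t
          simp only [Pi.sub_apply]
          rw [cr_comm (bd K 0 θ) (e t)]; ring
        rw [a2]
        exact a1
      have h1 := (hdL.mul hder.hasDerivWithinAt).neg
      have hcont : ∀ᶠ t in 𝓝[<] θ, 0 < cr z (e t) := by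
        have : ContinuousAt (fun t => cr z (e t)) θ := (D_hasDeriv_cr z θ).continuousAt
        exact (this.eventually (lt_mem_nhds hc')).filter_mono nhdsWithin_le_nhds
      have hint : ∀ᶠ t in 𝓝[<] θ, t ∈ Ioo (θ - Real.pi) θ :=
        Ioo_mem_nhdsLT (by linarith [Real.pi_pos])
      have h2 := D_left h1 (by
        filter_upwards [hcont, hint] with t ht1 ht2
        have s0 : 0 < Real.sin (θ - t) :=
          Real.sin_pos_of_pos_of_lt_pi (by linarith [ht2.2]) (by linarith [ht2.1])
        have h3 := D_chord hK h0 hz hb t ht1.le (by rw [hq]; positivity) (by rw [hq]; positivity)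
        simp only [Pi.neg_apply, Pi.mul_apply, neg_le_neg_iff]
        refine le_trans (le_of_eq ?_) h3
        rw [hq, sub_self, Real.sin_zero, mul_zero, add_zero, bd_zero, cr_mul])
      have h3 : cr z (e θ) + cr (e θ) (bd K 0 θ) = cr z (e θ) := by
        rw [hq, sub_self, Real.sin_zero]; ring
      rw [h3] at h2
      have h4 : 0 ≤ L * cr z (e θ) := mul_nonneg hL0 hc'.le
      have h5 : 0 < rad K 0 θ * (dt z (e θ) - rad K 0 θ) := mul_pos hρ (by linarith)
      linarith
    · -- on the ray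
      have hze : z = ((dt z (e θ) : ℝ) : ℂ) * e θ := by
        have g1 := D_dt_e z θ
        have g2 : z.re * Real.sin θ - z.im * Real.cos θ = 0 := by
          rw [← D_cr_e, cr_comm, hc, neg_zero]
        have g3 := Real.sin_sq_add_cos_sq θ
        apply Complex.ext
        · rw [Complex.re_ofReal_mul, e_re, g1]
          linear_combination (-z.re) * g3 + Real.sin θ * g2
        · rw [Complex.im_ofReal_mul, e_im, g1]
          linear_combination (-z.im) * g3 - Real.cos θ * g2
      rw [hze, mem_iff hK h0 (by linarith)] at hz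
      linarith
    · -- on the right side
      have hder : HasDerivAt (fun t => cr (bd K 0 θ) (e t) + cr (e t) z)
          (rad K 0 θ - dt z (e θ)) θ := by
        have a1 := (D_hasDeriv_cr (bd K 0 θ) θ).sub (D_hasDeriv_cr z θ)
        rw [D_bd_dt, sub_self, Real.cos_zero, mul_one] at a1
        have a2 : (fun t => cr (bd K 0 θ) (e t) + cr (e t) z) =
            (fun t => cr (bd K 0 θ) (e t)) - fun t => cr z (e t) := by
          funext t
          simp only [Pi.sub_apply]
          rw [cr_comm z (e t)]; ring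
        rw [a2]
        exact a1
      have h1 := hdR.mul hder.hasDerivWithinAt
      have hcont : ∀ᶠ t in 𝓝[>] θ, 0 < cr (e t) z := by
        have h2 : ContinuousAt (fun t => -cr z (e t)) θ := (D_hasDeriv_cr z θ).continuousAt.neg
        have h3 : ∀ t, cr (e t) z = -cr z (e t) := fun t => cr_comm _ _
        simp only [h3] at hc ⊢
        exact (h2.eventually (lt_mem_nhds hc)).filter_mono nhdsWithin_le_nhds
      have hint : ∀ᶠ t in 𝓝[>] θ, t ∈ Ioo θ (θ + Real.pi) :=
        Ioo_mem_nhdsGT (by linarith [Real.pi_pos])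
      have h2 := D_right h1 (by
        filter_upwards [hcont, hint] with t ht1 ht2
        have s0 : 0 < Real.sin (t - θ) :=
          Real.sin_pos_of_pos_of_lt_pi (by linarith [ht2.1]) (by linarith [ht2.2])
        have h3 := D_chord hK h0 hb hz t (by rw [D_bd_cr]; positivity) ht1.le
          (by rw [D_bd_cr]; positivity)
        simp only [Pi.mul_apply]
        refine le_trans (le_of_eq ?_) h3
        rw [D_bd_cr, sub_self, Real.sin_zero, mul_zero, zero_add, bd_zero, mul_cr])
      have h3 : cr (bd K 0 θ) (e θ) + cr (e θ) z = cr (e θ) z := by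
        rw [D_bd_cr, sub_self, Real.sin_zero]; ring
      rw [h3] at h2
      have h4 : R * cr (e θ) z ≤ 0 := mul_nonpos_of_nonpos_of_nonneg hR0 hc.le
      have h5 : 0 < rad K 0 θ * (dt z (e θ) - rad K 0 θ) := mul_pos hρ (by linarith)
      linarith

/-- At a differentiable equilibrium the support line is unique: `t ↦ rad K 0 t * dt ν (e t)` has a
maximum at `θ`, its derivative is `rad K 0 θ * dt ν (i e θ)` (the derivative of `rad` is `0` by the
same argument for `ν = bd K 0 θ`). -/
theorem support_unique {K : Set ℂ} (hK : IsBody K) (h0 : (0 : ℂ) ∈ interior K) {θ : ℝ}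
    (hd : DifferentiableAt ℝ (rad K 0) θ) (heq : IsEq K 0 θ) {ν : ℂ}
    (hν : ∀ x ∈ K, dt ν x ≤ dt ν (bd K 0 θ)) : cr ν (bd K 0 θ) = 0 := by
  have hρ := rad_pos hK h0 θ
  -- for every support vector the derivative vanishes
  have key : ∀ ν : ℂ, (∀ x ∈ K, dt ν x ≤ dt ν (bd K 0 θ)) →
      deriv (rad K 0) θ * dt ν (e θ) + rad K 0 θ * (-cr ν (e θ)) = 0 := by
    intro ν hν
    have h1 : HasDerivAt (fun t => rad K 0 t * dt ν (e t))
        (deriv (rad K 0) θ * dt ν (e θ) + rad K 0 θ * (-cr ν (e θ))) θ :=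
      hd.hasDerivAt.mul (D_hasDeriv_dt ν θ)
    have h2 : IsLocalMax (fun t => rad K 0 t * dt ν (e t)) θ := by
      refine Eventually.of_forall fun t => ?_
      have h3 := hν _ (bd_mem hK h0 t)
      rw [bd_zero, bd_zero, dt_mul, dt_mul] at h3
      exact h3
    exact h2.hasDerivAt_eq_zero h1
  have h1 := key (bd K 0 θ) (fun x hx => by
    rw [dt_comm]; exact (isEq_dt K θ).mp heq x hx)
  rw [D_bd_dt, D_bd_cr, sub_self, Real.cos_zero, Real.sin_zero] at h1
  have h2 : deriv (rad K 0) θ = 0 := by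
    have : deriv (rad K 0) θ * rad K 0 θ = 0 := by linarith
    rcases mul_eq_zero.mp this with h | h
    · exact h
    · exact absurd h hρ.ne'
  have h3 := key ν hν
  rw [h2] at h3
  rw [bd_zero, cr_mul]
  linarith

end Pool.Agent.Lib.MP_707299_gt
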