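import Mathlib

/-!
# Equilibria of planar convex bodies: definitions

The plane is `ℂ`. A convex body is described by its polar equation about its centre of gravity.
-/

set_option autoImplicit false

namespace Pool.Agent.Lib.MP_707299_gt

open MeasureTheory Set Filter Topology

noncomputable section

/-- The unit vector in the direction `θ`. -/
def e (θ : ℝ) : ℂ := Complex.exp (θ * Complex.I)

/-- The distance from `p` to the boundary of `K` in the direction `θ`. -/
def rad (K : Set ℂ) (p : ℂ) (θ : ℝ) : ℝ := sSup {t : ℝ | p + t * e θ ∈ K}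

/-- The boundary point of `K` seen from `p` in the direction `θ`. -/
def bd (K : Set ℂ) (p : ℂ) (θ : ℝ) : ℂ := p + rad K p θ * e θ

/-- Convex bodies: compact convex sets with nonempty interior. -/
structure IsBody (K : Set ℂ) : Prop where
  convex : Convex ℝ K
  compact : IsCompact K
  nonempty : (interior K).Nonempty

/-- The centre of gravity. -/
def centre (K : Set ℂ) : ℂ := ⨍ z in K, z

/-- The boundary of `K` is piecewise `C^r`: on each side of every direction `θ` the polar equation
about `p` is a `C^r` function on a closed interval ending at `θ`. (By compactness finitely many arcs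
suffice.) -/
def PwSmooth (r : ℕ∞) (K : Set ℂ) (p : ℂ) : Prop :=
  ∀ θ : ℝ, ∃ ε > 0, ContDiffOn ℝ r (rad K p) (Icc (θ - ε) θ) ∧
    ContDiffOn ℝ r (rad K p) (Icc θ (θ + ε))

/-- `q = bd K p θ` is an equilibrium point: the line through `q` orthogonal to `q - p` supports
`K`. -/
def IsEq (K : Set ℂ) (p : ℂ) (θ : ℝ) : Prop :=
  ∀ z ∈ K, inner ℝ (z - bd K p θ) (bd K p θ - p) ≤ 0

/-- The equilibrium at `θ` is nondegenerate: either the boundary is smooth there and the second
derivative of the distance from `p` is not zero, or the distance has a positive derivative from the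
left and a negative derivative from the right (both angles between `p - q` and the one-sided tangents
are acute; the boundary is not smooth). -/
def IsNondeg (r : ℕ∞) (K : Set ℂ) (p : ℂ) (θ : ℝ) : Prop :=
  (ContDiffAt ℝ r (rad K p) θ ∧ deriv (deriv (rad K p)) θ ≠ 0) ∨
    (0 < derivWithin (rad K p) (Iic θ) θ ∧ derivWithin (rad K p) (Ici θ) θ < 0)

/-- Stable points. -/
def IsStable (r : ℕ∞) (K : Set ℂ) (p : ℂ) (θ : ℝ) : Prop :=
  IsEq K p θ ∧ ContDiffAt ℝ r (rad K p) θ ∧ 0 < deriv (deriv (rad K p)) θ

/-- The set of stable points with respect to `p`. -/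
def stablePts (r : ℕ∞) (K : Set ℂ) (p : ℂ) : Set ℂ :=
  {q | ∃ θ : ℝ, q = bd K p θ ∧ IsStable r K p θ}

/-- The class `{n}`: convex bodies with piecewise `C^r` boundary, all equilibria with respect to the
centre of gravity nondegenerate, exactly `n` stable points. -/
structure InClass (r : ℕ∞) (n : ℕ) (K : Set ℂ) : Prop where
  body : IsBody K
  smooth : PwSmooth r K (centre K)
  nondeg : ∀ θ, IsEq K (centre K) θ → IsNondeg r K (centre K) θ
  count : (stablePts r K (centre K)).encard = n

/-- The regular `n`-gon. -/
def regularPolygon (n : ℕ) : Set ℂ :=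
  convexHull ℝ (range fun k : Fin n => e (2 * Real.pi * k / n))

/-! Auxiliary notation for the proofs. -/

/-- scalar product -/
def dt (x y : ℂ) : ℝ := x.re * y.re + x.im * y.im

/-- determinant -/
def cr (x y : ℂ) : ℝ := x.re * y.im - x.im * y.re

/-- half-plane -/
def H (μ : ℂ) : Set ℂ := {x | dt μ x ≤ 1}

end

end Pool.Agent.Lib.MP_707299_gt
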