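import Pool.Agent.Lib.MP_707299_gt.B
import Pool.Agent.Lib.MP_707299_gt.D

/-!
Row E: nondegenerate equilibria are finitely many.
-/

set_option autoImplicit false

namespace Pool.Agent.Lib.MP_707299_gt

open MeasureTheory Set Filter Topology

theorem E_deriv_zero {K : Set ℂ} (hK : IsBody K) (h0 : (0 : ℂ) ∈ interior K) {t : ℝ}
    (hd : DifferentiableAt ℝ (rad K 0) t) (heq : IsEq K 0 t) : deriv (rad K 0) t = 0 := by
  have h := (isEq_iff hK h0 hd.differentiableWithinAt hd.differentiableWithinAt).1 heq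
  rw [hd.derivWithin (uniqueDiffWithinAt_Iic t), hd.derivWithin (uniqueDiffWithinAt_Ici t)] at h
  exact le_antisymm h.2 h.1

theorem E_left {r : ℕ∞} {f : ℝ → ℝ} (hr : 1 ≤ r) {θ ε : ℝ} (hε : 0 < ε)
    (h : ContDiffOn ℝ r f (Icc (θ - ε) θ)) (hpos : 0 < derivWithin f (Iic θ) θ) :
    ∀ᶠ t in 𝓝[<] θ, DifferentiableAt ℝ f t ∧ deriv f t ≠ 0 := by
  have hr1 : (1 : WithTop ℕ∞) ≤ (r : WithTop ℕ∞) := by exact_mod_cast hr
  have hc := h.continuousOn_derivWithin (uniqueDiffOn_Icc (by linarith)) hr1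
  have hθ : θ ∈ Icc (θ - ε) θ := ⟨by linarith, le_rfl⟩
  have e1 : derivWithin f (Icc (θ - ε) θ) θ = derivWithin f (Iic θ) θ := by
    apply derivWithin_congr_set
    filter_upwards [Ioi_mem_nhds (show θ - ε < θ by linarith)] with t ht
    exact propext ⟨fun h => h.2, fun h => ⟨le_of_lt ht, h⟩⟩
  have h1 : ∀ᶠ t in 𝓝[Icc (θ - ε) θ] θ, 0 < derivWithin f (Icc (θ - ε) θ) t :=
    (hc θ hθ).eventually_const_lt (by rw [e1]; exact hpos)
  rw [nhdsWithin_Icc_eq_nhdsLE (by linarith)] at h1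
  have h2 : ∀ᶠ t in 𝓝[<] θ, 0 < derivWithin f (Icc (θ - ε) θ) t :=
    h1.filter_mono (nhdsWithin_mono _ Iio_subset_Iic_self)
  have h3 : ∀ᶠ t in 𝓝[<] θ, t ∈ Ioo (θ - ε) θ := Ioo_mem_nhdsLT (by linarith)
  filter_upwards [h2, h3] with t ht1 ht2
  have hm : Icc (θ - ε) θ ∈ 𝓝 t := Icc_mem_nhds ht2.1 ht2.2
  have hdd : DifferentiableAt ℝ f t :=
    (h.differentiableOn (ne_of_gt (lt_of_lt_of_le one_pos hr1)) t ⟨ht2.1.le, ht2.2.le⟩).differentiableAt hm
  refine ⟨hdd, ?_⟩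
  rw [derivWithin_of_mem_nhds hm] at ht1
  exact ht1.ne'

theorem E_right {r : ℕ∞} {f : ℝ → ℝ} (hr : 1 ≤ r) {θ ε : ℝ} (hε : 0 < ε)
    (h : ContDiffOn ℝ r f (Icc θ (θ + ε))) (hneg : derivWithin f (Ici θ) θ < 0) :
    ∀ᶠ t in 𝓝[>] θ, DifferentiableAt ℝ f t ∧ deriv f t ≠ 0 := by
  have hr1 : (1 : WithTop ℕ∞) ≤ (r : WithTop ℕ∞) := by exact_mod_cast hr
  have hc := h.continuousOn_derivWithin (uniqueDiffOn_Icc (by linarith)) hr1
  have hθ : θ ∈ Icc θ (θ + ε) := ⟨le_rfl, by linarith⟩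
  have e1 : derivWithin f (Icc θ (θ + ε)) θ = derivWithin f (Ici θ) θ := by
    apply derivWithin_congr_set
    filter_upwards [Iio_mem_nhds (show θ < θ + ε by linarith)] with t ht
    exact propext ⟨fun h => h.1, fun h => ⟨h, le_of_lt ht⟩⟩
  have h1 : ∀ᶠ t in 𝓝[Icc θ (θ + ε)] θ, derivWithin f (Icc θ (θ + ε)) t < 0 :=
    (hc θ hθ).eventually_lt_const (by rw [e1]; exact hneg)
  rw [nhdsWithin_Icc_eq_nhdsGE (by linarith)] at h1
  have h2 : ∀ᶠ t in 𝓝[>] θ, derivWithin f (Icc θ (θ + ε)) t < 0 :=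
    h1.filter_mono (nhdsWithin_mono _ Ioi_subset_Ici_self)
  have h3 : ∀ᶠ t in 𝓝[>] θ, t ∈ Ioo θ (θ + ε) := Ioo_mem_nhdsGT (by linarith)
  filter_upwards [h2, h3] with t ht1 ht2
  have hm : Icc θ (θ + ε) ∈ 𝓝 t := Icc_mem_nhds ht2.1 ht2.2
  have hdd : DifferentiableAt ℝ f t :=
    (h.differentiableOn (ne_of_gt (lt_of_lt_of_le one_pos hr1)) t ⟨ht2.1.le, ht2.2.le⟩).differentiableAt hm
  refine ⟨hdd, ?_⟩
  rw [derivWithin_of_mem_nhds hm] at ht1
  exact ht1.ne

theorem E_isolated {r : ℕ∞} {K : Set ℂ} (hK : IsBody K) (h0 : (0 : ℂ) ∈ interior K) (hr : 2 ≤ r)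
    (hs : PwSmooth r K 0) {θ : ℝ} (heq : IsEq K 0 θ) (hn : IsNondeg r K 0 θ) :
    ∀ᶠ t in 𝓝[≠] θ, ¬ IsEq K 0 t := by
  have hr1 : (1 : ℕ∞) ≤ r := le_trans (by norm_num) hr
  have hr2 : (2 : WithTop ℕ∞) ≤ (r : WithTop ℕ∞) := WithTop.coe_le_coe.2 hr
  rcases hn with ⟨hsm, hne⟩ | ⟨hpos, hneg⟩
  · have hd : DifferentiableAt ℝ (rad K 0) θ :=
      hsm.differentiableAt (ne_of_gt (lt_of_lt_of_le (by norm_num) hr2))
    have hz := E_deriv_zero hK h0 hd heq
    have h2 : ContDiffAt ℝ 2 (rad K 0) θ := hsm.of_le hr2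
    have hev : ∀ᶠ t in 𝓝 θ, DifferentiableAt ℝ (rad K 0) t := by
      filter_upwards [h2.eventually (by simp)] with t ht
      exact ht.differentiableAt (by norm_num)
    have hdd : DifferentiableAt ℝ (deriv (rad K 0)) θ := by
      by_contra h
      exact hne (deriv_zero_of_not_differentiableAt h)
    have hev2 : ∀ᶠ t in 𝓝[≠] θ, deriv (rad K 0) t ≠ 0 := hdd.hasDerivAt.eventually_ne hne
    filter_upwards [hev2, hev.filter_mono nhdsWithin_le_nhds] with t ht1 ht2 ht3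
    exact ht1 (E_deriv_zero hK h0 ht2 ht3)
  · obtain ⟨ε, hε, hl, hrr⟩ := hs θ
    have e1 := E_left hr1 hε hl hpos
    have e2 := E_right hr1 hε hrr hneg
    rw [← nhdsLT_sup_nhdsGT, eventually_sup]
    constructor
    · filter_upwards [e1] with t ht ht3
      exact ht.2 (E_deriv_zero hK h0 ht.1 ht3)
    · filter_upwards [e2] with t ht ht3
      exact ht.2 (E_deriv_zero hK h0 ht.1 ht3)

theorem E_continuous_bd {K : Set ℂ} (hK : IsBody K) (h0 : (0 : ℂ) ∈ interior K) :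
    Continuous (bd K 0) := by
  have h1 : Continuous e := by
    unfold e
    fun_prop
  have h2 : bd K 0 = fun θ => (rad K 0 θ : ℂ) * e θ := by
    funext θ
    exact bd_zero K θ
  rw [h2]
  exact (Complex.continuous_ofReal.comp (rad_continuous hK h0)).mul h1

theorem E_isClosed {K : Set ℂ} (hK : IsBody K) (h0 : (0 : ℂ) ∈ interior K) :
    IsClosed {θ : ℝ | IsEq K 0 θ} := by
  have h1 : {θ : ℝ | IsEq K 0 θ} =
      ⋂ x ∈ K, {θ : ℝ | dt x (bd K 0 θ) ≤ dt (bd K 0 θ) (bd K 0 θ)} := by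
    ext θ
    rw [mem_iInter₂]
    exact isEq_dt K θ
  rw [h1]
  refine isClosed_biInter fun x _ => ?_
  have hc := E_continuous_bd hK h0
  exact isClosed_le ((continuous_dt x).comp hc) (continuous_dt2.comp (hc.prodMk hc))

/-- The set of equilibrium directions in `[0, 2π]` is closed (`rad_continuous`), and every point of it is
isolated: smooth case: `deriv (rad K 0)` vanishes at `θ` and has nonzero derivative there, so it is not
zero at points `t ≠ θ` near `θ`, where `rad` is differentiable, and an equilibrium needs derivative `0`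
(`isEq_iff`). Other case: the left derivative at `t < θ` near `θ` tends to the left derivative at `θ`
(`ContDiffOn` on `[θ - ε, θ]`), it is positive, `rad` is differentiable at such `t` and so `t` is not an
equilibrium. Compact and discrete: finite. -/
theorem eq_finite {r : ℕ∞} {K : Set ℂ} (hK : IsBody K) (h0 : (0 : ℂ) ∈ interior K) (hr : 2 ≤ r)
    (hs : PwSmooth r K 0) (hn : ∀ θ, IsEq K 0 θ → IsNondeg r K 0 θ) :
    {q : ℂ | ∃ θ, q = bd K 0 θ ∧ IsEq K 0 θ}.Finite := by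
  have hfin : ({θ : ℝ | IsEq K 0 θ} ∩ Icc 0 (2 * Real.pi)).Finite := by
    by_contra hinf
    obtain ⟨θ, _, hacc⟩ := Set.Infinite.exists_accPt_of_subset_isCompact hinf
      (isCompact_Icc (a := (0 : ℝ)) (b := 2 * Real.pi)) inter_subset_right
    have h1 : θ ∈ {θ : ℝ | IsEq K 0 θ} := by
      refine (E_isClosed hK h0).closure_subset_iff.2 Subset.rfl ?_
      exact closure_mono inter_subset_left hacc.clusterPt.mem_closure
    have h2 := E_isolated hK h0 hr hs h1 (hn θ h1)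
    rw [accPt_iff_frequently_nhdsNE] at hacc
    exact hacc (h2.mono fun t ht ht2 => ht ht2.1)
  refine (hfin.image (bd K 0)).subset ?_
  rintro q ⟨θ, rfl, hq⟩
  have hpi : 0 < 2 * Real.pi := by positivity
  set k : ℤ := ⌊θ / (2 * Real.pi)⌋ with hk
  set θ' : ℝ := θ + ((-k : ℤ) : ℝ) * (2 * Real.pi) with hθ'
  have hb : bd K 0 θ' = bd K 0 θ := by
    rw [bd_zero, bd_zero, hθ', e_period, rad_period]
  have h1 : (k : ℝ) * (2 * Real.pi) ≤ θ := by
    rw [← le_div_iff₀ hpi]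
    exact Int.floor_le _
  have h2 : θ < ((k : ℝ) + 1) * (2 * Real.pi) := by
    rw [← div_lt_iff₀ hpi]
    exact Int.lt_floor_add_one _
  refine ⟨θ', ⟨?_, ?_, ?_⟩, hb⟩
  · intro z hz
    rw [hb]
    exact hq z hz
  · rw [hθ']
    push_cast
    linarith
  · rw [hθ']
    push_cast
    linarith

end Pool.Agent.Lib.MP_707299_gt
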