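import Pool.Agent.Lib.MP_707299_gt.B
import Pool.Agent.Lib.MP_707299_gt.C
import Pool.Agent.Lib.MP_707299_gt.Bt

/-!
Row F: cutting keeps piecewise smoothness.
-/

set_option autoImplicit false

namespace Pool.Agent.Lib.MP_707299_gt

open MeasureTheory Set Filter Topology

/-- By `between`: if `1 ≤ dt μ (bd K 0 t)` for points `t` arbitrarily near `θ` on the right then it
holds for all of them. -/
theorem side_right {K : Set ℂ} (hK : IsBody K) (h0 : (0 : ℂ) ∈ interior K) (μ : ℂ) (θ : ℝ) :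
    (∃ δ > 0, ∀ t ∈ Ioc θ (θ + δ), 1 ≤ dt μ (bd K 0 t)) ∨
      (∃ δ > 0, ∀ t ∈ Ioc θ (θ + δ), dt μ (bd K 0 t) < 1) := by
  by_cases h : ∃ δ > 0, ∀ t ∈ Ioc θ (θ + δ), dt μ (bd K 0 t) < 1
  · exact Or.inr h
  · left
    push Not at h
    obtain ⟨t2, ht2, h2⟩ := h 1 one_pos
    refine ⟨t2 - θ, by linarith [ht2.1], fun t ht => ?_⟩
    obtain ⟨t1, ht1, h1⟩ := h (t - θ) (by linarith [ht.1])
    have hpi := Real.pi_gt_three
    exact between hK h0 (t1 := t1) (t2 := t2) (by linarith [ht1.2]) (by linarith [ht.2])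
      (by linarith [ht1.1, ht2.2]) h1 h2

theorem side_left {K : Set ℂ} (hK : IsBody K) (h0 : (0 : ℂ) ∈ interior K) (μ : ℂ) (θ : ℝ) :
    (∃ δ > 0, ∀ t ∈ Ico (θ - δ) θ, 1 ≤ dt μ (bd K 0 t)) ∨
      (∃ δ > 0, ∀ t ∈ Ico (θ - δ) θ, dt μ (bd K 0 t) < 1) := by
  by_cases h : ∃ δ > 0, ∀ t ∈ Ico (θ - δ) θ, dt μ (bd K 0 t) < 1
  · exact Or.inr h
  · left
    push Not at h
    obtain ⟨t1, ht1, h1⟩ := h 1 one_pos
    refine ⟨θ - t1, by linarith [ht1.2], fun t ht => ?_⟩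
    obtain ⟨t2, ht2, h2⟩ := h (θ - t) (by linarith [ht.2])
    have hpi := Real.pi_gt_three
    exact between hK h0 (t1 := t1) (t2 := t2) (by linarith [ht.1]) (by linarith [ht2.1])
      (by linarith [ht1.1, ht2.2]) h1 h2

private theorem F_dt {K : Set ℂ} (μ : ℂ) (t : ℝ) :
    dt μ (bd K 0 t) = rad K 0 t * dt μ (e t) := by
  rw [bd_zero, dt_mul]

private theorem F_trig (μ : ℂ) : (fun t : ℝ => dt μ (e t)) =
    fun t => μ.re * Real.cos t + μ.im * Real.sin t := by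
  funext t
  simp only [dt, e_re, e_im]

private theorem F_one {K : Set ℂ} (hK : IsBody K) (h0 : (0 : ℂ) ∈ interior K) (μ : ℂ) {t : ℝ}
    (h : 1 ≤ dt μ (bd K 0 t)) :
    0 < dt μ (e t) ∧ rad (K ∩ H μ) 0 t = 1 / dt μ (e t) := by
  rw [F_dt] at h
  have hr := rad_pos hK h0 t
  have hd : 0 < dt μ (e t) := by
    by_contra hneg
    push Not at hneg
    have := mul_nonpos_of_nonneg_of_nonpos hr.le hneg
    linarith
  refine ⟨hd, ?_⟩
  rw [rad_cut hK h0, if_pos hd, min_eq_right]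
  rw [div_le_iff₀ hd]
  exact h

private theorem F_two {K : Set ℂ} (hK : IsBody K) (h0 : (0 : ℂ) ∈ interior K) (μ : ℂ) {t : ℝ}
    (h : dt μ (bd K 0 t) ≤ 1) : rad (K ∩ H μ) 0 t = rad K 0 t := by
  rw [F_dt] at h
  rw [rad_cut hK h0]
  split_ifs with hd
  · rw [min_eq_left]
    rw [le_div_iff₀ hd]
    exact h
  · rfl

private theorem F_cont {K : Set ℂ} (hK : IsBody K) (h0 : (0 : ℂ) ∈ interior K) (μ : ℂ) :
    Continuous fun t => dt μ (bd K 0 t) := by
  have h1 : (fun t => dt μ (bd K 0 t)) =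
      fun t => rad K 0 t * (μ.re * Real.cos t + μ.im * Real.sin t) := by
    funext t
    rw [F_dt, ← congrFun (F_trig μ) t]
  rw [h1]
  exact (rad_continuous hK h0).mul (by fun_prop)

private theorem F_smooth_one {r : ℕ∞} {K : Set ℂ} (hK : IsBody K) (h0 : (0 : ℂ) ∈ interior K)
    (μ : ℂ) {S : Set ℝ} (h : ∀ t ∈ S, 1 ≤ dt μ (bd K 0 t)) :
    ContDiffOn ℝ r (rad (K ∩ H μ) 0) S := by
  have h1 : ContDiff ℝ r (fun t : ℝ => dt μ (e t)) := by
    rw [F_trig]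
    exact (contDiff_const.mul Real.contDiff_cos).add (contDiff_const.mul Real.contDiff_sin)
  have h2 : ContDiffOn ℝ r (fun t : ℝ => 1 / dt μ (e t)) S :=
    contDiffOn_const.div h1.contDiffOn (fun t ht => (F_one hK h0 μ (h t ht)).1.ne')
  exact h2.congr (fun t ht => (F_one hK h0 μ (h t ht)).2)

private theorem F_smooth_two {r : ℕ∞} {K : Set ℂ} (hK : IsBody K) (h0 : (0 : ℂ) ∈ interior K)
    (μ : ℂ) {S : Set ℝ} (hS : ContDiffOn ℝ r (rad K 0) S) (h : ∀ t ∈ S, dt μ (bd K 0 t) ≤ 1) :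
    ContDiffOn ℝ r (rad (K ∩ H μ) 0) S :=
  hS.congr (fun t ht => F_two hK h0 μ (h t ht))

/-- On each side of `θ` the function `rad (K ∩ H μ) 0` is, on a closed interval ending at `θ`, equal to
`rad K 0` or to `1 / dt μ (e t)` (`rad_cut`, `side_right`, `side_left`, and continuity at `θ`). -/
theorem cut_pw {r : ℕ∞} {K : Set ℂ} (hK : IsBody K) (h0 : (0 : ℂ) ∈ interior K)
    (hs : PwSmooth r K 0) (μ : ℂ) : PwSmooth r (K ∩ H μ) 0 := by
  intro θ
  obtain ⟨ε, hε, hl, hr⟩ := hs θ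
  have hc := (F_cont hK h0 μ).tendsto θ
  -- the right side
  have hR : ∃ δ > 0, ContDiffOn ℝ r (rad (K ∩ H μ) 0) (Icc θ (θ + δ)) := by
    rcases side_right hK h0 μ θ with ⟨δ, hδ, h⟩ | ⟨δ, hδ, h⟩
    · have hθ : 1 ≤ dt μ (bd K 0 θ) := by
        refine ge_of_tendsto (hc.mono_left (nhdsWithin_le_nhds (s := Ioi θ))) ?_
        filter_upwards [Ioc_mem_nhdsGT (show θ < θ + δ by linarith)] with t ht using h t ht
      refine ⟨δ, hδ, F_smooth_one hK h0 μ (fun t ht => ?_)⟩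
      rcases eq_or_lt_of_le ht.1 with h1 | h1
      · rw [← h1]; exact hθ
      · exact h t ⟨h1, ht.2⟩
    · have hθ : dt μ (bd K 0 θ) ≤ 1 := by
        refine le_of_tendsto (hc.mono_left (nhdsWithin_le_nhds (s := Ioi θ))) ?_
        filter_upwards [Ioc_mem_nhdsGT (show θ < θ + δ by linarith)] with t ht using (h t ht).le
      refine ⟨min δ ε, lt_min hδ hε, F_smooth_two hK h0 μ (hr.mono ?_) (fun t ht => ?_)⟩
      · exact Icc_subset_Icc_right (by linarith [min_le_right δ ε])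
      · rcases eq_or_lt_of_le ht.1 with h1 | h1
        · rw [← h1]; exact hθ
        · exact (h t ⟨h1, by linarith [ht.2, min_le_left δ ε]⟩).le
  have hL : ∃ δ > 0, ContDiffOn ℝ r (rad (K ∩ H μ) 0) (Icc (θ - δ) θ) := by
    rcases side_left hK h0 μ θ with ⟨δ, hδ, h⟩ | ⟨δ, hδ, h⟩
    · have hθ : 1 ≤ dt μ (bd K 0 θ) := by
        refine ge_of_tendsto (hc.mono_left (nhdsWithin_le_nhds (s := Iio θ))) ?_
        filter_upwards [Ico_mem_nhdsLT (show θ - δ < θ by linarith)] with t ht using h t ht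
      refine ⟨δ, hδ, F_smooth_one hK h0 μ (fun t ht => ?_)⟩
      rcases eq_or_lt_of_le ht.2 with h1 | h1
      · rw [h1]; exact hθ
      · exact h t ⟨ht.1, h1⟩
    · have hθ : dt μ (bd K 0 θ) ≤ 1 := by
        refine le_of_tendsto (hc.mono_left (nhdsWithin_le_nhds (s := Iio θ))) ?_
        filter_upwards [Ico_mem_nhdsLT (show θ - δ < θ by linarith)] with t ht using (h t ht).le
      refine ⟨min δ ε, lt_min hδ hε, F_smooth_two hK h0 μ (hl.mono ?_) (fun t ht => ?_)⟩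
      · exact Icc_subset_Icc_left (by linarith [min_le_right δ ε])
      · rcases eq_or_lt_of_le ht.2 with h1 | h1
        · rw [h1]; exact hθ
        · exact (h t ⟨by linarith [ht.1, min_le_left δ ε], h1⟩).le
  obtain ⟨δ1, hδ1, h1⟩ := hR
  obtain ⟨δ2, hδ2, h2⟩ := hL
  refine ⟨min δ1 δ2, lt_min hδ1 hδ2, h2.mono ?_, h1.mono ?_⟩
  · exact Icc_subset_Icc_left (by linarith [min_le_right δ1 δ2])
  · exact Icc_subset_Icc_right (by linarith [min_le_left δ1 δ2])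

end Pool.Agent.Lib.MP_707299_gt
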