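import Pool.Agent.Lib.MP_707299_gt.Lin

set_option autoImplicit false

namespace Pool.Agent.Lib.MP_707299_gt

open MeasureTheory Set Filter Topology

/-- The line `dt μ = 1` is in general position: no equilibrium of `K` lies on it, and its point nearest
to `0` is not on the boundary of `K`. -/
structure Good (K : Set ℂ) (μ : ℂ) : Prop where
  g1 : ∀ θ, IsEq K 0 θ → dt μ (bd K 0 θ) ≠ 1
  g2 : ∀ θ, dt μ (bd K 0 θ) = 1 → cr μ (bd K 0 θ) ≠ 0

end Pool.Agent.Lib.MP_707299_gt
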