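import Pool.Agent.Lib.MP_707299_gt.D
import Pool.Agent.Lib.MP_707299_gt.F
import Pool.Agent.Lib.MP_707299_gt.GoodDef

/-!
Row G: equilibria of the cut body.
-/

set_option autoImplicit false

namespace Pool.Agent.Lib.MP_707299_gt

open MeasureTheory Set Filter Topology

private theorem G_dt_e (μ : ℂ) (t : ℝ) :
    dt μ (e t) = μ.re * Real.cos t + μ.im * Real.sin t := by
  unfold dt
  rw [e_re, e_im]

private theorem G_cr_e (μ : ℂ) (t : ℝ) :
    cr μ (e t) = μ.re * Real.sin t - μ.im * Real.cos t := by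
  unfold cr
  rw [e_re, e_im]

private theorem G_hasDeriv_dt (μ : ℂ) (t : ℝ) :
    HasDerivAt (fun t => dt μ (e t)) (-(cr μ (e t))) t := by
  have h1 : (fun t => dt μ (e t)) = fun t => μ.re * Real.cos t + μ.im * Real.sin t :=
    funext (G_dt_e μ)
  rw [h1]
  refine (((Real.hasDerivAt_cos t).const_mul μ.re).add
    ((Real.hasDerivAt_sin t).const_mul μ.im)).congr_deriv ?_
  rw [G_cr_e]
  ring

private theorem G_hasDeriv_cr (μ : ℂ) (t : ℝ) :
    HasDerivAt (fun t => cr μ (e t)) (dt μ (e t)) t := by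
  have h1 : (fun t => cr μ (e t)) = fun t => μ.re * Real.sin t - μ.im * Real.cos t :=
    funext (G_cr_e μ)
  rw [h1]
  refine (((Real.hasDerivAt_sin t).const_mul μ.re).sub
    ((Real.hasDerivAt_cos t).const_mul μ.im)).congr_deriv ?_
  rw [G_dt_e]
  ring

private theorem G_hasDeriv_inv (μ : ℂ) (t : ℝ) (h : dt μ (e t) ≠ 0) :
    HasDerivAt (fun t => 1 / dt μ (e t)) (cr μ (e t) / dt μ (e t) ^ 2) t := by
  have h1 : (fun t => 1 / dt μ (e t)) = (fun t => dt μ (e t))⁻¹ := by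
    funext s
    simp
  rw [h1]
  refine ((G_hasDeriv_dt μ t).inv h).congr_deriv ?_
  ring

private theorem G_cont_dt (μ : ℂ) : Continuous fun t => dt μ (e t) :=
  continuous_iff_continuousAt.mpr fun t => (G_hasDeriv_dt μ t).continuousAt

private theorem G_contDiff_dt (μ : ℂ) (n : WithTop ℕ∞) : ContDiff ℝ n fun t => dt μ (e t) := by
  have h1 : (fun t => dt μ (e t)) = fun t => μ.re * Real.cos t + μ.im * Real.sin t :=
    funext (G_dt_e μ)
  rw [h1]
  exact (contDiff_const.mul Real.contDiff_cos).add (contDiff_const.mul Real.contDiff_sin)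

private theorem G_dt_bd (K : Set ℂ) (μ : ℂ) (t : ℝ) :
    dt μ (bd K 0 t) = rad K 0 t * dt μ (e t) := by
  rw [bd_zero, dt_mul]

private theorem G_cr_bd (K : Set ℂ) (μ : ℂ) (t : ℝ) :
    cr μ (bd K 0 t) = rad K 0 t * cr μ (e t) := by
  rw [bd_zero, cr_mul]

private theorem G_eq_inv {K : Set ℂ} (hK : IsBody K) (h0 : (0 : ℂ) ∈ interior K) {μ : ℂ} {t : ℝ}
    (h : 1 ≤ dt μ (bd K 0 t)) : 0 < dt μ (e t) ∧ rad (K ∩ H μ) 0 t = 1 / dt μ (e t) := by
  rw [G_dt_bd] at h
  have hR := rad_pos hK h0 t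
  have hm : 0 < dt μ (e t) := by
    by_contra hn
    push Not at hn
    nlinarith
  refine ⟨hm, ?_⟩
  rw [rad_cut hK h0, if_pos hm]
  exact min_eq_right ((div_le_iff₀ hm).mpr h)

private theorem G_eq_rad {K : Set ℂ} (hK : IsBody K) (h0 : (0 : ℂ) ∈ interior K) {μ : ℂ} {t : ℝ}
    (h : dt μ (bd K 0 t) ≤ 1) : rad (K ∩ H μ) 0 t = rad K 0 t := by
  rw [G_dt_bd] at h
  rw [rad_cut hK h0]
  split_ifs with hm
  · exact min_eq_left ((le_div_iff₀ hm).mpr h)
  · rfl

/-- Let `q = bd (K ∩ H μ) 0 θ`. By `cut_eq` either `q = bd K 0 θ` is an equilibrium of `K`, then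
`dt μ q < 1` by `g1` and `rad (K ∩ H μ) 0 = rad K 0` near `θ` (continuity of `rad K 0`): first case.
Or `dt μ q = 1`. If `1 < dt μ (bd K 0 θ)` then `rad (K ∩ H μ) 0 t = 1 / dt μ (e t)` near `θ`; `isEq_iff`
gives derivative `0` at `θ`, i.e. `cr μ (e θ) = 0`, `dt μ (e θ) = ‖μ‖`, and the second derivative is
`1 / ‖μ‖`: second case. If `dt μ (bd K 0 θ) = 1` then `q = bd K 0 θ`, `cr μ q ≠ 0` by `g2` and `q` is
not an equilibrium of `K` by `g1`. On each side of `θ` the function `rad (K ∩ H μ) 0` is `rad K 0` or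
`1 / dt μ (e t)` (`side_right`, `side_left`); the second function has derivative `≠ 0` at `θ`.
`isEq_iff` for `K ∩ H μ`: left derivative `≥ 0`, right derivative `≤ 0`. If e.g. the left derivative is
`0`, then on the left it is `rad K 0` and the left derivative of `rad K 0` is `0`, by `right_le_left`
its right derivative is `≤ 0`, hence `K` has an equilibrium at `θ` (`isEq_iff`), contradiction. -/
theorem cut_cases {r : ℕ∞} (hr : 2 ≤ r) {K : Set ℂ} (hK : IsBody K) (h0 : (0 : ℂ) ∈ interior K)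
    (hs : PwSmooth r K 0) {μ : ℂ} (hμ : Good K μ) (θ : ℝ) (h : IsEq (K ∩ H μ) 0 θ) :
    (IsEq K 0 θ ∧ bd (K ∩ H μ) 0 θ = bd K 0 θ ∧ dt μ (bd K 0 θ) < 1 ∧
      rad (K ∩ H μ) 0 =ᶠ[𝓝 θ] rad K 0) ∨
    (dt μ (bd (K ∩ H μ) 0 θ) = 1 ∧ cr μ (bd (K ∩ H μ) 0 θ) = 0 ∧
      ContDiffAt ℝ r (rad (K ∩ H μ) 0) θ ∧ 0 < deriv (deriv (rad (K ∩ H μ) 0)) θ) ∨
    (0 < derivWithin (rad (K ∩ H μ) 0) (Iic θ) θ ∧
      derivWithin (rad (K ∩ H μ) 0) (Ici θ) θ < 0) := by
  obtain ⟨hC, hC0⟩ := body_cut hK h0 μ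
  have hr1 : (1 : ℕ∞) ≤ r := le_trans (by norm_num) hr
  have hsC := cut_pw hK h0 hs μ
  have hRc : Continuous (rad K 0) := rad_continuous hK h0
  have hbc : Continuous fun t => dt μ (bd K 0 t) := by
    have : (fun t => dt μ (bd K 0 t)) = fun t => rad K 0 t * dt μ (e t) :=
      funext (G_dt_bd K μ)
    rw [this]
    exact hRc.mul (G_cont_dt μ)
  have hle : dt μ (bd (K ∩ H μ) 0 θ) ≤ 1 := (bd_mem hC hC0 θ).2
  rcases cut_eq hK h0 μ θ h with ⟨hE, hb⟩ | hq
  · left
    have hlt : dt μ (bd K 0 θ) < 1 := by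
      rw [hb] at hle
      exact lt_of_le_of_ne hle (hμ.g1 θ hE)
    refine ⟨hE, hb, hlt, ?_⟩
    filter_upwards [hbc.continuousAt.eventually (eventually_lt_nhds hlt)] with t ht
    exact G_eq_rad hK h0 ht.le
  · right
    have hCp := rad_pos hC hC0 θ
    have hq' : rad (K ∩ H μ) 0 θ * dt μ (e θ) = 1 := by
      rw [← G_dt_bd]
      exact hq
    have hm : 0 < dt μ (e θ) := by
      by_contra hn
      push Not at hn
      nlinarith
    have hge : 1 ≤ dt μ (bd K 0 θ) := by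
      rw [G_dt_bd, ← hq']
      refine mul_le_mul_of_nonneg_right ?_ hm.le
      rw [rad_cut hK h0, if_pos hm]
      exact min_le_left _ _
    obtain ⟨hl, hrr⟩ := (isEq_iff hC hC0 (pw_left hr1 hsC θ) (pw_right hr1 hsC θ)).mp h
    rcases lt_or_eq_of_le hge with hgt | heq
    · left
      have hev : rad (K ∩ H μ) 0 =ᶠ[𝓝 θ] fun t => 1 / dt μ (e t) := by
        filter_upwards [hbc.continuousAt.eventually (eventually_gt_nhds hgt)] with t ht
        exact (G_eq_inv hK h0 ht.le).2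
      have hd : HasDerivAt (rad (K ∩ H μ) 0) (cr μ (e θ) / dt μ (e θ) ^ 2) θ :=
        (G_hasDeriv_inv μ θ hm.ne').congr_of_eventuallyEq hev
      have hdl : derivWithin (rad (K ∩ H μ) 0) (Iic θ) θ = cr μ (e θ) / dt μ (e θ) ^ 2 :=
        hd.hasDerivWithinAt.derivWithin (uniqueDiffWithinAt_Iic θ)
      have hdr : derivWithin (rad (K ∩ H μ) 0) (Ici θ) θ = cr μ (e θ) / dt μ (e θ) ^ 2 :=
        hd.hasDerivWithinAt.derivWithin (uniqueDiffWithinAt_Ici θ)
      rw [hdl] at hl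
      rw [hdr] at hrr
      have hz : cr μ (e θ) / dt μ (e θ) ^ 2 = 0 := le_antisymm hrr hl
      have hc : cr μ (e θ) = 0 := by
        rcases div_eq_zero_iff.mp hz with h1 | h1
        · exact h1
        · exact absurd h1 (pow_ne_zero 2 hm.ne')
      refine ⟨hq, ?_, ?_, ?_⟩
      · rw [G_cr_bd, hc, mul_zero]
      · refine ContDiffAt.congr_of_eventuallyEq ?_ hev
        exact contDiffAt_const.div (G_contDiff_dt μ _).contDiffAt hm.ne'
      · have hev2 : deriv (rad (K ∩ H μ) 0) =ᶠ[𝓝 θ] fun t => cr μ (e t) / dt μ (e t) ^ 2 := by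
          have hpos : ∀ᶠ t in 𝓝 θ, 0 < dt μ (e t) :=
            (G_cont_dt μ).continuousAt.eventually (eventually_gt_nhds hm)
          filter_upwards [hev.eventuallyEq_nhds, hpos] with t ht ht2
          rw [ht.deriv_eq]
          exact (G_hasDeriv_inv μ t ht2.ne').deriv
        rw [hev2.deriv_eq]
        have h2 : HasDerivAt (fun t => cr μ (e t) / dt μ (e t) ^ 2)
            ((dt μ (e θ) * dt μ (e θ) ^ 2 - cr μ (e θ) *
              ((2 : ℕ) * dt μ (e θ) ^ (2 - 1) * (-(cr μ (e θ))))) / (dt μ (e θ) ^ 2) ^ 2) θ :=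
          (G_hasDeriv_cr μ θ).div ((G_hasDeriv_dt μ θ).pow 2) (pow_ne_zero 2 hm.ne')
        rw [h2.deriv, hc, zero_mul, sub_zero]
        exact div_pos (mul_pos hm (pow_pos hm 2)) (pow_pos (pow_pos hm 2) 2)
    · right
      have hne : ¬ IsEq K 0 θ := fun hE => hμ.g1 θ hE heq.symm
      have hcr : cr μ (e θ) ≠ 0 := by
        have h1 := hμ.g2 θ heq.symm
        rw [G_cr_bd] at h1
        exact right_ne_zero_of_mul h1
      have hθ1 : rad (K ∩ H μ) 0 θ = 1 / dt μ (e θ) := (G_eq_inv hK h0 hge).2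
      have hθ2 : rad (K ∩ H μ) 0 θ = rad K 0 θ := G_eq_rad hK h0 heq.symm.le
      have hnz : cr μ (e θ) / dt μ (e θ) ^ 2 ≠ 0 := div_ne_zero hcr (pow_ne_zero 2 hm.ne')
      have hrl := right_le_left hK h0 (pw_left hr1 hs θ) (pw_right hr1 hs θ)
      constructor
      · refine lt_of_le_of_ne hl fun hzero => ?_
        rcases side_left hK h0 μ θ with ⟨δ, hδ, hside⟩ | ⟨δ, hδ, hside⟩
        · have hev : rad (K ∩ H μ) 0 =ᶠ[𝓝[Iic θ] θ] fun t => 1 / dt μ (e t) := by
            filter_upwards [Icc_mem_nhdsLE (show θ - δ < θ by linarith)] with t ht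
            rcases eq_or_lt_of_le ht.2 with h1 | h1
            · rw [h1]
              exact hθ1
            · exact (G_eq_inv hK h0 (hside t ⟨ht.1, h1⟩)).2
          rw [hev.derivWithin_eq hθ1, (G_hasDeriv_inv μ θ hm.ne').hasDerivWithinAt.derivWithin
            (uniqueDiffWithinAt_Iic θ)] at hzero
          exact hnz hzero.symm
        · have hev : rad (K ∩ H μ) 0 =ᶠ[𝓝[Iic θ] θ] rad K 0 := by
            filter_upwards [Icc_mem_nhdsLE (show θ - δ < θ by linarith)] with t ht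
            rcases eq_or_lt_of_le ht.2 with h1 | h1
            · rw [h1]
              exact hθ2
            · exact G_eq_rad hK h0 (hside t ⟨ht.1, h1⟩).le
          rw [hev.derivWithin_eq hθ2] at hzero
          rw [← hzero] at hrl
          exact hne ((isEq_iff hK h0 (pw_left hr1 hs θ) (pw_right hr1 hs θ)).mpr
            ⟨hzero.le, hrl⟩)
      · refine lt_of_le_of_ne hrr fun hzero => ?_
        rcases side_right hK h0 μ θ with ⟨δ, hδ, hside⟩ | ⟨δ, hδ, hside⟩
        · have hev : rad (K ∩ H μ) 0 =ᶠ[𝓝[Ici θ] θ] fun t => 1 / dt μ (e t) := by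
            filter_upwards [Icc_mem_nhdsGE (show θ < θ + δ by linarith)] with t ht
            rcases eq_or_lt_of_le ht.1 with h1 | h1
            · rw [← h1]
              exact hθ1
            · exact (G_eq_inv hK h0 (hside t ⟨h1, ht.2⟩)).2
          rw [hev.derivWithin_eq hθ1, (G_hasDeriv_inv μ θ hm.ne').hasDerivWithinAt.derivWithin
            (uniqueDiffWithinAt_Ici θ)] at hzero
          exact hnz hzero
        · have hev : rad (K ∩ H μ) 0 =ᶠ[𝓝[Ici θ] θ] rad K 0 := by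
            filter_upwards [Icc_mem_nhdsGE (show θ < θ + δ by linarith)] with t ht
            rcases eq_or_lt_of_le ht.1 with h1 | h1
            · rw [← h1]
              exact hθ2
            · exact G_eq_rad hK h0 (hside t ⟨h1, ht.2⟩).le
          rw [hev.derivWithin_eq hθ2] at hzero
          rw [hzero] at hrl
          exact hne ((isEq_iff hK h0 (pw_left hr1 hs θ) (pw_right hr1 hs θ)).mpr
            ⟨hrl, hzero.le⟩)

end Pool.Agent.Lib.MP_707299_gt
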