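import Pool.Agent.Lib.MP_707299_gt.Lin

/-!
Row I: the centre of gravity.
-/

set_option autoImplicit false

namespace Pool.Agent.Lib.MP_707299_gt

open MeasureTheory Set Filter Topology

/-- Otherwise `dt ν x ≤ 0` on `K` for some `ν ≠ 0` (separation); the integral is `0`, so `dt ν x = 0`
a.e. on `K`, but lines are null sets (`volume_line`). -/
theorem centroid_interior {K : Set ℂ} (hK : IsBody K) (hc : ∫ x in K, x = 0) :
    (0 : ℂ) ∈ interior K := by
  by_contra h0
  obtain ⟨f, hf⟩ := geometric_hahn_banach_open_point hK.convex.interior isOpen_interior h0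
  rw [map_zero] at hf
  have hint : IntegrableOn (fun x : ℂ => f x) K :=
    f.continuous.continuousOn.integrableOn_compact hK.compact
  have h1 : ∫ x in K, f x = 0 := by
    have := f.integral_comp_comm (integrableOn_id hK.compact)
    rw [this, hc, map_zero]
  have h2 : ∫ x in K, f x = ∫ x in interior K, f x := by
    apply setIntegral_congr_set
    have h3 : K =ᵐ[volume] interior K := by
      have h4 : volume (frontier K) = 0 := hK.volume_frontier
      refine (LE.le.eventuallyLE interior_subset).antisymm ?_ |>.symm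
      rw [ae_le_set]
      refine measure_mono_null ?_ h4
      intro x hx
      exact ⟨subset_closure hx.1, hx.2⟩
    exact h3
  rw [h2] at h1
  have hint' : IntegrableOn (fun x : ℂ => f x) (interior K) := hint.mono_set interior_subset
  have hnn : 0 ≤ᵐ[volume.restrict (interior K)] fun x => -f x := by
    rw [EventuallyLE, ae_restrict_iff' measurableSet_interior]
    exact ae_of_all _ fun x hx => by
      have := hf x hx
      simp only [Pi.zero_apply]
      linarith
  have h5 : ∫ x in interior K, -f x = 0 := by rw [integral_neg, h1, neg_zero]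
  have h6 := (integral_eq_zero_iff_of_nonneg_ae hnn hint'.neg).1 h5
  have h7 : volume (interior K) = 0 := by
    have h8 : ∀ᵐ x ∂(volume.restrict (interior K)), x ∉ interior K := by
      filter_upwards [h6] with x hx hxK
      have h9 := hf x hxK
      simp only [Pi.zero_apply] at hx
      linarith
    have h10 := (ae_restrict_iff' measurableSet_interior).1 h8
    have h11 : ∀ᵐ x ∂(volume : Measure ℂ), x ∉ interior K := by
      filter_upwards [h10] with x hx hxK
      exact hx hxK hxK
    rw [ae_iff] at h11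
    simpa using h11
  exact (isOpen_interior.measure_pos volume hK.nonempty).ne' h7

private theorem map_eq (y : ℂ) (s : ℝ) (x : ℂ) :
    HasFDerivAt (fun x : ℂ => ((1 - s : ℝ) : ℂ) * y + (s : ℂ) * x)
      (s • ContinuousLinearMap.id ℝ ℂ) x := by
  have h : (fun x : ℂ => ((1 - s : ℝ) : ℂ) * y + (s : ℂ) * x) =
      fun x => ((1 - s : ℝ) : ℂ) * y + (s • ContinuousLinearMap.id ℝ ℂ) x := by
    funext x
    simp
  rw [h]
  exact ((s • ContinuousLinearMap.id ℝ ℂ).hasFDerivAt).const_add _

private theorem det_eq (s : ℝ) : (s • ContinuousLinearMap.id ℝ ℂ).det = s ^ 2 := by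
  rw [ContinuousLinearMap.det, ContinuousLinearMap.toLinearMap_smul, LinearMap.det_smul]
  simp [Complex.finrank_real_complex]

/-- For `y ∈ K` the set `(1 - s) y + s K` is contained in `K`, its volume is `s ^ 2 |K|`
(`volume_homothety`) and the integral of `dt ν` over it is `s ^ 2 |K| (1 - s) dt ν y`. -/
theorem integral_homothety {K : Set ℂ} (hK : IsBody K) (hc : ∫ x in K, x = 0) (ν : ℂ) {y : ℂ}
    {s : ℝ} (hs : 0 < s) :
    ∫ x in (fun x : ℂ => ((1 - s : ℝ) : ℂ) * y + (s : ℂ) * x) '' K, dt ν x =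
      s ^ 2 * (volume K).toReal * ((1 - s) * dt ν y) := by
  have hinj : InjOn (fun x : ℂ => ((1 - s : ℝ) : ℂ) * y + (s : ℂ) * x) K := by
    intro a _ b _ hab
    have h1 : (s : ℂ) * a = (s : ℂ) * b := add_left_cancel hab
    exact mul_left_cancel₀ (by exact_mod_cast hs.ne') h1
  rw [integral_image_eq_integral_abs_det_fderiv_smul volume hK.measurableSet
    (fun x _ => (map_eq y s x).hasFDerivWithinAt) hinj]
  have h1 : ∀ x : ℂ, |(s • ContinuousLinearMap.id ℝ ℂ).det| •
      dt ν (((1 - s : ℝ) : ℂ) * y + (s : ℂ) * x) =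
      s ^ 2 * ((1 - s) * dt ν y) + s ^ 3 * dt ν x := by
    intro x
    rw [det_eq, abs_of_nonneg (by positivity), dt_add, dt_mul, dt_mul, smul_eq_mul]
    ring
  simp_rw [h1]
  have hfin : volume K ≠ ⊤ := hK.volume_lt_top.ne
  have hci : IntegrableOn (fun _ : ℂ => s ^ 2 * ((1 - s) * dt ν y)) K volume :=
    integrableOn_const hfin
  rw [integral_add hci
    ((integrableOn_dt (integrableOn_id hK.compact) ν).const_mul _)]
  have e1 : ∫ x in K, s ^ 3 * dt ν x = 0 := by
    rw [integral_const_mul, integral_dt (integrableOn_id hK.compact), hc, dt_zero, mul_zero]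
  rw [e1, add_zero, setIntegral_const]
  simp only [Measure.real, smul_eq_mul]
  ring

private theorem homothety_subset {K : Set ℂ} (hK : IsBody K) {y : ℂ} (hy : y ∈ K) {s : ℝ}
    (hs : 0 < s) (hs1 : s ≤ 1) :
    (fun x : ℂ => ((1 - s : ℝ) : ℂ) * y + (s : ℂ) * x) '' K ⊆ K := by
  rintro _ ⟨x, hx, rfl⟩
  have := hK.convex hy hx (by linarith : 0 ≤ 1 - s) hs.le (by ring)
  simpa [Complex.real_smul] using this

private theorem homothety_meas {K : Set ℂ} (hK : IsBody K) (y : ℂ) (s : ℝ) :
    MeasurableSet ((fun x : ℂ => ((1 - s : ℝ) : ℂ) * y + (s : ℂ) * x) '' K) := by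
  have hc : Continuous (fun x : ℂ => ((1 - s : ℝ) : ℂ) * y + (s : ℂ) * x) := by fun_prop
  exact (hK.compact.image hc).measurableSet

private theorem homothety_vol {K : Set ℂ} (y : ℂ) {s : ℝ} :
    (volume ((fun x : ℂ => ((1 - s : ℝ) : ℂ) * y + (s : ℂ) * x) '' K)).toReal =
      s ^ 2 * (volume K).toReal := by
  rw [volume_homothety, ENNReal.toReal_mul, ENNReal.toReal_ofReal (by positivity)]

/-- Let `y` be a point of `K` with smallest `dt ν y = -h`. On `K' = (1 - s) y + s K` the integral is
`-s ^ 2 (1 - s) h |K|`, on `K \ K'` it is at most `(1 - s ^ 2) M |K|`, and the sum is `0`: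
`s ^ 2 h ≤ (1 + s) M`; let `s → 1`. -/
theorem half_support {K : Set ℂ} (hK : IsBody K) (hc : ∫ x in K, x = 0) {ν : ℂ} {M : ℝ}
    (hM : ∀ x ∈ K, dt ν x ≤ M) : ∀ x ∈ K, -(2 * M) ≤ dt ν x := by
  intro y hy
  have hVpos : 0 < (volume K).toReal :=
    ENNReal.toReal_pos hK.volume_pos.ne' hK.volume_lt_top.ne
  have hint : IntegrableOn (fun x : ℂ => dt ν x) K :=
    integrableOn_dt (integrableOn_id hK.compact) ν
  -- the inequality for every `s < 1`
  have key : ∀ s : ℝ, 0 < s → s < 1 → -(s ^ 2 * dt ν y) ≤ (1 + s) * M := by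
    intro s hs hs1
    set K' := (fun x : ℂ => ((1 - s : ℝ) : ℂ) * y + (s : ℂ) * x) '' K with hK'
    have hsub : K' ⊆ K := homothety_subset hK hy hs hs1.le
    have hmeas : MeasurableSet K' := homothety_meas hK y s
    have h1 : ∫ x in K, dt ν x = 0 := by
      rw [integral_dt (integrableOn_id hK.compact), hc, dt_zero]
    have h2 : ∫ x in K', dt ν x = s ^ 2 * (volume K).toReal * ((1 - s) * dt ν y) :=
      integral_homothety hK hc ν hs
    have h3 : ∫ x in K \ K', dt ν x = (∫ x in K, dt ν x) - ∫ x in K', dt ν x :=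
      setIntegral_sdiff hmeas hint hsub
    have hfinK : volume K ≠ ⊤ := hK.volume_lt_top.ne
    have hfinD : volume (K \ K') ≠ ⊤ := ((measure_mono sdiff_subset).trans_lt hK.volume_lt_top).ne
    have h4 : ∫ x in K \ K', dt ν x ≤ ∫ x in K \ K', M := by
      refine setIntegral_mono_on (hint.mono_set sdiff_subset) (integrableOn_const hfinD)
        (hK.measurableSet.diff hmeas) ?_
      intro x hx
      exact hM x hx.1
    have h5 : ∫ x in K \ K', M = (volume K).toReal * (1 - s ^ 2) * M := by
      rw [setIntegral_const, Measure.real, measure_sdiff hsub hmeas.nullMeasurableSet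
        ((measure_mono hsub).trans_lt hK.volume_lt_top).ne, ENNReal.toReal_sub_of_le
        (measure_mono hsub) hfinK, hK', homothety_vol, smul_eq_mul]
      ring
    rw [h3, h1, h2, h5] at h4
    have h6 : (volume K).toReal * (1 - s) * (-(s ^ 2 * dt ν y)) ≤
        (volume K).toReal * (1 - s) * ((1 + s) * M) := by
      nlinarith
    exact le_of_mul_le_mul_left h6 (mul_pos hVpos (by linarith))
  -- the limit
  have h7 : Tendsto (fun s : ℝ => -(s ^ 2 * dt ν y)) (𝓝[<] 1) (𝓝 (-(1 ^ 2 * dt ν y))) := by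
    apply Tendsto.mono_left _ nhdsWithin_le_nhds
    exact (Continuous.tendsto (by fun_prop) 1)
  have h8 : Tendsto (fun s : ℝ => (1 + s) * M) (𝓝[<] 1) (𝓝 ((1 + 1) * M)) := by
    apply Tendsto.mono_left _ nhdsWithin_le_nhds
    exact (Continuous.tendsto (by fun_prop) 1)
  have h9 : ∀ᶠ s : ℝ in 𝓝[<] 1, -(s ^ 2 * dt ν y) ≤ (1 + s) * M := by
    filter_upwards [Ioo_mem_nhdsLT (show (0 : ℝ) < 1 by norm_num)] with s hs
    exact key s hs.1 hs.2
  have h10 := le_of_tendsto_of_tendsto h7 h8 h9
  linarith

/-- Integrate only over `(1 - s) y + s K`. -/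
theorem pos_part_bound {K : Set ℂ} (hK : IsBody K) (hc : ∫ x in K, x = 0) {ν y : ℂ} (hy : y ∈ K)
    {s : ℝ} (hs : 0 < s) (hs1 : s ≤ 1) :
    s ^ 2 * (volume K).toReal * ((1 - s) * dt ν y - 1) ≤ ∫ x in K, max (dt ν x - 1) 0 := by
  set K' := (fun x : ℂ => ((1 - s : ℝ) : ℂ) * y + (s : ℂ) * x) '' K with hK'
  have hsub : K' ⊆ K := homothety_subset hK hy hs hs1
  have hmeas : MeasurableSet K' := homothety_meas hK y s
  have hfin' : volume K' ≠ ⊤ := ((measure_mono hsub).trans_lt hK.volume_lt_top).ne
  have hint : IntegrableOn (fun x : ℂ => dt ν x) K :=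
    integrableOn_dt (integrableOn_id hK.compact) ν
  have hint' : IntegrableOn (fun x : ℂ => dt ν x) K' := hint.mono_set hsub
  have hc' : Continuous fun x : ℂ => max (dt ν x - 1) 0 :=
    ((continuous_dt ν).sub continuous_const).max continuous_const
  have hmax : IntegrableOn (fun x : ℂ => max (dt ν x - 1) 0) K :=
    hc'.continuousOn.integrableOn_compact hK.compact
  have h1 : ∫ x in K', (dt ν x - 1) = s ^ 2 * (volume K).toReal * ((1 - s) * dt ν y - 1) := by
    rw [integral_sub hint' (integrableOn_const hfin'), hK', integral_homothety hK hc ν hs,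
      setIntegral_const, Measure.real, homothety_vol, smul_eq_mul]
    ring
  rw [← h1]
  calc ∫ x in K', (dt ν x - 1) ≤ ∫ x in K', max (dt ν x - 1) 0 := by
        refine setIntegral_mono_on (hint'.sub (integrableOn_const hfin'))
          (hmax.mono_set hsub) hmeas ?_
        intro x _
        exact le_max_left _ _
    _ ≤ ∫ x in K, max (dt ν x - 1) 0 := by
        refine setIntegral_mono_set hmax ?_ (LE.le.eventuallyLE hsub)
        exact ae_of_all _ fun x => le_max_right _ _

/-- Let `h > 4 / 3` be the maximum of `dt μ`: the integral in `pos_part_bound` is at most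
`(h - 1) |K| / 144`; take `s = 1 / 6`. -/
theorem sup_bound {K : Set ℂ} (hK : IsBody K) (hc : ∫ x in K, x = 0) {μ : ℂ}
    (hV : volume (K ∩ {x | 1 ≤ dt μ x}) < volume K / 144) : ∀ x ∈ K, dt μ x ≤ 4 / 3 := by
  intro x0 hx0
  by_contra hcon
  push Not at hcon
  have hVpos : 0 < (volume K).toReal :=
    ENNReal.toReal_pos hK.volume_pos.ne' hK.volume_lt_top.ne
  obtain ⟨y, hy, hmaxy⟩ := hK.compact.exists_isMaxOn ⟨x0, hx0⟩ (continuous_dt μ).continuousOn
  set h := dt μ y with hh
  have hle : ∀ x ∈ K, dt μ x ≤ h := fun x hx => hmaxy hx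
  have hbig : 4 / 3 < h := lt_of_lt_of_le hcon (hle x0 hx0)
  have h1 := pos_part_bound hK hc (ν := μ) hy (s := 1 / 6) (by norm_num) (by norm_num)
  rw [← hh] at h1
  set A := K ∩ {x | 1 ≤ dt μ x} with hA
  have hAm : MeasurableSet A := hK.measurableSet.inter (measurableSet_ge μ)
  have hAfin : volume A ≠ ⊤ := ((measure_mono inter_subset_left).trans_lt hK.volume_lt_top).ne
  have hcm : Continuous fun x : ℂ => max (dt μ x - 1) 0 :=
    ((continuous_dt μ).sub continuous_const).max continuous_const
  have hmaxi : IntegrableOn (fun x : ℂ => max (dt μ x - 1) 0) K :=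
    hcm.continuousOn.integrableOn_compact hK.compact
  have h2 : ∫ x in K, max (dt μ x - 1) 0 = ∫ x in A, max (dt μ x - 1) 0 := by
    refine setIntegral_eq_of_subset_of_forall_sdiff_eq_zero hK.measurableSet inter_subset_left ?_
    intro x hx
    have h3 : ¬ (1 ≤ dt μ x) := fun h => hx.2 ⟨hx.1, h⟩
    exact max_eq_right (by linarith)
  have h3 : ∫ x in A, max (dt μ x - 1) 0 ≤ ∫ x in A, (h - 1) := by
    refine setIntegral_mono_on (hmaxi.mono_set inter_subset_left) (integrableOn_const hAfin)
      hAm ?_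
    intro x hx
    refine max_le ?_ (by linarith)
    linarith [hle x hx.1]
  have h4 : ∫ x in A, (h - 1) = (volume A).toReal * (h - 1) := by
    rw [setIntegral_const, Measure.real, smul_eq_mul]
  have h5 : (volume A).toReal ≤ (volume K).toReal / 144 := by
    have h6 := ENNReal.toReal_mono (by
      exact (ENNReal.div_lt_top hK.volume_lt_top.ne (by norm_num)).ne) hV.le
    rw [ENNReal.toReal_div] at h6
    simpa using h6
  rw [h2] at h1
  have h7 : (volume A).toReal * (h - 1) ≤ (volume K).toReal / 144 * (h - 1) :=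
    mul_le_mul_of_nonneg_right h5 (by linarith)
  nlinarith

end Pool.Agent.Lib.MP_707299_gt
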