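import Pool.Agent.Lib.MP_707299_gt.A

/-!
Row J1: the regular polygon.
-/

set_option autoImplicit false

namespace Pool.Agent.Lib.MP_707299_gt

open MeasureTheory Set Filter Topology

private theorem J1_e_add (a b : ℝ) : e (a + b) = e a * e b := by
  unfold e
  rw [← Complex.exp_add]
  congr 1
  push_cast
  ring

private theorem J1_dt_e (a b : ℝ) : dt (e a) (e b) = Real.cos (a - b) := by
  unfold dt
  rw [e_re, e_im, e_re, e_im, Real.cos_sub]

theorem poly_vertex {n : ℕ} (hn : 0 < n) (k : ℤ) :
    e (2 * k * Real.pi / n) ∈ regularPolygon n := by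
  have hnz : (n : ℤ) ≠ 0 := by exact_mod_cast hn.ne'
  have h0 : 0 ≤ k % n := Int.emod_nonneg k hnz
  have h1 : k % n < n := Int.emod_lt_of_pos k (by exact_mod_cast hn)
  have hk : k % n + n * (k / n) = k := Int.emod_add_mul_ediv k n
  have hlt : (k % n).toNat < n := by
    have := Int.toNat_of_nonneg h0
    omega
  apply subset_convexHull ℝ
  refine ⟨⟨(k % n).toNat, hlt⟩, ?_⟩
  have hcast : (((k % n).toNat : ℕ) : ℝ) = ((k % n : ℤ) : ℝ) := by
    have := Int.toNat_of_nonneg h0
    exact_mod_cast this
  have hnr : (n : ℝ) ≠ 0 := by exact_mod_cast hn.ne'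
  have hkr : ((k % n : ℤ) : ℝ) + n * ((k / n : ℤ) : ℝ) = (k : ℝ) := by exact_mod_cast hk
  have he : 2 * (k : ℝ) * Real.pi / n =
      2 * Real.pi * ((k % n : ℤ) : ℝ) / n + ((k / n : ℤ) : ℝ) * (2 * Real.pi) := by
    rw [← hkr]
    field_simp
  rw [he, e_period]
  simp only
  rw [hcast]

private theorem J1_range {n : ℕ} (x : ℂ) (hx : x ∈ range fun k : Fin n => e (2 * Real.pi * k / n)) :
    ∃ k : ℤ, x = e (2 * k * Real.pi / n) := by
  obtain ⟨k, rfl⟩ := hx
  refine ⟨(k : ℕ), ?_⟩
  simp only
  congr 1
  push_cast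
  ring

theorem poly_norm (n : ℕ) : ∀ x ∈ regularPolygon n, ‖x‖ ≤ 1 := by
  intro x hx
  have h : regularPolygon n ⊆ Metric.closedBall (0 : ℂ) 1 := by
    apply convexHull_min _ (convex_closedBall 0 1)
    rintro y ⟨k, rfl⟩
    simp only [Metric.mem_closedBall, dist_zero_right]
    exact (norm_e _).le
  have := h hx
  simpa using this

/-- `2 j + 1` is odd: modulo `2 n` one may take `|2 j + 1| ≤ n`, and `1 ≤ |2 j + 1|`. -/
theorem cos_odd {n : ℕ} (hn : 1 ≤ n) (j : ℤ) :
    Real.cos ((2 * j + 1) * Real.pi / n) ≤ Real.cos (Real.pi / n) := by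
  have hnr : (0 : ℝ) < n := by exact_mod_cast hn
  have hpi := Real.pi_pos
  set r : ℤ := (2 * j + 1) % (2 * n) with hr
  set q : ℤ := (2 * j + 1) / (2 * n) with hq
  have hrq : r + 2 * n * q = 2 * j + 1 := Int.emod_add_mul_ediv (2 * j + 1) (2 * n)
  have h0 : 0 ≤ r := Int.emod_nonneg _ (by positivity)
  have h1 : r < 2 * n := Int.emod_lt_of_pos _ (by positivity)
  have hodd : 1 ≤ r ∧ r ≤ 2 * n - 1 := by
    constructor
    · rcases eq_or_lt_of_le h0 with h | h
      · exfalso
        rw [← h] at hrq
        have : (2 : ℤ) * (n * q) = 2 * j + 1 := by linarith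
        omega
      · omega
    · omega
  have hrqr : (r : ℝ) + 2 * n * q = 2 * j + 1 := by exact_mod_cast hrq
  have he : (2 * (j : ℝ) + 1) * Real.pi / n = r * Real.pi / n + q * (2 * Real.pi) := by
    rw [← hrqr]
    field_simp
  rw [he, Real.cos_add_int_mul_two_pi]
  have hr1 : (1 : ℝ) ≤ r := by exact_mod_cast hodd.1
  have hr2 : (r : ℝ) ≤ 2 * n - 1 := by exact_mod_cast hodd.2
  rcases le_total ((r : ℝ) * Real.pi / n) Real.pi with h | h
  · apply Real.cos_le_cos_of_nonneg_of_le_pi (by positivity) h
    apply div_le_div_of_nonneg_right _ hnr.le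
    nlinarith
  · have e1 : Real.cos (r * Real.pi / n) = Real.cos (2 * Real.pi - r * Real.pi / n) := by
      rw [Real.cos_two_pi_sub]
    rw [e1]
    apply Real.cos_le_cos_of_nonneg_of_le_pi (by positivity) (by linarith)
    have : 2 * Real.pi - r * Real.pi / n = (2 * n - r) * Real.pi / n := by
      field_simp
    rw [this]
    apply div_le_div_of_nonneg_right _ hnr.le
    nlinarith

theorem poly_support {n : ℕ} (hn : 1 ≤ n) (k : ℤ) :
    ∀ x ∈ regularPolygon n, dt x (e ((2 * k + 1) * Real.pi / n)) ≤ Real.cos (Real.pi / n) := by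
  intro x hx
  have h : regularPolygon n ⊆
      {x | dt x (e ((2 * k + 1) * Real.pi / n)) ≤ Real.cos (Real.pi / n)} := by
    apply convexHull_min
    · intro y hy
      obtain ⟨i, rfl⟩ := J1_range y hy
      simp only [Set.mem_ofPred_eq]
      rw [J1_dt_e]
      have := cos_odd hn (i - k - 1)
      have e1 : 2 * (i : ℝ) * Real.pi / n - (2 * k + 1) * Real.pi / n =
          (2 * ((i - k - 1 : ℤ) : ℝ) + 1) * Real.pi / n := by
        push_cast
        ring
      rw [e1]
      exact this
    · intro y hy z hz a b ha hb hab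
      simp only [Set.mem_ofPred_eq] at *
      rw [dt_comm, dt_add, dt_smul, dt_smul, dt_comm _ y, dt_comm _ z]
      have e1 := mul_le_mul_of_nonneg_left hy ha
      have e2 := mul_le_mul_of_nonneg_left hz hb
      have e3 : a * Real.cos (Real.pi / n) + b * Real.cos (Real.pi / n) =
          Real.cos (Real.pi / n) := by
        rw [← add_mul, hab, one_mul]
      linarith
  exact h hx

private theorem J1_image_convex (n : ℕ) (w : ℂ) :
    Convex ℝ ((fun x : ℂ => w * x) '' regularPolygon n) := by
  have h : Convex ℝ (regularPolygon n) := convex_convexHull ℝ _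
  intro x hx y hy a b ha hb hab
  obtain ⟨x', hx', rfl⟩ := hx
  obtain ⟨y', hy', rfl⟩ := hy
  refine ⟨a • x' + b • y', h hx' hy' ha hb hab, ?_⟩
  simp only [Complex.real_smul]
  ring

/-- Symmetry: multiplication by `e (2π / n)`. -/
theorem poly_rot {n : ℕ} (hn : 1 ≤ n) :
    (fun x : ℂ => e (2 * Real.pi / n) * x) '' regularPolygon n = regularPolygon n := by
  have hn0 : 0 < n := hn
  apply Subset.antisymm
  · rintro _ ⟨x, hx, rfl⟩
    simp only
    have hsub : regularPolygon n ⊆ (fun x : ℂ => e (2 * Real.pi / n) * x) ⁻¹' regularPolygon n := by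
      apply convexHull_min
      · intro y hy
        obtain ⟨k, rfl⟩ := J1_range y hy
        simp only [mem_preimage]
        rw [← J1_e_add]
        have e1 : 2 * Real.pi / n + 2 * (k : ℝ) * Real.pi / n =
            2 * ((k + 1 : ℤ) : ℝ) * Real.pi / n := by
          push_cast
          ring
        rw [e1]
        exact poly_vertex hn0 _
      · have h : Convex ℝ (regularPolygon n) := convex_convexHull ℝ _
        intro x hx y hy a b ha hb hab
        simp only [mem_preimage] at *
        have := h hx hy ha hb hab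
        simp only [Complex.real_smul] at *
        convert this using 1
        ring
    exact hsub hx
  · apply convexHull_min _ (J1_image_convex n _)
    intro y hy
    obtain ⟨k, rfl⟩ := J1_range y hy
    refine ⟨e (2 * ((k - 1 : ℤ) : ℝ) * Real.pi / n), poly_vertex hn0 _, ?_⟩
    simp only
    rw [← J1_e_add]
    congr 1
    push_cast
    ring

private theorem J1_pos {n : ℕ} (hn : 2 ≤ n) : 0 < 2 * Real.pi / n ∧ 2 * Real.pi / n ≤ Real.pi := by
  have hpi := Real.pi_pos
  have h2 : (2 : ℝ) ≤ n := by exact_mod_cast hn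
  constructor
  · positivity
  · rw [div_le_iff₀ (by linarith)]
    nlinarith

/-- The integral is multiplied by `e (2π / n) ≠ 1`. -/
theorem poly_integral {n : ℕ} (hn : 2 ≤ n) : ∫ x in regularPolygon n, x = 0 := by
  have hrot := poly_rot (n := n) (by omega)
  have hf : (fun x : ℂ => e (2 * Real.pi / n) * x) =
      (rotation (Circle.exp (2 * Real.pi / n)) : ℂ → ℂ) := by
    funext x
    rw [rotation_apply, Circle.coe_exp]
    rfl
  have hmp : MeasurePreserving (fun x : ℂ => e (2 * Real.pi / n) * x) volume volume := by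
    rw [hf]
    exact (rotation (Circle.exp (2 * Real.pi / n))).measurePreserving
  have hemb : MeasurableEmbedding (fun x : ℂ => e (2 * Real.pi / n) * x) := by
    rw [hf]
    exact (rotation (Circle.exp (2 * Real.pi / n))).toHomeomorph.measurableEmbedding
  have h := hmp.setIntegral_image_emb hemb (fun y => y) (regularPolygon n)
  rw [hrot] at h
  have h2 : ∫ x in regularPolygon n, e (2 * Real.pi / n) * x =
      e (2 * Real.pi / n) * ∫ x in regularPolygon n, x := integral_const_mul _ _
  rw [h2] at h
  have hne : e (2 * Real.pi / n) ≠ 1 := by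
    intro hcon
    have h3 : (e (2 * Real.pi / n)).re = 1 := by rw [hcon]; rfl
    rw [e_re] at h3
    obtain ⟨p1, p2⟩ := J1_pos hn
    have := Real.cos_lt_cos_of_nonneg_of_le_pi le_rfl p2 p1
    rw [Real.cos_zero, h3] at this
    exact lt_irrefl _ this
  have h4 : (1 - e (2 * Real.pi / n)) * ∫ x in regularPolygon n, x = 0 := by
    rw [sub_mul, one_mul, ← h, sub_self]
  rcases mul_eq_zero.1 h4 with h5 | h5
  · exact absurd (sub_eq_zero.1 h5).symm hne
  · exact h5

theorem poly_body {n : ℕ} (hn : 3 ≤ n) : IsBody (regularPolygon n) := by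
  refine ⟨convex_convexHull ℝ _, ?_, ?_⟩
  · exact (Set.finite_range _).isCompact_convexHull ℝ
  · unfold regularPolygon
    rw [interior_convexHull_nonempty_iff_affineSpan_eq_top]
    set S := range fun k : Fin n => e (2 * Real.pi * k / n) with hS
    have m0 : e 0 ∈ S := ⟨⟨0, by omega⟩, by simp⟩
    have m1 : e (2 * Real.pi / n) ∈ S := ⟨⟨1, by omega⟩, by simp⟩
    have m2 : e (2 * (2 * Real.pi / n)) ∈ S := by
      refine ⟨⟨2, by omega⟩, ?_⟩
      simp only
      congr 1
      push_cast
      ring
    rw [AffineSubspace.affineSpan_eq_top_iff_vectorSpan_eq_top_of_nonempty ℝ ℂ ℂ ⟨_, m0⟩]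
    have s1 := vsub_mem_vectorSpan ℝ m1 m0
    have s2 := vsub_mem_vectorSpan ℝ m2 m0
    rw [vsub_eq_sub] at s1 s2
    set α := 2 * Real.pi / n with hα
    have hcr : cr (e α - e 0) (e (2 * α) - e 0) = 2 * Real.sin α * (1 - Real.cos α) := by
      unfold cr
      simp only [Complex.sub_re, Complex.sub_im, e_re, e_im, Real.cos_zero, Real.sin_zero,
        Real.cos_two_mul, Real.sin_two_mul]
      ring
    have hpos : 0 < α ∧ α < Real.pi := by
      have hpi := Real.pi_pos
      have h2 : (3 : ℝ) ≤ n := by exact_mod_cast hn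
      constructor
      · rw [hα]; positivity
      · rw [hα, div_lt_iff₀ (by linarith)]
        nlinarith
    have hsin : 0 < Real.sin α := Real.sin_pos_of_pos_of_lt_pi hpos.1 hpos.2
    have hcos : Real.cos α < 1 := by
      have := Real.cos_lt_cos_of_nonneg_of_le_pi le_rfl hpos.2.le hpos.1
      rwa [Real.cos_zero] at this
    have hne : cr (e α - e 0) (e (2 * α) - e 0) ≠ 0 := by
      rw [hcr]
      have : 0 < 2 * Real.sin α * (1 - Real.cos α) := by
        have : 0 < 1 - Real.cos α := by linarith
        positivity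
      exact this.ne'
    rw [eq_top_iff]
    intro x _
    rw [basis_eq _ _ x hne]
    apply Submodule.add_mem
    · have := Submodule.smul_mem _ (cr x (e (2 * α) - e 0) / cr (e α - e 0) (e (2 * α) - e 0)) s1
      rwa [Complex.real_smul] at this
    · have := Submodule.smul_mem _ (cr (e α - e 0) x / cr (e α - e 0) (e (2 * α) - e 0)) s2
      rwa [Complex.real_smul] at this

theorem poly_volume_le (n : ℕ) : volume (regularPolygon n) ≤ ENNReal.ofReal Real.pi := by
  have h : regularPolygon n ⊆ Metric.closedBall (0 : ℂ) 1 := by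
    intro x hx
    simpa using poly_norm n x hx
  refine (measure_mono h).trans ?_
  rw [Complex.volume_closedBall]
  have e1 : ENNReal.ofReal Real.pi = (NNReal.pi : ENNReal) := by
    rw [ENNReal.ofReal, Real.toNNReal_of_nonneg Real.pi_pos.le]
    rfl
  rw [e1]
  simp

end Pool.Agent.Lib.MP_707299_gt
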