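import Pool.Agent.Lib.MP_707299_gt.Lin

/-!
Row V: area of a triangle and of a parallelogram.
-/

set_option autoImplicit false

namespace Pool.Agent.Lib.MP_707299_gt

open MeasureTheory Set Filter Topology

/-- the linear map `z ↦ z.re * u + z.im * w` -/
private noncomputable def V_lin (u w : ℂ) : ℂ →ₗ[ℝ] ℂ where
  toFun z := (z.re : ℂ) * u + (z.im : ℂ) * w
  map_add' x y := by simp; ring
  map_smul' t x := by simp; ring

private theorem V_lin_apply (u w z : ℂ) : V_lin u w z = (z.re : ℂ) * u + (z.im : ℂ) * w := rfl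

private theorem V_det (u w : ℂ) : LinearMap.det (V_lin u w) = cr u w := by
  rw [← LinearMap.det_toMatrix Complex.basisOneI, Matrix.det_fin_two]
  simp [LinearMap.toMatrix_apply, V_lin_apply, cr]
  ring

private theorem V_image (v u w : ℂ) (S : Set ℂ) :
    volume ((fun z : ℂ => v + ((z.re : ℂ) * u + (z.im : ℂ) * w)) '' S) =
      ENNReal.ofReal |cr u w| * volume S := by
  have h1 : (fun z : ℂ => v + ((z.re : ℂ) * u + (z.im : ℂ) * w)) '' S =
      (fun x => v + x) '' (V_lin u w '' S) := by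
    rw [image_image]
    rfl
  rw [h1, image_add_left, measure_preimage_add, Measure.addHaar_image_linearMap, V_det]

private theorem V_open {κ : ℝ} (hκ : 0 ≤ κ) :
    volume {z : ℂ | 0 < z.re ∧ 0 < z.im ∧ z.re + z.im < κ} = ENNReal.ofReal (κ ^ 2 / 2) := by
  have h1 : {z : ℂ | 0 < z.re ∧ 0 < z.im ∧ z.re + z.im < κ} =
      Complex.measurableEquivRealProd ⁻¹' (regionBetween (fun _ => 0) (fun x => κ - x) (Ioo 0 κ)) := by
    ext z
    simp only [mem_ofPred_eq, mem_preimage, regionBetween, mem_Ioo,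
      Complex.measurableEquivRealProd_apply]
    constructor
    · rintro ⟨h1, h2, h3⟩
      exact ⟨⟨h1, by linarith⟩, h2, by linarith⟩
    · rintro ⟨⟨h1, h2⟩, h3, h4⟩
      exact ⟨h1, h3, by linarith⟩
  rw [h1, Complex.volume_preserving_equiv_real_prod.measure_preimage_equiv,
    Measure.volume_eq_prod, volume_regionBetween_eq_integral]
  · congr 1
    have h2 : ∀ y : ℝ, ((fun x => κ - x) - (fun _ => 0) : ℝ → ℝ) y = κ - y := by
      intro y
      simp
    simp_rw [h2]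
    rw [← integral_Ioc_eq_integral_Ioo, ← intervalIntegral.integral_of_le hκ,
      intervalIntegral.integral_sub (by simp) (by simp)]
    simp
    ring
  · exact integrableOn_zero
  · exact ((continuous_const.sub continuous_id).integrableOn_Icc).mono_set Ioo_subset_Icc_self
  · exact measurableSet_Ioo
  · intro x hx
    simp only [mem_Ioo] at hx
    linarith [hx.2]

private theorem V_closed {κ : ℝ} (hκ : 0 ≤ κ) :
    volume {z : ℂ | 0 ≤ z.re ∧ 0 ≤ z.im ∧ z.re + z.im ≤ κ} = ENNReal.ofReal (κ ^ 2 / 2) := by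
  apply le_antisymm
  · have hsub : {z : ℂ | 0 ≤ z.re ∧ 0 ≤ z.im ∧ z.re + z.im ≤ κ} ⊆
        {z : ℂ | 0 < z.re ∧ 0 < z.im ∧ z.re + z.im < κ} ∪
          ({x : ℂ | dt 1 x = 0} ∪ ({x : ℂ | dt Complex.I x = 0} ∪
            {x : ℂ | dt (1 + Complex.I) x = κ})) := by
      intro z hz
      simp only [mem_ofPred_eq] at hz
      simp only [mem_union, mem_ofPred_eq, dt, Complex.one_re, Complex.one_im, Complex.I_re,
        Complex.I_im, Complex.add_re, Complex.add_im]
      rcases hz.1.eq_or_lt with h1 | h1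
      · right; left
        rw [← h1]; ring
      · rcases hz.2.1.eq_or_lt with h2 | h2
        · right; right; left
          rw [← h2]; ring
        · rcases hz.2.2.eq_or_lt with h3 | h3
          · right; right; right
            linarith
          · left
            exact ⟨h1, h2, h3⟩
    refine (measure_mono hsub).trans ((measure_union_le _ _).trans ?_)
    have h1 : volume ({x : ℂ | dt 1 x = 0} ∪ ({x : ℂ | dt Complex.I x = 0} ∪
        {x : ℂ | dt (1 + Complex.I) x = κ})) = 0 := by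
      rw [measure_union_null_iff, measure_union_null_iff]
      refine ⟨volume_line _ _ one_ne_zero, volume_line _ _ Complex.I_ne_zero,
        volume_line _ _ ?_⟩
      intro h
      simpa using congrArg Complex.re h
    rw [h1, add_zero, V_open hκ]
  · rw [← V_open hκ]
    apply measure_mono
    intro z hz
    exact ⟨hz.1.le, hz.2.1.le, hz.2.2.le⟩

/-- Image of the triangle `{(α, β) : 0 ≤ α, 0 ≤ β, α + β ≤ κ}` (area `κ ^ 2 / 2`) under a linear map of
determinant `cr u w` and a translation (if `cr u w = 0` the set lies in a line). -/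
theorem vol_triangle (v u w : ℂ) {κ : ℝ} (hκ : 0 ≤ κ) :
    volume {x : ℂ | ∃ α β : ℝ, 0 ≤ α ∧ 0 ≤ β ∧ α + β ≤ κ ∧ x = v + (α : ℂ) * u + (β : ℂ) * w} =
      ENNReal.ofReal (κ ^ 2 * |cr u w| / 2) := by
  have h1 : {x : ℂ | ∃ α β : ℝ, 0 ≤ α ∧ 0 ≤ β ∧ α + β ≤ κ ∧
      x = v + (α : ℂ) * u + (β : ℂ) * w} =
      (fun z : ℂ => v + ((z.re : ℂ) * u + (z.im : ℂ) * w)) ''
        {z : ℂ | 0 ≤ z.re ∧ 0 ≤ z.im ∧ z.re + z.im ≤ κ} := by
    ext x
    constructor
    · rintro ⟨α, β, h1, h2, h3, rfl⟩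
      exact ⟨⟨α, β⟩, ⟨h1, h2, h3⟩, by ring⟩
    · rintro ⟨z, ⟨h1, h2, h3⟩, rfl⟩
      exact ⟨z.re, z.im, h1, h2, h3, by ring⟩
  rw [h1, V_image, V_closed hκ, ← ENNReal.ofReal_mul (abs_nonneg _)]
  congr 1
  ring

theorem vol_triangle_open (v u w : ℂ) {κ : ℝ} (hκ : 0 ≤ κ) :
    volume {x : ℂ | ∃ α β : ℝ, 0 < α ∧ 0 < β ∧ α + β < κ ∧ x = v + (α : ℂ) * u + (β : ℂ) * w} =
      ENNReal.ofReal (κ ^ 2 * |cr u w| / 2) := by
  have h1 : {x : ℂ | ∃ α β : ℝ, 0 < α ∧ 0 < β ∧ α + β < κ ∧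
      x = v + (α : ℂ) * u + (β : ℂ) * w} =
      (fun z : ℂ => v + ((z.re : ℂ) * u + (z.im : ℂ) * w)) ''
        {z : ℂ | 0 < z.re ∧ 0 < z.im ∧ z.re + z.im < κ} := by
    ext x
    constructor
    · rintro ⟨α, β, h1, h2, h3, rfl⟩
      exact ⟨⟨α, β⟩, ⟨h1, h2, h3⟩, by ring⟩
    · rintro ⟨z, ⟨h1, h2, h3⟩, rfl⟩
      exact ⟨z.re, z.im, h1, h2, h3, by ring⟩
  rw [h1, V_image, V_open hκ, ← ENNReal.ofReal_mul (abs_nonneg _)]
  congr 1
  ring

end Pool.Agent.Lib.MP_707299_gt
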