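import Pool.Agent.Lib.MP_707299_gt.J1
import Pool.Agent.Lib.MP_707299_gt.V

/-!
Row J2: the triangle near a vertex of the regular polygon.
-/

set_option autoImplicit false

namespace Pool.Agent.Lib.MP_707299_gt

open MeasureTheory Set Filter Topology

/-- A small open triangle at the vertex with number `k`. -/
def corner (n : ℕ) (k : ℤ) (κ : ℝ) : Set ℂ :=
  {x : ℂ | ∃ α β : ℝ, 0 < α ∧ 0 < β ∧ α + β < κ ∧ x = e (2 * k * Real.pi / n) +
    (α : ℂ) * (e (2 * (k - 1) * Real.pi / n) - e (2 * k * Real.pi / n)) +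
    (β : ℂ) * (e (2 * (k + 1) * Real.pi / n) - e (2 * k * Real.pi / n))}

theorem J2_cr_e (a b : ℝ) : cr (e a) (e b) = Real.sin (b - a) := by
  unfold cr
  rw [e_re, e_re, e_im, e_im, Real.sin_sub]
  ring

theorem J2_dt_e (a b : ℝ) : dt (e a) (e b) = Real.cos (a - b) := by
  unfold dt
  rw [e_re, e_re, e_im, e_im, Real.cos_sub]

theorem J2_cos_lt {n : ℕ} (hn : 3 ≤ n) : Real.cos (2 * Real.pi / n) < 1 := by
  have hn' : (3 : ℝ) ≤ n := by exact_mod_cast hn
  have hpi := Real.pi_pos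
  have h1 : 0 < 2 * Real.pi / n := by positivity
  have h2 : 2 * Real.pi / n ≤ Real.pi := by
    rw [div_le_iff₀ (by positivity)]
    nlinarith
  have := Real.cos_lt_cos_of_nonneg_of_le_pi le_rfl h2 h1
  rwa [Real.cos_zero] at this

theorem J2_sin_nonneg {n : ℕ} (hn : 3 ≤ n) : 0 ≤ Real.sin (2 * Real.pi / n) := by
  have hn' : (3 : ℝ) ≤ n := by exact_mod_cast hn
  have hpi := Real.pi_pos
  apply Real.sin_nonneg_of_nonneg_of_le_pi (by positivity)
  rw [div_le_iff₀ (by positivity)]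
  nlinarith

theorem corner_sub {n : ℕ} (hn : 1 ≤ n) (k : ℤ) {κ : ℝ} (hκ : κ ≤ 1) :
    corner n k κ ⊆ regularPolygon n := by
  rintro x ⟨α, β, hα, hβ, hαβ, rfl⟩
  have hv0 := poly_vertex (n := n) (by omega) k
  have hv1 := poly_vertex (n := n) (by omega) (k - 1)
  have hv2 := poly_vertex (n := n) (by omega) (k + 1)
  push_cast at hv1 hv2
  have hconv : Convex ℝ (regularPolygon n) := convex_convexHull ℝ _
  set v : ℂ := e (2 * k * Real.pi / n) with hv
  set v1 : ℂ := e (2 * (k - 1) * Real.pi / n) with hv1'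
  set v2 : ℂ := e (2 * (k + 1) * Real.pi / n) with hv2'
  have hs : 0 < α + β := by positivity
  have hq : (α / (α + β)) • v1 + (β / (α + β)) • v2 ∈ regularPolygon n := by
    apply hconv hv1 hv2 (by positivity) (by positivity)
    field_simp
  have hz := hconv hq hv0 hs.le (sub_nonneg.2 (hαβ.le.trans hκ)) (by ring)
  have heq : v + (α : ℂ) * (v1 - v) + (β : ℂ) * (v2 - v) =
      (α + β) • ((α / (α + β)) • v1 + (β / (α + β)) • v2) + (1 - (α + β)) • v := by
    rw [smul_add, smul_smul, smul_smul, mul_div_cancel₀ _ hs.ne', mul_div_cancel₀ _ hs.ne',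
      Complex.real_smul, Complex.real_smul, Complex.real_smul]
    push_cast
    ring
  rw [heq]
  exact hz

/-- `vol_triangle_open`; `|cr u w| = 2 sin (2π / n) (1 - cos (2π / n))`. -/
theorem corner_volume {n : ℕ} (hn : 3 ≤ n) (k : ℤ) {κ : ℝ} (hκ : 0 ≤ κ) :
    volume (corner n k κ) = ENNReal.ofReal
      (κ ^ 2 * (Real.sin (2 * Real.pi / n) * (1 - Real.cos (2 * Real.pi / n)))) := by
  unfold corner
  rw [vol_triangle_open _ _ _ hκ]
  congr 1
  have hn0 : (n : ℝ) ≠ 0 := by
    have : 0 < n := by omega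
    positivity
  have h1 : cr (e (2 * (k - 1) * Real.pi / n) - e (2 * k * Real.pi / n))
      (e (2 * (k + 1) * Real.pi / n) - e (2 * k * Real.pi / n)) =
      -(2 * (Real.sin (2 * Real.pi / n) * (1 - Real.cos (2 * Real.pi / n)))) := by
    have h2 : cr (e (2 * (k - 1) * Real.pi / n) - e (2 * k * Real.pi / n))
        (e (2 * (k + 1) * Real.pi / n) - e (2 * k * Real.pi / n)) =
        cr (e (2 * (k - 1) * Real.pi / n)) (e (2 * (k + 1) * Real.pi / n)) -
        cr (e (2 * (k - 1) * Real.pi / n)) (e (2 * k * Real.pi / n)) -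
        cr (e (2 * k * Real.pi / n)) (e (2 * (k + 1) * Real.pi / n)) := by
      unfold cr
      simp only [Complex.sub_re, Complex.sub_im]
      ring
    rw [h2, J2_cr_e, J2_cr_e, J2_cr_e]
    have e1 : 2 * ((k : ℝ) + 1) * Real.pi / n - 2 * (k - 1) * Real.pi / n =
        2 * (2 * Real.pi / n) := by ring
    have e2 : 2 * (k : ℝ) * Real.pi / n - 2 * (k - 1) * Real.pi / n = 2 * Real.pi / n := by ring
    have e3 : 2 * ((k : ℝ) + 1) * Real.pi / n - 2 * k * Real.pi / n = 2 * Real.pi / n := by ring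
    rw [e1, e2, e3, Real.sin_two_mul]
    ring
  have h3 := J2_cos_lt hn
  have h4 := J2_sin_nonneg hn
  rw [h1, abs_neg, abs_of_nonneg (by nlinarith)]
  ring

/-- `dt x v = 1 - (α + β) (1 - cos (2π / n))`, `v` the vertex. -/
theorem corner_norm {n : ℕ} (hn : 3 ≤ n) (k : ℤ) {κ : ℝ} :
    ∀ x ∈ corner n k κ, 1 - κ * (1 - Real.cos (2 * Real.pi / n)) < ‖x‖ := by
  rintro x ⟨α, β, hα, hβ, hαβ, rfl⟩
  have h3 := J2_cos_lt hn
  have h1 := dt_le (e (2 * k * Real.pi / n) +
    (α : ℂ) * (e (2 * (k - 1) * Real.pi / n) - e (2 * k * Real.pi / n)) +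
    (β : ℂ) * (e (2 * (k + 1) * Real.pi / n) - e (2 * k * Real.pi / n))) (e (2 * k * Real.pi / n))
  rw [norm_e, mul_one] at h1
  have h2 : dt (e (2 * k * Real.pi / n) +
      (α : ℂ) * (e (2 * (k - 1) * Real.pi / n) - e (2 * k * Real.pi / n)) +
      (β : ℂ) * (e (2 * (k + 1) * Real.pi / n) - e (2 * k * Real.pi / n)))
      (e (2 * k * Real.pi / n)) = 1 - (α + β) * (1 - Real.cos (2 * Real.pi / n)) := by
    rw [add_dt, add_dt, mul_dt, mul_dt, sub_dt, sub_dt, J2_dt_e, J2_dt_e, J2_dt_e]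
    have e1 : 2 * (k : ℝ) * Real.pi / n - 2 * k * Real.pi / n = 0 := by ring
    have e2 : 2 * ((k : ℝ) - 1) * Real.pi / n - 2 * k * Real.pi / n = -(2 * Real.pi / n) := by ring
    have e3 : 2 * ((k : ℝ) + 1) * Real.pi / n - 2 * k * Real.pi / n = 2 * Real.pi / n := by ring
    rw [e1, e2, e3, Real.cos_neg, Real.cos_zero]
    ring
  rw [h2] at h1
  nlinarith

/-- `cr (e ((2 k - 1) π / n)) x = (1 - 2 α - β) sin (π / n) + β sin (3 π / n)`, similarly the other one. -/
theorem corner_cone {n : ℕ} (hn : 6 ≤ n) (k : ℤ) {κ : ℝ} (hκ : κ ≤ 1 / 3) :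
    ∀ x ∈ corner n k κ, Real.sin (Real.pi / n) / 3 ≤ cr (e ((2 * k - 1) * Real.pi / n)) x ∧
      Real.sin (Real.pi / n) / 3 ≤ cr x (e ((2 * k + 1) * Real.pi / n)) := by
  rintro x ⟨α, β, hα, hβ, hαβ, rfl⟩
  have hn' : (6 : ℝ) ≤ n := by exact_mod_cast hn
  have hpi := Real.pi_pos
  have hs : 0 ≤ Real.sin (Real.pi / n) := by
    apply Real.sin_nonneg_of_nonneg_of_le_pi (by positivity)
    rw [div_le_iff₀ (by positivity)]
    nlinarith
  have hs3 : 0 ≤ Real.sin (3 * (Real.pi / n)) := by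
    apply Real.sin_nonneg_of_nonneg_of_le_pi (by positivity)
    rw [mul_div_assoc', div_le_iff₀ (by positivity)]
    nlinarith
  constructor
  · have h2 : cr (e ((2 * k - 1) * Real.pi / n)) (e (2 * k * Real.pi / n) +
        (α : ℂ) * (e (2 * (k - 1) * Real.pi / n) - e (2 * k * Real.pi / n)) +
        (β : ℂ) * (e (2 * (k + 1) * Real.pi / n) - e (2 * k * Real.pi / n))) =
        (1 - 2 * α - β) * Real.sin (Real.pi / n) + β * Real.sin (3 * (Real.pi / n)) := by
      rw [sub_eq_add_neg (e (2 * (k - 1) * Real.pi / n)), sub_eq_add_neg (e (2 * (k + 1) * Real.pi / n)),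
        ← neg_one_mul (e (2 * k * Real.pi / n))]
      have hneg : (-1 : ℂ) = ((-1 : ℝ) : ℂ) := by norm_num
      rw [hneg, cr_add, cr_add, cr_mul, cr_mul, cr_add, cr_add, cr_mul, J2_cr_e, J2_cr_e, J2_cr_e]
      have e1 : 2 * (k : ℝ) * Real.pi / n - (2 * k - 1) * Real.pi / n = Real.pi / n := by ring
      have e2 : 2 * ((k : ℝ) - 1) * Real.pi / n - (2 * k - 1) * Real.pi / n = -(Real.pi / n) := by
        ring
      have e3 : 2 * ((k : ℝ) + 1) * Real.pi / n - (2 * k - 1) * Real.pi / n =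
        3 * (Real.pi / n) := by ring
      rw [e1, e2, e3, Real.sin_neg]
      ring
    rw [h2]
    nlinarith [mul_nonneg hβ.le hs3]
  · have h2 : cr (e (2 * k * Real.pi / n) +
        (α : ℂ) * (e (2 * (k - 1) * Real.pi / n) - e (2 * k * Real.pi / n)) +
        (β : ℂ) * (e (2 * (k + 1) * Real.pi / n) - e (2 * k * Real.pi / n)))
        (e ((2 * k + 1) * Real.pi / n)) =
        (1 - α - 2 * β) * Real.sin (Real.pi / n) + α * Real.sin (3 * (Real.pi / n)) := by
      rw [sub_eq_add_neg (e (2 * (k - 1) * Real.pi / n)), sub_eq_add_neg (e (2 * (k + 1) * Real.pi / n)),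
        ← neg_one_mul (e (2 * k * Real.pi / n))]
      have hneg : (-1 : ℂ) = ((-1 : ℝ) : ℂ) := by norm_num
      rw [hneg, add_cr, add_cr, mul_cr, mul_cr, add_cr, add_cr, mul_cr, J2_cr_e, J2_cr_e, J2_cr_e]
      have e1 : (2 * (k : ℝ) + 1) * Real.pi / n - 2 * k * Real.pi / n = Real.pi / n := by ring
      have e2 : (2 * (k : ℝ) + 1) * Real.pi / n - 2 * (k - 1) * Real.pi / n =
        3 * (Real.pi / n) := by ring
      have e3 : (2 * (k : ℝ) + 1) * Real.pi / n - 2 * (k + 1) * Real.pi / n = -(Real.pi / n) := by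
        ring
      rw [e1, e2, e3, Real.sin_neg]
      ring
    rw [h2]
    nlinarith [mul_nonneg hα.le hs3]

/-- `z = ‖z‖ e t` with `t ∈ [a, a + 2π)`; `sin (t - a) > 0`, `sin (b - t) > 0`. -/
theorem cone_angle {a b : ℝ} (hab : a < b) (hb : b < a + Real.pi) {z : ℂ} (h1 : 0 < cr (e a) z)
    (h2 : 0 < cr z (e b)) : ∃ t, a < t ∧ t < b ∧ z = (‖z‖ : ℂ) * e t := by
  have hz : z ≠ 0 := by
    rintro rfl
    simp [cr] at h1
  have hpi := Real.pi_pos
  obtain ⟨θ, _, hθ⟩ := exists_angle z hz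
  have hzn : 0 < ‖z‖ := norm_pos_iff.2 hz
  set t : ℝ := toIcoMod Real.two_pi_pos a θ with ht
  have hmem := toIcoMod_mem_Ico Real.two_pi_pos a θ
  have hmod := toIcoMod_add_toIcoDiv_zsmul Real.two_pi_pos a θ
  rw [← ht] at hmem hmod
  have het : e θ = e t := by
    rw [← hmod, zsmul_eq_mul]
    exact e_period t _
  rw [het] at hθ
  rw [hθ, cr_mul, J2_cr_e] at h1
  rw [hθ, mul_cr, J2_cr_e] at h2
  have h1' : 0 < Real.sin (t - a) := (mul_pos_iff_of_pos_left hzn).1 h1
  have h2' : 0 < Real.sin (b - t) := (mul_pos_iff_of_pos_left hzn).1 h2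
  have hta : t - a < Real.pi := by
    by_contra hcon
    have h3 : Real.sin (t - a) ≤ 0 := by
      have h4 : 0 ≤ Real.sin (t - a - Real.pi) :=
        Real.sin_nonneg_of_nonneg_of_le_pi (by linarith) (by linarith [hmem.2])
      rw [Real.sin_sub_pi] at h4
      linarith
    linarith
  have hta0 : a < t := by
    rcases eq_or_lt_of_le hmem.1 with h | h
    · rw [← h, sub_self, Real.sin_zero] at h1'
      exact absurd h1' (lt_irrefl 0)
    · exact h
  refine ⟨t, hta0, ?_, hθ⟩
  by_contra hcon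
  have h3 : Real.sin (b - t) ≤ 0 := by
    apply Real.sin_nonpos_of_nonpos_of_neg_pi_le (by linarith) (by linarith)
  linarith

/-- `centre K' = -|K'|⁻¹ ∫_{P \ K'} x`, `|P \ K'| ≤ δ |P|`, `‖x‖ ≤ 1` on `P`. -/
theorem centre_small {n : ℕ} (hn : 3 ≤ n) {K' : Set ℂ} (hK : IsBody K')
    (hsub : K' ⊆ regularPolygon n) {δ : ℝ} (hδ0 : 0 ≤ δ) (hδ : δ < 1)
    (hv : volume (regularPolygon n \ K') ≤ ENNReal.ofReal δ * volume (regularPolygon n)) :
    ‖centre K'‖ ≤ δ / (1 - δ) := by
  have hP := poly_body hn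
  have hI := poly_integral (n := n) (by omega)
  set P : Set ℂ := regularPolygon n with hPdef
  have hPK : MeasurableSet (P \ K') := hP.measurableSet.diff hK.measurableSet
  have hPfin := hP.volume_lt_top.ne
  have hKfin := hK.volume_lt_top.ne
  have hDfin : volume (P \ K') ≠ ⊤ := ((measure_mono sdiff_subset).trans_lt hP.volume_lt_top).ne
  -- areas as real numbers
  have hsum : (volume P).toReal = (volume K').toReal + (volume (P \ K')).toReal := by
    rw [← ENNReal.toReal_add hKfin hDfin]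
    congr 1
    have := measure_union (μ := volume) (disjoint_sdiff_right (s := K') (t := P)) hPK
    rw [union_sdiff_cancel hsub] at this
    exact this
  have hvr : (volume (P \ K')).toReal ≤ δ * (volume P).toReal := by
    have h := ENNReal.toReal_mono (ENNReal.mul_ne_top ENNReal.ofReal_ne_top hPfin) hv
    rwa [ENNReal.toReal_mul, ENNReal.toReal_ofReal hδ0] at h
  have hPpos : 0 < (volume P).toReal := ENNReal.toReal_pos hP.volume_pos.ne' hPfin
  have hKlow : (1 - δ) * (volume P).toReal ≤ (volume K').toReal := by linarith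
  have hKpos : 0 < (volume K').toReal := by
    have : 0 < (1 - δ) * (volume P).toReal := mul_pos (by linarith) hPpos
    linarith
  -- integrals
  have hint : ∫ x in P, x = (∫ x in K', x) + ∫ x in P \ K', x := by
    have h := setIntegral_union (μ := volume) (f := fun x : ℂ => x)
      (disjoint_sdiff_right (s := K') (t := P)) hPK (integrableOn_id hK.compact)
      (integrableOn_id' hP.compact sdiff_subset)
    rw [union_sdiff_cancel hsub] at h
    exact h
  have hKi : ∫ x in K', x = -∫ x in P \ K', x := by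
    rw [hI] at hint
    exact eq_neg_of_add_eq_zero_left hint.symm
  have hnorm : ‖∫ x in P \ K', x‖ ≤ (volume (P \ K')).toReal := by
    have h := norm_setIntegral_le_of_norm_le_const (μ := volume) (f := fun x : ℂ => x) (C := 1)
      (s := P \ K') (lt_top_iff_ne_top.2 hDfin) (fun x hx => poly_norm n x hx.1)
    rw [one_mul] at h
    exact h
  unfold centre
  rw [MeasureTheory.setAverage_eq, hKi, smul_neg, norm_neg, norm_smul, norm_inv, Real.norm_eq_abs,
    measureReal_def, abs_of_pos hKpos, inv_mul_eq_div, div_le_div_iff₀ hKpos (by linarith)]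
  have h1 : ‖∫ x in P \ K', x‖ ≤ δ * (volume P).toReal := hnorm.trans hvr
  calc ‖∫ x in P \ K', x‖ * (1 - δ) ≤ δ * (volume P).toReal * (1 - δ) :=
        mul_le_mul_of_nonneg_right h1 (by linarith)
    _ = δ * ((1 - δ) * (volume P).toReal) := by ring
    _ ≤ δ * (volume K').toReal := mul_le_mul_of_nonneg_left hKlow hδ0

end Pool.Agent.Lib.MP_707299_gt
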