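import Pool.Agent.Lib.MP_707299_gt.J1

/-!
Row J4: the polar equation of the regular polygon.
-/

set_option autoImplicit false

namespace Pool.Agent.Lib.MP_707299_gt

open MeasureTheory Set Filter Topology

theorem J4_cr_e (a b : ℝ) : cr (e a) (e b) = Real.sin (b - a) := by
  unfold cr
  rw [e_re, e_re, e_im, e_im, Real.sin_sub]
  ring

theorem J4_dt_e (a b : ℝ) : dt (e a) (e b) = Real.cos (a - b) := by
  unfold dt
  rw [e_re, e_re, e_im, e_im, Real.cos_sub]

theorem J4_pi_pos {n : ℕ} (hn : 3 ≤ n) : 0 < Real.pi / n ∧ Real.pi / n ≤ Real.pi / 3 := by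
  have hn' : (3 : ℝ) ≤ n := by exact_mod_cast hn
  have hpi := Real.pi_pos
  refine ⟨by positivity, ?_⟩
  apply div_le_div_of_nonneg_left hpi.le (by norm_num) hn'

theorem J4_zero {n : ℕ} (hn : 3 ≤ n) : (0 : ℂ) ∈ regularPolygon n := by
  have hB := poly_body hn
  have hI := poly_integral (n := n) (by omega)
  have h := hB.convex.set_average_mem hB.isClosed (μ := volume) (t := regularPolygon n)
    (f := fun x : ℂ => x) hB.volume_pos.ne' hB.volume_lt_top.ne
    ((ae_restrict_mem hB.measurableSet)) (integrableOn_id hB.compact)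
  rwa [MeasureTheory.setAverage_eq, hI, smul_zero] at h

theorem J4_mem {n : ℕ} (hn : 3 ≤ n) (k : ℤ) {θ ρ : ℝ} (h1 : 2 * k * Real.pi / n ≤ θ)
    (h2 : θ ≤ 2 * (k + 1) * Real.pi / n) (hρ : 0 ≤ ρ)
    (h : ρ * Real.cos (θ - (2 * k + 1) * Real.pi / n) ≤ Real.cos (Real.pi / n)) :
    (ρ : ℂ) * e θ ∈ regularPolygon n := by
  obtain ⟨hp0, hp1⟩ := J4_pi_pos hn
  have hpi := Real.pi_pos
  have hn0 : (0 : ℝ) < n := by
    have : (3 : ℝ) ≤ n := by exact_mod_cast hn
    linarith
  set p : ℝ := Real.pi / n with hp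
  have ea : 2 * (k : ℝ) * Real.pi / n = 2 * k * p := by rw [hp]; ring
  have eb : 2 * ((k : ℝ) + 1) * Real.pi / n = 2 * (k + 1) * p := by rw [hp]; ring
  have ec : (2 * (k : ℝ) + 1) * Real.pi / n = (2 * k + 1) * p := by rw [hp]; ring
  rw [ea] at h1
  rw [eb] at h2
  rw [ec] at h
  have hs : 0 < Real.sin p := Real.sin_pos_of_pos_of_lt_pi hp0 (by linarith)
  have hc : 0 < Real.cos p := Real.cos_pos_of_mem_Ioo ⟨by linarith, by linarith⟩
  have hs2 : Real.sin (2 * p) = 2 * Real.sin p * Real.cos p := Real.sin_two_mul p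
  have hs2p : 0 < Real.sin (2 * p) := by rw [hs2]; positivity
  have hst : cr (e (2 * k * p)) (e (2 * (k + 1) * p)) = Real.sin (2 * p) := by
    rw [J4_cr_e]
    congr 1
    ring
  have hA : 0 ≤ Real.sin (2 * (k + 1) * p - θ) :=
    Real.sin_nonneg_of_nonneg_of_le_pi (by linarith) (by linarith)
  have hB : 0 ≤ Real.sin (θ - 2 * k * p) :=
    Real.sin_nonneg_of_nonneg_of_le_pi (by linarith) (by linarith)
  have hsum : Real.sin (2 * (k + 1) * p - θ) + Real.sin (θ - 2 * k * p) =
      2 * Real.sin p * Real.cos (θ - (2 * k + 1) * p) := by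
    have e1 : 2 * ((k : ℝ) + 1) * p - θ = p - (θ - (2 * k + 1) * p) := by ring
    have e2 : θ - 2 * (k : ℝ) * p = p + (θ - (2 * k + 1) * p) := by ring
    rw [e1, e2, Real.sin_sub, Real.sin_add]
    ring
  have hx := basis_eq (e (2 * k * p)) (e (2 * (k + 1) * p)) ((ρ : ℂ) * e θ)
    (by rw [hst]; exact hs2p.ne')
  rw [hst, mul_cr, cr_mul, J4_cr_e, J4_cr_e] at hx
  set c1 : ℝ := ρ * Real.sin (2 * (k + 1) * p - θ) / Real.sin (2 * p) with hc1
  set c2 : ℝ := ρ * Real.sin (θ - 2 * k * p) / Real.sin (2 * p) with hc2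
  have hc1' : 0 ≤ c1 := by positivity
  have hc2' : 0 ≤ c2 := by positivity
  have hc12 : c1 + c2 ≤ 1 := by
    rw [hc1, hc2, ← add_div, ← mul_add, hsum, div_le_one hs2p, hs2]
    calc ρ * (2 * Real.sin p * Real.cos (θ - (2 * k + 1) * p))
        = 2 * Real.sin p * (ρ * Real.cos (θ - (2 * k + 1) * p)) := by ring
      _ ≤ 2 * Real.sin p * Real.cos p := mul_le_mul_of_nonneg_left h (by positivity)
  have hv1 : e (2 * k * p) ∈ regularPolygon n := by
    rw [← ea]
    exact poly_vertex (by omega) k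
  have hv2 : e (2 * (k + 1) * p) ∈ regularPolygon n := by
    rw [← eb]
    have := poly_vertex (n := n) (by omega) (k + 1)
    push_cast at this
    exact this
  have hB := poly_body hn
  have h0 := J4_zero hn
  -- write as a convex combination of three points
  rcases eq_or_lt_of_le (add_nonneg hc1' hc2') with h00 | hpos
  · have e1 : c1 = 0 := by linarith
    have e2 : c2 = 0 := by linarith
    rw [hx, e1, e2]
    simpa using h0
  · have hq : (c1 / (c1 + c2)) • e (2 * k * p) + (c2 / (c1 + c2)) • e (2 * (k + 1) * p) ∈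
        regularPolygon n := by
      apply hB.convex hv1 hv2 (by positivity) (by positivity)
      field_simp
    have hz := hB.convex hq h0 hpos.le (sub_nonneg.2 hc12) (by ring)
    have heq : (ρ : ℂ) * e θ = (c1 + c2) • ((c1 / (c1 + c2)) • e (2 * k * p) +
        (c2 / (c1 + c2)) • e (2 * (k + 1) * p)) + (1 - (c1 + c2)) • (0 : ℂ) := by
      rw [smul_zero, add_zero, smul_add, smul_smul, smul_smul, mul_div_cancel₀ _ hpos.ne',
        mul_div_cancel₀ _ hpos.ne', Complex.real_smul, Complex.real_smul]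
      exact hx
    rw [heq]
    exact hz

theorem J4_floor {n : ℕ} (hn : 3 ≤ n) (θ : ℝ) : ∃ k : ℤ, 2 * k * Real.pi / n ≤ θ ∧
    θ ≤ 2 * (k + 1) * Real.pi / n := by
  have hn0 : (0 : ℝ) < n := by
    have : (3 : ℝ) ≤ n := by exact_mod_cast hn
    linarith
  have hpi := Real.pi_pos
  refine ⟨⌊θ * n / (2 * Real.pi)⌋, ?_, ?_⟩
  · have h := Int.floor_le (θ * n / (2 * Real.pi))
    rw [le_div_iff₀ (by positivity)] at h
    rw [div_le_iff₀ hn0]
    linarith
  · have h := (Int.lt_floor_add_one (θ * n / (2 * Real.pi))).le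
    rw [div_le_iff₀ (by positivity)] at h
    rw [le_div_iff₀ hn0]
    linarith

/-- `poly_support`; conversely, if `x = ρ e θ`, `ρ > 0`, `θ` between `2 k π / n` and `2 (k + 1) π / n`, then `x` is
a nonnegative combination of two neighbouring vertices with sum of coefficients
`dt x (e ((2 k + 1) π / n)) / cos (π / n) ≤ 1`; `0` is in the polygon. -/
theorem poly_iff {n : ℕ} (hn : 3 ≤ n) (x : ℂ) : x ∈ regularPolygon n ↔
    ∀ k : ℤ, dt x (e ((2 * k + 1) * Real.pi / n)) ≤ Real.cos (Real.pi / n) := by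
  constructor
  · intro hx k
    exact poly_support (by omega) k x hx
  · intro h
    rcases eq_or_ne x 0 with rfl | hx
    · exact J4_zero hn
    · obtain ⟨θ, _, hθ⟩ := exists_angle x hx
      obtain ⟨k, hk1, hk2⟩ := J4_floor hn θ
      rw [hθ]
      apply J4_mem hn k hk1 hk2 (norm_nonneg x)
      have := h k
      rw [hθ, mul_dt, J4_dt_e] at this
      exact this

/-- The disc of radius `cos (π / n)` is contained in the polygon. -/
theorem poly_zero {n : ℕ} (hn : 3 ≤ n) : (0 : ℂ) ∈ interior (regularPolygon n) := by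
  obtain ⟨hp0, hp1⟩ := J4_pi_pos hn
  have hpi := Real.pi_pos
  have hc : 0 < Real.cos (Real.pi / n) :=
    Real.cos_pos_of_mem_Ioo ⟨by linarith, by linarith⟩
  rw [mem_interior]
  refine ⟨Metric.ball 0 (Real.cos (Real.pi / n)), fun x hx => ?_, Metric.isOpen_ball,
    Metric.mem_ball_self hc⟩
  rw [poly_iff hn]
  intro k
  have h1 := dt_le x (e ((2 * k + 1) * Real.pi / n))
  rw [norm_e, mul_one] at h1
  rw [mem_ball_zero_iff] at hx
  linarith

theorem rad_poly {n : ℕ} (hn : 3 ≤ n) (k : ℤ) {θ : ℝ} (h1 : 2 * k * Real.pi / n ≤ θ)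
    (h2 : θ ≤ 2 * (k + 1) * Real.pi / n) : rad (regularPolygon n) 0 θ =
      Real.cos (Real.pi / n) / Real.cos (θ - (2 * k + 1) * Real.pi / n) := by
  obtain ⟨hp0, hp1⟩ := J4_pi_pos hn
  have hpi := Real.pi_pos
  have hc : 0 < Real.cos (Real.pi / n) :=
    Real.cos_pos_of_mem_Ioo ⟨by linarith, by linarith⟩
  have ea : 2 * (k : ℝ) * Real.pi / n = 2 * k * (Real.pi / n) := by ring
  have eb : 2 * ((k : ℝ) + 1) * Real.pi / n = 2 * (k + 1) * (Real.pi / n) := by ring
  have ec : (2 * (k : ℝ) + 1) * Real.pi / n = (2 * k + 1) * (Real.pi / n) := by ring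
  have hφ1 : -(Real.pi / n) ≤ θ - (2 * k + 1) * Real.pi / n := by
    rw [ea] at h1
    rw [ec]
    linarith
  have hφ2 : θ - (2 * k + 1) * Real.pi / n ≤ Real.pi / n := by
    rw [eb] at h2
    rw [ec]
    linarith
  have hcφ : 0 < Real.cos (θ - (2 * k + 1) * Real.pi / n) :=
    Real.cos_pos_of_mem_Ioo ⟨by linarith, by linarith⟩
  have hB := poly_body hn
  have h0 := poly_zero hn
  have hρ : 0 ≤ Real.cos (Real.pi / n) / Real.cos (θ - (2 * k + 1) * Real.pi / n) := by positivity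
  apply le_antisymm
  · have hm := bd_mem hB h0 θ
    rw [bd_zero, poly_iff hn] at hm
    have := hm k
    rw [mul_dt, J4_dt_e] at this
    rw [le_div_iff₀ hcφ]
    exact this
  · apply (mem_iff hB h0 hρ).1
    apply J4_mem hn k h1 h2 hρ
    rw [div_mul_cancel₀ _ hcφ.ne']

end Pool.Agent.Lib.MP_707299_gt
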