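import Pool.Agent.Lib.MP_707299_gt.A

/-!
Row SD: the directions of the stable points, in increasing order.
-/

set_option autoImplicit false

namespace Pool.Agent.Lib.MP_707299_gt

open MeasureTheory Set Filter Topology

private theorem SD_bd_period (K : Set ℂ) (θ : ℝ) (k : ℤ) :
    bd K 0 (θ + k * (2 * Real.pi)) = bd K 0 θ := by
  unfold bd
  rw [rad_period, e_period]

private theorem SD_stable_imp (r : ℕ∞) (K : Set ℂ) (θ : ℝ) (k : ℤ)
    (h : IsStable r K 0 (θ + k * (2 * Real.pi))) : IsStable r K 0 θ := by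
  obtain ⟨h1, h2, h3⟩ := h
  have hf : (fun x => rad K 0 (x + k * (2 * Real.pi))) = rad K 0 :=
    funext fun x => rad_period K 0 x k
  refine ⟨?_, ?_, ?_⟩
  · intro z hz
    have h4 := h1 z hz
    rwa [SD_bd_period] at h4
  · have h4 : ContDiffAt ℝ r (fun x => rad K 0 (x + k * (2 * Real.pi))) θ :=
      ContDiffAt.comp (g := rad K 0) (f := fun x : ℝ => x + k * (2 * Real.pi)) θ h2 (by fun_prop)
    rwa [hf] at h4
  · have hd : (fun x => deriv (rad K 0) (x + k * (2 * Real.pi))) = deriv (rad K 0) := by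
      funext x
      rw [← deriv_comp_add_const, hf]
    have hd2 : deriv (deriv (rad K 0)) (θ + k * (2 * Real.pi)) = deriv (deriv (rad K 0)) θ := by
      rw [← deriv_comp_add_const, hd]
    rwa [hd2] at h3

theorem stable_period (r : ℕ∞) (K : Set ℂ) (θ : ℝ) (k : ℤ) :
    IsStable r K 0 (θ + k * (2 * Real.pi)) ↔ IsStable r K 0 θ := by
  refine ⟨SD_stable_imp r K θ k, fun h => ?_⟩
  refine SD_stable_imp r K (θ + k * (2 * Real.pi)) (-k) ?_
  have e1 : θ + k * (2 * Real.pi) + ((-k : ℤ) : ℝ) * (2 * Real.pi) = θ := by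
    push_cast
    ring
  rw [e1]
  exact h

/-- `θ ↦ bd K 0 θ` is injective on `[0, 2π)` (`rad_pos`). -/
theorem bd_inj {K : Set ℂ} (hK : IsBody K) (h0 : (0 : ℂ) ∈ interior K) {s t : ℝ}
    (hs : s ∈ Ico (0 : ℝ) (2 * Real.pi)) (ht : t ∈ Ico (0 : ℝ) (2 * Real.pi))
    (h : bd K 0 s = bd K 0 t) : s = t := by
  rw [bd_zero, bd_zero] at h
  have hps := rad_pos hK h0 s
  have hpt := rad_pos hK h0 t
  have hn : rad K 0 s = rad K 0 t := by
    have h1 := congrArg norm h
    rw [norm_mul, norm_mul, norm_e, norm_e, mul_one, mul_one, Complex.norm_real,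
      Complex.norm_real, Real.norm_eq_abs, Real.norm_eq_abs, abs_of_pos hps, abs_of_pos hpt] at h1
    exact h1
  rw [hn] at h
  have hne : ((rad K 0 t : ℝ) : ℂ) ≠ 0 := by
    exact_mod_cast hpt.ne'
  have he : e s = e t := mul_left_cancel₀ hne h
  unfold e at he
  obtain ⟨n, hn⟩ := Complex.exp_eq_exp_iff_exists_int.1 he
  have h1 : s = t + n * (2 * Real.pi) := by
    have h2 := congrArg Complex.im hn
    simpa using h2
  have hpi := Real.pi_pos
  have h3 : n = 0 := by
    have h4 : (n : ℝ) < 1 := by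
      by_contra hc
      push Not at hc
      have := hs.2
      have := ht.1
      nlinarith
    have h5 : (-1 : ℝ) < n := by
      by_contra hc
      push Not at hc
      have := hs.1
      have := ht.2
      nlinarith
    have h6 : n < 1 := by exact_mod_cast h4
    have h7 : -1 < n := by exact_mod_cast h5
    omega
  rw [h1, h3]
  simp

theorem stable_dirs {r : ℕ∞} {K : Set ℂ} (hK : IsBody K) (h0 : (0 : ℂ) ∈ interior K) {n : ℕ}
    (hn : (stablePts r K 0).encard = n) :
    ∃ t : ℕ → ℝ, (∀ i j, i < j → j < n → t i < t j) ∧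
      ∀ i < n, t i ∈ Ico (0 : ℝ) (2 * Real.pi) ∧ IsStable r K 0 (t i) := by
  have hpi : 0 < 2 * Real.pi := by positivity
  set S : Set ℝ := {t | t ∈ Ico (0 : ℝ) (2 * Real.pi) ∧ IsStable r K 0 t} with hS
  have hinj : InjOn (bd K 0) S := fun s hs t ht h => bd_inj hK h0 hs.1 ht.1 h
  have himg : bd K 0 '' S = stablePts r K 0 := by
    ext q
    constructor
    · rintro ⟨t, ht, rfl⟩
      exact ⟨t, rfl, ht.2⟩
    · rintro ⟨θ, rfl, hθ⟩
      refine ⟨θ + ((-⌊θ / (2 * Real.pi)⌋ : ℤ) : ℝ) * (2 * Real.pi), ⟨?_, ?_⟩, ?_⟩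
      · have h1 := Int.floor_le (θ / (2 * Real.pi))
        have h2 := Int.lt_floor_add_one (θ / (2 * Real.pi))
        rw [le_div_iff₀ hpi] at h1
        rw [div_lt_iff₀ hpi] at h2
        push_cast
        constructor
        · linarith
        · linarith
      · exact (stable_period r K θ _).2 hθ
      · exact SD_bd_period K θ _
  have hcard : S.encard = n := by
    rw [← hn, ← himg, hinj.encard_image]
  have hfin : S.Finite := by
    refine Set.encard_ne_top_iff.1 ?_
    rw [hcard]
    exact ENat.natCast_ne_top _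
  have hc : hfin.toFinset.card = n := by
    have h1 := hfin.encard_eq_coe_toFinset_card
    rw [hcard] at h1
    exact_mod_cast h1.symm
  refine ⟨fun i => if h : i < n then hfin.toFinset.orderEmbOfFin hc ⟨i, h⟩ else 0, ?_, ?_⟩
  · intro i j hij hj
    have hi : i < n := lt_trans hij hj
    simp only [hi, hj, dif_pos]
    exact (hfin.toFinset.orderEmbOfFin hc).strictMono (by exact hij)
  · intro i hi
    simp only [hi, dif_pos]
    have h1 := hfin.toFinset.orderEmbOfFin_mem hc ⟨i, hi⟩
    rw [Set.Finite.mem_toFinset] at h1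
    exact h1

end Pool.Agent.Lib.MP_707299_gt
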