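import Pool.Agent.Lib.MP_707299_gt.Lin

/-!
Row Z: translations.
-/

set_option autoImplicit false

namespace Pool.Agent.Lib.MP_707299_gt

open MeasureTheory Set Filter Topology

/-- The translate of `K` by `c`. -/
def tr (c : ℂ) (K : Set ℂ) : Set ℂ := (fun z => z + c) '' K

private theorem Z_mem_tr (c : ℂ) (K : Set ℂ) (z : ℂ) : z + c ∈ tr c K ↔ z ∈ K := by
  unfold tr
  constructor
  · rintro ⟨w, hw, h⟩
    have : w = z := add_right_cancel h
    rwa [← this]
  · intro h
    exact ⟨z, h, rfl⟩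

private theorem Z_inj (c : ℂ) : Function.Injective (fun z : ℂ => z + c) := add_left_injective c

private theorem Z_pre (c : ℂ) (K : Set ℂ) : tr c K = (fun z => z + -c) ⁻¹' K := by
  ext z
  constructor
  · rintro ⟨w, hw, rfl⟩
    simpa using hw
  · intro h
    exact ⟨_, h, by simp⟩

theorem tr_rad (c : ℂ) (K : Set ℂ) (p : ℂ) : rad (tr c K) (p + c) = rad K p := by
  funext θ
  unfold rad
  congr 1
  ext t
  show p + c + t * e θ ∈ tr c K ↔ p + t * e θ ∈ K
  rw [← Z_mem_tr c K (p + t * e θ)]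
  have : p + c + t * e θ = p + t * e θ + c := by ring
  rw [this]

theorem tr_bd (c : ℂ) (K : Set ℂ) (p : ℂ) (θ : ℝ) : bd (tr c K) (p + c) θ = bd K p θ + c := by
  unfold bd
  rw [tr_rad]
  ring

theorem tr_body (c : ℂ) {K : Set ℂ} (hK : IsBody K) : IsBody (tr c K) := by
  refine ⟨?_, ?_, ?_⟩
  · rintro _ ⟨x, hx, rfl⟩ _ ⟨y, hy, rfl⟩ a b ha hb hab
    refine ⟨a • x + b • y, hK.convex hx hy ha hb hab, ?_⟩
    have hab' : (a : ℂ) + b = 1 := by exact_mod_cast hab
    simp only [Complex.real_smul]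
    linear_combination (-c) * hab'
  · exact hK.compact.image (continuous_add_const c)
  · have h : interior (tr c K) = (fun z => z + c) '' interior K :=
      ((Homeomorph.addRight c).image_interior K).symm
    rw [h]
    exact hK.nonempty.image _

theorem tr_volume (c : ℂ) (K : Set ℂ) : volume (tr c K) = volume K := by
  rw [Z_pre, measure_preimage_add_right]

private theorem Z_centre_eq (K : Set ℂ) :
    centre K = (volume.real K)⁻¹ • ∫ z in K, z := by
  unfold centre
  rw [setAverage_eq]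

private theorem Z_real_ne {K : Set ℂ} (hK : IsBody K) : volume.real K ≠ 0 := by
  unfold Measure.real
  exact (ENNReal.toReal_pos hK.volume_pos.ne' hK.volume_lt_top.ne).ne'

theorem tr_centre (c : ℂ) {K : Set ℂ} (hK : IsBody K) : centre (tr c K) = centre K + c := by
  rw [Z_centre_eq, Z_centre_eq]
  have hv : volume.real (tr c K) = volume.real K := by
    unfold Measure.real
    rw [tr_volume]
  have hI : ∫ z in tr c K, z = ∫ z in K, (z + c) :=
    (measurePreserving_add_right volume c).setIntegral_image_emb (measurableEmbedding_addRight c)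
      (fun z => z) K
  have hc : IntegrableOn (fun _ : ℂ => c) K volume :=
    integrableOn_const hK.volume_lt_top.ne
  rw [hv, hI, integral_add (integrableOn_id hK.compact) hc, setIntegral_const, smul_add, smul_smul,
    inv_mul_cancel₀ (Z_real_ne hK), one_smul]

theorem tr_eq (c : ℂ) (K : Set ℂ) (p : ℂ) (θ : ℝ) : IsEq (tr c K) (p + c) θ ↔ IsEq K p θ := by
  unfold IsEq
  rw [tr_bd]
  constructor
  · intro h z hz
    have := h (z + c) ((Z_mem_tr c K z).2 hz)
    rwa [add_sub_add_right_eq_sub, add_sub_add_right_eq_sub] at this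
  · rintro h _ ⟨z, hz, rfl⟩
    have := h z hz
    rwa [← add_sub_add_right_eq_sub z _ c, ← add_sub_add_right_eq_sub _ p c] at this

theorem tr_pw {r : ℕ∞} (c : ℂ) (K : Set ℂ) (p : ℂ) :
    PwSmooth r (tr c K) (p + c) ↔ PwSmooth r K p := by
  unfold PwSmooth
  rw [tr_rad]

theorem tr_nondeg {r : ℕ∞} (c : ℂ) (K : Set ℂ) (p : ℂ) (θ : ℝ) :
    IsNondeg r (tr c K) (p + c) θ ↔ IsNondeg r K p θ := by
  unfold IsNondeg
  rw [tr_rad]

theorem tr_stable {r : ℕ∞} (c : ℂ) (K : Set ℂ) (p : ℂ) (θ : ℝ) :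
    IsStable r (tr c K) (p + c) θ ↔ IsStable r K p θ := by
  unfold IsStable
  rw [tr_rad, tr_eq]

theorem tr_count {r : ℕ∞} (c : ℂ) (K : Set ℂ) (p : ℂ) :
    (stablePts r (tr c K) (p + c)).encard = (stablePts r K p).encard := by
  have h : stablePts r (tr c K) (p + c) = (fun z => z + c) '' stablePts r K p := by
    ext q
    constructor
    · rintro ⟨θ, rfl, h⟩
      refine ⟨bd K p θ, ⟨θ, rfl, (tr_stable c K p θ).1 h⟩, ?_⟩
      rw [tr_bd]
    · rintro ⟨_, ⟨θ, rfl, h⟩, rfl⟩
      exact ⟨θ, (tr_bd c K p θ).symm, (tr_stable c K p θ).2 h⟩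
  rw [h, (Z_inj c).encard_image]

theorem tr_class {r : ℕ∞} {n : ℕ} (c : ℂ) {K : Set ℂ} (hK : InClass r n K) :
    InClass r n (tr c K) := by
  refine ⟨tr_body c hK.body, ?_, ?_, ?_⟩
  · rw [tr_centre c hK.body]
    exact (tr_pw c K _).2 hK.smooth
  · intro θ h
    rw [tr_centre c hK.body] at h ⊢
    exact (tr_nondeg c K _ θ).2 (hK.nondeg θ ((tr_eq c K _ θ).1 h))
  · rw [tr_centre c hK.body, tr_count]
    exact hK.count

theorem tr_diff (c : ℂ) (K L : Set ℂ) : tr c (K \ L) = tr c K \ tr c L :=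
  image_sdiff (Z_inj c) K L

theorem tr_tr (c d : ℂ) (K : Set ℂ) : tr c (tr d K) = tr (d + c) K := by
  unfold tr
  rw [image_image]
  simp only [add_assoc]

theorem tr_zero (K : Set ℂ) : tr 0 K = K := by
  unfold tr
  simp

theorem tr_mono (c : ℂ) {K L : Set ℂ} (h : K ⊆ L) : tr c K ⊆ tr c L := image_mono h

/-- `centre K = 0` iff the integral is `0`. -/
theorem centre_zero {K : Set ℂ} (hK : IsBody K) : centre K = 0 ↔ ∫ x in K, x = 0 := by
  rw [Z_centre_eq, smul_eq_zero]
  constructor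
  · rintro (h | h)
    · exact absurd (inv_eq_zero.1 h) (Z_real_ne hK)
    · exact h
  · intro h
    exact Or.inr h

end Pool.Agent.Lib.MP_707299_gt
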