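import Pool.Agent.Lib.MP_707299_gt.J4
import Pool.Agent.Lib.MP_707299_gt.D
import Pool.Agent.Lib.MP_707299_gt.SD
import Pool.Agent.Lib.MP_707299_gt.Z

/-!
Row J5: the regular polygon is in the class `{n}`.
-/

set_option autoImplicit false

namespace Pool.Agent.Lib.MP_707299_gt

open MeasureTheory Set Filter Topology

private theorem j5_n {n : ℕ} (hn : 3 ≤ n) : (3 : ℝ) ≤ n := by exact_mod_cast hn

private theorem j5_pos {n : ℕ} (hn : 3 ≤ n) : 0 < Real.pi / n := by
  have h := j5_n hn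
  have := Real.pi_pos
  positivity

private theorem j5_lt {n : ℕ} (hn : 3 ≤ n) : Real.pi / n < Real.pi / 2 := by
  have h := j5_n hn
  have := Real.pi_pos
  rw [div_lt_div_iff₀ (by linarith) (by norm_num)]
  nlinarith

private theorem j5_cpos {n : ℕ} (hn : 3 ≤ n) : 0 < Real.cos (Real.pi / n) := by
  apply Real.cos_pos_of_mem_Ioo
  constructor
  · linarith [j5_pos hn, Real.pi_pos]
  · exact j5_lt hn

private theorem j5_spos {n : ℕ} (hn : 3 ≤ n) : 0 < Real.sin (Real.pi / n) := by
  apply Real.sin_pos_of_pos_of_lt_pi (j5_pos hn)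
  linarith [j5_lt hn, Real.pi_pos]

/-- the direction of the side number `k` -/
private noncomputable def j5u (n : ℕ) (k : ℤ) : ℝ := (2 * k + 1) * Real.pi / n

private theorem j5u_left (n : ℕ) (k : ℤ) : 2 * (k : ℝ) * Real.pi / n = j5u n k - Real.pi / n := by
  unfold j5u; ring

private theorem j5u_right (n : ℕ) (k : ℤ) :
    2 * ((k : ℝ) + 1) * Real.pi / n = j5u n k + Real.pi / n := by
  unfold j5u; ring

private theorem j5u_pred (n : ℕ) (k : ℤ) :
    2 * (k : ℝ) * Real.pi / n = j5u n (k - 1) + Real.pi / n := by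
  unfold j5u; push_cast; ring

private noncomputable def j5F (n : ℕ) (k : ℤ) (θ : ℝ) : ℝ :=
  Real.cos (Real.pi / n) / Real.cos (θ - j5u n k)

private noncomputable def j5G (n : ℕ) (k : ℤ) (θ : ℝ) : ℝ :=
  Real.cos (Real.pi / n) * Real.sin (θ - j5u n k) / Real.cos (θ - j5u n k) ^ 2

private theorem j5_rad {n : ℕ} (hn : 3 ≤ n) (k : ℤ) {θ : ℝ} (h1 : j5u n k - Real.pi / n ≤ θ)
    (h2 : θ ≤ j5u n k + Real.pi / n) : rad (regularPolygon n) 0 θ = j5F n k θ := by
  unfold j5F
  rw [← j5u_left] at h1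
  rw [← j5u_right] at h2
  rw [rad_poly hn k h1 h2, j5u]

private theorem j5_cos {n : ℕ} (hn : 3 ≤ n) (k : ℤ) {θ : ℝ} (h1 : j5u n k - Real.pi / n ≤ θ)
    (h2 : θ ≤ j5u n k + Real.pi / n) : 0 < Real.cos (θ - j5u n k) := by
  apply Real.cos_pos_of_mem_Ioo
  constructor
  · linarith [j5_lt hn]
  · linarith [j5_lt hn]

private theorem j5_cd (r : ℕ∞) (n : ℕ) (k : ℤ) {θ : ℝ} (h : Real.cos (θ - j5u n k) ≠ 0) :
    ContDiffAt ℝ r (j5F n k) θ := by
  have h1 : ContDiffAt ℝ r (fun t : ℝ => Real.cos (t - j5u n k)) θ :=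
    Real.contDiff_cos.contDiffAt.comp θ (contDiffAt_id.sub contDiffAt_const)
  exact ContDiffAt.div contDiffAt_const h1 h

private theorem j5_hd (n : ℕ) (k : ℤ) {θ : ℝ} (h : Real.cos (θ - j5u n k) ≠ 0) :
    HasDerivAt (j5F n k) (j5G n k θ) θ := by
  have h1 : HasDerivAt (fun t : ℝ => Real.cos (t - j5u n k)) (-Real.sin (θ - j5u n k) * 1) θ :=
    ((hasDerivAt_id θ).sub_const _).cos
  have h2 := (hasDerivAt_const θ (Real.cos (Real.pi / n))).div h1 h
  have e1 : j5G n k θ = (0 * Real.cos (θ - j5u n k) - Real.cos (Real.pi / n) *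
      (-Real.sin (θ - j5u n k) * 1)) / Real.cos (θ - j5u n k) ^ 2 := by
    unfold j5G; ring
  rw [e1]
  exact h2

private theorem j5_hd2 (n : ℕ) (k : ℤ) {θ : ℝ} (h : Real.cos (θ - j5u n k) ≠ 0) :
    HasDerivAt (j5G n k) (Real.cos (Real.pi / n) *
      (Real.cos (θ - j5u n k) ^ 2 + 2 * Real.sin (θ - j5u n k) ^ 2) /
        Real.cos (θ - j5u n k) ^ 3) θ := by
  have h1 : HasDerivAt (fun t : ℝ => Real.cos (t - j5u n k)) (-Real.sin (θ - j5u n k) * 1) θ :=
    ((hasDerivAt_id θ).sub_const _).cos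
  have h0 : HasDerivAt (fun t : ℝ => Real.sin (t - j5u n k)) (Real.cos (θ - j5u n k) * 1) θ :=
    ((hasDerivAt_id θ).sub_const _).sin
  have h2 := (h0.const_mul (Real.cos (Real.pi / n))).div (h1.pow 2) (pow_ne_zero 2 h)
  refine h2.congr_deriv ?_
  field_simp
  simp
  ring

private theorem j5_ev (n : ℕ) (k : ℤ) {θ : ℝ} (h : Real.cos (θ - j5u n k) ≠ 0) :
    deriv (j5F n k) =ᶠ[𝓝 θ] j5G n k := by
  have hc : Continuous fun t : ℝ => Real.cos (t - j5u n k) := by fun_prop
  have h1 : ∀ᶠ t in 𝓝 θ, Real.cos (t - j5u n k) ≠ 0 := hc.continuousAt.eventually_ne h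
  filter_upwards [h1] with t ht
  exact (j5_hd n k ht).deriv

private theorem j5_dd (n : ℕ) (k : ℤ) {θ : ℝ} (hn : 3 ≤ n) (h : 0 < Real.cos (θ - j5u n k)) :
    0 < deriv (deriv (j5F n k)) θ := by
  rw [(j5_ev n k h.ne').deriv_eq, (j5_hd2 n k h.ne').deriv]
  have h1 := j5_cpos hn
  apply div_pos _ (by positivity)
  apply mul_pos h1
  have : 0 < Real.cos (θ - j5u n k) ^ 2 := by positivity
  nlinarith [sq_nonneg (Real.sin (θ - j5u n k))]

private theorem j5_floor {n : ℕ} (hn : 3 ≤ n) (θ : ℝ) :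
    ∃ k : ℤ, j5u n k - Real.pi / n ≤ θ ∧ θ < j5u n k + Real.pi / n := by
  have h := j5_n hn
  have hp := Real.pi_pos
  refine ⟨⌊θ * n / (2 * Real.pi)⌋, ?_, ?_⟩
  · have h1 := Int.floor_le (θ * n / (2 * Real.pi))
    rw [le_div_iff₀ (by positivity)] at h1
    rw [← j5u_left, div_le_iff₀ (by linarith)]
    linarith
  · have h1 := Int.lt_floor_add_one (θ * n / (2 * Real.pi))
    rw [div_lt_iff₀ (by positivity)] at h1
    rw [← j5u_right, lt_div_iff₀ (by linarith)]
    linarith

private theorem j5_split {n : ℕ} (hn : 3 ≤ n) (θ : ℝ) :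
    (∃ k : ℤ, j5u n k - Real.pi / n < θ ∧ θ < j5u n k + Real.pi / n) ∨
      ∃ k : ℤ, θ = j5u n k - Real.pi / n ∧ θ = j5u n (k - 1) + Real.pi / n := by
  obtain ⟨k, h1, h2⟩ := j5_floor hn θ
  rcases h1.lt_or_eq with h | h
  · exact Or.inl ⟨k, h, h2⟩
  · refine Or.inr ⟨k, h.symm, ?_⟩
    rw [← j5u_pred, j5u_left, h]

private theorem j5_cdo (r : ℕ∞) {n : ℕ} (hn : 3 ≤ n) (k : ℤ) {s : Set ℝ}
    (hs : s ⊆ Icc (j5u n k - Real.pi / n) (j5u n k + Real.pi / n)) :
    ContDiffOn ℝ r (rad (regularPolygon n) 0) s := by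
  have h1 : ContDiffOn ℝ r (j5F n k) s := by
    intro t ht
    exact (j5_cd r n k (j5_cos hn k (hs ht).1 (hs ht).2).ne').contDiffWithinAt
  exact h1.congr fun t ht => j5_rad hn k (hs ht).1 (hs ht).2

theorem poly_centre {n : ℕ} (hn : 3 ≤ n) : centre (regularPolygon n) = 0 :=
  (centre_zero (poly_body hn)).2 (poly_integral (by omega))

theorem poly_pw (r : ℕ∞) {n : ℕ} (hn : 3 ≤ n) : PwSmooth r (regularPolygon n) 0 := by
  intro θ
  have hp := j5_pos hn
  rcases j5_split hn θ with ⟨k, h1, h2⟩ | ⟨k, h1, h2⟩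
  · refine ⟨min (θ - (j5u n k - Real.pi / n)) (j5u n k + Real.pi / n - θ),
      lt_min (by linarith) (by linarith), j5_cdo r hn k ?_, j5_cdo r hn k ?_⟩
    · intro t ht
      have := min_le_left (θ - (j5u n k - Real.pi / n)) (j5u n k + Real.pi / n - θ)
      exact ⟨by linarith [ht.1], by linarith [ht.2]⟩
    · intro t ht
      have := min_le_right (θ - (j5u n k - Real.pi / n)) (j5u n k + Real.pi / n - θ)
      exact ⟨by linarith [ht.1], by linarith [ht.2]⟩
  · refine ⟨Real.pi / n, hp, j5_cdo r hn (k - 1) ?_, j5_cdo r hn k ?_⟩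
    · intro t ht
      exact ⟨by linarith [ht.1], by linarith [ht.2]⟩
    · intro t ht
      exact ⟨by linarith [ht.1], by linarith [ht.2]⟩

private theorem j5_near {n : ℕ} (hn : 3 ≤ n) {k : ℤ} {θ : ℝ} (h1 : j5u n k - Real.pi / n < θ)
    (h2 : θ < j5u n k + Real.pi / n) : rad (regularPolygon n) 0 =ᶠ[𝓝 θ] j5F n k := by
  filter_upwards [Icc_mem_nhds h1 h2] with t ht
  exact j5_rad hn k ht.1 ht.2

private theorem j5_right {n : ℕ} (hn : 3 ≤ n) (k : ℤ) :
    HasDerivWithinAt (rad (regularPolygon n) 0) (j5G n k (j5u n k - Real.pi / n))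
      (Ici (j5u n k - Real.pi / n)) (j5u n k - Real.pi / n) := by
  have hp := j5_pos hn
  have h1 : j5u n k - Real.pi / n ≤ j5u n k + Real.pi / n := by linarith
  have h3 := (j5_hd n k (j5_cos hn k le_rfl h1).ne').hasDerivWithinAt
    (s := Ici (j5u n k - Real.pi / n))
  refine h3.congr_of_eventuallyEq ?_ (j5_rad hn k le_rfl h1)
  filter_upwards [Icc_mem_nhdsGE (show j5u n k - Real.pi / n < j5u n k by linarith)] with t ht
  exact j5_rad hn k ht.1 (by linarith [ht.2])

private theorem j5_left {n : ℕ} (hn : 3 ≤ n) (k : ℤ) :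
    HasDerivWithinAt (rad (regularPolygon n) 0) (j5G n k (j5u n k + Real.pi / n))
      (Iic (j5u n k + Real.pi / n)) (j5u n k + Real.pi / n) := by
  have hp := j5_pos hn
  have h1 : j5u n k - Real.pi / n ≤ j5u n k + Real.pi / n := by linarith
  have h3 := (j5_hd n k (j5_cos hn k h1 le_rfl).ne').hasDerivWithinAt
    (s := Iic (j5u n k + Real.pi / n))
  refine h3.congr_of_eventuallyEq ?_ (j5_rad hn k h1 le_rfl)
  filter_upwards [Icc_mem_nhdsLE (show j5u n k < j5u n k + Real.pi / n by linarith)] with t ht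
  exact j5_rad hn k (by linarith [ht.1]) ht.2

private theorem j5_Gneg {n : ℕ} (hn : 3 ≤ n) (k : ℤ) :
    j5G n k (j5u n k - Real.pi / n) < 0 := by
  unfold j5G
  have e1 : j5u n k - Real.pi / n - j5u n k = -(Real.pi / n) := by ring
  rw [e1, Real.sin_neg, Real.cos_neg]
  have h1 := j5_cpos hn
  have h2 := j5_spos hn
  apply div_neg_of_neg_of_pos
  · nlinarith [mul_pos h1 h2]
  · positivity

private theorem j5_Gpos {n : ℕ} (hn : 3 ≤ n) (k : ℤ) :
    0 < j5G n k (j5u n k + Real.pi / n) := by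
  unfold j5G
  have e1 : j5u n k + Real.pi / n - j5u n k = Real.pi / n := by ring
  rw [e1]
  have h1 := j5_cpos hn
  have h2 := j5_spos hn
  positivity

/-- Inside a sector `rad' = rad * tan (θ - (2 k + 1) π / n)`; at a vertex the one-sided derivatives are
`± rad * tan (π / n)`. -/
theorem poly_nondeg (r : ℕ∞) {n : ℕ} (hn : 3 ≤ n) (θ : ℝ)
    (h : IsEq (regularPolygon n) 0 θ) : IsNondeg r (regularPolygon n) 0 θ := by
  have hp := j5_pos hn
  rcases j5_split hn θ with ⟨k, h1, h2⟩ | ⟨k, h1, h2⟩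
  · left
    have hc := j5_cos hn k h1.le h2.le
    have he := j5_near hn h1 h2
    refine ⟨(j5_cd r n k hc.ne').congr_of_eventuallyEq he, ?_⟩
    rw [he.deriv.deriv_eq]
    exact (j5_dd n k hn hc).ne'
  · right
    constructor
    · have h3 := j5_left hn (k - 1)
      rw [← h2] at h3
      rw [h3.derivWithin (uniqueDiffWithinAt_Iic θ)]
      have := j5_Gpos hn (k - 1)
      rwa [← h2] at this
    · have h3 := j5_right hn k
      rw [← h1] at h3
      rw [h3.derivWithin (uniqueDiffWithinAt_Ici θ)]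
      have := j5_Gneg hn k
      rwa [← h1] at this

private theorem j5_Gcont {n : ℕ} {k : ℤ} {θ : ℝ} (h : Real.cos (θ - j5u n k) ≠ 0) :
    Tendsto (j5G n k) (𝓝 θ) (𝓝 (j5G n k θ)) := (j5_hd2 n k h).continuousAt

/-- at a vertex the second derivative is not positive (by convention) -/
private theorem j5_vertex {n : ℕ} (hn : 3 ≤ n) {k : ℤ} {θ : ℝ} (h1 : θ = j5u n k - Real.pi / n)
    (h2 : θ = j5u n (k - 1) + Real.pi / n) :
    ¬ 0 < deriv (deriv (rad (regularPolygon n) 0)) θ := by
  intro h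
  have hp := j5_pos hn
  have hd : DifferentiableAt ℝ (deriv (rad (regularPolygon n) 0)) θ :=
    differentiableAt_of_deriv_ne_zero h.ne'
  have hc : Tendsto (deriv (rad (regularPolygon n) 0)) (𝓝 θ)
    (𝓝 (deriv (rad (regularPolygon n) 0) θ)) := hd.continuousAt
  have hR : deriv (rad (regularPolygon n) 0) =ᶠ[𝓝[>] θ] j5G n k := by
    filter_upwards [Ioo_mem_nhdsGT (show θ < θ + Real.pi / n by linarith)] with t ht
    have g1 : j5u n k - Real.pi / n < t := by linarith [ht.1]
    have g2 : t < j5u n k + Real.pi / n := by linarith [ht.2]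
    rw [(j5_near hn g1 g2).deriv_eq, (j5_hd n k (j5_cos hn k g1.le g2.le).ne').deriv]
  have hL : deriv (rad (regularPolygon n) 0) =ᶠ[𝓝[<] θ] j5G n (k - 1) := by
    filter_upwards [Ioo_mem_nhdsLT (show θ - Real.pi / n < θ by linarith)] with t ht
    have g1 : j5u n (k - 1) - Real.pi / n < t := by linarith [ht.1]
    have g2 : t < j5u n (k - 1) + Real.pi / n := by linarith [ht.2]
    rw [(j5_near hn g1 g2).deriv_eq, (j5_hd n (k - 1) (j5_cos hn (k - 1) g1.le g2.le).ne').deriv]
  have c1 : Real.cos (θ - j5u n k) ≠ 0 := (j5_cos hn k h1.ge (by linarith)).ne'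
  have c2 : Real.cos (θ - j5u n (k - 1)) ≠ 0 := (j5_cos hn (k - 1) (by linarith) h2.le).ne'
  have e1 : deriv (rad (regularPolygon n) 0) θ = j5G n k θ :=
    tendsto_nhds_unique (hc.mono_left nhdsWithin_le_nhds)
      (((j5_Gcont c1).mono_left nhdsWithin_le_nhds).congr' hR.symm)
  have e2 : deriv (rad (regularPolygon n) 0) θ = j5G n (k - 1) θ :=
    tendsto_nhds_unique (hc.mono_left nhdsWithin_le_nhds)
      (((j5_Gcont c2).mono_left nhdsWithin_le_nhds).congr' hL.symm)
  have g1 := j5_Gneg hn k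
  have g2 := j5_Gpos hn (k - 1)
  rw [← h1] at g1
  rw [← h2] at g2
  linarith

private theorem j5_radu {n : ℕ} (hn : 3 ≤ n) (k : ℤ) :
    rad (regularPolygon n) 0 (j5u n k) = Real.cos (Real.pi / n) := by
  have hp := j5_pos hn
  rw [j5_rad hn k (by linarith) (by linarith)]
  unfold j5F
  simp

private theorem j5_stab (r : ℕ∞) {n : ℕ} (hn : 3 ≤ n) (k : ℤ) :
    IsStable r (regularPolygon n) 0 (j5u n k) := by
  have hp := j5_pos hn
  have h1 : j5u n k - Real.pi / n < j5u n k := by linarith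
  have h2 : j5u n k < j5u n k + Real.pi / n := by linarith
  have hc := j5_cos hn k h1.le h2.le
  have he := j5_near hn h1 h2
  refine ⟨?_, (j5_cd r n k hc.ne').congr_of_eventuallyEq he, ?_⟩
  · rw [isEq_dt]
    intro x hx
    rw [bd_zero, j5_radu hn k, dt_mul, dt_mul, dt_comm _ (e (j5u n k)), dt_comm _ (e (j5u n k)), dt_mul, dt_self, norm_e,
      dt_comm (e (j5u n k)) x]
    have h3 := poly_support (by omega) k x hx
    have h4 := j5_cpos hn
    have h5 : dt x (e (j5u n k)) ≤ Real.cos (Real.pi / n) := h3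
    nlinarith
  · rw [he.deriv.deriv_eq]
    exact j5_dd n k hn hc

/-- The stable points are the midpoints of the sides. -/
theorem poly_stable (r : ℕ∞) {n : ℕ} (hn : 3 ≤ n) :
    stablePts r (regularPolygon n) 0 =
      (fun k : ℕ => (Real.cos (Real.pi / n) : ℂ) * e ((2 * k + 1) * Real.pi / n)) '' (Set.Iio n) := by
  have hn0 : (n : ℝ) ≠ 0 := by have := j5_n hn; positivity
  have hB := poly_body hn
  have h0 := poly_zero hn
  ext q
  constructor
  · rintro ⟨θ, rfl, heq, hcd, hpos⟩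
    rcases j5_split hn θ with ⟨k, h1, h2⟩ | ⟨k, h1, h2⟩
    · have hc := j5_cos hn k h1.le h2.le
      have he := j5_near hn h1 h2
      have hd : HasDerivAt (rad (regularPolygon n) 0) (j5G n k θ) θ :=
        (j5_hd n k hc.ne').congr_of_eventuallyEq he
      have h3 := (isEq_iff hB h0 hd.differentiableAt.differentiableWithinAt
        hd.differentiableAt.differentiableWithinAt).1 heq
      rw [hd.hasDerivWithinAt.derivWithin (uniqueDiffWithinAt_Iic θ),
        hd.hasDerivWithinAt.derivWithin (uniqueDiffWithinAt_Ici θ)] at h3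
      have h4 : j5G n k θ = 0 := le_antisymm h3.2 h3.1
      have h5 : Real.sin (θ - j5u n k) = 0 := by
        unfold j5G at h4
        rw [div_eq_zero_iff] at h4
        rcases h4 with h4 | h4
        · rcases mul_eq_zero.1 h4 with h4 | h4
          · exact absurd h4 (j5_cpos hn).ne'
          · exact h4
        · exact absurd h4 (pow_ne_zero 2 hc.ne')
      have h6 := j5_lt hn
      have h7 := Real.pi_pos
      rw [Real.sin_eq_zero_iff_of_lt_of_lt (by linarith) (by linarith)] at h5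
      have h8 : θ = j5u n k := by linarith
      refine ⟨(k % n).toNat, ?_, ?_⟩
      · have := Int.emod_lt_of_pos k (show (0 : ℤ) < n by omega)
        have := Int.emod_nonneg k (show (n : ℤ) ≠ 0 by omega)
        show (k % n).toNat < n
        omega
      · rw [bd_zero, h8, j5_radu hn k]
        have e1 : j5u n k = (2 * ((k % n).toNat : ℝ) + 1) * Real.pi / n +
            ((k / n : ℤ) : ℝ) * (2 * Real.pi) := by
          have a1 := Int.emod_add_mul_ediv k n
          have a2 : (((k % n).toNat : ℤ)) = k % n :=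
            Int.toNat_of_nonneg (Int.emod_nonneg k (by omega))
          have a3 : ((((k % n).toNat : ℤ)) : ℝ) + n * ((k / n : ℤ) : ℝ) = k := by
            rw [a2]; exact_mod_cast a1
          rw [Int.cast_natCast] at a3
          unfold j5u
          rw [← a3]
          field_simp
          ring
        rw [e1, e_period]
    · exact absurd hpos (j5_vertex hn h1 h2)
  · rintro ⟨k, _, rfl⟩
    refine ⟨j5u n k, ?_, j5_stab r hn k⟩
    rw [bd_zero, j5_radu hn k]
    simp [j5u]

theorem poly_class (r : ℕ∞) {n : ℕ} (hn : 3 ≤ n) : InClass r n (regularPolygon n) := by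
  have hn1 := j5_n hn
  have hB := poly_body hn
  have h0 := poly_zero hn
  refine ⟨hB, ?_, ?_, ?_⟩
  · rw [poly_centre hn]; exact poly_pw r hn
  · rw [poly_centre hn]; exact poly_nondeg r hn
  · rw [poly_centre hn, poly_stable r hn, InjOn.encard_image]
    · rw [← Finset.coe_range, Set.encard_coe_eq_coe_finsetCard, Finset.card_range]
    · have key : ∀ j : ℕ, j < n → (Real.cos (Real.pi / n) : ℂ) * e ((2 * j + 1) * Real.pi / n) =
          bd (regularPolygon n) 0 (j5u n j) ∧ j5u n j ∈ Ico (0 : ℝ) (2 * Real.pi) := by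
        intro j hj
        constructor
        · rw [bd_zero, j5_radu hn j]
          simp [j5u]
        · have hj' : (j : ℝ) + 1 ≤ n := by exact_mod_cast hj
          have hp := Real.pi_pos
          unfold j5u
          constructor
          · push_cast; positivity
          · rw [div_lt_iff₀ (by linarith)]
            push_cast
            nlinarith
      intro i hi j hj hij
      obtain ⟨a1, a2⟩ := key i hi
      obtain ⟨b1, b2⟩ := key j hj
      have h3 : bd (regularPolygon n) 0 (j5u n i) = bd (regularPolygon n) 0 (j5u n j) := by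
        rw [← a1, ← b1]; exact hij
      have h4 := bd_inj hB h0 a2 b2 h3
      unfold j5u at h4
      have hp := Real.pi_pos
      have h5 : (2 * (i : ℝ) + 1) * Real.pi = (2 * (j : ℝ) + 1) * Real.pi := by
        have := (div_left_inj' (show (n : ℝ) ≠ 0 by positivity)).1 h4
        exact_mod_cast this
      have h6 := mul_right_cancel₀ hp.ne' h5
      have h7 : (i : ℝ) = j := by linarith
      exact_mod_cast h7

end Pool.Agent.Lib.MP_707299_gt
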