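import Pool.Agent.Lib.MP_707299_gt.B
import Pool.Agent.Lib.MP_707299_gt.D
import Pool.Agent.Lib.MP_707299_gt.SD

/-!
Row PK: `n` peaks give `n` stable points.
-/

set_option autoImplicit false

namespace Pool.Agent.Lib.MP_707299_gt

open MeasureTheory Set Filter Topology

private theorem PK_left {f : ℝ → ℝ} {θ : ℝ} (h : IsLocalMin f θ)
    (hl : DifferentiableWithinAt ℝ f (Iic θ) θ) : derivWithin f (Iic θ) θ ≤ 0 := by
  have hT := (hasDerivWithinAt_iff_tendsto_slope' (by simp)).1
    (hl.hasDerivWithinAt.mono Iio_subset_Iic_self)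
  have : (𝓝[<] θ).NeBot := inferInstance
  refine le_of_tendsto hT ?_
  have h1 : ∀ᶠ x in 𝓝[<] θ, f θ ≤ f x := h.filter_mono nhdsWithin_le_nhds
  filter_upwards [h1, self_mem_nhdsWithin] with x hx hx2
  have hx2' : x < θ := hx2
  rw [slope_def_field]
  exact div_nonpos_of_nonneg_of_nonpos (by linarith) (by linarith)

private theorem PK_right {f : ℝ → ℝ} {θ : ℝ} (h : IsLocalMin f θ)
    (hl : DifferentiableWithinAt ℝ f (Ici θ) θ) : 0 ≤ derivWithin f (Ici θ) θ := by
  have hT := (hasDerivWithinAt_iff_tendsto_slope' (by simp)).1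
    (hl.hasDerivWithinAt.mono Ioi_subset_Ici_self)
  have : (𝓝[>] θ).NeBot := inferInstance
  refine ge_of_tendsto hT ?_
  have h1 : ∀ᶠ x in 𝓝[>] θ, f θ ≤ f x := h.filter_mono nhdsWithin_le_nhds
  filter_upwards [h1, self_mem_nhdsWithin] with x hx hx2
  have hx2' : θ < x := hx2
  rw [slope_def_field]
  exact div_nonneg (by linarith) (by linarith)

private theorem PK_second {f : ℝ → ℝ} {θ : ℝ} (h : IsLocalMin f θ) (hc : ContinuousAt f θ) :
    0 ≤ deriv (deriv f) θ := by
  by_contra hneg
  push Not at hneg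
  have hmax := isLocalMax_of_deriv_deriv_neg hneg h.deriv_eq_zero hc
  have hconst : f =ᶠ[𝓝 θ] fun _ => f θ := by
    filter_upwards [h, hmax] with x h1 h2
    exact le_antisymm h2 h1
  have h1 : deriv f =ᶠ[𝓝 θ] fun _ => (0 : ℝ) := by
    have := hconst.deriv
    simpa using this
  have h2 := h1.deriv_eq
  simp only [deriv_const] at h2
  linarith

/-- At a local minimum of `rad K 0` the left derivative is `≤ 0`, the right derivative is `≥ 0`; by
`right_le_left` both are `0`, so there is an equilibrium (`isEq_iff`), it is nondegenerate, necessarily of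
the first kind, and the second derivative is `≥ 0`. -/
theorem stable_of_localMin {r : ℕ∞} (hr : 2 ≤ r) {K : Set ℂ} (hK : IsBody K)
    (h0 : (0 : ℂ) ∈ interior K) (hs : PwSmooth r K 0) (hn : ∀ θ, IsEq K 0 θ → IsNondeg r K 0 θ)
    {θ : ℝ} (h : IsLocalMin (rad K 0) θ) : IsStable r K 0 θ := by
  have hr1 : (1 : ℕ∞) ≤ r := le_trans (by norm_num) hr
  have hl := pw_left hr1 hs θ
  have hrr := pw_right hr1 hs θ
  have h1 := PK_left h hl
  have h2 := PK_right h hrr
  have h3 := right_le_left hK h0 hl hrr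
  have heq : IsEq K 0 θ := (isEq_iff hK h0 hl hrr).2 ⟨by linarith, by linarith⟩
  refine ⟨heq, ?_⟩
  rcases hn θ heq with ⟨hc, hd⟩ | ⟨hp, _⟩
  · refine ⟨hc, lt_of_le_of_ne (PK_second h hc.continuousAt) (Ne.symm hd)⟩
  · exact absurd hp (not_lt.2 h1)

private theorem PK_bd_period (K : Set ℂ) (θ : ℝ) (k : ℤ) :
    bd K 0 (θ + k * (2 * Real.pi)) = bd K 0 θ := by
  rw [bd_zero, bd_zero, rad_period, e_period]

/-- In every interval `(t k, t (k + 1))` the function `rad K 0` has a local minimum: its minimum on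
`[t k, t (k + 1)]` is at most `R`. The `n` directions are in `(t 0, t 0 + 2π)`. -/
theorem peaks {r : ℕ∞} (hr : 2 ≤ r) {K : Set ℂ} (hK : IsBody K)
    (h0 : (0 : ℂ) ∈ interior K) (hs : PwSmooth r K 0) (hn : ∀ θ, IsEq K 0 θ → IsNondeg r K 0 θ)
    {n : ℕ} {t u : ℕ → ℝ} {R : ℝ} (htu : ∀ k < n, t k < u k ∧ u k < t (k + 1))
    (htn : t n = t 0 + 2 * Real.pi) (ht : ∀ k ≤ n, R < rad K 0 (t k))
    (hu : ∀ k < n, rad K 0 (u k) ≤ R) : (n : ℕ∞) ≤ (stablePts r K 0).encard := by
  have hcont := rad_continuous hK h0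
  have hpi := Real.pi_pos
  -- the local minima
  have hex : ∀ k < n, ∃ s, t k < s ∧ s < t (k + 1) ∧ IsStable r K 0 s := by
    intro k hk
    have hlt : t k ≤ t (k + 1) := ((htu k hk).1.trans (htu k hk).2).le
    obtain ⟨s, hs1, hs2⟩ := isCompact_Icc.exists_isMinOn (nonempty_Icc.2 hlt)
      (hcont.continuousOn (s := Icc (t k) (t (k + 1))))
    have hsu : rad K 0 s ≤ R :=
      (hs2 (show u k ∈ Icc (t k) (t (k + 1)) from ⟨(htu k hk).1.le, (htu k hk).2.le⟩)).trans (hu k hk)
    have h1 : t k < s := by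
      rcases eq_or_lt_of_le hs1.1 with h | h
      · exfalso; have := ht k hk.le; rw [h] at this; linarith
      · exact h
    have h2 : s < t (k + 1) := by
      rcases eq_or_lt_of_le hs1.2 with h | h
      · exfalso; have := ht (k + 1) hk; rw [← h] at this; linarith
      · exact h
    refine ⟨s, h1, h2, stable_of_localMin hr hK h0 hs hn ?_⟩
    exact hs2.isLocalMin (Icc_mem_nhds h1 h2)
  choose! s hs1 hs2 hs3 using hex
  -- monotonicity of `t` up to `n`
  have hmono : ∀ j, j ≤ n → ∀ i, i ≤ j → t i ≤ t j := by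
    intro j
    induction j with
    | zero => intro _ i hi; rw [Nat.le_zero.1 hi]
    | succ j ih =>
      intro hj i hi
      rcases Nat.lt_or_ge j i with h | h
      · have : i = j + 1 := by omega
        rw [this]
      · exact (ih (by omega) i h).trans ((htu j (by omega)).1.trans (htu j (by omega)).2).le
  have hslt : ∀ i j, i < j → j < n → s i < s j := by
    intro i j hij hj
    have h1 := hs2 i (by omega)
    have h2 := hmono j (by omega) (i + 1) (by omega)
    have h3 := hs1 j hj
    linarith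
  have hrange : ∀ i, i < n → t 0 < s i ∧ s i < t 0 + 2 * Real.pi := by
    intro i hi
    have h1 := hs1 i hi
    have h2 := hs2 i hi
    have h3 := hmono i hi.le 0 (Nat.zero_le _)
    have h4 := hmono n le_rfl (i + 1) (by omega)
    exact ⟨by linarith, by linarith⟩
  -- injectivity
  have hinj : Function.Injective (fun i : Fin n => bd K 0 (s i)) := by
    intro i j hij
    simp only at hij
    have hpi2 : 0 < 2 * Real.pi := by positivity
    have hred : ∀ x : ℝ, ∃ k : ℤ, x + k * (2 * Real.pi) ∈ Ico (0 : ℝ) (2 * Real.pi) := by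
      intro x
      refine ⟨-⌊x / (2 * Real.pi)⌋, ?_, ?_⟩
      · have := Int.floor_le (x / (2 * Real.pi))
        rw [le_div_iff₀ hpi2] at this
        push_cast; linarith
      · have := Int.lt_floor_add_one (x / (2 * Real.pi))
        rw [div_lt_iff₀ hpi2] at this
        push_cast; linarith
    obtain ⟨a, ha⟩ := hred (s i)
    obtain ⟨b, hb⟩ := hred (s j)
    have heq : s i + a * (2 * Real.pi) = s j + b * (2 * Real.pi) := by
      apply bd_inj hK h0 ha hb
      rw [PK_bd_period, PK_bd_period]; exact hij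
    have hri := hrange i i.2
    have hrj := hrange j j.2
    have hab : ((b - a : ℤ) : ℝ) * (2 * Real.pi) = s i - s j := by push_cast; linarith
    have h1 : ((b - a : ℤ) : ℝ) < 1 := by
      by_contra hcon; push Not at hcon; nlinarith
    have h2 : (-1 : ℝ) < ((b - a : ℤ) : ℝ) := by
      by_contra hcon; push Not at hcon; nlinarith
    have h3 : b - a = 0 := by
      have h1' : b - a < 1 := by exact_mod_cast h1
      have h2' : -1 < b - a := by exact_mod_cast h2
      omega
    rw [h3] at hab
    simp only [Int.cast_zero, zero_mul] at hab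
    have hsij : s i = s j := by linarith
    rcases lt_trichotomy (i : ℕ) j with h | h | h
    · exact absurd hsij (hslt i j h j.2).ne
    · exact Fin.ext h
    · exact absurd hsij (hslt j i h i.2).ne'
  have hsub : Set.range (fun i : Fin n => bd K 0 (s i)) ⊆ stablePts r K 0 := by
    rintro _ ⟨i, rfl⟩
    exact ⟨s i, rfl, hs3 i i.2⟩
  have hcard : (Set.range (fun i : Fin n => bd K 0 (s i))).encard = n := by
    rw [← Set.image_univ, hinj.encard_image, Set.encard_univ]
    simp
  rw [← hcard]
  exact Set.encard_le_encard hsub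

end Pool.Agent.Lib.MP_707299_gt
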