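import Mathlib

/-!
Row Q: the area of the cap, numerically.
-/

set_option autoImplicit false

namespace Pool.Agent.Lib.MP_707299_gt

open Real

/-- `(a - b cos φ) (b - a cos φ) ≤ a b (1 - cos φ) ^ 2` since `2 a b ≤ a ^ 2 + b ^ 2`, and
`(1 - cos φ) / sin φ = tan (φ / 2) ≤ (φ / 2) / (1 - (φ / 2) ^ 2 / 2)`. -/
theorem cap_num {a b φ : ℝ} (ha : 0 < a) (hb : 0 < b) (hφ : 0 < φ) (hφ' : φ ≤ π / 10) :
    (a * a - a * b * cos φ) * (b * b - a * b * cos φ) / (2 * (a * b * sin φ)) ≤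
      0.257 * φ ^ 2 * (a * b * sin φ / 2) := by
  have hpi : π < 3.15 := Real.pi_lt_d2
  obtain ⟨h, rfl⟩ : ∃ h, φ = 2 * h := ⟨φ / 2, by ring⟩
  have h0 : 0 < h := by linarith
  have h1 : h ≤ 0.1575 := by linarith
  have hs0 : 0 < sin h := Real.sin_pos_of_pos_of_lt_pi h0 (by linarith [Real.pi_gt_three])
  have hs1 : sin h ≤ h := Real.sin_le h0.le
  have hc0 : 0 < cos h := Real.cos_pos_of_mem_Ioo ⟨by linarith [Real.pi_gt_three], by linarith [Real.pi_gt_three]⟩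
  have hsc := Real.sin_sq_add_cos_sq h
  have hh : h ^ 2 ≤ 0.1575 ^ 2 := by gcongr
  have hss : sin h ^ 2 ≤ h ^ 2 := by gcongr
  have hcc : 0.9751 ≤ cos h ^ 2 := by nlinarith
  have key : sin h ^ 2 ≤ 1.028 * h ^ 2 * cos h ^ 2 := by nlinarith [sq_nonneg h]
  have hab : 0 < a * b := mul_pos ha hb
  have hc2 : cos (2 * h) = 1 - 2 * sin h ^ 2 := by rw [Real.cos_two_mul]; linarith
  have hs2 : sin (2 * h) = 2 * sin h * cos h := Real.sin_two_mul h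
  have hcp : 0 ≤ 1 - 2 * sin h ^ 2 := by nlinarith
  rw [hc2, hs2, div_le_iff₀ (by positivity)]
  have e1 : (a * a - a * b * (1 - 2 * sin h ^ 2)) * (b * b - a * b * (1 - 2 * sin h ^ 2)) ≤
      (a * b) ^ 2 * (2 * sin h ^ 2) ^ 2 := by
    have e2 : (a * b) ^ 2 * (2 * sin h ^ 2) ^ 2 -
        (a * a - a * b * (1 - 2 * sin h ^ 2)) * (b * b - a * b * (1 - 2 * sin h ^ 2)) =
        a * b * ((1 - 2 * sin h ^ 2) * (a - b) ^ 2) := by ring
    have e3 : 0 ≤ a * b * ((1 - 2 * sin h ^ 2) * (a - b) ^ 2) := by positivity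
    linarith
  refine e1.trans ?_
  have e4 : 0.257 * (2 * h) ^ 2 * (a * b * (2 * sin h * cos h) / 2) * (2 * (a * b * (2 * sin h * cos h))) =
      (a * b) ^ 2 * (4 * sin h ^ 2 * (1.028 * h ^ 2 * cos h ^ 2)) := by ring
  rw [e4]
  have e5 : (2 * sin h ^ 2) ^ 2 = 4 * sin h ^ 2 * sin h ^ 2 := by ring
  rw [e5]
  gcongr

/-- Lower bound: area of the triangle near a vertex of the regular polygon. -/
theorem low_num {n : ℕ} (hn : 10000 ≤ n) {γ : ℝ} (hγ0 : 0 ≤ γ) (hγ : γ ≤ 2.5 / (n : ℝ) ^ 3) :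
    2.4 * π / (n : ℝ) ^ 3 <
      (1 - cos (π / n) - 2 * γ) ^ 2 * (cos (π / n) / sin (π / n)) := by
  have hpi : π < 3.15 := Real.pi_lt_d2
  have hpi' : 3.14 < π := Real.pi_gt_d2
  have hn' : (10000 : ℝ) ≤ n := by exact_mod_cast hn
  have hn0 : (0 : ℝ) < n := by linarith
  set x := π / n with hx
  have hx0 : 0 < x := div_pos Real.pi_pos hn0
  have hx1 : x ≤ 0.000315 := by
    rw [hx, div_le_iff₀ hn0]
    nlinarith
  have hxn : x * n = π := by rw [hx]; field_simp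
  have e1 : 1 / (n : ℝ) ^ 3 = x ^ 3 / π ^ 3 := by
    rw [div_eq_div_iff (by positivity) (by positivity), ← hxn]
    ring
  have e2 : 2.4 * π / (n : ℝ) ^ 3 = 2.4 / π ^ 2 * x ^ 3 := by
    calc 2.4 * π / (n : ℝ) ^ 3 = 2.4 * π * (1 / (n : ℝ) ^ 3) := by ring
      _ = 2.4 * π * (x ^ 3 / π ^ 3) := by rw [e1]
      _ = 2.4 / π ^ 2 * x ^ 3 := by field_simp
  have hγ' : γ ≤ 0.1 * x ^ 3 := by
    have h1 : γ ≤ 2.5 / π ^ 3 * x ^ 3 := by
      calc γ ≤ 2.5 / (n : ℝ) ^ 3 := hγ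
        _ = 2.5 * (1 / (n : ℝ) ^ 3) := by ring
        _ = 2.5 * (x ^ 3 / π ^ 3) := by rw [e1]
        _ = 2.5 / π ^ 3 * x ^ 3 := by ring
    have h2 : 2.5 / π ^ 3 ≤ 0.1 := by
      rw [div_le_iff₀ (by positivity)]
      have h3 : (3.14 : ℝ) ^ 3 ≤ π ^ 3 := by gcongr
      norm_num at h3 ⊢
      linarith
    have h3 : 2.5 / π ^ 3 * x ^ 3 ≤ 0.1 * x ^ 3 := by gcongr
    linarith
  have h24 : 2.4 / π ^ 2 < 0.2435 := by
    rw [div_lt_iff₀ (by positivity)]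
    have h3 : (3.14 : ℝ) ^ 2 ≤ π ^ 2 := by gcongr
    norm_num at h3 ⊢
    linarith
  have hcb := Real.cos_bound (x := x) (by rw [abs_of_pos hx0]; linarith)
  rw [abs_of_pos hx0, abs_le] at hcb
  have hx2 : x ^ 2 ≤ 0.000315 ^ 2 := by gcongr
  have hx3 : x ^ 3 ≤ 0.000315 * x ^ 2 := by
    calc x ^ 3 = x * x ^ 2 := by ring
      _ ≤ 0.000315 * x ^ 2 := by gcongr
  have hx4 : x ^ 4 ≤ 0.000315 ^ 2 * x ^ 2 := by
    calc x ^ 4 = x ^ 2 * x ^ 2 := by ring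
      _ ≤ 0.000315 ^ 2 * x ^ 2 := by gcongr
  have hx20 : 0 < x ^ 2 := by positivity
  have hA : 0.499 * x ^ 2 ≤ 1 - cos x - 2 * γ := by
    norm_num at hx4 hx3 ⊢
    linarith [hcb.2]
  have hC : 0.9999 ≤ cos x := by
    have := Real.one_sub_sq_div_two_le_cos (x := x)
    norm_num at hx2 ⊢
    linarith
  have hs0 : 0 < sin x := Real.sin_pos_of_pos_of_lt_pi hx0 (by linarith)
  have hs1 : sin x ≤ x := Real.sin_le hx0.le
  have hq : 0.9999 / x ≤ cos x / sin x := by gcongr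
  have hA2 : (0.499 * x ^ 2) ^ 2 ≤ (1 - cos x - 2 * γ) ^ 2 := by gcongr
  have hfin : (0.499 * x ^ 2) ^ 2 * (0.9999 / x) ≤ (1 - cos x - 2 * γ) ^ 2 * (cos x / sin x) := by gcongr
  refine lt_of_lt_of_le ?_ hfin
  rw [e2]
  have e3 : (0.499 * x ^ 2) ^ 2 * (0.9999 / x) = 0.499 ^ 2 * 0.9999 * x ^ 3 := by field_simp
  rw [e3]
  have h3 : 0 < x ^ 3 := by positivity
  refine mul_lt_mul_of_pos_right ?_ h3
  refine h24.trans ?_
  norm_num

end Pool.Agent.Lib.MP_707299_gt
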