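import Pool.Agent.Lib.MP_707299_gt.J2
import Pool.Agent.Lib.MP_707299_gt.PK
import Pool.Agent.Lib.MP_707299_gt.Z
import Pool.Agent.Lib.MP_707299_gt.Q
import Pool.Agent.Lib.MP_707299_gt.I

/-!
Row JL: lower bound for the robustness of the regular polygon.
-/

set_option autoImplicit false

namespace Pool.Agent.Lib.MP_707299_gt

open MeasureTheory Set Filter Topology

/-- the angles of the points and of the directions -/
private theorem JL_angles {n : ℕ} (hn : 10000 ≤ n) {γ : ℝ} (hγ0 : 0 ≤ γ)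
    (hγ : γ ≤ 2.5 / (n : ℝ) ^ 3) :
    0 < 1 - Real.cos (Real.pi / n) - 2 * γ ∧ 0 < Real.sin (Real.pi / n) ∧
      1 / 2 ≤ Real.cos (Real.pi / n) ∧ γ < Real.sin (Real.pi / n) / 3 := by
  have hn' : (10000 : ℝ) ≤ n := by exact_mod_cast hn
  have hn0 : (0 : ℝ) < n := by linarith
  have hpi := Real.pi_pos
  have hpi4 := Real.pi_le_four
  have hx0 : 0 < Real.pi / n := by positivity
  have hx1 : Real.pi / n ≤ Real.pi / 3 := by
    apply div_le_div_of_nonneg_left hpi.le (by norm_num) (by linarith)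
  have hcube : 2.5 / (n : ℝ) ^ 3 ≤ 1 / (4000 * (n : ℝ) ^ 2) := by
    rw [div_le_div_iff₀ (by positivity) (by positivity)]
    have : (n : ℝ) ^ 3 = n * (n : ℝ) ^ 2 := by ring
    nlinarith [sq_nonneg (n : ℝ), mul_le_mul_of_nonneg_right hn' (sq_nonneg (n : ℝ))]
  have hcos := Real.cos_le_one_sub_mul_cos_sq (x := Real.pi / n) (by
    rw [abs_of_pos hx0]
    linarith)
  have hq : 2 / Real.pi ^ 2 * (Real.pi / n) ^ 2 = 2 / (n : ℝ) ^ 2 := by
    field_simp
  rw [hq] at hcos
  have h1 : 1 / (4000 * (n : ℝ) ^ 2) = (1 / 8000) * (2 / (n : ℝ) ^ 2) := by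
    field_simp
    norm_num
  have h2 : 0 < 2 / (n : ℝ) ^ 2 := by positivity
  refine ⟨by linarith, ?_, ?_, ?_⟩
  · exact Real.sin_pos_of_pos_of_lt_pi hx0 (by linarith)
  · rw [← Real.cos_pi_div_three]
    exact Real.cos_le_cos_of_nonneg_of_le_pi hx0.le (by linarith) hx1
  · have h3 := Real.mul_le_sin (x := Real.pi / n) hx0.le (by linarith)
    have h4 : 2 / Real.pi * (Real.pi / n) = 2 / (n : ℝ) := by
      field_simp
    rw [h4] at h3
    have h5 : 1 / (4000 * (n : ℝ) ^ 2) ≤ 1 / (40000000 * (n : ℝ)) := by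
      apply one_div_le_one_div_of_le (by positivity)
      nlinarith
    have h6 : 1 / (40000000 * (n : ℝ)) = (1 / 80000000) * (2 / (n : ℝ)) := by
      field_simp
      norm_num
    have h7 : 0 < 2 / (n : ℝ) := by positivity
    linarith

/-- Suppose not. Let `P` be the polygon, `g = centre K'`, `γ = ‖g‖ ≤ 2.5 / n ^ 3` (`centre_small` with
`δ = 2.4 / n ^ 3`), `τ = cos (π / n) + 2 γ`, `κ = (1 - τ) / (1 - cos (2π / n)) ≤ 1 / 3`. Every `corner n k κ` has
volume `(1 - τ) ^ 2 cot (π / n)`, larger than `2.4 π / n ^ 3 ≥ |P \ K'|` (`low_num`, `poly_volume_le`), so it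
contains a point `x k ∈ K'`, `τ < ‖x k‖` (`corner_norm`). Let `K₀ = tr (-g) K'`: a body with integral `0`
(`tr_centre`, `centre_zero`, `centroid_interior`), `InClass r m K₀`. Let `u k = (2 k + 1) π / n`:
`rad K₀ 0 (u k) ≤ cos (π / n) + γ =: R` by `poly_support` (`bd K₀ 0 (u k) + g ∈ P`). `x k - g` is in the open cone
between `e (u (k - 1))` and `e (u k)` (`corner_cone`, `γ < sin (π / n) / 3`), so `x k - g = ‖x k - g‖ e (t k)`,
`u (k - 1) < t k < u k` (`cone_angle`), and `R < ‖x k - g‖ ≤ rad K₀ 0 (t k)` (`mem_iff`); choose the points for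
`0 ≤ k < n` and put `t n = t 0 + 2π`. `peaks` gives `n ≤ m`. -/
theorem lower {r : ℕ∞} (hr : 2 ≤ r) {n : ℕ} (hn : 10000 ≤ n) {K' : Set ℂ}
    (hsub : K' ⊆ regularPolygon n) {m : ℕ} (hm : m < n) (hK : InClass r m K') :
    ENNReal.ofReal (2.4 / (n : ℝ) ^ 3) * volume (regularPolygon n) ≤
      volume (regularPolygon n \ K') := by
  by_contra hcon
  rw [not_le] at hcon
  have hn' : (10000 : ℝ) ≤ n := by exact_mod_cast hn
  have hn0 : (0 : ℝ) < n := by linarith
  have hpi := Real.pi_pos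
  have hn3 : 3 ≤ n := le_trans (by norm_num) hn
  have hn6 : 6 ≤ n := le_trans (by norm_num) hn
  have hn1 : 1 ≤ n := le_trans (by norm_num) hn
  have hδ0 : (0 : ℝ) ≤ 2.4 / (n : ℝ) ^ 3 := by positivity
  have hcube1 : (100 : ℝ) ≤ (n : ℝ) ^ 3 := by
    have h1 : (10000 : ℝ) ^ 3 ≤ (n : ℝ) ^ 3 := by gcongr
    norm_num at h1 ⊢
    linarith
  have hδs : 2.4 / (n : ℝ) ^ 3 ≤ 0.04 := by
    rw [div_le_iff₀ (by positivity)]
    nlinarith
  -- the centre
  obtain ⟨g, hg⟩ : ∃ g, g = centre K' := ⟨_, rfl⟩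
  have hγ : ‖g‖ ≤ 2.5 / (n : ℝ) ^ 3 := by
    rw [hg]
    refine (centre_small hn3 hK.body hsub hδ0 (by linarith) hcon.le).trans ?_
    rw [div_le_iff₀ (by linarith)]
    have h1 : 2.5 / (n : ℝ) ^ 3 = 2.4 / (n : ℝ) ^ 3 * (2.5 / 2.4) := by
      field_simp
    rw [h1]
    nlinarith
  obtain ⟨γ, hγe⟩ : ∃ γ, γ = ‖g‖ := ⟨_, rfl⟩
  have hγ0 : 0 ≤ γ := hγe ▸ norm_nonneg g
  rw [← hγe] at hγ
  obtain ⟨h1τ, hs, hc, hγs⟩ := JL_angles hn hγ0 hγ
  -- the corners
  have hcos2 : 1 - Real.cos (2 * Real.pi / n) = 2 * Real.sin (Real.pi / n) ^ 2 := by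
    rw [show 2 * Real.pi / n = 2 * (Real.pi / n) by ring, Real.cos_two_mul, Real.sin_sq]
    ring
  have hsin2 : Real.sin (2 * Real.pi / n) = 2 * Real.sin (Real.pi / n) * Real.cos (Real.pi / n) := by
    rw [show 2 * Real.pi / n = 2 * (Real.pi / n) by ring, Real.sin_two_mul]
  have hcos2pos : 0 < 1 - Real.cos (2 * Real.pi / n) := by rw [hcos2]; positivity
  obtain ⟨κ, hκ⟩ : ∃ κ, κ = (1 - Real.cos (Real.pi / n) - 2 * γ) /
    (1 - Real.cos (2 * Real.pi / n)) := ⟨_, rfl⟩
  have hκ0 : 0 < κ := by rw [hκ]; positivity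
  have hκm : κ * (1 - Real.cos (2 * Real.pi / n)) = 1 - Real.cos (Real.pi / n) - 2 * γ := by
    rw [hκ]; exact div_mul_cancel₀ _ hcos2pos.ne'
  have hκ3 : κ ≤ 1 / 3 := by
    rw [hκ, div_le_iff₀ hcos2pos, hcos2, Real.sin_sq]
    nlinarith [Real.cos_le_one (Real.pi / n)]
  have hvol : ∀ k : ℤ, volume (regularPolygon n \ K') < volume (corner n k κ) := by
    intro k
    rw [corner_volume hn3 k hκ0.le]
    have h1 : κ ^ 2 * (Real.sin (2 * Real.pi / n) * (1 - Real.cos (2 * Real.pi / n))) =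
        (1 - Real.cos (Real.pi / n) - 2 * γ) ^ 2 *
          (Real.cos (Real.pi / n) / Real.sin (Real.pi / n)) := by
      rw [← hκm, hsin2, hcos2]
      field_simp
    rw [h1]
    refine hcon.trans_le ((mul_le_mul_right (poly_volume_le n) _).trans ?_)
    rw [← ENNReal.ofReal_mul hδ0]
    apply ENNReal.ofReal_le_ofReal
    have h2 := low_num hn hγ0 hγ
    have h3 : 2.4 / (n : ℝ) ^ 3 * Real.pi = 2.4 * Real.pi / (n : ℝ) ^ 3 := by ring
    rw [h3]
    exact h2.le
  have hpt : ∀ k : ℤ, ∃ x ∈ K', x ∈ corner n k κ := by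
    intro k
    by_contra hno
    apply absurd (hvol k)
    rw [not_lt]
    apply measure_mono
    intro x hx
    exact ⟨corner_sub hn1 k (hκ3.trans (by norm_num)) hx, fun hxK => hno ⟨x, hxK, hx⟩⟩
  -- the translate
  have hbody := tr_body (-g) hK.body
  have hcentre : centre (tr (-g) K') = 0 := by
    rw [tr_centre (-g) hK.body, ← hg]
    ring
  have hint : ∫ x in tr (-g) K', x = 0 := (centre_zero hbody).1 hcentre
  have h0 : (0 : ℂ) ∈ interior (tr (-g) K') := centroid_interior hbody hint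
  have hclass : InClass r m (tr (-g) K') := tr_class (-g) hK
  have hsm := hclass.smooth
  have hnd := hclass.nondeg
  have hct := hclass.count
  rw [hcentre] at hsm hnd hct
  have hmemK : ∀ z ∈ tr (-g) K', z + g ∈ K' := by
    rintro z ⟨w, hw, rfl⟩
    simpa using hw
  -- the low directions
  have hlow : ∀ k : ℤ, rad (tr (-g) K') 0 ((2 * k + 1) * Real.pi / n) ≤
      Real.cos (Real.pi / n) + γ := by
    intro k
    have h1 := hmemK _ (bd_mem hbody h0 ((2 * k + 1) * Real.pi / n))
    have h2 := poly_support hn1 k _ (hsub h1)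
    rw [dt_comm, dt_add, bd_zero, dt_mul, dt_self, norm_e] at h2
    have h3 := abs_le.1 (abs_dt_le (e ((2 * k + 1) * Real.pi / n)) g)
    rw [norm_e, one_mul, ← hγe] at h3
    linarith [h3.1]
  -- the peaks
  have hpeak : ∀ k : ℤ, ∃ t : ℝ, (2 * k - 1) * Real.pi / n < t ∧ t < (2 * k + 1) * Real.pi / n ∧
      Real.cos (Real.pi / n) + γ < rad (tr (-g) K') 0 t := by
    intro k
    obtain ⟨x, hxK, hxc⟩ := hpt k
    have h1 := corner_norm hn3 k x hxc
    rw [hκm] at h1
    obtain ⟨h2, h3⟩ := corner_cone hn6 k hκ3 x hxc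
    have h4 : |cr (e ((2 * k - 1) * Real.pi / n)) g| ≤ γ := by
      have := abs_cr_le (e ((2 * k - 1) * Real.pi / n)) g
      rwa [norm_e, one_mul, ← hγe] at this
    have h5 : |cr g (e ((2 * k + 1) * Real.pi / n))| ≤ γ := by
      have := abs_cr_le g (e ((2 * k + 1) * Real.pi / n))
      rwa [norm_e, mul_one, ← hγe] at this
    have hxg : x = (x - g) + g := by ring
    have h6 : 0 < cr (e ((2 * k - 1) * Real.pi / n)) (x - g) := by
      have h7 : cr (e ((2 * k - 1) * Real.pi / n)) x =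
          cr (e ((2 * k - 1) * Real.pi / n)) (x - g) + cr (e ((2 * k - 1) * Real.pi / n)) g := by
        rw [← cr_add, ← hxg]
      have := (abs_le.1 h4).2
      linarith
    have h8 : 0 < cr (x - g) (e ((2 * k + 1) * Real.pi / n)) := by
      have h7 : cr x (e ((2 * k + 1) * Real.pi / n)) =
          cr (x - g) (e ((2 * k + 1) * Real.pi / n)) + cr g (e ((2 * k + 1) * Real.pi / n)) := by
        rw [← add_cr, ← hxg]
      have := (abs_le.1 h5).2
      linarith
    have hstep : (2 * (k : ℝ) + 1) * Real.pi / n = (2 * k - 1) * Real.pi / n + 2 * Real.pi / n := by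
      ring
    have h9 : 2 * Real.pi / n < Real.pi := by
      rw [div_lt_iff₀ hn0]
      nlinarith
    obtain ⟨t, ht1, ht2, ht3⟩ := cone_angle (a := (2 * (k : ℝ) - 1) * Real.pi / n)
      (b := (2 * (k : ℝ) + 1) * Real.pi / n) (by rw [hstep]; linarith [show 0 < 2 * Real.pi / n by positivity])
      (by rw [hstep]; linarith) h6 h8
    refine ⟨t, ht1, ht2, ?_⟩
    have h10 : (x - g) ∈ tr (-g) K' := ⟨x, hxK, by ring⟩
    rw [ht3] at h10
    have h11 := (mem_iff hbody h0 (norm_nonneg _)).1 h10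
    have h12 := norm_sub_norm_le x g
    rw [← hγe] at h12
    linarith
  choose T hT1 hT2 hT3 using hpeak
  have hfin := peaks hr hbody h0 hsm hnd (n := n)
    (t := fun k => if k < n then T k else T 0 + 2 * Real.pi)
    (u := fun k => (2 * (k : ℝ) + 1) * Real.pi / n) (R := Real.cos (Real.pi / n) + γ)
    (by
      intro k hk
      simp only [if_pos hk]
      constructor
      · have := hT2 (k : ℤ)
        push_cast at this
        exact this
      · by_cases hk1 : k + 1 < n
        · rw [if_pos hk1]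
          have := hT1 ((k : ℤ) + 1)
          push_cast at this
          rw [show (2 * ((k : ℝ) + 1) - 1) = 2 * (k : ℝ) + 1 by ring] at this
          push_cast
          exact this
        · rw [if_neg hk1]
          have hkn : (k : ℝ) = n - 1 := by
            have : k + 1 = n := by omega
            rw [← this]; push_cast; ring
          have h1 := hT1 0
          push_cast at h1
          rw [hkn]
          have h2 : (2 * ((n : ℝ) - 1) + 1) * Real.pi / n = (2 * 0 - 1) * Real.pi / n + 2 * Real.pi := by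
            field_simp
            ring
          rw [h2]
          linarith)
    (by
      have h1 : 0 < n := hn1
      simp only [lt_irrefl, if_false, if_pos h1, Nat.cast_zero])
    (by
      intro k hk
      by_cases hkn : k < n
      · simp only [if_pos hkn]
        exact hT3 k
      · simp only [if_neg hkn]
        have := rad_period (tr (-g) K') 0 (T 0) 1
        simp only [Int.cast_one, one_mul] at this
        rw [this]
        exact hT3 0)
    (by
      intro k hk
      have := hlow k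
      push_cast at this
      exact this)
  rw [hct] at hfin
  have : n ≤ m := by exact_mod_cast hfin
  omega

end Pool.Agent.Lib.MP_707299_gt
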