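import Pool.Agent.Lib.MP_707299_gt.Lin

/-!
Row L0: the convex function whose critical points balance a body.
-/

set_option autoImplicit false

namespace Pool.Agent.Lib.MP_707299_gt

open MeasureTheory Set Filter Topology

/-- `∫_S (x·l - 1)_+ - l·∫_S x`. -/
noncomputable def Gf (S : Set ℂ) (l : ℂ) : ℝ :=
  (∫ x in S, max (dt l x - 1) 0) - dt l (∫ x in S, x)

theorem gf_zero (S : Set ℂ) : Gf S 0 = 0 := by
  unfold Gf
  simp [zero_dt]

private theorem L0_fin {S : Set ℂ} {R : ℝ} (hR : ∀ x ∈ S, ‖x‖ ≤ R) : volume S ≠ ⊤ := by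
  have h : S ⊆ Metric.closedBall 0 R := by
    intro x hx
    rw [mem_closedBall_zero_iff]
    exact hR x hx
  exact ((measure_mono h).trans_lt (isCompact_closedBall (0 : ℂ) R).measure_lt_top).ne

private theorem L0_id {S : Set ℂ} {R : ℝ} (hR : ∀ x ∈ S, ‖x‖ ≤ R) :
    IntegrableOn (fun x : ℂ => x) S := by
  refine integrableOn_id' (isCompact_closedBall (0 : ℂ) R) ?_
  intro x hx
  rw [mem_closedBall_zero_iff]
  exact hR x hx

private theorem L0_cont_max (l : ℂ) : Continuous fun x : ℂ => max (dt l x - 1) 0 :=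
  ((continuous_dt l).sub continuous_const).max continuous_const

private theorem L0_cont_max' (x : ℂ) : Continuous fun l : ℂ => max (dt l x - 1) 0 := by
  have h : Continuous fun l : ℂ => dt l x := by
    have := continuous_dt x
    simp only [dt_comm x] at this
    exact this
  exact (h.sub continuous_const).max continuous_const

private theorem L0_int {S : Set ℂ} (hS : MeasurableSet S) {R : ℝ} (hR : ∀ x ∈ S, ‖x‖ ≤ R) (l : ℂ) :
    IntegrableOn (fun x : ℂ => max (dt l x - 1) 0) S := by
  have hf := L0_fin hR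
  refine Measure.integrableOn_of_bounded (M := ‖l‖ * R + 1) hf
    (L0_cont_max l).aestronglyMeasurable ?_
  refine (ae_restrict_mem hS).mono fun x hx => ?_
  have h1 := dt_le l x
  have h2 := hR x hx
  have h3 : ‖l‖ * ‖x‖ ≤ ‖l‖ * R := mul_le_mul_of_nonneg_left h2 (norm_nonneg l)
  have h4 : 0 ≤ ‖l‖ * ‖x‖ := by positivity
  rw [Real.norm_eq_abs, abs_of_nonneg (le_max_right _ _)]
  exact max_le (by linarith) (by linarith)

theorem gf_continuous {S : Set ℂ} (hS : MeasurableSet S) {R : ℝ} (hR : ∀ x ∈ S, ‖x‖ ≤ R) :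
    Continuous (Gf S) := by
  have hf := L0_fin hR
  unfold Gf
  refine Continuous.sub ?_ ?_
  · rw [continuous_iff_continuousAt]
    intro l0
    refine continuousAt_of_dominated (bound := fun _ => (‖l0‖ + 1) * |R| + 1) ?_ ?_ ?_ ?_
    · exact Filter.Eventually.of_forall fun l => (L0_cont_max l).aestronglyMeasurable
    · filter_upwards [Metric.ball_mem_nhds l0 one_pos] with l hl
      refine (ae_restrict_mem hS).mono fun x hx => ?_
      have h1 := dt_le l x
      have h2 := (hR x hx).trans (le_abs_self R)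
      have h3 : ‖l‖ ≤ ‖l0‖ + 1 := by
        have := norm_sub_norm_le l l0
        rw [Metric.mem_ball, dist_eq_norm] at hl
        linarith
      have h4 : ‖l‖ * ‖x‖ ≤ (‖l0‖ + 1) * |R| :=
        mul_le_mul h3 h2 (norm_nonneg _) (by positivity)
      have h5 : 0 ≤ (‖l0‖ + 1) * |R| := by positivity
      rw [Real.norm_eq_abs, abs_of_nonneg (le_max_right _ _)]
      exact max_le (by linarith) (by linarith)
    · exact integrableOn_const hf
    · exact Filter.Eventually.of_forall fun x => (L0_cont_max' x).continuousAt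
  · have := continuous_dt (∫ x in S, x)
    simp only [dt_comm (∫ x in S, x)] at this
    exact this

private theorem L0_pt {ν w x : ℂ} (hx : dt ν x ≠ 1) :
    HasDerivAt (fun t : ℝ => max (dt (ν + (t : ℂ) * w) x - 1) 0)
      ({x : ℂ | 1 < dt ν x}.indicator (fun x => dt w x) x) 0 := by
  have e : ∀ t : ℝ, dt (ν + (t : ℂ) * w) x - 1 = (dt ν x - 1) + t * dt w x := by
    intro t
    rw [add_dt, mul_dt]
    ring
  simp only [e]
  have hlin : HasDerivAt (fun t : ℝ => (dt ν x - 1) + t * dt w x) (dt w x) 0 := by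
    have := ((hasDerivAt_id (0 : ℝ)).mul_const (dt w x)).const_add (dt ν x - 1)
    simpa using this
  have hc : ContinuousAt (fun t : ℝ => (dt ν x - 1) + t * dt w x) 0 := hlin.continuousAt
  rcases lt_or_gt_of_ne hx with h | h
  · have hn : x ∉ {x : ℂ | 1 < dt ν x} := by
      intro h'
      have h'' : 1 < dt ν x := h'
      linarith
    rw [indicator_of_notMem hn]
    have hev : (fun t : ℝ => max ((dt ν x - 1) + t * dt w x) 0) =ᶠ[𝓝 0] fun _ => (0 : ℝ) := by
      have : ∀ᶠ t : ℝ in 𝓝 0, (dt ν x - 1) + t * dt w x < 0 := by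
        refine hc.eventually_lt continuousAt_const ?_
        simp only [zero_mul, add_zero]
        linarith
      filter_upwards [this] with t ht
      exact max_eq_right ht.le
    exact (hasDerivAt_const (0 : ℝ) (0 : ℝ)).congr_of_eventuallyEq hev
  · have hn : x ∈ {x : ℂ | 1 < dt ν x} := h
    rw [indicator_of_mem hn]
    have hev : (fun t : ℝ => max ((dt ν x - 1) + t * dt w x) 0) =ᶠ[𝓝 0]
        fun t : ℝ => (dt ν x - 1) + t * dt w x := by
      have : ∀ᶠ t : ℝ in 𝓝 0, 0 < (dt ν x - 1) + t * dt w x := by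
        refine continuousAt_const.eventually_lt hc ?_
        simp only [zero_mul, add_zero]
        linarith
      filter_upwards [this] with t ht
      exact max_eq_left ht.le
    exact hlin.congr_of_eventuallyEq hev

private theorem L0_ae (S : Set ℂ) (ν : ℂ) : ∀ᵐ x ∂(volume.restrict S), dt ν x ≠ 1 := by
  refine ae_restrict_of_ae ?_
  rw [ae_iff]
  have e : {x : ℂ | ¬dt ν x ≠ 1} = {x : ℂ | dt ν x = 1} := by
    ext x
    simp
  rw [e]
  exact volume_one ν

private theorem L0_split {S : Set ℂ} (hS : MeasurableSet S) {R : ℝ} (hR : ∀ x ∈ S, ‖x‖ ≤ R)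
    (ν w : ℂ) : ∫ x in S, dt w x =
      (∫ x in S ∩ H ν, dt w x) + ∫ x in S ∩ {x | 1 < dt ν x}, dt w x := by
  have hi := integrableOn_dt (L0_id hR) w
  rw [← compl_H ν, ← diff_eq]
  exact (integral_inter_add_diff (measurableSet_H ν) hi).symm

private theorem L0_deriv {S : Set ℂ} (hS : MeasurableSet S) {R : ℝ} (hR : ∀ x ∈ S, ‖x‖ ≤ R)
    (ν w : ℂ) : HasDerivAt (fun t : ℝ => Gf S (ν + (t : ℂ) * w))
      (-dt w (∫ x in S ∩ H ν, x)) 0 := by
  have hi := integrableOn_dt (L0_id hR) w
  have h1 := (hasDerivAt_integral_of_dominated_loc_of_lip (μ := volume.restrict S)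
    (F := fun (t : ℝ) (x : ℂ) => max (dt (ν + (t : ℂ) * w) x - 1) 0)
    (F' := fun x => {x : ℂ | 1 < dt ν x}.indicator (fun x => dt w x) x) (x₀ := (0 : ℝ))
    (s := univ) (bound := fun x => |dt w x|) Filter.univ_mem
    (Filter.Eventually.of_forall fun t => (L0_cont_max _).aestronglyMeasurable)
    (by
      have := L0_int hS hR (ν + ((0 : ℝ) : ℂ) * w)
      exact this)
    (((continuous_dt w).measurable.indicator (measurableSet_lt ν)).aestronglyMeasurable)
    (Filter.Eventually.of_forall fun x => by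
      refine LipschitzOnWith.of_dist_le_mul fun t _ t' _ => ?_
      rw [Real.dist_eq, Real.dist_eq]
      have e : ∀ t : ℝ, dt (ν + (t : ℂ) * w) x - 1 = (dt ν x - 1) + t * dt w x := by
        intro t
        rw [add_dt, mul_dt]
        ring
      rw [e, e]
      refine (abs_max_sub_max_le_abs _ _ _).trans ?_
      have e2 : (dt ν x - 1) + t * dt w x - ((dt ν x - 1) + t' * dt w x) = dt w x * (t - t') := by
        ring
      rw [e2, abs_mul]
      simp)
    hi.abs
    ((L0_ae S ν).mono fun x hx => L0_pt hx)).2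
  have h2 : HasDerivAt (fun t : ℝ => dt (ν + (t : ℂ) * w) (∫ x in S, x))
      (dt w (∫ x in S, x)) 0 := by
    have e : ∀ t : ℝ, dt (ν + (t : ℂ) * w) (∫ x in S, x) =
        dt ν (∫ x in S, x) + t * dt w (∫ x in S, x) := by
      intro t
      rw [add_dt, mul_dt]
    simp only [e]
    have := ((hasDerivAt_id (0 : ℝ)).mul_const (dt w (∫ x in S, x))).const_add (dt ν (∫ x in S, x))
    simpa using this
  have h3 := h1.sub h2
  refine h3.congr_deriv ?_
  rw [← integral_dt (L0_id hR) w, L0_split hS hR ν w,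
    ← integral_dt ((L0_id hR).mono_set inter_subset_left) w]
  have e4 : ∫ x in S, {x : ℂ | 1 < dt ν x}.indicator (fun x => dt w x) x =
      ∫ x in S ∩ {x | 1 < dt ν x}, dt w x := by
    exact setIntegral_indicator (measurableSet_lt ν)
  rw [e4]
  ring

/-- For every `w` the function `t ↦ Gf S (ν + t w)` has at `0` the derivative
`∫_{S ∩ {1 < dt ν x}} dt w x - dt w (∫_S x) = - dt w (∫_{S ∩ H ν} x)` (dominated convergence, the
integrand is Lipschitz in `t` and differentiable at `0` for all `x` with `dt ν x ≠ 1`, `volume_one`;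
`hasDerivAt_integral_of_dominated_loc_of_lip`). -/
theorem crit {S : Set ℂ} (hS : MeasurableSet S) {R : ℝ} (hR : ∀ x ∈ S, ‖x‖ ≤ R) {ν : ℂ}
    (h : IsLocalMin (Gf S) ν) : ∫ x in S ∩ H ν, x = 0 := by
  have key : ∀ w : ℂ, dt w (∫ x in S ∩ H ν, x) = 0 := by
    intro w
    have hm : IsLocalMin (fun t : ℝ => Gf S (ν + (t : ℂ) * w)) 0 := by
      have hg : Continuous fun t : ℝ => ν + (t : ℂ) * w := by fun_prop
      have h1 : Tendsto (fun t : ℝ => ν + (t : ℂ) * w) (𝓝 0) (𝓝 ν) := by
        have := hg.tendsto 0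
        simpa using this
      have h2 : ∀ᶠ t : ℝ in 𝓝 0, Gf S ν ≤ Gf S (ν + (t : ℂ) * w) := h1.eventually h
      show ∀ᶠ t : ℝ in 𝓝 0, Gf S (ν + ((0 : ℝ) : ℂ) * w) ≤ Gf S (ν + (t : ℂ) * w)
      filter_upwards [h2] with t ht
      simpa using ht
    have := hm.hasDerivAt_eq_zero (L0_deriv hS hR ν w)
    linarith
  have h1 := key (∫ x in S ∩ H ν, x)
  rw [dt_self] at h1
  exact norm_eq_zero.1 (pow_eq_zero_iff two_ne_zero |>.1 h1)

theorem gf_value {S : Set ℂ} (hS : MeasurableSet S) {R : ℝ} (hR : ∀ x ∈ S, ‖x‖ ≤ R) {ν : ℂ}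
    (h : ∫ x in S ∩ H ν, x = 0) : Gf S ν = -(volume (S ∩ {x | 1 < dt ν x})).toReal := by
  have hi := integrableOn_dt (L0_id hR) ν
  have hf := L0_fin hR
  unfold Gf
  rw [← integral_dt (L0_id hR) ν, L0_split hS hR ν ν,
    integral_dt ((L0_id hR).mono_set inter_subset_left) ν, h, dt_zero, zero_add]
  have e1 : ∫ x in S, max (dt ν x - 1) 0 = ∫ x in S ∩ {x | 1 < dt ν x}, (dt ν x - 1) := by
    rw [← setIntegral_indicator (measurableSet_lt ν)]
    refine setIntegral_congr_fun hS fun x _ => ?_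
    by_cases hx : 1 < dt ν x
    · have hx' : x ∈ {x : ℂ | 1 < dt ν x} := hx
      rw [indicator_of_mem hx']
      exact max_eq_left (by linarith)
    · have hx' : x ∉ {x : ℂ | 1 < dt ν x} := hx
      rw [indicator_of_notMem hx']
      exact max_eq_right (by linarith [not_lt.1 hx])
  have hf' : volume (S ∩ {x | 1 < dt ν x}) ≠ ⊤ := measure_ne_top_of_subset inter_subset_left hf
  rw [e1, integral_sub (hi.mono_set inter_subset_left) (integrableOn_const hf'),
    setIntegral_const, smul_eq_mul, mul_one]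
  have : volume.real (S ∩ {x | 1 < dt ν x}) = (volume (S ∩ {x | 1 < dt ν x})).toReal := rfl
  rw [this]
  ring

end Pool.Agent.Lib.MP_707299_gt
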