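import Pool.Agent.Lib.MP_707299_gt.I
import Pool.Agent.Lib.MP_707299_gt.L0

/-!
Row L: balancing.
-/

set_option autoImplicit false

namespace Pool.Agent.Lib.MP_707299_gt

open MeasureTheory Set Filter Topology

private theorem L_split {K : Set ℂ} (hK : IsBody K) {μ : ℂ} {f : ℂ → ℝ} (hf : IntegrableOn f K) :
    ∫ x in K, f x = (∫ x in K ∩ H μ, f x) + ∫ x in K ∩ {x | 1 < dt μ x}, f x := by
  have h1 : K ∩ {x | 1 < dt μ x} = K \ H μ := by rw [← compl_H]; rfl
  rw [h1]
  exact (integral_inter_add_sdiff (measurableSet_H μ) hf).symm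

private theorem L_splitC {K : Set ℂ} (hK : IsBody K) {μ : ℂ} {f : ℂ → ℂ} (hf : IntegrableOn f K) :
    ∫ x in K, f x = (∫ x in K ∩ H μ, f x) + ∫ x in K ∩ {x | 1 < dt μ x}, f x := by
  have h1 : K ∩ {x | 1 < dt μ x} = K \ H μ := by rw [← compl_H]; rfl
  rw [h1]
  exact (integral_inter_add_sdiff (measurableSet_H μ) hf).symm

/-- Let `C = K ∩ {1 < dt μ x}`, `M` the maximum of `dt l` on `K`, at `y`. `∫_{K ∩ H μ} x = - ∫_C x`,
so `Gf (K ∩ H μ) l = ∫_K (dt l x - 1)_+ + ∫_C min (dt l x) 1`; the first integral is at least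
`s ^ 2 |K| ((1 - s) M - 1)` (`pos_part_bound`), the second is at least `-2 M |C|` (`half_support`). -/
theorem gf_lower {K : Set ℂ} (hK : IsBody K) (hc : ∫ x in K, x = 0) {μ : ℂ} {s : ℝ} (hs : 0 < s)
    (hs1 : s < 1) (hsmall : 3 * (volume (K ∩ {x | 1 < dt μ x})).toReal ≤
      s ^ 2 * (1 - s) * (volume K).toReal) {l y : ℂ} (hy : y ∈ K) (hM : ∀ x ∈ K, dt l x ≤ dt l y) :
    dt l y * (volume (K ∩ {x | 1 < dt μ x})).toReal - s ^ 2 * (volume K).toReal ≤
      Gf (K ∩ H μ) l := by
  have h0 : (0 : ℂ) ∈ K := interior_subset (centroid_interior hK hc)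
  have hM0 : 0 ≤ dt l y := by have := hM 0 h0; rwa [dt_zero] at this
  set C : Set ℂ := K ∩ {x | 1 < dt μ x} with hC
  have hCK : C ⊆ K := inter_subset_left
  have hCm : MeasurableSet C := hK.measurableSet.inter (measurableSet_lt μ)
  have hCf : volume C < ⊤ := (measure_mono hCK).trans_lt hK.volume_lt_top
  have hcont : Continuous fun x => max (dt l x - 1) 0 :=
    ((continuous_dt l).sub continuous_const).max continuous_const
  have i1 : IntegrableOn (fun x => max (dt l x - 1) 0) K :=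
    hcont.continuousOn.integrableOn_compact hK.compact
  have i2 : IntegrableOn (fun x : ℂ => x) K := integrableOn_id hK.compact
  have i3 : IntegrableOn (fun x : ℂ => dt l x) C := integrableOn_dt (i2.mono_set hCK) l
  have e1 := L_split hK (μ := μ) i1
  have e2 := L_splitC hK (μ := μ) i2
  rw [hc] at e2
  have e3 : ∫ x in K ∩ H μ, x = -∫ x in C, x := eq_neg_of_add_eq_zero_left e2.symm
  have e4 : Gf (K ∩ H μ) l = (∫ x in K, max (dt l x - 1) 0) +
      ∫ x in C, (dt l x - max (dt l x - 1) 0) := by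
    rw [integral_sub i3 (i1.mono_set hCK), integral_dt (i2.mono_set hCK), Gf, e3, dt_neg, e1]
    ring
  have e5 : -(2 * dt l y) * (volume C).toReal ≤ ∫ x in C, (dt l x - max (dt l x - 1) 0) := by
    have := setIntegral_mono_on (μ := volume) (s := C) (f := fun _ => -(2 * dt l y))
      (g := fun x => dt l x - max (dt l x - 1) 0)
      (integrableOn_const hCf.ne) (i3.sub (i1.mono_set hCK)) hCm (by
      intro x hx
      have h1 := half_support hK hc hM x (hCK hx)
      rcases le_total (dt l x - 1) 0 with h | h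
      · show -(2 * dt l y) ≤ dt l x - max (dt l x - 1) 0
        rw [max_eq_right h]; linarith
      · show -(2 * dt l y) ≤ dt l x - max (dt l x - 1) 0
        rw [max_eq_left h]; linarith)
    rw [setIntegral_const, smul_eq_mul, Measure.real] at this
    linarith
  have e6 := pos_part_bound hK hc (ν := l) hy hs hs1.le
  have e7 : 3 * (volume C).toReal * dt l y ≤ s ^ 2 * (1 - s) * (volume K).toReal * dt l y :=
    mul_le_mul_of_nonneg_right hsmall hM0
  rw [e4]
  nlinarith [e5, e6, e7]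

/-- The maximum `M` of `dt l` on `K` is at least `ρ ‖l‖` (`ρ > 0`: `K` contains the disc of radius `ρ`), so
`Gf (K ∩ H μ)` is coercive (`gf_lower`), has a minimum point `ν` (`gf_continuous`), `crit`. With
`B = K ∩ H μ ∩ {1 < dt ν x}`: `gf_value`: `|B| = - Gf (K ∩ H μ) ν ≤ s ^ 2 |K| - M |C|`. `|B| > 0`: otherwise
`∫_{K ∩ H μ} x = 0`, but `dt μ (∫_C x) ≥ |C| > 0`. Hence `M > 1` and `|C| + |B| ≤ s ^ 2 |K|`. -/
theorem balance {K : Set ℂ} (hK : IsBody K) (hc : ∫ x in K, x = 0) {μ : ℂ} {s : ℝ} (hs : 0 < s)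
    (hs1 : s < 1) (hpos : 0 < volume (K ∩ {x | 1 < dt μ x}))
    (hsmall : 3 * (volume (K ∩ {x | 1 < dt μ x})).toReal ≤
      s ^ 2 * (1 - s) * (volume K).toReal) :
    ∃ ν : ℂ, ∫ x in K ∩ H μ ∩ H ν, x = 0 ∧
      volume (K \ (H μ ∩ H ν)) ≤ ENNReal.ofReal (s ^ 2) * volume K ∧
      0 < volume (K ∩ H μ ∩ {x | 1 < dt ν x}) := by
  have h0 : (0 : ℂ) ∈ interior K := centroid_interior hK hc
  have h0K : (0 : ℂ) ∈ K := interior_subset h0
  obtain ⟨ρ, hρ, hball⟩ : ∃ ρ > 0, Metric.closedBall (0 : ℂ) ρ ⊆ K := by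
    obtain ⟨r, hr, hb⟩ := Metric.isOpen_iff.1 isOpen_interior 0 h0
    exact ⟨r / 2, by positivity, (Metric.closedBall_subset_ball (by linarith)).trans
      (hb.trans interior_subset)⟩
  obtain ⟨R, hR⟩ : ∃ R : ℝ, ∀ x ∈ K, ‖x‖ ≤ R := hK.compact.isBounded.exists_norm_le
  set C : Set ℂ := K ∩ {x | 1 < dt μ x} with hC
  have hCK : C ⊆ K := inter_subset_left
  have hCm : MeasurableSet C := hK.measurableSet.inter (measurableSet_lt μ)
  have hCf : volume C < ⊤ := (measure_mono hCK).trans_lt hK.volume_lt_top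
  have hcpos : 0 < (volume C).toReal := ENNReal.toReal_pos hpos.ne' hCf.ne
  have hmax : ∀ l : ℂ, ∃ y ∈ K, ∀ x ∈ K, dt l x ≤ dt l y := by
    intro l
    obtain ⟨y, hy, hM⟩ := hK.compact.exists_isMaxOn ⟨0, h0K⟩ (continuous_dt l).continuousOn
    exact ⟨y, hy, fun x hx => hM hx⟩
  have hS : MeasurableSet (K ∩ H μ) := hK.measurableSet.inter (measurableSet_H μ)
  have hSR : ∀ x ∈ K ∩ H μ, ‖x‖ ≤ R := fun x hx => hR x hx.1
  have hcontG := gf_continuous hS hSR
  -- coercivity
  have hlow : ∀ l : ℂ, ρ * ‖l‖ * (volume C).toReal - s ^ 2 * (volume K).toReal ≤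
      Gf (K ∩ H μ) l := by
    intro l
    obtain ⟨y, hy, hM⟩ := hmax l
    have h1 := gf_lower hK hc hs hs1 hsmall hy hM
    have h2 : ρ * ‖l‖ ≤ dt l y := by
      rcases eq_or_ne l 0 with rfl | hl
      · simp [zero_dt]
      · have hn : 0 < ‖l‖ := norm_pos_iff.2 hl
        have hx : ((ρ / ‖l‖ : ℝ) : ℂ) * l ∈ K := by
          apply hball
          rw [mem_closedBall_zero_iff, norm_mul, Complex.norm_real, Real.norm_eq_abs,
            abs_of_pos (by positivity)]
          field_simp; exact le_refl _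
        have h3 := hM _ hx
        rw [dt_mul, dt_self] at h3
        have : ρ / ‖l‖ * ‖l‖ ^ 2 = ρ * ‖l‖ := by field_simp
        linarith
    have h3 := mul_le_mul_of_nonneg_right h2 hcpos.le
    linarith
  have htend : Tendsto (Gf (K ∩ H μ)) (cocompact ℂ) atTop := by
    refine tendsto_atTop_mono hlow ?_
    refine tendsto_atTop_add_const_right _ _ ?_
    have h1 : Tendsto (fun l : ℂ => ‖l‖) (cocompact ℂ) atTop := tendsto_norm_cocompact_atTop
    have h2 := h1.const_mul_atTop hρ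
    exact h2.atTop_mul_const hcpos
  obtain ⟨ν, hν⟩ := hcontG.exists_forall_le htend
  have hcrit : ∫ x in K ∩ H μ ∩ H ν, x = 0 := crit hS hSR (Eventually.of_forall hν)
  have hval := gf_value hS hSR hcrit
  obtain ⟨y, hy, hM⟩ := hmax ν
  have h1 := gf_lower hK hc hs hs1 hsmall hy hM
  set B : Set ℂ := K ∩ H μ ∩ {x | 1 < dt ν x} with hB
  have hBK : B ⊆ K := inter_subset_left.trans inter_subset_left
  have hBf : volume B < ⊤ := (measure_mono hBK).trans_lt hK.volume_lt_top
  -- `B` is not null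
  have hBpos : 0 < volume B := by
    by_contra hcon
    have hB0 : volume B = 0 := le_antisymm (not_lt.1 hcon) zero_le
    have i2 : IntegrableOn (fun x : ℂ => x) K := integrableOn_id hK.compact
    have e1 : ∫ x in K ∩ H μ, x = 0 := by
      have i3 : IntegrableOn (fun x : ℂ => x) (K ∩ H μ) := i2.mono_set inter_subset_left
      have e2 := integral_inter_add_sdiff (s := K ∩ H μ) (measurableSet_H ν) i3
      have e3 : (K ∩ H μ) \ H ν = B := by rw [hB, ← compl_H]; rfl
      rw [hcrit, e3, zero_add] at e2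
      rw [← e2]
      exact setIntegral_measure_zero _ hB0
    have e2 := L_splitC hK (μ := μ) i2
    rw [hc, e1, zero_add] at e2
    have e3 := integral_dt (i2.mono_set hCK) μ
    have e4 : ∫ x in C, x = 0 := e2.symm
    rw [e4, dt_zero] at e3
    have e5 := setIntegral_mono_on (μ := volume) (s := C) (f := fun _ => (1 : ℝ))
      (g := fun x => dt μ x) (integrableOn_const hCf.ne)
      (integrableOn_dt (i2.mono_set hCK) μ) hCm (fun x hx => le_of_lt hx.2)
    rw [setIntegral_const, smul_eq_mul, Measure.real, e3, mul_one] at e5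
    linarith
  -- `M > 1`
  have hM1 : 1 < dt ν y := by
    obtain ⟨x, hx⟩ := nonempty_of_measure_ne_zero hBpos.ne'
    exact lt_of_lt_of_le hx.2 (hM x (hBK hx))
  have hsum : (volume C).toReal + (volume B).toReal ≤ s ^ 2 * (volume K).toReal := by
    rw [hval] at h1
    have h3 : 1 * (volume C).toReal ≤ dt ν y * (volume C).toReal :=
      mul_le_mul_of_nonneg_right hM1.le hcpos.le
    linarith
  refine ⟨ν, hcrit, ?_, hBpos⟩
  have hsub : K \ (H μ ∩ H ν) ⊆ C ∪ B := by
    rintro x ⟨hxK, hx⟩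
    by_cases hxμ : x ∈ H μ
    · right
      refine ⟨⟨hxK, hxμ⟩, ?_⟩
      have : x ∉ H ν := fun h => hx ⟨hxμ, h⟩
      rw [← mem_compl_iff, compl_H] at this
      exact this
    · left
      refine ⟨hxK, ?_⟩
      rw [← mem_compl_iff, compl_H] at hxμ
      exact hxμ
  calc volume (K \ (H μ ∩ H ν)) ≤ volume (C ∪ B) := measure_mono hsub
    _ ≤ volume C + volume B := measure_union_le _ _
    _ = ENNReal.ofReal ((volume C).toReal + (volume B).toReal) := by
        rw [ENNReal.ofReal_add ENNReal.toReal_nonneg ENNReal.toReal_nonneg,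
          ENNReal.ofReal_toReal hCf.ne, ENNReal.ofReal_toReal hBf.ne]
    _ ≤ ENNReal.ofReal (s ^ 2 * (volume K).toReal) := ENNReal.ofReal_le_ofReal hsum
    _ = ENNReal.ofReal (s ^ 2) * volume K := by
        rw [ENNReal.ofReal_mul (by positivity), ENNReal.ofReal_toReal hK.volume_lt_top.ne]

end Pool.Agent.Lib.MP_707299_gt
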