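import Pool.Agent.Lib.MP_707299_gt.Lin

/-!
Row V2.
-/

set_option autoImplicit false

namespace Pool.Agent.Lib.MP_707299_gt

open MeasureTheory Set Filter Topology

/-- the linear map `x ↦ dt μ x + i dt ν x` -/
private noncomputable def V2_lin (μ ν : ℂ) : ℂ →ₗ[ℝ] ℂ where
  toFun x := ⟨dt μ x, dt ν x⟩
  map_add' x y := by
    apply Complex.ext
    · simp [dt_add]
    · simp [dt_add]
  map_smul' t x := by
    apply Complex.ext
    · simp [dt_mul]
    · simp [dt_mul]

private theorem V2_lin_apply (μ ν x : ℂ) : V2_lin μ ν x = ⟨dt μ x, dt ν x⟩ := rfl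

private theorem V2_det (μ ν : ℂ) : LinearMap.det (V2_lin μ ν) = cr μ ν := by
  rw [← LinearMap.det_toMatrix Complex.basisOneI, Matrix.det_fin_two]
  simp [LinearMap.toMatrix_apply, V2_lin_apply, cr, dt]

/-- `x ↦ (dt μ x, dt ν x)` is linear with determinant `cr μ ν`. -/
theorem vol_para {μ ν : ℂ} (h : cr μ ν ≠ 0) {a b c d : ℝ} (hab : a ≤ b) (hcd : c ≤ d) :
    volume {x : ℂ | a ≤ dt μ x ∧ dt μ x ≤ b ∧ c ≤ dt ν x ∧ dt ν x ≤ d} =
      ENNReal.ofReal ((b - a) * (d - c) / |cr μ ν|) := by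
  have h1 : {x : ℂ | a ≤ dt μ x ∧ dt μ x ≤ b ∧ c ≤ dt ν x ∧ dt ν x ≤ d} =
      V2_lin μ ν ⁻¹' (Complex.measurableEquivRealProd ⁻¹' (Icc a b ×ˢ Icc c d)) := by
    ext x
    simp only [mem_ofPred_eq, mem_preimage, mem_prod, mem_Icc,
      Complex.measurableEquivRealProd_apply, V2_lin_apply]
    tauto
  have h2 : volume (Complex.measurableEquivRealProd ⁻¹' (Icc a b ×ˢ Icc c d)) =
      ENNReal.ofReal (b - a) * ENNReal.ofReal (d - c) := by
    rw [Complex.volume_preserving_equiv_real_prod.measure_preimage_equiv,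
      Measure.volume_eq_prod, Measure.prod_prod, Real.volume_Icc, Real.volume_Icc]
  rw [h1, Measure.addHaar_preimage_linearMap volume (by rw [V2_det]; exact h), h2, V2_det,
    ← ENNReal.ofReal_mul (by linarith), ← ENNReal.ofReal_mul (abs_nonneg _), abs_inv]
  congr 1
  field_simp

end Pool.Agent.Lib.MP_707299_gt
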