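import Pool.Agent.Lib.MP_707299_gt.I
import Pool.Agent.Lib.MP_707299_gt.V2

/-!
Row M: the two caps are disjoint.
-/

set_option autoImplicit false

namespace Pool.Agent.Lib.MP_707299_gt

open MeasureTheory Set Filter Topology

/-- Let `C = K ∩ {1 < dt μ x}`, `B = K ∩ H μ ∩ {1 < dt ν x}`: `∫_C x + ∫_B x = 0`. `|B| > 0` since
`∫_C dt μ x > 0`; so `∫_C dt ν x < 0` and there is `y ∈ C` with `dt ν y < 0`. If `z` is in both closed caps
then `dt μ z * dt ν y - dt ν z * dt μ y < -1`, so `1 < |cr μ ν| * |cr z y| < |cr μ ν| * X` (`dt_mul_sub`). By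
`sup_bound`, `half_support` (`M = 4 / 3`) `K` is contained in the parallelogram `-8/3 ≤ dt μ, dt ν ≤ 4/3` of area
`16 / |cr μ ν|` (`vol_para`), so `|K| |cr μ ν| ≤ 16`. Contradiction to `16 X ≤ |K|`. -/
theorem disjoint_caps {K : Set ℂ} (hK : IsBody K) (hc : ∫ x in K, x = 0) {μ ν : ℂ} {X : ℝ}
    (hbal : ∫ x in K ∩ H μ ∩ H ν, x = 0) (hpos : 0 < volume (K ∩ {x | 1 < dt μ x}))
    (h1 : volume (K ∩ {x | 1 ≤ dt μ x}) < volume K / 144)
    (h2 : volume (K ∩ {x | 1 ≤ dt ν x}) < volume K / 144)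
    (hX : ∀ x ∈ K, ∀ y ∈ K, 1 ≤ dt μ x → 1 ≤ dt μ y → |cr x y| < X)
    (hX' : 16 * X ≤ (volume K).toReal) :
    ∀ x ∈ K, ¬(1 ≤ dt μ x ∧ 1 ≤ dt ν x) := by
  rintro z hz ⟨hz1, hz2⟩
  set C : Set ℂ := K ∩ {x | 1 < dt μ x} with hC
  set B : Set ℂ := (K ∩ H μ) ∩ {x | 1 < dt ν x} with hB
  have mK := hK.measurableSet
  have mC : MeasurableSet C := mK.inter (measurableSet_lt μ)
  have mB : MeasurableSet B := (mK.inter (measurableSet_H μ)).inter (measurableSet_lt ν)
  have iC : IntegrableOn (fun x : ℂ => x) C := integrableOn_id' hK.compact inter_subset_left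
  have iB : IntegrableOn (fun x : ℂ => x) B := integrableOn_id' hK.compact fun x hx => hx.1.1
  have iKH : IntegrableOn (fun x : ℂ => x) (K ∩ H μ) :=
    integrableOn_id' hK.compact inter_subset_left
  -- the two parts balance
  have u1 : K ∩ H μ ∪ C = K := by
    rw [hC, ← compl_H, Set.inter_union_compl]
  have u2 : K ∩ H μ ∩ H ν ∪ B = K ∩ H μ := by
    rw [hB, ← compl_H, Set.inter_union_compl]
  have s1 : ∫ x in K, x = (∫ x in K ∩ H μ, x) + ∫ x in C, x := by
    have hd : Disjoint (K ∩ H μ) C := by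
      rw [Set.disjoint_left]
      rintro x ⟨_, hx⟩ ⟨_, hx'⟩
      have a1 : dt μ x ≤ 1 := hx
      have a2 : 1 < dt μ x := hx'
      exact absurd a2 (not_lt.2 a1)
    have h := setIntegral_union (f := fun x : ℂ => x) (μ := volume) hd mC iKH iC
    rw [u1] at h
    exact h
  have s2 : ∫ x in K ∩ H μ, x = (∫ x in K ∩ H μ ∩ H ν, x) + ∫ x in B, x := by
    have hd : Disjoint (K ∩ H μ ∩ H ν) B := by
      rw [Set.disjoint_left]
      rintro x ⟨_, hx⟩ ⟨_, hx'⟩
      have a1 : dt ν x ≤ 1 := hx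
      have a2 : 1 < dt ν x := hx'
      exact absurd a2 (not_lt.2 a1)
    have h := setIntegral_union (f := fun x : ℂ => x) (μ := volume) hd mB
      (iKH.mono_set inter_subset_left) iB
    rw [u2] at h
    exact h
  have hsum : (∫ x in B, x) + ∫ x in C, x = 0 := by
    rw [s2, hbal, zero_add, hc] at s1
    exact s1.symm
  have hsum' : ∀ ξ : ℂ, (∫ x in B, dt ξ x) + ∫ x in C, dt ξ x = 0 := by
    intro ξ
    rw [integral_dt iB, integral_dt iC, ← dt_add, hsum, dt_zero]
  -- positive integrals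
  have posC : 0 < ∫ x in C, dt μ x := by
    rw [setIntegral_pos_iff_support_of_nonneg_ae]
    · refine lt_of_lt_of_le hpos (measure_mono ?_)
      intro x hx
      refine ⟨?_, hx⟩
      have hx2 : 1 < dt μ x := hx.2
      exact (by linarith : (0 : ℝ) < dt μ x).ne'
    · refine (ae_restrict_iff' mC).2 (Eventually.of_forall fun x hx => ?_)
      have hx2 : 1 < dt μ x := hx.2
      show (0 : ℝ) ≤ dt μ x
      linarith
    · exact integrableOn_dt iC μ
  have hBpos : 0 < volume B := by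
    rw [pos_iff_ne_zero]
    intro h
    have e1 : ∫ x in B, dt μ x = 0 := setIntegral_measure_zero _ h
    have := hsum' μ
    linarith
  have posB : 0 < ∫ x in B, dt ν x := by
    rw [setIntegral_pos_iff_support_of_nonneg_ae]
    · refine lt_of_lt_of_le hBpos (measure_mono ?_)
      intro x hx
      refine ⟨?_, hx⟩
      have hx2 : 1 < dt ν x := hx.2
      exact (by linarith : (0 : ℝ) < dt ν x).ne'
    · refine (ae_restrict_iff' mB).2 (Eventually.of_forall fun x hx => ?_)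
      have hx2 : 1 < dt ν x := hx.2
      show (0 : ℝ) ≤ dt ν x
      linarith
    · exact integrableOn_dt iB ν
  have negC : ∫ x in C, dt ν x < 0 := by linarith [hsum' ν]
  obtain ⟨y, hyC, hy⟩ : ∃ y ∈ C, dt ν y < 0 := by
    by_contra hcon
    push Not at hcon
    exact absurd negC (not_lt.2 (setIntegral_nonneg mC hcon))
  have hy1 : 1 < dt μ y := hyC.2
  -- the determinant
  have e1 := dt_mul_sub μ ν z y
  have e2 : dt μ z * dt ν y ≤ dt ν y := by nlinarith
  have e3 : 1 < dt ν z * dt μ y := by nlinarith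
  have e4 : cr μ ν * cr z y < -1 := by rw [← e1]; linarith
  have e5 : 1 < |cr μ ν| * |cr z y| := by
    rw [← abs_mul]
    exact lt_of_lt_of_le (by linarith) (neg_le_abs _)
  have hcr : |cr z y| < X := hX z hz y hyC.1 hz1 hy1.le
  have hν : 0 < |cr μ ν| := by
    rcases (abs_nonneg (cr μ ν)).eq_or_lt with h | h
    · rw [← h, zero_mul] at e5; linarith
    · exact h
  have e6 : 1 < |cr μ ν| * X := lt_trans e5 (mul_lt_mul_of_pos_left hcr hν)
  -- the parallelogram
  have b1 := sup_bound hK hc h1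
  have b2 := sup_bound hK hc h2
  have b3 := half_support hK hc b1
  have b4 := half_support hK hc b2
  have hsub : K ⊆ {x : ℂ | (-(2 * (4 / 3)) : ℝ) ≤ dt μ x ∧ dt μ x ≤ 4 / 3 ∧
      (-(2 * (4 / 3)) : ℝ) ≤ dt ν x ∧ dt ν x ≤ 4 / 3} :=
    fun x hx => ⟨b3 x hx, b1 x hx, b4 x hx, b2 x hx⟩
  have hvol := measure_mono (μ := volume) hsub
  rw [vol_para (abs_pos.1 hν) (by norm_num) (by norm_num)] at hvol
  have hvol2 : (volume K).toReal ≤ (4 / 3 - -(2 * (4 / 3))) * (4 / 3 - -(2 * (4 / 3))) / |cr μ ν| :=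
    ENNReal.toReal_le_of_le_ofReal (by positivity) hvol
  rw [le_div_iff₀ hν] at hvol2
  nlinarith

end Pool.Agent.Lib.MP_707299_gt
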