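import Mathlib

/-!
Row N: choice of a window (numbers only).
-/

set_option autoImplicit false

namespace Pool.Agent.Lib.MP_707299_gt

open Finset

private theorem N_amgm {x y : ℝ} (hx : 0 < x) (hy : 0 < y) : 27 * (x * y ^ 2) ≤ (x + 2 * y) ^ 3 := by
  nlinarith [mul_nonneg (by positivity : (0 : ℝ) ≤ x + 8 * y) (sq_nonneg (x - y))]

/-- At most `19` indices have `π / 10 < φ k`, at most `49` others have `A / 50 < T k`. Let `G'` be the
set of the remaining ones, `M = m - 68 ≤ #G'`. If `T k * φ k ^ 2` is too large for all `k ∈ G'` then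
`3 / M < T k / A + 2 * (φ k / (2 π))` (`27 x y ^ 2 ≤ (x + 2 y) ^ 3`), and the sum over `G'` gives `3 < 3`. -/
theorem select {m : ℕ} (hm : 69 ≤ m) {φ T : ℕ → ℝ} {A : ℝ} (hA : 0 < A)
    (hφ0 : ∀ k < m, 0 < φ k) (hφ : ∑ k ∈ range m, φ k ≤ 2 * Real.pi)
    (hT0 : ∀ k < m, φ k ≤ Real.pi / 10 → 0 < T k)
    (hT : ∀ G ⊆ range m, (∀ k ∈ G, φ k ≤ Real.pi / 10) → ∑ k ∈ G, T k ≤ A) :
    ∃ k < m, φ k ≤ Real.pi / 10 ∧ T k ≤ A / 50 ∧
      T k * φ k ^ 2 ≤ 4 * Real.pi ^ 2 * A / ((m : ℝ) - 68) ^ 3 := by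
  classical
  have hpi := Real.pi_pos
  set B1 : Finset ℕ := (range m).filter (fun k => ¬ φ k ≤ Real.pi / 10) with hB1
  set G1 : Finset ℕ := (range m).filter (fun k => φ k ≤ Real.pi / 10) with hG1
  set B2 : Finset ℕ := G1.filter (fun k => ¬ T k ≤ A / 50) with hB2
  set G2 : Finset ℕ := G1.filter (fun k => T k ≤ A / 50) with hG2
  have hc1 : #B1 + #G1 = m := by
    have := Finset.card_filter_add_card_filter_not (s := range m) (fun k => φ k ≤ Real.pi / 10)
    simp only [Finset.card_range] at this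
    rw [hB1, hG1]; omega
  have hc2 : #B2 + #G2 = #G1 := by
    have := Finset.card_filter_add_card_filter_not (s := G1) (fun k => T k ≤ A / 50)
    rw [hB2, hG2]; omega
  -- at most 19 indices in B1
  have h1 : #B1 ≤ 19 := by
    by_contra hcon
    push Not at hcon
    have hle : (#B1 : ℝ) * (Real.pi / 10) ≤ ∑ k ∈ B1, φ k := by
      rw [← nsmul_eq_mul]
      refine Finset.card_nsmul_le_sum _ _ _ fun k hk => ?_
      exact le_of_lt (not_le.1 (Finset.mem_filter.1 hk).2)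
    have hlt : ∑ k ∈ B1, φ k ≤ ∑ k ∈ range m, φ k :=
      Finset.sum_le_sum_of_subset_of_nonneg (Finset.filter_subset _ _)
        fun k hk _ => (hφ0 k (Finset.mem_range.1 hk)).le
    have h20 : (20 : ℝ) ≤ #B1 := by exact_mod_cast hcon
    -- strictness : some index is outside or the sum is strict
    have hne : B1.Nonempty := by
      rw [← Finset.card_pos]; omega
    have hlt' : (#B1 : ℝ) * (Real.pi / 10) < ∑ k ∈ B1, φ k := by
      rw [← nsmul_eq_mul, ← Finset.sum_const]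
      exact Finset.sum_lt_sum_of_nonempty hne fun k hk => not_le.1 (Finset.mem_filter.1 hk).2
    nlinarith
  have hG1s : ∀ k ∈ G1, k < m ∧ φ k ≤ Real.pi / 10 := fun k hk =>
    ⟨Finset.mem_range.1 (Finset.mem_filter.1 hk).1, (Finset.mem_filter.1 hk).2⟩
  have h2 : #B2 ≤ 49 := by
    by_contra hcon
    push Not at hcon
    have hne : B2.Nonempty := by
      rw [← Finset.card_pos]; omega
    have hlt' : (#B2 : ℝ) * (A / 50) < ∑ k ∈ B2, T k := by
      rw [← nsmul_eq_mul, ← Finset.sum_const]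
      exact Finset.sum_lt_sum_of_nonempty hne fun k hk => not_le.1 (Finset.mem_filter.1 hk).2
    have hle : ∑ k ∈ B2, T k ≤ A := by
      refine hT B2 (fun k hk => ?_) fun k hk => (hG1s k (Finset.mem_filter.1 hk).1).2
      exact Finset.mem_range.2 (hG1s k (Finset.mem_filter.1 hk).1).1
    have h50 : (50 : ℝ) ≤ #B2 := by exact_mod_cast hcon
    nlinarith
  have h3 : m ≤ #G2 + 68 := by omega
  have hM : (m : ℝ) - 68 ≤ #G2 := by
    have : (m : ℝ) ≤ #G2 + 68 := by exact_mod_cast h3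
    linarith
  have hM0 : 0 < (m : ℝ) - 68 := by
    have : (69 : ℝ) ≤ m := by exact_mod_cast hm
    linarith
  have hne : G2.Nonempty := by
    rw [← Finset.card_pos]; omega
  have hG2s : ∀ k ∈ G2, k < m ∧ φ k ≤ Real.pi / 10 ∧ T k ≤ A / 50 := fun k hk =>
    ⟨(hG1s k (Finset.mem_filter.1 hk).1).1, (hG1s k (Finset.mem_filter.1 hk).1).2,
      (Finset.mem_filter.1 hk).2⟩
  by_contra hcon
  push Not at hcon
  have hbig : ∀ k ∈ G2, 3 / ((m : ℝ) - 68) < T k / A + 2 * (φ k / (2 * Real.pi)) := by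
    intro k hk
    obtain ⟨hkm, hkφ, hkT⟩ := hG2s k hk
    have hTk := hT0 k hkm hkφ
    have hφk := hφ0 k hkm
    have h4 := hcon k hkm hkφ hkT
    have hx : 0 < T k / A := div_pos hTk hA
    have hy : 0 < φ k / (2 * Real.pi) := by positivity
    have h5 := N_amgm hx hy
    by_contra h6
    push Not at h6
    have h7 : (T k / A + 2 * (φ k / (2 * Real.pi))) ^ 3 ≤ (3 / ((m : ℝ) - 68)) ^ 3 :=
      pow_le_pow_left₀ (by positivity) h6 3
    have h8 : T k / A * (φ k / (2 * Real.pi)) ^ 2 = T k * φ k ^ 2 / (4 * Real.pi ^ 2 * A) := by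
      field_simp
      ring
    rw [h8] at h5
    have h9 : (3 / ((m : ℝ) - 68)) ^ 3 = 27 * (1 / ((m : ℝ) - 68) ^ 3) := by
      rw [div_pow]; ring
    rw [h9] at h7
    have h10 : T k * φ k ^ 2 / (4 * Real.pi ^ 2 * A) ≤ 1 / ((m : ℝ) - 68) ^ 3 := by linarith
    rw [div_le_iff₀ (by positivity)] at h10
    have h11 : 1 / ((m : ℝ) - 68) ^ 3 * (4 * Real.pi ^ 2 * A)
        = 4 * Real.pi ^ 2 * A / ((m : ℝ) - 68) ^ 3 := by ring
    linarith
  have hsum : ∑ _k ∈ G2, 3 / ((m : ℝ) - 68) < ∑ k ∈ G2, (T k / A + 2 * (φ k / (2 * Real.pi))) :=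
    Finset.sum_lt_sum_of_nonempty hne hbig
  rw [Finset.sum_const, nsmul_eq_mul, Finset.sum_add_distrib, ← Finset.mul_sum,
    ← Finset.sum_div, ← Finset.sum_div] at hsum
  have hs1 : (∑ k ∈ G2, T k) / A ≤ 1 := by
    rw [div_le_one hA]
    exact hT G2 (fun k hk => Finset.mem_range.2 (hG2s k hk).1) fun k hk => (hG2s k hk).2.1
  have hs2 : (∑ k ∈ G2, φ k) / (2 * Real.pi) ≤ 1 := by
    rw [div_le_one (by positivity)]
    refine le_trans (Finset.sum_le_sum_of_subset_of_nonneg ?_ ?_) hφ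
    · exact fun k hk => Finset.mem_range.2 (hG2s k hk).1
    · exact fun k hk _ => (hφ0 k (Finset.mem_range.1 hk)).le
  have hs3 : 3 ≤ (#G2 : ℝ) * (3 / ((m : ℝ) - 68)) := by
    rw [mul_div_assoc', le_div_iff₀ hM0]
    nlinarith
  linarith

end Pool.Agent.Lib.MP_707299_gt
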