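import Pool.Agent.Lib.MP_707299_gt.A
import Pool.Agent.Lib.MP_707299_gt.GoodDef

/-!
Row O: open conditions.
-/

set_option autoImplicit false

namespace Pool.Agent.Lib.MP_707299_gt

open MeasureTheory Set Filter Topology

/-- `g1`: finitely many conditions. `g2`: if it fails for `μ_k → μ` with boundary points `q_k` then a
limit point `q` of them is a boundary point with `dt μ q = 1`, `cr μ q = 0`. -/
theorem good_open {K : Set ℂ} (hK : IsBody K) (h0 : (0 : ℂ) ∈ interior K)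
    (hfin : {q : ℂ | ∃ θ, q = bd K 0 θ ∧ IsEq K 0 θ}.Finite) {μ : ℂ} (hμ : Good K μ) :
    ∃ ε > 0, ∀ μ' : ℂ, ‖μ' - μ‖ < ε → Good K μ' := by
  have hfr : IsCompact (frontier K) :=
    hK.compact.of_isClosed_subset isClosed_frontier hK.isClosed.frontier_subset
  have c1 : ∀ q : ℂ, Continuous fun m : ℂ => dt m q := fun q => by unfold dt; fun_prop
  have e1 : ∀ᶠ m in 𝓝 μ, ∀ q ∈ {q : ℂ | ∃ θ, q = bd K 0 θ ∧ IsEq K 0 θ}, dt m q ≠ 1 := by
    rw [hfin.eventually_all]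
    rintro q ⟨θ, rfl, hθ⟩
    exact (c1 _).continuousAt.eventually_ne (hμ.g1 θ hθ)
  have e2 : ∀ᶠ m in 𝓝 μ, ∀ q ∈ frontier K, dt m q = 1 → cr m q ≠ 0 := by
    refine hfr.eventually_forall_of_forall_eventually fun q hq => ?_
    obtain ⟨θ, -, rfl⟩ := frontier_bd hK h0 hq
    by_cases h : dt μ (bd K 0 θ) = 1
    · have h2 := hμ.g2 θ h
      have h3 := (continuous_cr2.continuousAt (x := (μ, bd K 0 θ))).eventually_ne h2
      filter_upwards [h3] with z hz _ using hz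
    · have h3 := (continuous_dt2.continuousAt (x := (μ, bd K 0 θ))).eventually_ne h
      filter_upwards [h3] with z hz hz' using absurd hz' hz
  obtain ⟨ε, hε, h⟩ := Metric.eventually_nhds_iff.mp (e1.and e2)
  refine ⟨ε, hε, fun m hm => ?_⟩
  have hm' := h (by rw [dist_eq_norm]; exact hm)
  exact ⟨fun θ hθ => hm'.1 _ ⟨θ, rfl, hθ⟩, fun θ => hm'.2 _ (bd_mem_frontier hK h0 θ)⟩

/-- Compactness of `K`. -/
theorem disj_open {K : Set ℂ} (hK : IsCompact K) {μ ν : ℂ}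
    (hd : ∀ x ∈ K, ¬(1 ≤ dt μ x ∧ 1 ≤ dt ν x)) :
    ∃ ε > 0, ∀ μ' ν' : ℂ, ‖μ' - μ‖ < ε → ‖ν' - ν‖ < ε →
      ∀ x ∈ K, ¬(1 ≤ dt μ' x ∧ 1 ≤ dt ν' x) := by
  have e1 : ∀ᶠ m : ℂ × ℂ in 𝓝 (μ, ν), ∀ x ∈ K, ¬(1 ≤ dt m.1 x ∧ 1 ≤ dt m.2 x) := by
    refine hK.eventually_forall_of_forall_eventually fun x hx => ?_
    have hc : IsClosed {z : (ℂ × ℂ) × ℂ | 1 ≤ dt z.1.1 z.2 ∧ 1 ≤ dt z.1.2 z.2} := by
      have h1 : Continuous fun z : (ℂ × ℂ) × ℂ => dt z.1.1 z.2 := by unfold dt; fun_prop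
      have h2 : Continuous fun z : (ℂ × ℂ) × ℂ => dt z.1.2 z.2 := by unfold dt; fun_prop
      exact (isClosed_le continuous_const h1).inter (isClosed_le continuous_const h2)
    exact hc.isOpen_compl.mem_nhds (hd x hx)
  obtain ⟨ε, hε, h⟩ := Metric.eventually_nhds_iff.mp e1
  refine ⟨ε, hε, fun m n hm hn => ?_⟩
  refine h (y := (m, n)) ?_
  rw [Prod.dist_eq]
  exact max_lt (by rw [dist_eq_norm]; exact hm) (by rw [dist_eq_norm]; exact hn)

/-- The closed sets `K ∩ ({1 - η ≤ dt μ x} ∪ {1 - η ≤ dt ν x})` decrease (`η → 0+`) to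
`K ∩ ({1 ≤ dt μ x} ∪ {1 ≤ dt ν x})`, which has the same measure as `K \ (H μ ∩ H ν)` (`volume_one`). -/
theorem vol_open {K : Set ℂ} (hK : IsCompact K) {μ ν : ℂ} {V : ENNReal}
    (hV : volume (K \ (H μ ∩ H ν)) < V) :
    ∃ ε > 0, ∀ μ' ν' : ℂ, ‖μ' - μ‖ < ε → ‖ν' - ν‖ < ε → volume (K \ (H μ' ∩ H ν')) < V := by
  obtain ⟨R, hR⟩ := hK.isBounded.exists_norm_le
  let S : ℕ → Set ℂ := fun n =>
    K ∩ ({x | 1 - 1 / ((n : ℝ) + 1) ≤ dt μ x} ∪ {x | 1 - 1 / ((n : ℝ) + 1) ≤ dt ν x})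
  have hcl : ∀ n, IsClosed (S n) := fun n =>
    hK.isClosed.inter ((isClosed_le continuous_const (continuous_dt μ)).union
      (isClosed_le continuous_const (continuous_dt ν)))
  have hanti : Antitone S := by
    intro m n hmn x hx
    have h1 : 1 / ((n : ℝ) + 1) ≤ 1 / ((m : ℝ) + 1) := by
      apply one_div_le_one_div_of_le (by positivity)
      have : (m : ℝ) ≤ n := by exact_mod_cast hmn
      linarith
    refine ⟨hx.1, ?_⟩
    rcases hx.2 with h | h
    · left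
      simp only [Set.mem_ofPred_eq] at h ⊢
      linarith
    · right
      simp only [Set.mem_ofPred_eq] at h ⊢
      linarith
  have hlim := tendsto_measure_iInter_atTop (μ := volume) (s := S)
    (fun n => (hcl n).measurableSet.nullMeasurableSet) hanti
    ⟨0, ((measure_mono inter_subset_left).trans_lt hK.measure_lt_top).ne⟩
  have hsub : ∀ x : ℝ, (∀ n : ℕ, 1 - 1 / ((n : ℝ) + 1) ≤ x) → 1 ≤ x := by
    intro x hx
    by_contra hlt
    push Not at hlt
    obtain ⟨n, hn⟩ := exists_nat_one_div_lt (sub_pos.mpr hlt)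
    have := hx n
    linarith
  have hinter : (⋂ n, S n) ⊆ (K \ (H μ ∩ H ν)) ∪ ({x : ℂ | dt μ x = 1} ∪ {x : ℂ | dt ν x = 1}) := by
    intro x hx
    rw [mem_iInter] at hx
    have hxK : x ∈ K := (hx 0).1
    have hor : 1 ≤ dt μ x ∨ 1 ≤ dt ν x := by
      by_contra hno
      push Not at hno
      obtain ⟨n1, hn1⟩ := exists_nat_one_div_lt (sub_pos.mpr hno.1)
      obtain ⟨n2, hn2⟩ := exists_nat_one_div_lt (sub_pos.mpr hno.2)
      have hm : ∀ a b : ℕ, a ≤ b → 1 / ((b : ℝ) + 1) ≤ 1 / ((a : ℝ) + 1) := by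
        intro a b hab
        apply one_div_le_one_div_of_le (by positivity)
        have : (a : ℝ) ≤ b := by exact_mod_cast hab
        linarith
      have h1 := hm n1 (max n1 n2) (le_max_left _ _)
      have h2 := hm n2 (max n1 n2) (le_max_right _ _)
      rcases (hx (max n1 n2)).2 with h | h
      · simp only [Set.mem_ofPred_eq] at h
        linarith
      · simp only [Set.mem_ofPred_eq] at h
        linarith
    by_cases h1 : dt μ x = 1
    · right; left; exact h1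
    by_cases h2 : dt ν x = 1
    · right; right; exact h2
    left
    refine ⟨hxK, fun hH => ?_⟩
    have h3 : dt μ x ≤ 1 := hH.1
    have h4 : dt ν x ≤ 1 := hH.2
    rcases hor with h | h
    · exact h1 (le_antisymm h3 h)
    · exact h2 (le_antisymm h4 h)
  have hvol : volume (⋂ n, S n) < V := by
    refine lt_of_le_of_lt ((measure_mono hinter).trans (measure_union_le _ _)) ?_
    have h0 : volume ({x : ℂ | dt μ x = 1} ∪ {x : ℂ | dt ν x = 1}) = 0 := by
      refine le_antisymm ((measure_union_le _ _).trans ?_) bot_le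
      rw [volume_one, volume_one, add_zero]
    rw [h0, add_zero]
    exact hV
  obtain ⟨n, hn⟩ := (hlim.eventually_lt_const hvol).exists
  have hR0 : 0 < |R| + 1 := by positivity
  refine ⟨1 / ((n : ℝ) + 1) / (|R| + 1), by positivity, fun m m' hm hm' => ?_⟩
  refine lt_of_le_of_lt (measure_mono ?_) hn
  have key : ∀ (a b x : ℂ), x ∈ K → ‖b - a‖ < 1 / ((n : ℝ) + 1) / (|R| + 1) → 1 < dt b x →
      1 - 1 / ((n : ℝ) + 1) ≤ dt a x := by
    intro a b x hx hab hb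
    have h1 := dt_le (b - a) x
    rw [sub_dt] at h1
    have h2 := hR x hx
    have h3 : ‖x‖ ≤ |R| + 1 := h2.trans (by have := le_abs_self R; linarith)
    have h4 : ‖b - a‖ * ‖x‖ ≤ 1 / ((n : ℝ) + 1) / (|R| + 1) * (|R| + 1) :=
      mul_le_mul hab.le h3 (norm_nonneg _) (by positivity)
    rw [div_mul_cancel₀ _ hR0.ne'] at h4
    linarith
  intro x hx
  refine ⟨hx.1, ?_⟩
  by_cases h1 : dt m x ≤ 1
  · by_cases h2 : dt m' x ≤ 1
    · exact absurd ⟨h1, h2⟩ hx.2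
    · right
      exact key ν m' x hx.1 hm' (not_le.mp h2)
  · left
    exact key μ m x hx.1 hm (not_le.mp h1)

theorem pts_open {S : Set ℂ} (hS : S.Finite) {μ : ℂ} (h : ∀ q ∈ S, 1 < dt μ q) :
    ∃ ε > 0, ∀ μ' : ℂ, ‖μ' - μ‖ < ε → ∀ q ∈ S, 1 < dt μ' q := by
  have e1 : ∀ᶠ m in 𝓝 μ, ∀ q ∈ S, 1 < dt m q := by
    rw [hS.eventually_all]
    intro q hq
    have c1 : Continuous fun m : ℂ => dt m q := by unfold dt; fun_prop
    exact c1.continuousAt.eventually_const_lt (h q hq)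
  obtain ⟨ε, hε, h'⟩ := Metric.eventually_nhds_iff.mp e1
  exact ⟨ε, hε, fun m hm => h' (by rw [dist_eq_norm]; exact hm)⟩

end Pool.Agent.Lib.MP_707299_gt
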