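import Pool.Agent.Lib.MP_707299_gt.V

/-!
Row P: the cap between two tangents.
-/

set_option autoImplicit false

namespace Pool.Agent.Lib.MP_707299_gt

open MeasureTheory Set Filter Topology

/-- coordinates of the points of the cap -/
private theorem P_coord {s s' μ x : ℂ} (h1 : dt x s ≤ dt s s)
    (h2 : dt x s' ≤ dt s' s') (hμ : dt μ s = 1) (hμ' : dt μ s' = 1) (hc : 0 < cr s s')
    (hx : 1 ≤ dt μ x) : ∃ α β : ℝ, x = (α : ℂ) * s + (β : ℂ) * s' ∧ 1 ≤ α + β ∧
      α * dt s s + β * dt s s' ≤ dt s s ∧ α * dt s s' + β * dt s' s' ≤ dt s' s' := by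
  have hb := basis_eq s s' x hc.ne'
  set α := cr x s' / cr s s'
  set β := cr s x / cr s s'
  refine ⟨α, β, hb, ?_, ?_, ?_⟩
  · rw [hb, dt_add, dt_mul, dt_mul, hμ, hμ'] at hx
    linarith
  · rw [hb, add_dt, mul_dt, mul_dt, dt_comm s' s] at h1
    linarith
  · rw [hb, add_dt, mul_dt, mul_dt] at h2
    linarith

/-- Write `x = α s + β s'` (`basis_eq`), `a = dt s s`, `b = dt s' s'`, `c = dt s s'`, `D = cr s s'`,
`D ^ 2 = a b - c ^ 2` (`sq_add_sq`). In the cap `1 ≤ α + β`, `α a + β c ≤ a`, `α c + β b ≤ b`: a triangle with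
vertices `s`, `s'` and `z = α₀ s + β₀ s'`, `α₀ = b (a - c) / D ^ 2`, `β₀ = a (b - c) / D ^ 2`,
`α₀ + β₀ - 1 = (a - c) (b - c) / D ^ 2`; use `vol_triangle s (s' - s) (z - s)`, `κ = 1`. -/
theorem cap_area {s s' μ : ℂ} {K : Set ℂ} (h1 : ∀ x ∈ K, dt x s ≤ dt s s)
    (h2 : ∀ x ∈ K, dt x s' ≤ dt s' s') (hμ : dt μ s = 1) (hμ' : dt μ s' = 1) (hc : 0 < cr s s')
    (hd : 0 ≤ dt s s') (hs : dt s s' < dt s s) (hs' : dt s s' < dt s' s') :
    volume (K ∩ {x | 1 ≤ dt μ x}) ≤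
      ENNReal.ofReal ((dt s s - dt s s') * (dt s' s' - dt s s') / (2 * cr s s')) := by
  have hD : cr s s' ^ 2 = dt s s * dt s' s' - dt s s' ^ 2 := by
    have := sq_add_sq s s'
    linarith
  set a := dt s s with ha
  set b := dt s' s' with hb
  set c := dt s s' with hcc
  set D := cr s s' with hDD
  have hac : 0 < a - c := by linarith
  have hbc : 0 < b - c := by linarith
  have hD2 : 0 < D ^ 2 := by positivity
  set α₀ : ℝ := b * (a - c) / D ^ 2 with hα₀
  set β₀ : ℝ := a * (b - c) / D ^ 2 with hβ₀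
  set z : ℂ := (α₀ : ℂ) * s + (β₀ : ℂ) * s' with hz
  have hsum : α₀ + β₀ - 1 = (a - c) * (b - c) / D ^ 2 := by
    rw [hα₀, hβ₀]
    field_simp
    rw [hD]
    ring
  have hcr : cr (s' - s) (z - s) = -((α₀ + β₀ - 1) * D) := by
    rw [hz, hDD]
    unfold cr
    simp only [Complex.sub_re, Complex.sub_im, Complex.add_re, Complex.add_im, Complex.mul_re,
      Complex.mul_im, Complex.ofReal_re, Complex.ofReal_im]
    ring
  have hval : (1 : ℝ) ^ 2 * |cr (s' - s) (z - s)| / 2 = (a - c) * (b - c) / (2 * D) := by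
    rw [hcr, abs_neg, hsum, abs_of_nonneg (by positivity)]
    field_simp
  have hsub : K ∩ {x | 1 ≤ dt μ x} ⊆ {x : ℂ | ∃ α β : ℝ, 0 ≤ α ∧ 0 ≤ β ∧ α + β ≤ 1 ∧
      x = s + (α : ℂ) * (s' - s) + (β : ℂ) * (z - s)} := by
    rintro x ⟨hxK, hx⟩
    obtain ⟨α, β, hxe, hab, i1, i2⟩ := P_coord (h1 x hxK) (h2 x hxK) hμ hμ' hc hx
    rw [← ha, ← hcc] at i1
    rw [← hb, ← hcc] at i2
    have hB0 : 0 ≤ (α + β - 1) * (D ^ 2 / ((a - c) * (b - c))) :=
      mul_nonneg (by linarith) (by positivity)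
    refine ⟨β - (α + β - 1) * (a / (a - c)), (α + β - 1) * (D ^ 2 / ((a - c) * (b - c))), ?_, hB0,
      ?_, ?_⟩
    · have : β - (α + β - 1) * (a / (a - c)) = (a - (α * a + β * c)) / (a - c) := by
        field_simp
        ring
      rw [this]
      exact div_nonneg (by linarith) hac.le
    · have : 1 - (β - (α + β - 1) * (a / (a - c)) + (α + β - 1) * (D ^ 2 / ((a - c) * (b - c)))) =
          (b - (α * c + β * b)) / (b - c) := by
        rw [hD]
        field_simp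
        ring
      have h0 : 0 ≤ (b - (α * c + β * b)) / (b - c) := div_nonneg (by linarith) hbc.le
      linarith
    · have e1 : (α + β - 1) * (D ^ 2 / ((a - c) * (b - c))) * α₀ =
          (α + β - 1) * (b / (b - c)) := by
        rw [hα₀]
        field_simp
      have e2 : (α + β - 1) * (D ^ 2 / ((a - c) * (b - c))) * β₀ =
          (α + β - 1) * (a / (a - c)) := by
        rw [hβ₀]
        field_simp
      have e3 : (α + β - 1) * (b / (b - c)) + (α + β - 1) * (a / (a - c)) -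
          (α + β - 1) * (D ^ 2 / ((a - c) * (b - c))) = α + β - 1 := by
        rw [hD]
        field_simp
        ring
      set B : ℝ := (α + β - 1) * (D ^ 2 / ((a - c) * (b - c)))
      set A' : ℝ := (α + β - 1) * (a / (a - c))
      set A'' : ℝ := (α + β - 1) * (b / (b - c))
      have e4 : s + ((β - A' : ℝ) : ℂ) * (s' - s) + (B : ℂ) * (z - s) =
          ((1 - (β - A') + B * α₀ - B : ℝ) : ℂ) * s + (((β - A') + B * β₀ : ℝ) : ℂ) * s' := by
        rw [hz]
        push_cast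
        ring
      rw [e4, hxe, e1, e2]
      have f1 : 1 - (β - A') + A'' - B = α := by linarith
      have f2 : β - A' + A' = β := by ring
      rw [f1, f2]
  calc volume (K ∩ {x | 1 ≤ dt μ x}) ≤ _ := measure_mono hsub
    _ = ENNReal.ofReal ((1 : ℝ) ^ 2 * |cr (s' - s) (z - s)| / 2) :=
        vol_triangle s (s' - s) (z - s) zero_le_one
    _ = _ := by rw [hval]

/-- In the cap `0 ≤ α ≤ 1`, `0 ≤ β ≤ 1`; `cr x y = (α β' - α' β) cr s s'`. -/
theorem cap_cross {s s' μ : ℂ} {K : Set ℂ} (h1 : ∀ x ∈ K, dt x s ≤ dt s s)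
    (h2 : ∀ x ∈ K, dt x s' ≤ dt s' s') (hμ : dt μ s = 1) (hμ' : dt μ s' = 1) (hc : 0 < cr s s')
    (hd : 0 ≤ dt s s') (hs : dt s s' < dt s s) (hs' : dt s s' < dt s' s') :
    ∀ x ∈ K, ∀ y ∈ K, 1 ≤ dt μ x → 1 ≤ dt μ y → |cr x y| ≤ cr s s' := by
  intro x hx y hy hx1 hy1
  obtain ⟨α, β, hxe, hab, i1, i2⟩ := P_coord (h1 x hx) (h2 x hx) hμ hμ' hc hx1
  obtain ⟨α', β', hye, hab', i1', i2'⟩ := P_coord (h1 y hy) (h2 y hy) hμ hμ' hc hy1
  have key : ∀ α β : ℝ, 1 ≤ α + β → α * dt s s + β * dt s s' ≤ dt s s →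
      α * dt s s' + β * dt s' s' ≤ dt s' s' → 0 ≤ α ∧ α ≤ 1 ∧ 0 ≤ β ∧ β ≤ 1 := by
    intro α β h i j
    have hα : α ≤ 1 := by
      have h3 : α * (dt s s - dt s s') ≤ 1 * (dt s s - dt s s') := by
        nlinarith [mul_nonneg (sub_nonneg.2 h) hd]
      exact le_of_mul_le_mul_right h3 (by linarith)
    have hβ : β ≤ 1 := by
      have h3 : β * (dt s' s' - dt s s') ≤ 1 * (dt s' s' - dt s s') := by
        nlinarith [mul_nonneg (sub_nonneg.2 h) hd]
      exact le_of_mul_le_mul_right h3 (by linarith)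
    exact ⟨by linarith, hα, by linarith, hβ⟩
  obtain ⟨a1, a2, b1, b2⟩ := key α β hab i1 i2
  obtain ⟨a1', a2', b1', b2'⟩ := key α' β' hab' i1' i2'
  have e : cr x y = (α * β' - α' * β) * cr s s' := by
    rw [hxe, hye]
    unfold cr
    simp only [Complex.add_re, Complex.add_im, Complex.mul_re,
      Complex.mul_im, Complex.ofReal_re, Complex.ofReal_im]
    ring
  have hle : |α * β' - α' * β| ≤ 1 := by
    have p1 : 0 ≤ α * β' := mul_nonneg a1 b1'
    have p2 : α * β' ≤ 1 := mul_le_one₀ a2 b1' b2'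
    have p3 : 0 ≤ α' * β := mul_nonneg a1' b1
    have p4 : α' * β ≤ 1 := mul_le_one₀ a2' b1 b2
    rw [abs_le]
    constructor <;> linarith
  rw [e, abs_mul, abs_of_pos hc]
  exact mul_le_of_le_one_left hc.le hle

end Pool.Agent.Lib.MP_707299_gt
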