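import Pool.Agent.Lib.MP_707299_gt.A
import Pool.Agent.Lib.MP_707299_gt.GoodDef

/-!
Row R: general position on a ray, and the slightly larger cap.
-/

set_option autoImplicit false

namespace Pool.Agent.Lib.MP_707299_gt

open MeasureTheory Set Filter Topology

/-- unit vectors on the line through `μ` -/
private theorem R_unit {μ w : ℂ} (hw : ‖w‖ = 1) (hμ : μ ≠ 0) (h : cr μ w = 0) :
    w = ((‖μ‖⁻¹ : ℝ) : ℂ) * μ ∨ w = ((-‖μ‖⁻¹ : ℝ) : ℂ) * μ := by
  have hn : 0 < ‖μ‖ := norm_pos_iff.mpr hμ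
  have h1 : dt μ w ^ 2 = ‖μ‖ ^ 2 := by
    have := sq_add_sq μ w
    rw [h, dt_self, dt_self, hw] at this
    nlinarith
  have h2 : ((‖μ‖ ^ 2 : ℝ) : ℂ) * w = ((dt μ w : ℝ) : ℂ) * μ := by
    rw [← dt_self]
    unfold cr at h
    apply Complex.ext
    · simp only [Complex.mul_re, Complex.ofReal_re, Complex.ofReal_im, zero_mul, sub_zero]
      unfold dt
      linear_combination (-μ.im) * h
    · simp only [Complex.mul_im, Complex.ofReal_re, Complex.ofReal_im, zero_mul, add_zero]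
      unfold dt
      linear_combination (μ.re) * h
  have hn2 : ((‖μ‖ ^ 2 : ℝ) : ℂ) ≠ 0 := by
    exact_mod_cast (pow_pos hn 2).ne'
  rcases sq_eq_sq_iff_eq_or_eq_neg.mp h1 with h3 | h3
  · left
    apply mul_left_cancel₀ hn2
    rw [h2, h3, ← mul_assoc, ← Complex.ofReal_mul]
    congr 2
    field_simp
  · right
    apply mul_left_cancel₀ hn2
    rw [h2, h3, ← mul_assoc, ← Complex.ofReal_mul]
    congr 2
    field_simp

/-- `¬ g1`: `t = 1 / dt μ q` for one of the finitely many equilibria `q`. `¬ g2`: `t ≠ 0`, so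
`cr μ q = 0`, `dt μ q = 1 / t`, `μ ≠ 0`, and there are at most two boundary points `q` on the line
through `0` and `μ`. -/
theorem good_ray {K : Set ℂ} (hK : IsBody K) (h0 : (0 : ℂ) ∈ interior K)
    (hfin : {q : ℂ | ∃ θ, q = bd K 0 θ ∧ IsEq K 0 θ}.Finite) (μ : ℂ) :
    {t : ℝ | ¬ Good K ((t : ℂ) * μ)}.Finite := by
  set G : ℂ → ℂ := fun w => ((sSup {t : ℝ | (0 : ℂ) + t * w ∈ K} : ℝ) : ℂ) * w with hG
  have hGb : ∀ θ, bd K 0 θ = G (e θ) := by
    intro θ
    unfold bd rad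
    simp only [hG, zero_add]
  have h1 : ((fun q : ℂ => (dt μ q)⁻¹) '' {q : ℂ | ∃ θ, q = bd K 0 θ ∧ IsEq K 0 θ}).Finite :=
    hfin.image _
  have h2 : ((fun w : ℂ => (dt μ (G w))⁻¹) ''
      {((‖μ‖⁻¹ : ℝ) : ℂ) * μ, ((-‖μ‖⁻¹ : ℝ) : ℂ) * μ}).Finite :=
    (Set.toFinite _).image _
  refine (h1.union h2).subset ?_
  intro t ht
  simp only [Set.mem_ofPred_eq] at ht
  by_contra hcon
  apply ht
  rw [Set.mem_union, not_or] at hcon
  obtain ⟨hc1, hc2⟩ := hcon
  constructor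
  · intro θ hθ heq
    apply hc1
    refine ⟨bd K 0 θ, ⟨θ, rfl, hθ⟩, ?_⟩
    rw [mul_dt] at heq
    show (dt μ (bd K 0 θ))⁻¹ = t
    exact (eq_inv_of_mul_eq_one_left heq).symm
  · intro θ heq hcr
    apply hc2
    rw [mul_dt] at heq
    rw [mul_cr] at hcr
    have ht0 : t ≠ 0 := by
      rintro rfl
      simp at heq
    have hcr' : cr μ (bd K 0 θ) = 0 := by
      rcases mul_eq_zero.mp hcr with h | h
      · exact absurd h ht0
      · exact h
    have hμ : μ ≠ 0 := by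
      rintro rfl
      rw [zero_dt] at heq
      simp at heq
    have hr : rad K 0 θ ≠ 0 := by
      intro hr
      rw [bd_zero, hr] at heq
      simp [dt_zero] at heq
    rw [bd_zero, cr_mul] at hcr'
    have hcr2 : cr μ (e θ) = 0 := by
      rcases mul_eq_zero.mp hcr' with h | h
      · exact absurd h hr
      · exact h
    refine ⟨e θ, ?_, ?_⟩
    · rcases R_unit (norm_e θ) hμ hcr2 with h | h
      · exact Or.inl h
      · exact Or.inr h
    · show (dt μ (G (e θ)))⁻¹ = t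
      rw [← hGb]
      exact (eq_inv_of_mul_eq_one_left heq).symm

private theorem R_vol {K : Set ℂ} (hK : IsBody K) {μ : ℂ} {V : ENNReal}
    (hV : volume (K ∩ {x | 1 ≤ dt μ x}) < V) :
    ∃ u : ℝ, 1 < u ∧ volume (K ∩ {x | 1 ≤ dt ((u : ℂ) * μ) x}) < V := by
  set s : ℕ → Set ℂ := fun n => K ∩ {x | 1 ≤ (1 + 1 / ((n : ℝ) + 1)) * dt μ x} with hs
  have hmeas : ∀ n, NullMeasurableSet (s n) volume := by
    intro n
    apply MeasurableSet.nullMeasurableSet
    apply hK.measurableSet.inter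
    exact (isClosed_le continuous_const (continuous_const.mul (continuous_dt μ))).measurableSet
  have hanti : Antitone s := by
    intro m n hmn x hx
    refine ⟨hx.1, ?_⟩
    have h1 : 1 ≤ (1 + 1 / ((n : ℝ) + 1)) * dt μ x := hx.2
    show 1 ≤ (1 + 1 / ((m : ℝ) + 1)) * dt μ x
    have hpos : 0 < dt μ x := by
      by_contra hneg
      push Not at hneg
      have : (1 + 1 / ((n : ℝ) + 1)) * dt μ x ≤ 0 :=
        mul_nonpos_of_nonneg_of_nonpos (by positivity) hneg
      linarith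
    have h2 : 1 / ((n : ℝ) + 1) ≤ 1 / ((m : ℝ) + 1) := by
      apply one_div_le_one_div_of_le (by positivity)
      have : (m : ℝ) ≤ n := by exact_mod_cast hmn
      linarith
    nlinarith
  have hfin : ∃ n, volume (s n) ≠ ⊤ :=
    ⟨0, ((measure_mono inter_subset_left).trans_lt hK.volume_lt_top).ne⟩
  have hlim := tendsto_measure_iInter_atTop hmeas hanti hfin
  have hint : (⋂ n, s n) = K ∩ {x | 1 ≤ dt μ x} := by
    ext x
    constructor
    · intro hx
      rw [mem_iInter] at hx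
      refine ⟨(hx 0).1, ?_⟩
      show 1 ≤ dt μ x
      have hlim2 : Tendsto (fun n : ℕ => (1 + 1 / ((n : ℝ) + 1)) * dt μ x) atTop (𝓝 ((1 + 0) * dt μ x)) :=
        (tendsto_const_nhds.add tendsto_one_div_add_atTop_nhds_zero_nat).mul_const _
      rw [add_zero, one_mul] at hlim2
      exact ge_of_tendsto' hlim2 (fun n => (hx n).2)
    · intro hx
      rw [mem_iInter]
      intro n
      refine ⟨hx.1, ?_⟩
      have h1 : 1 ≤ dt μ x := hx.2
      show 1 ≤ (1 + 1 / ((n : ℝ) + 1)) * dt μ x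
      have h2 : 0 < 1 / ((n : ℝ) + 1) := by positivity
      nlinarith
  rw [hint] at hlim
  obtain ⟨n, hn⟩ := (hlim.eventually (gt_mem_nhds hV)).exists
  refine ⟨1 + 1 / ((n : ℝ) + 1), by have : 0 < 1 / ((n : ℝ) + 1) := by positivity
                                    linarith, ?_⟩
  have : (K ∩ {x | 1 ≤ dt (((1 + 1 / ((n : ℝ) + 1) : ℝ) : ℂ) * μ) x}) = s n := by
    ext x
    simp only [hs, Set.mem_inter_iff, Set.mem_ofPred_eq, mul_dt]
  rw [this]
  exact hn

private theorem R_cr {K : Set ℂ} (hK : IsBody K) {μ : ℂ} {X : ℝ}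
    (hX : ∀ x ∈ K, ∀ y ∈ K, 1 ≤ dt μ x → 1 ≤ dt μ y → |cr x y| < X) :
    ∃ u : ℝ, 1 < u ∧ ∀ x ∈ K, ∀ y ∈ K, 1 ≤ u * dt μ x → 1 ≤ u * dt μ y → |cr x y| < X := by
  set P : Set (ℂ × ℂ) := (K ×ˢ K) ∩ {p | X ≤ |cr p.1 p.2|} with hP
  have hPc : IsCompact P :=
    (hK.compact.prod hK.compact).inter_right (isClosed_le continuous_const continuous_cr2.abs)
  have hcont : Continuous (fun p : ℂ × ℂ => min (dt μ p.1) (dt μ p.2)) :=
    ((continuous_dt μ).comp continuous_fst).min ((continuous_dt μ).comp continuous_snd)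
  rcases P.eq_empty_or_nonempty with hPe | hPn
  · refine ⟨2, one_lt_two, fun x hx y hy _ _ => ?_⟩
    by_contra hcon
    push Not at hcon
    have : (x, y) ∈ P := ⟨⟨hx, hy⟩, hcon⟩
    rw [hPe] at this
    exact this
  · obtain ⟨p, hp, hmax⟩ := hPc.exists_isMaxOn hPn hcont.continuousOn
    set m := min (dt μ p.1) (dt μ p.2) with hm
    have hm1 : m < 1 := by
      by_contra hcon
      push Not at hcon
      have h1 := hX p.1 hp.1.1 p.2 hp.1.2 (hcon.trans (min_le_left _ _)) (hcon.trans (min_le_right _ _))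
      exact absurd hp.2 (not_le.mpr h1)
    obtain ⟨u, hu1, hu2⟩ : ∃ u : ℝ, 1 < u ∧ u * m < 1 := by
      rcases le_or_gt m 0 with h | h
      · exact ⟨2, one_lt_two, by nlinarith⟩
      · refine ⟨(1 + 1 / m) / 2, ?_, ?_⟩
        · have : 1 < 1 / m := by rw [lt_div_iff₀ h]; linarith
          linarith
        · have : (1 + 1 / m) / 2 * m = (m + 1) / 2 := by field_simp
          rw [this]
          linarith
    refine ⟨u, hu1, fun x hx y hy h1 h2 => ?_⟩
    by_contra hcon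
    push Not at hcon
    have hxy : (x, y) ∈ P := ⟨⟨hx, hy⟩, hcon⟩
    have h3 : min (dt μ x) (dt μ y) ≤ m := hmax hxy
    rcases min_choice (dt μ x) (dt μ y) with h4 | h4
    · rw [h4] at h3
      have : u * dt μ x ≤ u * m := mul_le_mul_of_nonneg_left h3 (by linarith)
      linarith
    · rw [h4] at h3
      have : u * dt μ y ≤ u * m := mul_le_mul_of_nonneg_left h3 (by linarith)
      linarith

/-- `ν = (1 + ε) μ` with small `ε > 0` and `good_ray`. The closed caps decrease to the closed cap of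
`μ`: continuity of measure from above, and compactness. -/
theorem shrink {K : Set ℂ} (hK : IsBody K) (h0 : (0 : ℂ) ∈ interior K)
    (hfin : {q : ℂ | ∃ θ, q = bd K 0 θ ∧ IsEq K 0 θ}.Finite) {μ : ℂ} {V : ENNReal} {X : ℝ}
    (hV : volume (K ∩ {x | 1 ≤ dt μ x}) < V)
    (hX : ∀ x ∈ K, ∀ y ∈ K, 1 ≤ dt μ x → 1 ≤ dt μ y → |cr x y| < X) :
    ∃ ν : ℂ, Good K ν ∧ (∀ x, 1 ≤ dt μ x → 1 < dt ν x) ∧
      volume (K ∩ {x | 1 ≤ dt ν x}) < V ∧
      (∀ x ∈ K, ∀ y ∈ K, 1 ≤ dt ν x → 1 ≤ dt ν y → |cr x y| < X) := by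
  obtain ⟨u1, hu1, hv⟩ := R_vol hK hV
  obtain ⟨u2, hu2, hc⟩ := R_cr hK hX
  have hbad := good_ray hK h0 hfin μ
  -- a good parameter between `1` and `min u1 u2`
  have hinf : (Ioo 1 (min u1 u2)).Infinite := Set.Ioo_infinite (lt_min hu1 hu2)
  obtain ⟨t, ht, htb⟩ := (hinf.sdiff hbad).nonempty
  simp only [Set.mem_ofPred_eq, not_not] at htb
  have ht1 : 1 < t := ht.1
  have htu1 : t < u1 := ht.2.trans_le (min_le_left _ _)
  have htu2 : t < u2 := ht.2.trans_le (min_le_right _ _)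
  have hmono : ∀ u : ℝ, t < u → ∀ x, 1 ≤ t * dt μ x → 1 ≤ u * dt μ x := by
    intro u hu x hx
    have hpos : 0 < dt μ x := by
      by_contra hneg
      push Not at hneg
      have : t * dt μ x ≤ 0 := mul_nonpos_of_nonneg_of_nonpos (by linarith) hneg
      linarith
    nlinarith
  refine ⟨(t : ℂ) * μ, htb, ?_, ?_, ?_⟩
  · intro x hx
    rw [mul_dt]
    nlinarith
  · refine lt_of_le_of_lt (measure_mono ?_) hv
    intro x hx
    refine ⟨hx.1, ?_⟩
    have h1 : 1 ≤ dt ((t : ℂ) * μ) x := hx.2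
    show 1 ≤ dt ((u1 : ℂ) * μ) x
    rw [mul_dt] at h1 ⊢
    exact hmono u1 htu1 x h1
  · intro x hx y hy h1 h2
    rw [mul_dt] at h1 h2
    exact hc x hx y hy (hmono u2 htu2 x h1) (hmono u2 htu2 y h2)

end Pool.Agent.Lib.MP_707299_gt
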