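import Pool.Agent.Lib.MP_707299_gt.G

/-!
Row T: two cuts.
-/

set_option autoImplicit false

namespace Pool.Agent.Lib.MP_707299_gt

open MeasureTheory Set Filter Topology

/-- From `cut_cases`. -/
theorem cut_nondeg {r : ℕ∞} (hr : 2 ≤ r) {K : Set ℂ} (hK : IsBody K) (h0 : (0 : ℂ) ∈ interior K)
    (hs : PwSmooth r K 0) (hn : ∀ θ, IsEq K 0 θ → IsNondeg r K 0 θ) {μ : ℂ} (hμ : Good K μ) :
    ∀ θ, IsEq (K ∩ H μ) 0 θ → IsNondeg r (K ∩ H μ) 0 θ := by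
  intro θ h
  rcases cut_cases hr hK h0 hs hμ θ h with ⟨h1, -, -, h2⟩ | ⟨-, -, h2, h3⟩ | h2
  · rcases hn θ h1 with ⟨h3, h4⟩ | ⟨h3, h4⟩
    · left
      refine ⟨h3.congr_of_eventuallyEq h2, ?_⟩
      rw [h2.deriv.deriv_eq]
      exact h4
    · right
      rw [h2.derivWithin_eq_of_nhds, h2.derivWithin_eq_of_nhds]
      exact ⟨h3, h4⟩
  · exact Or.inl ⟨h2, h3.ne'⟩
  · exact Or.inr h2

/-- From `cut_cases`; in the third case `rad` is not differentiable at `θ`, so the point is not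
stable. -/
theorem cut_stable {r : ℕ∞} (hr : 2 ≤ r) {K : Set ℂ} (hK : IsBody K) (h0 : (0 : ℂ) ∈ interior K)
    (hs : PwSmooth r K 0) {μ : ℂ} (hμ : Good K μ) :
    stablePts r (K ∩ H μ) 0 ⊆
      {q | q ∈ stablePts r K 0 ∧ dt μ q < 1} ∪ {q | dt μ q = 1 ∧ cr μ q = 0} := by
  rintro q ⟨θ, rfl, h, h1, h2⟩
  rcases cut_cases hr hK h0 hs hμ θ h with ⟨h3, h4, h5, h6⟩ | ⟨h3, h4, -, -⟩ | ⟨h3, h4⟩
  · left
    refine ⟨⟨θ, h4, h3, h1.congr_of_eventuallyEq h6.symm, ?_⟩, ?_⟩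
    · rw [← h6.deriv.deriv_eq]
      exact h2
    · rw [h4]
      exact h5
  · exact Or.inr ⟨h3, h4⟩
  · exfalso
    have hr0 : (r : WithTop ℕ∞) ≠ 0 := by
      intro h5
      have h6 : r = 0 := by exact_mod_cast h5
      rw [h6] at hr
      exact absurd (hr.trans_lt (by exact_mod_cast (by norm_num : (0 : ℕ) < 2) :
        (0 : ℕ∞) < 2)) (lt_irrefl _)
    have hd : DifferentiableAt ℝ (rad (K ∩ H μ) 0) θ := h1.differentiableAt hr0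
    rw [hd.derivWithin (uniqueDiffWithinAt_Iic θ)] at h3
    rw [hd.derivWithin (uniqueDiffWithinAt_Ici θ)] at h4
    linarith

/-- `cut_nondeg`, `cut_stable`, `cut_pw`, `body_cut` twice. `Good (K ∩ H μ) ν`: `cut_eq`, `cut_bd`; a
boundary point of `K ∩ H μ` with `dt μ = 1` has `dt ν < 1` by `hd`. -/
theorem two_cuts {r : ℕ∞} (hr : 2 ≤ r) {K : Set ℂ} (hK : IsBody K) (h0 : (0 : ℂ) ∈ interior K)
    (hs : PwSmooth r K 0) (hn : ∀ θ, IsEq K 0 θ → IsNondeg r K 0 θ) {μ ν : ℂ}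
    (hμ : Good K μ) (hν : Good K ν) (hd : ∀ x ∈ K, ¬(1 ≤ dt μ x ∧ 1 ≤ dt ν x)) :
    IsBody (K ∩ H μ ∩ H ν) ∧ (0 : ℂ) ∈ interior (K ∩ H μ ∩ H ν) ∧
    PwSmooth r (K ∩ H μ ∩ H ν) 0 ∧
    (∀ θ, IsEq (K ∩ H μ ∩ H ν) 0 θ → IsNondeg r (K ∩ H μ ∩ H ν) 0 θ) ∧
    stablePts r (K ∩ H μ ∩ H ν) 0 ⊆
      {q | q ∈ stablePts r K 0 ∧ dt μ q < 1} ∪ {q | dt μ q = 1 ∧ cr μ q = 0} ∪
        {q | dt ν q = 1 ∧ cr ν q = 0} := by
  obtain ⟨b1, b2⟩ := body_cut hK h0 μ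
  have s1 := cut_pw hK h0 hs μ
  have n1 := cut_nondeg hr hK h0 hs hn hμ
  have hmem : ∀ θ, bd (K ∩ H μ) 0 θ ∈ K := fun θ => (bd_mem b1 b2 θ).1
  have hgood : Good (K ∩ H μ) ν := by
    constructor
    · intro θ hθ h1
      rcases cut_eq hK h0 μ θ hθ with ⟨h2, h3⟩ | h2
      · rw [h3] at h1
        exact hν.g1 θ h2 h1
      · exact hd _ (hmem θ) ⟨h2.ge, h1.ge⟩
    · intro θ h1
      rcases cut_bd hK h0 μ θ with h2 | h2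
      · rw [h2] at h1 ⊢
        exact hν.g2 θ h1
      · exact absurd ⟨h2.ge, h1.ge⟩ (hd _ (hmem θ))
  obtain ⟨c1, c2⟩ := body_cut b1 b2 ν
  refine ⟨c1, c2, cut_pw b1 b2 s1 ν, cut_nondeg hr b1 b2 s1 n1 hgood, ?_⟩
  intro q hq
  rcases cut_stable hr b1 b2 s1 hgood hq with ⟨h1, -⟩ | h1
  · exact Or.inl (cut_stable hr hK h0 hs hμ h1)
  · exact Or.inr h1

end Pool.Agent.Lib.MP_707299_gt
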