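import Pool.Agent.Lib.MP_707299_gt.L0

/-!
Row U2: strict minimum.
-/

set_option autoImplicit false

namespace Pool.Agent.Lib.MP_707299_gt

open MeasureTheory Set Filter Topology

/-- The pointwise difference. -/
private noncomputable def U2_g (μ l x : ℂ) : ℝ :=
  max (dt l x - 1) 0 - max (dt μ x - 1) 0 - indicator {x : ℂ | 1 < dt μ x} (fun x => dt (l - μ) x) x

private theorem U2_g_nonneg (μ l x : ℂ) : 0 ≤ U2_g μ l x := by
  unfold U2_g
  by_cases h : 1 < dt μ x
  · rw [indicator_of_mem (by exact h), sub_dt, max_eq_left (by linarith : (0 : ℝ) ≤ dt μ x - 1)]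
    have := le_max_left (dt l x - 1) 0
    linarith
  · rw [indicator_of_notMem (by exact h), max_eq_right (by linarith : dt μ x - 1 ≤ (0 : ℝ))]
    have := le_max_right (dt l x - 1) 0
    linarith

private theorem U2_g_pos (μ l x : ℂ) (hx : (dt μ x - 1) * (dt l x - 1) < 0) : 0 < U2_g μ l x := by
  unfold U2_g
  by_cases h : 1 < dt μ x
  · rw [indicator_of_mem (by exact h), sub_dt, max_eq_left (by linarith : (0 : ℝ) ≤ dt μ x - 1)]
    have h2 : dt l x - 1 < 0 := by
      by_contra h3
      push Not at h3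
      nlinarith [mul_nonneg (sub_nonneg.mpr h.le) h3]
    have := le_max_right (dt l x - 1) 0
    linarith
  · rw [indicator_of_notMem (by exact h), max_eq_right (by linarith : dt μ x - 1 ≤ (0 : ℝ))]
    have h2 : 0 < dt l x - 1 := by
      by_contra h3
      push Not at h3
      have h4 : dt μ x - 1 ≤ 0 := by linarith
      nlinarith [mul_nonneg_of_nonpos_of_nonpos h4 h3]
    have := le_max_left (dt l x - 1) 0
    linarith

/-- The direction. -/
private theorem U2_dir {μ l x₀ : ℂ} (h1 : dt μ x₀ = 1) (hl : l ≠ μ) :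
    ∃ w : ℂ, ∃ ε > 0, ∀ t : ℝ, 0 < t → t < ε →
      (dt μ (x₀ + (t : ℂ) * w) - 1) * (dt l (x₀ + (t : ℂ) * w) - 1) < 0 := by
  by_cases h2 : dt l x₀ = 1
  · set D : ℝ := dt (μ - l) (μ - l) with hD
    have hDpos : 0 < D := by
      rw [hD, dt_self]
      have : μ - l ≠ 0 := sub_ne_zero.mpr (Ne.symm hl)
      positivity
    set c : ℝ := -(dt μ (μ - l) + dt l (μ - l)) / 2 with hc
    refine ⟨(μ - l) + (c : ℂ) * x₀, 1, one_pos, fun t ht _ => ?_⟩
    have e1 : dt μ (x₀ + (t : ℂ) * ((μ - l) + (c : ℂ) * x₀)) - 1 = t * (D / 2) := by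
      rw [dt_add, dt_mul, dt_add, dt_mul, h1, hD, sub_dt, hc]; ring
    have e2 : dt l (x₀ + (t : ℂ) * ((μ - l) + (c : ℂ) * x₀)) - 1 = -(t * (D / 2)) := by
      rw [dt_add, dt_mul, dt_add, dt_mul, h2, hD, sub_dt, hc]; ring
    rw [e1, e2]
    have : 0 < t * (D / 2) := by positivity
    nlinarith [mul_pos this this]
  · set a : ℝ := dt l x₀ - 1 with ha
    have ha0 : a ≠ 0 := sub_ne_zero.mpr h2
    refine ⟨((-a : ℝ) : ℂ) * x₀, 1 / (|a + 1| + 1), by positivity, fun t ht ht2 => ?_⟩
    have e1 : dt μ (x₀ + (t : ℂ) * (((-a : ℝ) : ℂ) * x₀)) - 1 = -(t * a) := by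
      rw [dt_add, dt_mul, dt_mul, h1]; ring
    have e2 : dt l (x₀ + (t : ℂ) * (((-a : ℝ) : ℂ) * x₀)) - 1 = a * (1 - t * (a + 1)) := by
      have : dt l x₀ = a + 1 := by rw [ha]; ring
      rw [dt_add, dt_mul, dt_mul, this]; ring
    rw [e1, e2]
    have h3 : t * (a + 1) < 1 := by
      rw [lt_div_iff₀ (by positivity)] at ht2
      have := le_abs_self (a + 1)
      nlinarith
    have h4 : 0 < t * a ^ 2 * (1 - t * (a + 1)) := by
      have : 0 < a ^ 2 := by positivity
      exact mul_pos (mul_pos ht this) (by linarith)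
    nlinarith

/-- For all `x`: `(dt l x - 1)_+ ≥ (dt μ x - 1)_+ + 1_{1 < dt μ x} dt (l - μ) x`, with strict inequality if
`dt μ x - 1`, `dt l x - 1` have opposite signs. Integrate over `S = K ∩ H ν` and use
`∫_{S ∩ {1 < dt μ x}} x = ∫_S x`. Strictness on an open set: near `x₀` (interior point of `S` with
`dt μ x₀ = 1`) there is `x` with strict opposite signs: if `dt l x₀ ≠ 1` take a multiple of `x₀`; if
`dt l x₀ = 1` then `l`, `μ` are linearly independent and there is `w` with `dt μ w > 0 > dt l w`. -/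
theorem gf_strict {K : Set ℂ} (hK : IsBody K) {μ ν : ℂ} (hbal : ∫ x in K ∩ H μ ∩ H ν, x = 0)
    (hx : ∃ x ∈ interior K, dt μ x = 1 ∧ dt ν x < 1) {l : ℂ} (hl : l ≠ μ) :
    Gf (K ∩ H ν) μ < Gf (K ∩ H ν) l := by
  obtain ⟨x₀, hx0, h1, hν⟩ := hx
  set S : Set ℂ := K ∩ H ν with hS
  have hSc : IsCompact S := hK.compact.inter_right (isClosed_H ν)
  have hSm : MeasurableSet S := hSc.measurableSet
  have hid : IntegrableOn (fun x : ℂ => x) S := integrableOn_id hSc
  have hfm : ∀ m : ℂ, IntegrableOn (fun x : ℂ => max (dt m x - 1) 0) S := by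
    intro m
    apply ContinuousOn.integrableOn_compact hSc
    exact (((continuous_dt m).sub continuous_const).max continuous_const).continuousOn
  have hind : IntegrableOn (indicator {x : ℂ | 1 < dt μ x} (fun x => dt (l - μ) x)) S :=
    IntegrableOn.indicator (integrableOn_dt hid (l - μ)) (measurableSet_lt μ)
  -- the balance
  have hsplit : ∫ x in S, x = ∫ x in S ∩ {x : ℂ | 1 < dt μ x}, x := by
    have h := integral_inter_add_sdiff (f := fun x : ℂ => x) (s := S) (t := H μ) (μ := volume)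
      (measurableSet_H μ) hid
    have e0 : S ∩ H μ = K ∩ H μ ∩ H ν := by
      ext x; simp only [hS, mem_inter_iff]; tauto
    have e1 : S \ H μ = S ∩ {x : ℂ | 1 < dt μ x} := by
      rw [← compl_H, sdiff_eq]
    rw [e0, hbal, zero_add, e1] at h
    exact h.symm
  have hint : ∫ x in S, U2_g μ l x = Gf S l - Gf S μ := by
    unfold U2_g
    have e1 : ∫ x in S, (max (dt l x - 1) 0 - max (dt μ x - 1) 0
        - indicator {x : ℂ | 1 < dt μ x} (fun x => dt (l - μ) x) x)
        = (∫ x in S, max (dt l x - 1) 0) - (∫ x in S, max (dt μ x - 1) 0)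
          - ∫ x in S, indicator {x : ℂ | 1 < dt μ x} (fun x => dt (l - μ) x) x := by
      rw [integral_sub (f := fun x : ℂ => max (dt l x - 1) 0 - max (dt μ x - 1) 0)
        ((hfm l).sub (hfm μ)) hind, integral_sub (hfm l) (hfm μ)]
    rw [e1, setIntegral_indicator (measurableSet_lt μ),
      integral_dt (hid.mono_set inter_subset_left) (l - μ), ← hsplit, sub_dt]
    unfold Gf
    ring
  have hpos : 0 < ∫ x in S, U2_g μ l x := by
    rw [setIntegral_pos_iff_support_of_nonneg_ae
      (Eventually.of_forall (fun x => U2_g_nonneg μ l x))]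
    · -- an open set
      set U : Set ℂ := interior K ∩ {x : ℂ | dt ν x < 1}
        ∩ {x : ℂ | (dt μ x - 1) * (dt l x - 1) < 0} with hU
      have hUo : IsOpen U := by
        refine (isOpen_interior.inter ?_).inter ?_
        · exact _root_.isOpen_lt (continuous_dt ν) continuous_const
        · exact _root_.isOpen_lt (((continuous_dt μ).sub continuous_const).mul
            ((continuous_dt l).sub continuous_const)) continuous_const
      have hUne : U.Nonempty := by
        obtain ⟨w, ε, hε, hw⟩ := U2_dir h1 hl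
        have hc : Continuous (fun t : ℝ => x₀ + (t : ℂ) * w) := by fun_prop
        have h0 : Tendsto (fun t : ℝ => x₀ + (t : ℂ) * w) (𝓝[>] 0) (𝓝 x₀) := by
          have := hc.tendsto 0
          simp only [Complex.ofReal_zero, zero_mul, add_zero] at this
          exact this.mono_left nhdsWithin_le_nhds
        have hV : interior K ∩ {x : ℂ | dt ν x < 1} ∈ 𝓝 x₀ :=
          (isOpen_interior.inter (_root_.isOpen_lt (continuous_dt ν) continuous_const)).mem_nhds
            ⟨hx0, hν⟩
        have h2 := h0.eventually hV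
        have h3 : ∀ᶠ t : ℝ in 𝓝[>] 0, t < ε :=
          mem_nhdsWithin_of_mem_nhds (Iio_mem_nhds hε)
        have h4 : ∀ᶠ t : ℝ in 𝓝[>] 0, 0 < t := self_mem_nhdsWithin
        obtain ⟨t, ht1, ht2, ht3⟩ := (h2.and (h3.and h4)).exists
        exact ⟨_, ht1, hw t ht3 ht2⟩
      refine (hUo.measure_pos volume hUne).trans_le (measure_mono ?_)
      intro x hx
      refine ⟨(U2_g_pos μ l x hx.2).ne', interior_subset hx.1.1, ?_⟩
      have h5 : dt ν x < 1 := hx.1.2
      exact h5.le
    · exact ((hfm l).sub (hfm μ)).sub hind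
  rw [hint] at hpos
  linarith

end Pool.Agent.Lib.MP_707299_gt
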