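import Pool.Agent.Lib.MP_707299_gt.U1
import Pool.Agent.Lib.MP_707299_gt.U2

/-!
Row U: the balancing cut depends continuously on the other cut.
-/

set_option autoImplicit false

namespace Pool.Agent.Lib.MP_707299_gt

open MeasureTheory Set Filter Topology

/-- `Gf (K ∩ H ν)` has a strict minimum at `μ` (`gf_strict`), so on the sphere `‖l - μ‖ = ε / 2` it is
at least its value at `μ` plus `η`. By `gf_close` (with `η / 3`) a minimum point `μ'` of `Gf (K ∩ H ν')` on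
the closed ball is an interior point of it, hence a local minimum; `crit`. -/
theorem perturb {K : Set ℂ} (hK : IsBody K) {μ ν : ℂ} (hbal : ∫ x in K ∩ H μ ∩ H ν, x = 0)
    (hx : ∃ x ∈ interior K, dt μ x = 1 ∧ dt ν x < 1) {ε : ℝ} (hε : 0 < ε) :
    ∃ δ > 0, ∀ ν' : ℂ, ‖ν' - ν‖ < δ →
      ∃ μ' : ℂ, ‖μ' - μ‖ < ε ∧ ∫ x in K ∩ H μ' ∩ H ν', x = 0 := by
  obtain ⟨R0, hR0⟩ := hK.compact.isBounded.exists_norm_le
  have hb : ∀ ν' : ℂ, ∀ x ∈ K ∩ H ν', ‖x‖ ≤ R0 := fun ν' x hx => hR0 x hx.1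
  have hm : ∀ ν' : ℂ, MeasurableSet (K ∩ H ν') :=
    fun ν' => hK.measurableSet.inter (measurableSet_H ν')
  have hc : ∀ ν' : ℂ, Continuous (Gf (K ∩ H ν')) := fun ν' => gf_continuous (hm ν') (hb ν')
  have hsne : (Metric.sphere μ (ε / 2)).Nonempty := NormedSpace.sphere_nonempty.2 (by positivity)
  obtain ⟨l, hl, hlmin⟩ := (isCompact_sphere μ (ε / 2)).exists_isMinOn hsne (hc ν).continuousOn
  have hlne : l ≠ μ := by
    rintro rfl
    rw [Metric.mem_sphere, dist_self] at hl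
    linarith
  have hlt := gf_strict hK hbal hx hlne
  set η : ℝ := Gf (K ∩ H ν) l - Gf (K ∩ H ν) μ with hη
  have hη0 : 0 < η := by linarith
  obtain ⟨δ, hδ, hclose⟩ := gf_close hK.compact ν (‖μ‖ + ε) (η := η / 3) (by linarith)
  refine ⟨δ, hδ, fun ν' hν' => ?_⟩
  obtain ⟨μ', hμ', hmin⟩ := (isCompact_closedBall μ (ε / 2)).exists_isMinOn
    ⟨μ, Metric.mem_closedBall_self (by positivity)⟩ (hc ν').continuousOn
  have hnorm : ∀ y ∈ Metric.closedBall μ (ε / 2), ‖y‖ ≤ ‖μ‖ + ε := by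
    intro y hy
    rw [Metric.mem_closedBall, dist_eq_norm] at hy
    have h1 : ‖y‖ ≤ ‖μ‖ + ‖y - μ‖ := by
      calc ‖y‖ = ‖μ + (y - μ)‖ := by congr 1; ring
        _ ≤ _ := norm_add_le _ _
    linarith
  have h1 := abs_le.1 (hclose ν' hν' μ (by linarith))
  have h2 := abs_le.1 (hclose ν' hν' μ' (hnorm μ' hμ'))
  have h3 : Gf (K ∩ H ν') μ' ≤ Gf (K ∩ H ν') μ :=
    hmin (Metric.mem_closedBall_self (by positivity))
  have hball : μ' ∈ Metric.ball μ (ε / 2) := by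
    by_contra hcon
    have hs : μ' ∈ Metric.sphere μ (ε / 2) := by
      rw [Metric.mem_sphere]
      rw [Metric.mem_closedBall] at hμ'
      rw [Metric.mem_ball, not_lt] at hcon
      exact le_antisymm hμ' hcon
    have h4 : Gf (K ∩ H ν) l ≤ Gf (K ∩ H ν) μ' := hlmin hs
    linarith [h1.1, h1.2, h2.1, h2.2]
  have hloc : IsLocalMin (Gf (K ∩ H ν')) μ' :=
    hmin.isLocalMin (Filter.mem_of_superset (Metric.isOpen_ball.mem_nhds hball)
      Metric.ball_subset_closedBall)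
  refine ⟨μ', ?_, ?_⟩
  · rw [Metric.mem_ball, dist_eq_norm] at hball
    linarith
  · have h5 := crit (hm ν') (hb ν') hloc
    have h6 : K ∩ H μ' ∩ H ν' = K ∩ H ν' ∩ H μ' := by
      ext y
      simp only [Set.mem_inter_iff]
      tauto
    rw [h6]
    exact h5

end Pool.Agent.Lib.MP_707299_gt
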