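import Pool.Agent.Lib.MP_707299_gt.L0

/-!
Row U1.
-/

set_option autoImplicit false

namespace Pool.Agent.Lib.MP_707299_gt

open MeasureTheory Set Filter Topology

private theorem U1_gf_eq {K S : Set ℂ} (hK : IsCompact K) (hS : S ⊆ K) (l : ℂ) :
    Gf S l = ∫ x in S, (max (dt l x - 1) 0 - dt l x) := by
  have hc : Continuous fun x => max (dt l x - 1) 0 :=
    ((continuous_dt l).sub continuous_const).max continuous_const
  have h1 : IntegrableOn (fun x => max (dt l x - 1) 0) S :=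
    (hc.continuousOn.integrableOn_compact hK).mono_set hS
  have h2 : IntegrableOn (fun x => dt l x) S :=
    ((continuous_dt l).continuousOn.integrableOn_compact hK).mono_set hS
  rw [Gf, ← integral_dt (integrableOn_id' hK hS) l]
  exact (integral_sub h1 h2).symm

private theorem U1_small {K : Set ℂ} (hK : IsCompact K) (ν : ℂ) {ε : ℝ} (hε : 0 < ε) :
    ∃ n : ℕ, volume.real (K ∩ {x | |dt ν x - 1| ≤ 1 / ((n : ℝ) + 1)}) < ε := by
  have hmeas : ∀ n : ℕ, MeasurableSet (K ∩ {x | |dt ν x - 1| ≤ 1 / ((n : ℝ) + 1)}) := fun n =>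
    (hK.isClosed.inter (isClosed_le ((continuous_dt ν).sub continuous_const).abs
      continuous_const)).measurableSet
  have hanti : Antitone fun n : ℕ => K ∩ {x | |dt ν x - 1| ≤ 1 / ((n : ℝ) + 1)} := by
    intro m n hmn x hx
    have h1 : |dt ν x - 1| ≤ 1 / ((n : ℝ) + 1) := hx.2
    have h2 : 1 / ((n : ℝ) + 1) ≤ 1 / ((m : ℝ) + 1) :=
      one_div_le_one_div_of_le (by positivity) (by exact_mod_cast Nat.succ_le_succ hmn)
    exact ⟨hx.1, h1.trans h2⟩
  have hint : (⋂ n : ℕ, K ∩ {x | |dt ν x - 1| ≤ 1 / ((n : ℝ) + 1)}) ⊆ {x | dt ν x = 1} := by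
    intro x hx
    rw [mem_iInter] at hx
    have h0 : |dt ν x - 1| ≤ 0 :=
      le_of_tendsto_of_tendsto' tendsto_const_nhds
        (tendsto_one_div_add_atTop_nhds_zero_nat (𝕜 := ℝ)) fun n => (hx n).2
    have h1 := abs_nonpos_iff.mp h0
    exact sub_eq_zero.mp h1
  have hzero : volume (⋂ n : ℕ, K ∩ {x | |dt ν x - 1| ≤ 1 / ((n : ℝ) + 1)}) = 0 :=
    measure_mono_null hint (volume_one ν)
  have hfin : ∀ n : ℕ, volume (K ∩ {x | |dt ν x - 1| ≤ 1 / ((n : ℝ) + 1)}) ≠ ⊤ := fun n =>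
    ((measure_mono inter_subset_left).trans_lt hK.measure_lt_top).ne
  have ht := tendsto_measure_iInter_atTop (μ := volume) (fun n => (hmeas n).nullMeasurableSet)
    hanti ⟨0, hfin 0⟩
  rw [hzero] at ht
  have ht2 := (ENNReal.tendsto_toReal ENNReal.zero_ne_top).comp ht
  have := (ht2.eventually (gt_mem_nhds (by simpa using hε))).exists
  exact this

/-- The difference is at most a constant times the volume of `K ∩ (H ν \ H ν' ∪ H ν' \ H ν)`, which is
contained in `K ∩ {|dt ν x - 1| ≤ δ sup ‖x‖}`; these sets decrease to `K ∩ {dt ν x = 1}`, a null set. -/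
theorem gf_close {K : Set ℂ} (hK : IsCompact K) (ν : ℂ) (R : ℝ) {η : ℝ} (hη : 0 < η) :
    ∃ δ > 0, ∀ ν' : ℂ, ‖ν' - ν‖ < δ → ∀ l : ℂ, ‖l‖ ≤ R →
      |Gf (K ∩ H ν') l - Gf (K ∩ H ν) l| ≤ η := by
  obtain ⟨B, hB, hKB⟩ := hK.isBounded.exists_pos_norm_le
  set C : ℝ := 1 + |R| * B with hC
  have hC0 : 0 < C := by positivity
  obtain ⟨n, hn⟩ := U1_small hK ν (ε := η / (2 * C)) (by positivity)
  refine ⟨1 / ((n : ℝ) + 1) / B, by positivity, ?_⟩
  intro ν' hν' l hl
  rw [U1_gf_eq hK inter_subset_left l, U1_gf_eq hK inter_subset_left l]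
  set f : ℂ → ℝ := fun x => max (dt l x - 1) 0 - dt l x with hf
  have hfc : Continuous f :=
    (((continuous_dt l).sub continuous_const).max continuous_const).sub (continuous_dt l)
  have hfK : IntegrableOn f K := hfc.continuousOn.integrableOn_compact hK
  have hfb : ∀ x ∈ K, ‖f x‖ ≤ C := by
    intro x hx
    have h1 : |dt l x| ≤ |R| * B := by
      refine (abs_dt_le l x).trans ?_
      exact mul_le_mul (hl.trans (le_abs_self R)) (hKB x hx) (norm_nonneg _) (abs_nonneg _)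
    rw [Real.norm_eq_abs, hf, hC]
    simp only
    rcases le_total (dt l x - 1) 0 with h | h
    · rw [max_eq_right h, zero_sub, abs_neg]
      linarith
    · rw [max_eq_left h]
      have h2 : dt l x - 1 - dt l x = -1 := by ring
      rw [h2, abs_neg, abs_one]
      have := mul_nonneg (abs_nonneg R) hB.le
      linarith
  have hdist : ∀ x ∈ K, |dt ν' x - dt ν x| ≤ 1 / ((n : ℝ) + 1) := by
    intro x hx
    rw [← sub_dt]
    refine (abs_dt_le _ _).trans ?_
    calc ‖ν' - ν‖ * ‖x‖ ≤ 1 / ((n : ℝ) + 1) / B * B :=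
          mul_le_mul hν'.le (hKB x hx) (norm_nonneg _) (by positivity)
      _ = 1 / ((n : ℝ) + 1) := by field_simp
  have hm : MeasurableSet (K ∩ H ν) := hK.isClosed.measurableSet.inter (measurableSet_H ν)
  have hm' : MeasurableSet (K ∩ H ν') := hK.isClosed.measurableSet.inter (measurableSet_H ν')
  have hfin : ∀ S : Set ℂ, S ⊆ K → volume S < ⊤ := fun S hS =>
    (measure_mono hS).trans_lt hK.measure_lt_top
  have hbound : ∀ S : Set ℂ, S ⊆ K ∩ {x | |dt ν x - 1| ≤ 1 / ((n : ℝ) + 1)} →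
      ‖∫ x in S, f x‖ ≤ η / 2 := by
    intro S hS
    have hSK : S ⊆ K := hS.trans inter_subset_left
    have h1 := norm_setIntegral_le_of_norm_le_const (μ := volume) (f := f) (hfin S hSK)
      (fun x hx => hfb x (hSK hx))
    have h2 : volume.real S ≤ volume.real (K ∩ {x | |dt ν x - 1| ≤ 1 / ((n : ℝ) + 1)}) :=
      measureReal_mono hS (hfin _ inter_subset_left).ne
    calc ‖∫ x in S, f x‖ ≤ C * volume.real S := h1
      _ ≤ C * (η / (2 * C)) := by
          refine mul_le_mul_of_nonneg_left (h2.trans hn.le) hC0.le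
      _ = η / 2 := by field_simp
  have e1 := integral_inter_add_sdiff hm (hfK.mono_set (inter_subset_left : K ∩ H ν' ⊆ K))
  have e2 := integral_inter_add_sdiff hm' (hfK.mono_set (inter_subset_left : K ∩ H ν ⊆ K))
  rw [inter_comm (K ∩ H ν) (K ∩ H ν')] at e2
  have b1 := hbound ((K ∩ H ν') \ (K ∩ H ν)) (by
    rintro x ⟨⟨hx1, hx2⟩, hx3⟩
    refine ⟨hx1, ?_⟩
    have h3 : 1 < dt ν x := by
      by_contra hcon
      exact hx3 ⟨hx1, not_lt.mp hcon⟩
    have h4 : dt ν' x ≤ 1 := hx2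
    have h5 := abs_le.mp (hdist x hx1)
    change |dt ν x - 1| ≤ _
    rw [abs_of_pos (by linarith)]
    linarith [h5.1])
  have b2 := hbound ((K ∩ H ν) \ (K ∩ H ν')) (by
    rintro x ⟨⟨hx1, hx2⟩, hx3⟩
    refine ⟨hx1, ?_⟩
    have h3 : 1 < dt ν' x := by
      by_contra hcon
      exact hx3 ⟨hx1, not_lt.mp hcon⟩
    have h4 : dt ν x ≤ 1 := hx2
    have h5 := abs_le.mp (hdist x hx1)
    change |dt ν x - 1| ≤ _
    rw [abs_of_nonpos (by linarith)]
    linarith [h5.2])
  rw [← e1, ← e2]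
  rw [Real.norm_eq_abs] at b1 b2
  have b3 := abs_le.mp b1
  have b4 := abs_le.mp b2
  rw [abs_le]
  constructor <;> linarith [b3.1, b3.2, b4.1, b4.2]

end Pool.Agent.Lib.MP_707299_gt
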