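import Pool.Agent.Lib.MP_707299_gt.A
import Pool.Agent.Lib.MP_707299_gt.V

/-!
Row W: disjoint triangles with a vertex at `0` inscribed in `K`.
-/

set_option autoImplicit false

namespace Pool.Agent.Lib.MP_707299_gt

open MeasureTheory Set Filter Topology

private theorem W_cr_e (s t : ℝ) : cr (e s) (e t) = Real.sin (t - s) := by
  unfold cr
  rw [e_re, e_im, e_re, e_im, Real.sin_sub]
  ring

/-- the direction of a positive combination of two directions -/
private theorem W_dir {a b s t ρ θ : ℝ} (ha : 0 < a) (hb : 0 < b) (hs : 0 ≤ s) (hst : s < t)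
    (ht : t ≤ 2 * Real.pi) (hπ : t - s < Real.pi) (hρ : 0 < ρ) (hθ : 0 ≤ θ)
    (hθ2 : θ < 2 * Real.pi) (h : (ρ : ℂ) * e θ = (a : ℂ) * e s + (b : ℂ) * e t) :
    s < θ ∧ θ < t := by
  have hpos : 0 < Real.sin (t - s) := Real.sin_pos_of_pos_of_lt_pi (by linarith) hπ
  have h1 : ρ * Real.sin (θ - s) = b * Real.sin (t - s) := by
    have e1 : cr (e s) ((ρ : ℂ) * e θ) = cr (e s) ((a : ℂ) * e s + (b : ℂ) * e t) := by rw [h]
    rw [cr_mul, cr_add, cr_mul, cr_mul, cr_self, W_cr_e, W_cr_e] at e1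
    linarith
  have h2 : ρ * Real.sin (t - θ) = a * Real.sin (t - s) := by
    have e1 : cr ((ρ : ℂ) * e θ) (e t) = cr ((a : ℂ) * e s + (b : ℂ) * e t) (e t) := by rw [h]
    rw [mul_cr, add_cr, mul_cr, mul_cr, cr_self, W_cr_e, W_cr_e] at e1
    linarith
  have p1 : 0 < Real.sin (θ - s) := by
    by_contra hc
    have : ρ * Real.sin (θ - s) ≤ 0 := mul_nonpos_of_nonneg_of_nonpos hρ.le (not_lt.1 hc)
    have : 0 < b * Real.sin (t - s) := mul_pos hb hpos
    linarith
  have p2 : 0 < Real.sin (t - θ) := by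
    by_contra hc
    have : ρ * Real.sin (t - θ) ≤ 0 := mul_nonpos_of_nonneg_of_nonpos hρ.le (not_lt.1 hc)
    have : 0 < a * Real.sin (t - s) := mul_pos ha hpos
    linarith
  have key : ∀ x : ℝ, Real.pi ≤ x → x ≤ 2 * Real.pi → Real.sin x ≤ 0 := by
    intro x hx1 hx2
    have h3 : Real.sin (x - 2 * Real.pi) ≤ 0 :=
      Real.sin_nonpos_of_nonpos_of_neg_pi_le (by linarith) (by linarith)
    rwa [Real.sin_sub_two_pi] at h3
  have key2 : ∀ x : ℝ, -Real.pi ≤ x → x ≤ 0 → Real.sin x ≤ 0 := fun x hx1 hx2 =>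
    Real.sin_nonpos_of_nonpos_of_neg_pi_le hx2 hx1
  constructor
  · by_contra hc
    push Not at hc
    rcases le_or_gt (-Real.pi) (θ - s) with h3 | h3
    · linarith [key2 (θ - s) h3 (by linarith)]
    · linarith [key (t - θ) (by linarith) (by linarith)]
  · by_contra hc
    push Not at hc
    rcases le_or_gt (-Real.pi) (t - θ) with h3 | h3
    · linarith [key2 (t - θ) h3 (by linarith)]
    · linarith [key (θ - s) (by linarith) (by linarith)]

/-- The open triangles with vertices `0`, `bd K 0 (t k)`, `bd K 0 (t (k + 1))` (`vol_triangle_open` with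
`κ = 1`; `cr (bd K 0 (t k)) (bd K 0 (t (k + 1))) = rad * rad * sin (t (k + 1) - t k) > 0`) are contained in
`K` and pairwise disjoint (their points have directions in `(t k, t (k + 1))`). -/
theorem area_windows {K : Set ℂ} (hK : IsBody K) (h0 : (0 : ℂ) ∈ interior K) {m : ℕ} {t : ℕ → ℝ}
    (ht : ∀ k < m, t k < t (k + 1)) (ht0 : 0 ≤ t 0) (htm : t m ≤ 2 * Real.pi) {G : Finset ℕ}
    (hG : G ⊆ Finset.range m) (hφ : ∀ k ∈ G, t (k + 1) - t k < Real.pi) :
    ∑ k ∈ G, cr (bd K 0 (t k)) (bd K 0 (t (k + 1))) / 2 ≤ (volume K).toReal := by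
  have mono : ∀ i j, i ≤ j → j ≤ m → t i ≤ t j := by
    intro i j hij
    induction j, hij using Nat.le_induction with
    | base => intro _; exact le_rfl
    | succ j hj ih => intro hjm; exact (ih (by omega)).trans (ht j (by omega)).le
  set T : ℕ → Set ℂ := fun k => {x : ℂ | ∃ α β : ℝ, 0 < α ∧ 0 < β ∧ α + β < 1 ∧
    x = 0 + (α : ℂ) * bd K 0 (t k) + (β : ℂ) * bd K 0 (t (k + 1))} with hT
  have hcr : ∀ k ∈ G, 0 < cr (bd K 0 (t k)) (bd K 0 (t (k + 1))) := by
    intro k hk
    have hkm := Finset.mem_range.1 (hG hk)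
    rw [bd_zero, bd_zero, mul_cr, cr_mul, W_cr_e]
    exact mul_pos (rad_pos hK h0 _) (mul_pos (rad_pos hK h0 _)
      (Real.sin_pos_of_pos_of_lt_pi (by linarith [ht k hkm]) (hφ k hk)))
  have hvol : ∀ k ∈ G, volume (T k) =
      ENNReal.ofReal (cr (bd K 0 (t k)) (bd K 0 (t (k + 1))) / 2) := by
    intro k hk
    have := vol_triangle_open 0 (bd K 0 (t k)) (bd K 0 (t (k + 1))) (κ := 1) zero_le_one
    rw [one_pow, one_mul, abs_of_pos (hcr k hk)] at this
    exact this
  have hmeas : ∀ k ∈ G, MeasurableSet (T k) := by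
    intro k hk
    have hc := hcr k hk
    set u := bd K 0 (t k)
    set w := bd K 0 (t (k + 1))
    have hTk : T k = {x : ℂ | 0 < cr x w ∧ 0 < cr u x ∧ cr x w + cr u x < cr u w} := by
      ext x
      simp only [hT, Set.mem_ofPred_eq]
      constructor
      · rintro ⟨α, β, h1, h2, h3, rfl⟩
        rw [zero_add]
        have e1 : cr ((α : ℂ) * u + (β : ℂ) * w) w = α * cr u w := by
          rw [add_cr, mul_cr, mul_cr, cr_self]; ring
        have e2 : cr u ((α : ℂ) * u + (β : ℂ) * w) = β * cr u w := by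
          rw [cr_add, cr_mul, cr_mul, cr_self]; ring
        rw [e1, e2]
        refine ⟨mul_pos h1 hc, mul_pos h2 hc, ?_⟩
        nlinarith
      · rintro ⟨h1, h2, h3⟩
        refine ⟨cr x w / cr u w, cr u x / cr u w, div_pos h1 hc, div_pos h2 hc, ?_, ?_⟩
        · rw [← add_div, div_lt_one hc]; exact h3
        · rw [zero_add]; exact basis_eq u w x hc.ne'
    rw [hTk]
    have c1 : Continuous fun x : ℂ => cr x w := by unfold cr; fun_prop
    have c2 : Continuous fun x : ℂ => cr u x := by unfold cr; fun_prop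
    exact ((_root_.isOpen_lt continuous_const c1).inter
      ((_root_.isOpen_lt continuous_const c2).inter
        (_root_.isOpen_lt (c1.add c2) continuous_const))).measurableSet
  have hsub : ∀ k ∈ G, T k ⊆ K := by
    intro k hk x hx
    obtain ⟨α, β, h1, h2, h3, rfl⟩ := hx
    have k0 : (0 : ℂ) ∈ K := interior_subset h0
    have := hK.convex.sum_mem (t := Finset.univ) (w := ![α, β, 1 - α - β])
      (z := ![bd K 0 (t k), bd K 0 (t (k + 1)), 0]) ?_ ?_ ?_
    · simpa [Fin.sum_univ_three, Complex.real_smul] using this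
    · intro i _
      fin_cases i
      · exact h1.le
      · exact h2.le
      · show 0 ≤ 1 - α - β
        linarith
    · simp [Fin.sum_univ_three]
    · intro i _
      fin_cases i
      · exact bd_mem hK h0 _
      · exact bd_mem hK h0 _
      · exact k0
  have hdir : ∀ k ∈ G, ∀ x ∈ T k, ∀ θ : ℝ, 0 ≤ θ → θ < 2 * Real.pi → x ≠ 0 →
      x = (‖x‖ : ℂ) * e θ → t k < θ ∧ θ < t (k + 1) := by
    intro k hk x hx θ hθ hθ2 hx0 hxe
    have hkm := Finset.mem_range.1 (hG hk)
    obtain ⟨α, β, h1, h2, h3, hx1⟩ := hx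
    rw [zero_add, bd_zero, bd_zero, ← mul_assoc, ← mul_assoc] at hx1
    refine W_dir (a := α * rad K 0 (t k)) (b := β * rad K 0 (t (k + 1)))
      (mul_pos h1 (rad_pos hK h0 _)) (mul_pos h2 (rad_pos hK h0 _))
      (ht0.trans (mono 0 k (Nat.zero_le _) hkm.le)) (ht k hkm)
      ((mono (k + 1) m hkm le_rfl).trans htm) (hφ k hk) (norm_pos_iff.2 hx0) hθ hθ2 ?_
    rw [← hxe, hx1]
    push_cast
    ring
  have hne : ∀ k ∈ G, ∀ x ∈ T k, x ≠ 0 := by
    intro k hk x hx hx0
    obtain ⟨α, β, h1, h2, h3, hx1⟩ := hx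
    rw [hx0, zero_add] at hx1
    have e1 : cr ((α : ℂ) * bd K 0 (t k) + (β : ℂ) * bd K 0 (t (k + 1))) (bd K 0 (t (k + 1))) =
        α * cr (bd K 0 (t k)) (bd K 0 (t (k + 1))) := by
      rw [add_cr, mul_cr, mul_cr, cr_self]; ring
    rw [← hx1] at e1
    have e2 : cr 0 (bd K 0 (t (k + 1))) = 0 := by unfold cr; simp
    rw [e2] at e1
    exact absurd e1.symm (mul_pos h1 (hcr k hk)).ne'
  have hlt : ∀ k ∈ G, ∀ l ∈ G, k < l → Disjoint (T k) (T l) := by
    intro k hk l hl hkl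
    rw [Set.disjoint_left]
    intro x hxk hxl
    have hx0 := hne k hk x hxk
    obtain ⟨θ, hθ, hxe⟩ := exists_angle x hx0
    have a1 := hdir k hk x hxk θ hθ.1 hθ.2 hx0 hxe
    have a2 := hdir l hl x hxl θ hθ.1 hθ.2 hx0 hxe
    have := mono (k + 1) l hkl (Finset.mem_range.1 (hG hl)).le
    linarith [a1.2, a2.1]
  have hdisj : (G : Set ℕ).PairwiseDisjoint T := by
    intro k hk l hl hkl
    rcases lt_or_gt_of_ne hkl with h | h
    · exact hlt k hk l hl h
    · exact (hlt l hl k hk h).symm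
  have hsum : ∑ k ∈ G, volume (T k) ≤ volume K := by
    rw [← measure_biUnion_finset hdisj hmeas]
    exact measure_mono (Set.iUnion₂_subset hsub)
  have h3 : ∑ k ∈ G, volume (T k) =
      ENNReal.ofReal (∑ k ∈ G, cr (bd K 0 (t k)) (bd K 0 (t (k + 1))) / 2) := by
    rw [ENNReal.ofReal_sum_of_nonneg (fun k hk => (div_pos (hcr k hk) two_pos).le)]
    exact Finset.sum_congr rfl hvol
  rw [h3] at hsum
  exact (ENNReal.ofReal_le_iff_le_toReal hK.volume_lt_top.ne).1 hsum

end Pool.Agent.Lib.MP_707299_gt
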