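import Pool.Agent.Lib.MP_707299_gt.SD
import Pool.Agent.Lib.MP_707299_gt.W
import Pool.Agent.Lib.MP_707299_gt.N
import Pool.Agent.Lib.MP_707299_gt.P
import Pool.Agent.Lib.MP_707299_gt.Q
import Pool.Agent.Lib.MP_707299_gt.D
import Pool.Agent.Lib.MP_707299_gt.Bt

/-!
A window of three consecutive stable points with a small cap.
-/

set_option autoImplicit false

namespace Pool.Agent.Lib.MP_707299_gt

open MeasureTheory Set Filter Topology

theorem dt_bd (K : Set ℂ) (a b : ℝ) :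
    dt (bd K 0 a) (bd K 0 b) = rad K 0 a * rad K 0 b * Real.cos (b - a) := by
  rw [bd_zero, bd_zero, dt_mul, mul_dt, Real.cos_sub]
  simp only [dt, e_re, e_im]; ring

theorem cr_bd (K : Set ℂ) (a b : ℝ) :
    cr (bd K 0 a) (bd K 0 b) = rad K 0 a * rad K 0 b * Real.sin (b - a) := by
  rw [bd_zero, bd_zero, cr_mul, mul_cr, Real.sin_sub]
  simp only [cr, e_re, e_im]; ring

theorem window_num {n m : ℕ} (hn : 10000 ≤ n) (hm : m = (n - 1) / 2) :
    0.257 * (4 * Real.pi ^ 2 / ((m : ℝ) - 68) ^ 3) < 84.7 / (n : ℝ) ^ 3 := by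
  have h1 : n ≤ 2 * m + 2 := by omega
  have h2 : (n : ℝ) ≤ 2 * m + 2 := by exact_mod_cast h1
  have h3 : (10000 : ℝ) ≤ n := by exact_mod_cast hn
  have h4 : 0.4931 * (n : ℝ) ≤ (m : ℝ) - 68 := by linarith
  have hnp : (0 : ℝ) < n := by linarith
  have h5 : (0.4931 * (n : ℝ)) ^ 3 ≤ ((m : ℝ) - 68) ^ 3 :=
    pow_le_pow_left₀ (by positivity) h4 3
  have hpi : Real.pi ^ 2 < 9.8697 := by
    have := Real.pi_lt_d4
    have h0 := Real.pi_pos
    nlinarith
  have h6 : 4 * Real.pi ^ 2 / ((m : ℝ) - 68) ^ 3 ≤ 4 * Real.pi ^ 2 / (0.4931 * (n : ℝ)) ^ 3 := by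
    apply div_le_div_of_nonneg_left (by positivity) (by positivity) h5
  have h7 : 0.257 * (4 * Real.pi ^ 2 / (0.4931 * (n : ℝ)) ^ 3)
      = (0.257 * 4 * Real.pi ^ 2 / 0.4931 ^ 3) / (n : ℝ) ^ 3 := by
    rw [mul_pow]; field_simp
  calc 0.257 * (4 * Real.pi ^ 2 / ((m : ℝ) - 68) ^ 3)
      ≤ 0.257 * (4 * Real.pi ^ 2 / (0.4931 * (n : ℝ)) ^ 3) := by
        apply mul_le_mul_of_nonneg_left h6; norm_num
    _ = (0.257 * 4 * Real.pi ^ 2 / 0.4931 ^ 3) / (n : ℝ) ^ 3 := h7
    _ < 84.7 / (n : ℝ) ^ 3 := by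
        apply div_lt_div_of_pos_right _ (by positivity)
        rw [div_lt_iff₀ (by norm_num)]
        nlinarith

theorem exists_window {r : ℕ∞} (hr : 2 ≤ r) {K : Set ℂ} (hK : IsBody K)
    (h0 : (0 : ℂ) ∈ interior K) {n : ℕ} (hn : 10000 ≤ n)
    (hcount : (stablePts r K 0).encard = n) :
    ∃ μ s s' s'' : ℂ, s ∈ stablePts r K 0 ∧ s' ∈ stablePts r K 0 ∧ s'' ∈ stablePts r K 0 ∧
      s ≠ s' ∧ s ≠ s'' ∧ s' ≠ s'' ∧ 1 ≤ dt μ s ∧ 1 ≤ dt μ s' ∧ 1 ≤ dt μ s'' ∧
      volume (K ∩ {x | 1 ≤ dt μ x}) < ENNReal.ofReal (84.7 / (n : ℝ) ^ 3) * volume K ∧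
      (∀ x ∈ K, ∀ y ∈ K, 1 ≤ dt μ x → 1 ≤ dt μ y → |cr x y| < (volume K).toReal / 16) := by
  obtain ⟨t, ht, hst⟩ := stable_dirs hK h0 hcount
  obtain ⟨m, hm⟩ : ∃ m, m = (n - 1) / 2 := ⟨_, rfl⟩
  have hm69 : 69 ≤ m := by omega
  have hA : 0 < (volume K).toReal := ENNReal.toReal_pos hK.volume_pos.ne' hK.volume_lt_top.ne
  have hlt : ∀ k < m, t (2 * k) < t (2 * (k + 1)) := fun k hk => ht _ _ (by omega) (by omega)
  have hmem : ∀ i < n, t i ∈ Ico (0 : ℝ) (2 * Real.pi) := fun i hi => (hst i hi).1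
  have hpi := Real.pi_pos
  have hsinp : ∀ φ : ℝ, 0 < φ → φ ≤ Real.pi / 10 → 0 < Real.sin φ := fun φ h1 h2 =>
    Real.sin_pos_of_pos_of_lt_pi h1 (by linarith)
  obtain ⟨k, hkm, hφk, hTk, hTφ⟩ := select (m := m) hm69
    (φ := fun k => t (2 * (k + 1)) - t (2 * k))
    (T := fun k => cr (bd K 0 (t (2 * k))) (bd K 0 (t (2 * (k + 1)))) / 2) hA
    (fun k hk => sub_pos.mpr (hlt k hk))
    (by
      rw [Finset.sum_range_sub (fun k => t (2 * k)) m]
      have h1 := (hmem (2 * m) (by omega)).2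
      have h2 := (hmem (2 * 0) (by omega)).1
      linarith)
    (fun k hk hφ => by
      rw [cr_bd]
      have := hsinp _ (sub_pos.mpr (hlt k hk)) hφ
      have := rad_pos hK h0 (t (2 * k))
      have := rad_pos hK h0 (t (2 * (k + 1)))
      positivity)
    (fun G hG hφ => by
      refine area_windows (t := fun k => t (2 * k)) hK h0 (m := m) hlt (hmem _ (by omega)).1
        (hmem (2 * m) (by omega)).2.le hG (fun k hk => ?_)
      have := hφ k hk
      linarith)
  set a := t (2 * k) with ha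
  set b := t (2 * (k + 1)) with hb
  set c := t (2 * k + 1) with hcdef
  have hac : a < c := ht _ _ (by omega) (by omega)
  have hcb : c < b := ht _ _ (by omega) (by omega)
  have hab : a < b := hac.trans hcb
  have hra := rad_pos hK h0 a
  have hrb := rad_pos hK h0 b
  have hsa : IsStable r K 0 a := (hst _ (by omega)).2
  have hsb : IsStable r K 0 b := (hst _ (by omega)).2
  have hsc : IsStable r K 0 c := (hst _ (by omega)).2
  have hIa : a ∈ Ico (0 : ℝ) (2 * Real.pi) := (hst _ (by omega)).1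
  have hIb : b ∈ Ico (0 : ℝ) (2 * Real.pi) := (hst _ (by omega)).1
  have hIc : c ∈ Ico (0 : ℝ) (2 * Real.pi) := (hst _ (by omega)).1
  set s := bd K 0 a with hs
  set s' := bd K 0 b with hs'
  have hsin := hsinp _ (sub_pos.mpr hab) hφk
  have hcr : cr s s' = rad K 0 a * rad K 0 b * Real.sin (b - a) := cr_bd K a b
  have hcrp : 0 < cr s s' := by rw [hcr]; positivity
  have hdt : dt s s' = rad K 0 a * rad K 0 b * Real.cos (b - a) := dt_bd K a b
  have hcos : 0 ≤ Real.cos (b - a) :=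
    Real.cos_nonneg_of_neg_pi_div_two_le_of_le (by linarith) (by linarith)
  have hdtn : 0 ≤ dt s s' := by rw [hdt]; positivity
  have hss : dt s s = rad K 0 a * rad K 0 a := by
    rw [hs, dt_bd, sub_self, Real.cos_zero, mul_one]
  have hss' : dt s' s' = rad K 0 b * rad K 0 b := by
    rw [hs', dt_bd, sub_self, Real.cos_zero, mul_one]
  have e1 := (isEq_dt K a).1 hsa.1
  have e2 := (isEq_dt K b).1 hsb.1
  rw [← hs] at e1
  rw [← hs'] at e2
  have hr0 : (r : WithTop ℕ∞) ≠ 0 := by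
    have h2r : (2 : ℕ∞) ≤ r := hr
    intro h
    have : r = 0 := by exact_mod_cast h
    rw [this] at h2r
    exact absurd h2r (by decide)
  have hda : DifferentiableAt ℝ (rad K 0) a := hsa.2.1.differentiableAt hr0
  have hdb : DifferentiableAt ℝ (rad K 0) b := hsb.2.1.differentiableAt hr0
  have hst1 : dt s s' < dt s s := by
    have h1 : dt s' s ≤ dt s s := e1 s' (bd_mem hK h0 b)
    rw [dt_comm s' s] at h1
    rcases h1.lt_or_eq with h | h
    · exact h
    · exfalso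
      have := support_unique hK h0 hdb hsb.1 (ν := s) (fun x hx => by
        rw [← hs', h, dt_comm]; exact e1 x hx)
      rw [← hs'] at this
      linarith
  have hst2 : dt s s' < dt s' s' := by
    have h1 : dt s s' ≤ dt s' s' := e2 s (bd_mem hK h0 a)
    rcases h1.lt_or_eq with h | h
    · exact h
    · exfalso
      have := support_unique hK h0 hda hsa.1 (ν := s') (fun x hx => by
        rw [← hs, dt_comm s' s, h, dt_comm]; exact e2 x hx)
      rw [← hs, cr_comm] at this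
      linarith
  set D := cr s s' with hD
  set μ : ℂ := ⟨(s'.im - s.im) / D, (s.re - s'.re) / D⟩ with hμ
  have hμs : dt μ s = 1 := by
    have : dt μ s = (s.re * s'.im - s.im * s'.re) / D := by
      rw [hμ]; unfold dt; simp only; ring
    rw [this, hD]; exact div_self hcrp.ne'
  have hμs' : dt μ s' = 1 := by
    have : dt μ s' = (s.re * s'.im - s.im * s'.re) / D := by
      rw [hμ]; unfold dt; simp only; ring
    rw [this, hD]; exact div_self hcrp.ne'
  refine ⟨μ, s, s', bd K 0 c, ⟨a, hs, hsa⟩, ⟨b, hs', hsb⟩, ⟨c, rfl, hsc⟩, ?_, ?_, ?_, hμs.ge, hμs'.ge,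
    ?_, ?_, ?_⟩
  · intro h; exact hab.ne (bd_inj hK h0 hIa hIb h)
  · intro h; exact hac.ne (bd_inj hK h0 hIa hIc h)
  · intro h; exact hcb.ne' (bd_inj hK h0 hIb hIc h)
  · exact between hK h0 hac.le hcb.le (by linarith) hμs.ge hμs'.ge
  · have h1 := cap_area e1 e2 hμs hμs' hcrp hdtn hst1 hst2
    have h2 := cap_num hra hrb (sub_pos.mpr hab) hφk
    rw [← hdt, ← hcr, ← hss, ← hss'] at h2
    have h3 : 0.257 * (b - a) ^ 2 * (cr s s' / 2) < 84.7 / (n : ℝ) ^ 3 * (volume K).toReal := by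
      have h4 := window_num hn hm
      calc 0.257 * (b - a) ^ 2 * (cr s s' / 2) = 0.257 * (cr s s' / 2 * (b - a) ^ 2) := by ring
        _ ≤ 0.257 * (4 * Real.pi ^ 2 * (volume K).toReal / ((m : ℝ) - 68) ^ 3) := by
            apply mul_le_mul_of_nonneg_left hTφ; norm_num
        _ = 0.257 * (4 * Real.pi ^ 2 / ((m : ℝ) - 68) ^ 3) * (volume K).toReal := by ring
        _ < _ := by apply mul_lt_mul_of_pos_right h4 hA
    refine (h1.trans (ENNReal.ofReal_le_ofReal h2)).trans_lt ?_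
    have h5 : ENNReal.ofReal (84.7 / (n : ℝ) ^ 3) * volume K
        = ENNReal.ofReal (84.7 / (n : ℝ) ^ 3 * (volume K).toReal) := by
      rw [ENNReal.ofReal_mul (by positivity), ENNReal.ofReal_toReal hK.volume_lt_top.ne]
    rw [h5]
    exact (ENNReal.ofReal_lt_ofReal_iff (by positivity)).2 h3
  · intro x hx y hy hx1 hy1
    have := cap_cross e1 e2 hμs hμs' hcrp hdtn hst1 hst2 x hx y hy hx1 hy1
    linarith

end Pool.Agent.Lib.MP_707299_gt
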