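import Pool.Agent.Lib.MP_707299_gt.X
import Pool.Agent.Lib.MP_707299_gt.E
import Pool.Agent.Lib.MP_707299_gt.R
import Pool.Agent.Lib.MP_707299_gt.O
import Pool.Agent.Lib.MP_707299_gt.T
import Pool.Agent.Lib.MP_707299_gt.L
import Pool.Agent.Lib.MP_707299_gt.M
import Pool.Agent.Lib.MP_707299_gt.U
import Pool.Agent.Lib.MP_707299_gt.Z

/-!
The upper bound.
-/

set_option autoImplicit false

namespace Pool.Agent.Lib.MP_707299_gt

open MeasureTheory Set Filter Topology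

theorem foot_encard (μ : ℂ) : {q : ℂ | dt μ q = 1 ∧ cr μ q = 0}.encard ≤ 1 := by
  rw [Set.encard_le_one_iff]
  rintro q q' ⟨h1, h2⟩ ⟨h3, h4⟩
  have hμ : μ ≠ 0 := by
    rintro rfl
    rw [zero_dt] at h1
    exact zero_ne_one h1
  have hn : 0 < dt μ μ := by
    rw [dt_self]; positivity
  have key : ∀ x : ℂ, dt μ x = 1 → cr μ x = 0 → x = (((dt μ μ)⁻¹ : ℝ) : ℂ) * μ := by
    intro x hx1 hx2
    apply Complex.ext
    · simp only [Complex.mul_re, Complex.ofReal_re, Complex.ofReal_im, zero_mul, sub_zero]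
      rw [eq_comm, inv_mul_eq_div, div_eq_iff hn.ne']
      have : x.re * dt μ μ = dt μ x * μ.re - cr μ x * μ.im := by unfold dt cr; ring
      rw [this, hx1, hx2]; ring
    · simp only [Complex.mul_im, Complex.ofReal_re, Complex.ofReal_im, zero_mul, add_zero]
      rw [eq_comm, inv_mul_eq_div, div_eq_iff hn.ne']
      have : x.im * dt μ μ = dt μ x * μ.im + cr μ x * μ.re := by unfold dt cr; ring
      rw [this, hx1, hx2]; ring
  rw [key q h1 h2, key q' h3 h4]

/-- A point of `K` beyond the line: the open cap has positive volume and contains interior points. -/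
theorem cap_pos {K : Set ℂ} (hK : IsBody K) {μ q : ℂ} (hq : q ∈ K) (h : 1 < dt μ q) :
    (∃ y ∈ interior K, 1 < dt μ y) ∧ 0 < volume (K ∩ {x | 1 < dt μ x}) := by
  have hcl : closure (interior K) = closure K := hK.convex.closure_interior_eq_closure_of_nonempty_interior hK.nonempty
  have hq' : q ∈ closure (interior K) := by rw [hcl]; exact subset_closure hq
  obtain ⟨y, hy1, hy2⟩ := mem_closure_iff.1 hq' _ (isOpen_lt μ) h
  refine ⟨⟨y, hy2, hy1⟩, ?_⟩
  have ho : IsOpen (interior K ∩ {x | 1 < dt μ x}) := isOpen_interior.inter (isOpen_lt μ)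
  exact (ho.measure_pos volume ⟨y, hy2, hy1⟩).trans_le
    (measure_mono (inter_subset_inter_left _ interior_subset))

theorem ge_le {K : Set ℂ} (μ : ℂ) :
    volume (K ∩ {x | 1 ≤ dt μ x}) ≤ volume (K ∩ {x | 1 < dt μ x}) := by
  have h : K ∩ {x | 1 ≤ dt μ x} ⊆ (K ∩ {x | 1 < dt μ x}) ∪ {x | dt μ x = 1} := by
    rintro x ⟨h1, h2⟩
    have h2' : 1 ≤ dt μ x := h2
    rcases h2'.lt_or_eq with h | h
    · exact Or.inl ⟨h1, h⟩
    · exact Or.inr h.symm
  calc volume (K ∩ {x | 1 ≤ dt μ x}) ≤ volume ((K ∩ {x | 1 < dt μ x}) ∪ {x | dt μ x = 1}) :=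
        measure_mono h
    _ ≤ volume (K ∩ {x | 1 < dt μ x}) + volume {x : ℂ | dt μ x = 1} := measure_union_le _ _
    _ = _ := by rw [volume_one, add_zero]

theorem small_div {n : ℕ} (hn : 10000 ≤ n) {c : ℝ} (hc : c ≤ 1000) :
    c / (n : ℝ) ^ 3 < 1 / 144 := by
  have h3 : (10000 : ℝ) ≤ n := by exact_mod_cast hn
  have h4 : (10000 : ℝ) ^ 3 ≤ (n : ℝ) ^ 3 := pow_le_pow_left₀ (by norm_num) h3 3
  rw [div_lt_div_iff₀ (by positivity) (by norm_num)]
  nlinarith

theorem ofReal_mul_lt {V : ENNReal} (hV : 0 < V) (hV' : V < ⊤) {a b : ℝ} (hb : 0 < b)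
    (hab : a < b) : ENNReal.ofReal a * V < ENNReal.ofReal b * V :=
  ENNReal.mul_lt_mul_left hV.ne' hV'.ne ((ENNReal.ofReal_lt_ofReal_iff hb).2 hab)

theorem upper_zero {r : ℕ∞} (hr : 2 ≤ r) {K : Set ℂ} {n : ℕ} (hn : 10000 ≤ n)
    (hKc : InClass r n K) (hc0 : centre K = 0) :
    ∃ K' ⊆ K, (∃ m < n, InClass r m K') ∧
      volume (K \ K') ≤ ENNReal.ofReal (255 / (n : ℝ) ^ 3) * volume K := by
  have hK := hKc.body
  have hc : ∫ x in K, x = 0 := (centre_zero hK).1 hc0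
  have h0 := centroid_interior hK hc
  have hs : PwSmooth r K 0 := by have := hKc.smooth; rwa [hc0] at this
  have hnd : ∀ θ, IsEq K 0 θ → IsNondeg r K 0 θ := by have := hKc.nondeg; rwa [hc0] at this
  have hcount : (stablePts r K 0).encard = n := by have := hKc.count; rwa [hc0] at this
  have hfin := eq_finite hK h0 hr hs hnd
  have hV0 := hK.volume_pos
  have hV1 := hK.volume_lt_top
  have hA : 0 < (volume K).toReal := ENNReal.toReal_pos hV0.ne' hV1.ne
  have hn0 : (10000 : ℝ) ≤ n := by exact_mod_cast hn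
  have hn3 : (10000 : ℝ) ^ 3 ≤ (n : ℝ) ^ 3 := pow_le_pow_left₀ (by norm_num) hn0 3
  have hn3p : (0 : ℝ) < (n : ℝ) ^ 3 := by positivity
  obtain ⟨μ₀, s, s', s'', hsS, hsS', hsS'', hne1, hne2, hne3, hd1, hd2, hd3, hvol0, hcross0⟩ :=
    exists_window hr hK h0 hn hcount
  obtain ⟨μ, hμG, hμ1, hμV, hμX⟩ := shrink hK h0 hfin hvol0 hcross0
  have hstK : ∀ q ∈ stablePts r K 0, q ∈ K := by
    rintro q ⟨θ, rfl, -⟩
    exact bd_mem hK h0 θ
  obtain ⟨⟨y, hyK, hy1⟩, hpos⟩ := cap_pos hK (hstK s hsS) (hμ1 s hd1)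
  -- smallness
  have hCle : volume (K ∩ {x | 1 < dt μ x}) ≤ volume (K ∩ {x | 1 ≤ dt μ x}) :=
    measure_mono (inter_subset_inter_right _ fun x (hx : 1 < dt μ x) => hx.le)
  have hCr : (volume (K ∩ {x | 1 < dt μ x})).toReal ≤ 84.7 / (n : ℝ) ^ 3 * (volume K).toReal := by
    have h1 := ENNReal.toReal_mono (ENNReal.mul_ne_top ENNReal.ofReal_ne_top hV1.ne)
      (hCle.trans hμV.le)
    rwa [ENNReal.toReal_mul, ENNReal.toReal_ofReal (by positivity)] at h1
  set σ : ℝ := Real.sqrt (254.5 / (n : ℝ) ^ 3) with hσ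
  have hσ2 : σ ^ 2 = 254.5 / (n : ℝ) ^ 3 := Real.sq_sqrt (by positivity)
  have hσ0 : 0 < σ := Real.sqrt_pos.2 (by positivity)
  have hσ1 : σ ≤ 0.001 := by
    rw [hσ, Real.sqrt_le_left (by norm_num), div_le_iff₀ hn3p]
    nlinarith
  have hsmall : 3 * (volume (K ∩ {x | 1 < dt μ x})).toReal ≤
      σ ^ 2 * (1 - σ) * (volume K).toReal := by
    rw [hσ2]
    have h1 : 3 * (84.7 / (n : ℝ) ^ 3 * (volume K).toReal) ≤
        254.5 / (n : ℝ) ^ 3 * (1 - σ) * (volume K).toReal := by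
      have h2 : 3 * (84.7 / (n : ℝ) ^ 3) ≤ 254.5 / (n : ℝ) ^ 3 * (1 - σ) := by
        rw [← mul_div_assoc, div_mul_eq_mul_div]
        apply div_le_div_of_nonneg_right _ hn3p.le
        nlinarith
      nlinarith
    linarith
  obtain ⟨ν, hbal, hvol, hposν⟩ := balance hK hc hσ0 (by linarith) hpos hsmall
  rw [hσ2] at hvol
  -- the caps are small
  have h144 : ∀ V : ENNReal, V ≤ ENNReal.ofReal (254.5 / (n : ℝ) ^ 3) * volume K →
      V < volume K / 144 := by
    intro V hV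
    refine hV.trans_lt ?_
    have h1 := ofReal_mul_lt hV0 hV1 (by norm_num : (0 : ℝ) < 1 / 144)
      (small_div hn (c := 254.5) (by norm_num))
    refine h1.trans_le ?_
    rw [ENNReal.ofReal_div_of_pos (by norm_num)]
    simp only [ENNReal.ofReal_one, ENNReal.ofReal_ofNat]
    rw [one_div, mul_comm, ENNReal.div_eq_inv_mul, mul_comm]
  have hm1 : volume (K ∩ {x | 1 ≤ dt μ x}) < volume K / 144 := by
    apply h144
    refine hμV.le.trans ?_
    apply mul_le_mul_left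
    apply ENNReal.ofReal_le_ofReal
    apply div_le_div_of_nonneg_right (by norm_num) hn3p.le
  have hm2 : volume (K ∩ {x | 1 ≤ dt ν x}) < volume K / 144 := by
    apply h144
    refine (ge_le ν).trans (le_trans (measure_mono ?_) hvol)
    rintro x ⟨h1, h2⟩
    refine ⟨h1, fun h => ?_⟩
    have h3 : dt ν x ≤ 1 := h.2
    have h4 : 1 < dt ν x := h2
    linarith
  have hd := disjoint_caps hK hc hbal hpos hm1 hm2 hμX (by linarith)
  -- perturbation
  have hx : ∃ x ∈ interior K, dt μ x = 1 ∧ dt ν x < 1 := by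
    have h1 : 0 < dt μ y := by linarith
    refine ⟨(((dt μ y)⁻¹ : ℝ) : ℂ) * y, smul_mem_interior hK h0 (interior_subset hyK)
      (by positivity) (inv_lt_one_of_one_lt₀ hy1), ?_, ?_⟩
    · rw [dt_mul]; exact inv_mul_cancel₀ h1.ne'
    · by_contra hcon
      push Not at hcon
      have hmem : (((dt μ y)⁻¹ : ℝ) : ℂ) * y ∈ K := interior_subset
        (smul_mem_interior hK h0 (interior_subset hyK) (by positivity)
          (inv_lt_one_of_one_lt₀ hy1))
      refine hd _ hmem ⟨?_, hcon⟩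
      rw [dt_mul, inv_mul_cancel₀ h1.ne']
  have hS : ({s, s', s''} : Set ℂ).Finite := by simp
  obtain ⟨ε1, hε1, hG1⟩ := good_open hK h0 hfin hμG
  obtain ⟨ε2, hε2, hG2⟩ := disj_open hK.compact hd
  obtain ⟨ε3, hε3, hG3⟩ := vol_open (V := ENNReal.ofReal (255 / (n : ℝ) ^ 3) * volume K)
    hK.compact (hvol.trans_lt (ofReal_mul_lt hV0 hV1 (by positivity) (by
      apply div_lt_div_of_pos_right (by norm_num) hn3p)))
  obtain ⟨ε4, hε4, hG4⟩ := pts_open hS (μ := μ) (by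
    intro q hq
    rcases hq with rfl | rfl | rfl
    · exact hμ1 _ hd1
    · exact hμ1 _ hd2
    · exact hμ1 _ hd3)
  obtain ⟨ε, hε, hεle1, hεle2, hεle3, hεle4⟩ : ∃ ε > 0, ε ≤ ε1 ∧ ε ≤ ε2 ∧ ε ≤ ε3 ∧ ε ≤ ε4 :=
    ⟨min (min ε1 ε2) (min ε3 ε4), by positivity,
      (min_le_left _ _).trans (min_le_left _ _), (min_le_left _ _).trans (min_le_right _ _),
      (min_le_right _ _).trans (min_le_left _ _), (min_le_right _ _).trans (min_le_right _ _)⟩
  obtain ⟨δ, hδ, hpert⟩ := perturb hK hbal hx hε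
  obtain ⟨ν', hν'G, hν'd⟩ : ∃ ν' : ℂ, Good K ν' ∧ ‖ν' - ν‖ < min δ ε := by
    have hfin2 := good_ray hK h0 hfin ν
    have hη : 0 < min δ ε / (‖ν‖ + 1) := by positivity
    have hinf : (Ioo (1 : ℝ) (1 + min δ ε / (‖ν‖ + 1))).Infinite := Ioo_infinite (by linarith)
    obtain ⟨τ, hτ1, hτ2⟩ := (hinf.sdiff hfin2).nonempty
    refine ⟨(τ : ℂ) * ν, by simpa using hτ2, ?_⟩
    have h1 : (τ : ℂ) * ν - ν = ((τ - 1 : ℝ) : ℂ) * ν := by push_cast; ring
    rw [h1, norm_mul, Complex.norm_real, Real.norm_of_nonneg (by linarith [hτ1.1])]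
    have h2 : τ - 1 < min δ ε / (‖ν‖ + 1) := by linarith [hτ1.2]
    have h3 : 0 ≤ τ - 1 := by linarith [hτ1.1]
    calc (τ - 1) * ‖ν‖ ≤ (τ - 1) * (‖ν‖ + 1) := by
          apply mul_le_mul_of_nonneg_left _ h3; linarith
      _ < min δ ε / (‖ν‖ + 1) * (‖ν‖ + 1) := by
          apply mul_lt_mul_of_pos_right h2; positivity
      _ = min δ ε := by field_simp
  obtain ⟨μ', hμ'd, hbal'⟩ := hpert ν' (hν'd.trans_le (min_le_left _ _))
  have hν'ε : ‖ν' - ν‖ < ε := hν'd.trans_le (min_le_right _ _)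
  have hμ'G := hG1 μ' (hμ'd.trans_le hεle1)
  have hd' := hG2 μ' ν' (hμ'd.trans_le hεle2) (hν'ε.trans_le hεle2)
  have hvol' := hG3 μ' ν' (hμ'd.trans_le hεle3) (hν'ε.trans_le hεle3)
  have hpts' := hG4 μ' (hμ'd.trans_le hεle4)
  obtain ⟨hB, h0B, hsB, hnB, hstB⟩ := two_cuts hr hK h0 hs hnd hμ'G hν'G hd'
  have hcB : centre (K ∩ H μ' ∩ H ν') = 0 := (centre_zero hB).2 hbal'
  -- count
  have hcnt : (stablePts r (K ∩ H μ' ∩ H ν') 0).encard ≤ (n - 1 : ℕ) := by
    refine (encard_le_encard hstB).trans ?_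
    have h3 : ({s, s', s''} : Set ℂ).encard = 3 := by
      rw [encard_insert_of_notMem, encard_insert_of_notMem, encard_singleton]
      · norm_num
      · simpa using hne3
      · simp [hne1, hne2]
    have hsub : {q | q ∈ stablePts r K 0 ∧ dt μ' q < 1} ⊆ stablePts r K 0 \ {s, s', s''} := by
      rintro q ⟨hq1, hq2⟩
      refine ⟨hq1, fun hq => ?_⟩
      have := hpts' q hq
      linarith
    have hsub3 : ({s, s', s''} : Set ℂ) ⊆ stablePts r K 0 := by
      intro q hq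
      rcases hq with rfl | rfl | rfl <;> assumption
    have hdiff : (stablePts r K 0 \ {s, s', s''}).encard + 3 = n := by
      rw [← hcount, ← h3]; exact encard_sdiff_add_encard_of_subset hsub3
    have hA1 : ({q | q ∈ stablePts r K 0 ∧ dt μ' q < 1}).encard + 3 ≤ n := by
      rw [← hdiff]; exact add_le_add_left (encard_le_encard hsub) 3
    have hle : (({q | q ∈ stablePts r K 0 ∧ dt μ' q < 1} ∪ {q | dt μ' q = 1 ∧ cr μ' q = 0} ∪
        {q | dt ν' q = 1 ∧ cr ν' q = 0} : Set ℂ)).encard ≤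
        ({q | q ∈ stablePts r K 0 ∧ dt μ' q < 1}).encard + 1 + 1 :=
      (encard_union_le _ _).trans (add_le_add ((encard_union_le _ _).trans
        (add_le_add le_rfl (foot_encard μ'))) (foot_encard ν'))
    refine hle.trans ?_
    obtain ⟨a, ha⟩ : ∃ a : ℕ, ({q | q ∈ stablePts r K 0 ∧ dt μ' q < 1}).encard = a := by
      apply ENat.ne_top_iff_exists.1 _ |>.imp fun a h => h.symm
      intro htop
      rw [htop] at hA1
      exact absurd hA1 (by simp)
    rw [ha] at hA1 ⊢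
    have hA2 : a + 3 ≤ n := by exact_mod_cast hA1
    have hA3 : a + 1 + 1 ≤ n - 1 := by omega
    exact_mod_cast hA3
  obtain ⟨m, hm⟩ : ∃ m : ℕ, (stablePts r (K ∩ H μ' ∩ H ν') 0).encard = m := by
    apply ENat.ne_top_iff_exists.1 _ |>.imp fun a h => h.symm
    intro htop
    rw [htop] at hcnt
    exact absurd hcnt (by simp)
  have hmn : m < n := by
    rw [hm] at hcnt
    have : m ≤ n - 1 := by exact_mod_cast hcnt
    omega
  refine ⟨K ∩ H μ' ∩ H ν', fun x hx => hx.1.1, ⟨m, hmn, hB, by rwa [hcB], by rwa [hcB],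
    by rwa [hcB]⟩, ?_⟩
  have hset : K \ (K ∩ H μ' ∩ H ν') = K \ (H μ' ∩ H ν') := by
    ext x
    constructor
    · rintro ⟨h1, h2⟩
      exact ⟨h1, fun h3 => h2 ⟨⟨h1, h3.1⟩, h3.2⟩⟩
    · rintro ⟨h1, h2⟩
      exact ⟨h1, fun h3 => h2 ⟨h3.1.2, h3.2⟩⟩
  rw [hset]
  exact hvol'.le

theorem upper {r : ℕ∞} (hr : 2 ≤ r) {K : Set ℂ} {n : ℕ} (hn : 10000 ≤ n)
    (hKc : InClass r n K) :
    ∃ K' ⊆ K, (∃ m < n, InClass r m K') ∧
      volume (K \ K') ≤ ENNReal.ofReal (255 / (n : ℝ) ^ 3) * volume K := by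
  have h1 : InClass r n (tr (-centre K) K) := tr_class _ hKc
  have h2 : centre (tr (-centre K) K) = 0 := by
    rw [tr_centre _ hKc.body]; ring
  obtain ⟨K', hsub, ⟨m, hm, hK'⟩, hvol⟩ := upper_zero hr hn h1 h2
  have hback : tr (centre K) (tr (-centre K) K) = K := by
    rw [tr_tr, neg_add_cancel, tr_zero]
  refine ⟨tr (centre K) K', ?_, ⟨m, hm, tr_class _ hK'⟩, ?_⟩
  · have := tr_mono (centre K) hsub
    rwa [hback] at this
  · have e1 : K \ tr (centre K) K' = tr (centre K) (tr (-centre K) K \ K') := by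
      rw [tr_diff, hback]
    rw [e1, tr_volume]
    rwa [tr_volume] at hvol

end Pool.Agent.Lib.MP_707299_gt
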